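import Pool.Agent.Lib.SmJ.L.Stmt

/-!
Selmer groups of Jacobians of curves `y ^ 2 = f(x)`, `f` of odd degree: definitions used in the final
statements.

`F` is a field, `f : F[X]` of odd degree. The curve `y ^ 2 = f(x)` has one point at infinity, which
is rational, so the group of `F`-points of its Jacobian is (for `F` separably closed and `f`
separable) the class group `Jc f` of the ring `Co f = F[x, y] / (y ^ 2 - f)`. For `f : K[X]` and a
separable closure `Ω` of `K` the group `JP Ω f` is `Jc` of the image of `f`, with the coefficientwise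
action `galP Ω f` of `Gal(Ω/K)`.
-/

set_option autoImplicit false

open Polynomial

namespace Pool.Agent.SmJ.R

open Pool.Agent.SmJ.L (Sel Sha HasCorank Rat Sha2 co_isDomain)

/-- `f` has odd degree. -/
class OddDeg {F : Type} [Field F] (f : F[X]) : Prop where
  odd : Odd f.natDegree

section jc

variable {F : Type} [Field F] (f : F[X]) [OddDeg f]

instance : IsDomain (Co f) := co_isDomain OddDeg.odd

/-- The class group of `F[x, y] / (y ^ 2 - f)`. -/
def Jc : Type := Additive (ClassGroup (Co f))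

noncomputable instance : AddCommGroup (Jc f) :=
  inferInstanceAs (AddCommGroup (Additive (ClassGroup (Co f))))

variable {f} in
/-- The map induced by an automorphism of `F` which fixes `f`. -/
noncomputable def jcMap (s : F ≃+* F) (h : f.map (s : F →+* F) = f) : Jc f →+ Jc f :=
  MonoidHom.toAdditive (ClassGroup.mulEquiv (coMap s h)).toMonoidHom

end jc

section twoPow

/-- The elements of `2`-power order. -/
def TwoPow (A : Type) [AddCommGroup A] : Set A := {x | ∃ i : ℕ, 2 ^ i • x = 0}

variable (k : Type) {K Ω : Type} [Field k] [Field K] [Field Ω] [Algebra k K] [Algebra K Ω]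
variable {M : Type} [AddCommGroup M] (ρ : (Ω ≃ₐ[K] Ω) → M →+ M)

/-- The conclusions: the `2 ^ i`-Selmer groups are finite, that of level `j` has less than `4 ^ j`
elements, the `2`-power Selmer group has corank `r ≤ 1`, and the `2`-power torsion of the
Tate-Shafarevich group is finite if `r = 0`, and also if `J(K)` modulo torsion is not `2`-divisible
(which is the case if `J(K)` is finitely generated and infinite). -/
structure GoodOn (j : ℕ) : Prop where
  fin : ∀ i, Finite (Sel k ρ (2 ^ i))
  lt : Nat.card (Sel k ρ (2 ^ j)) < 4 ^ j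
  corank : ∃ r, r ≤ 1 ∧ HasCorank k ρ r ∧ (r = 0 → Finite (TwoPow (Sha k ρ))) ∧
    ((∃ P ∈ Rat ρ, ∀ Q ∈ Rat ρ, ∀ n : ℕ, n ≠ 0 → n • (P - 2 • Q) ≠ 0) →
      Finite (TwoPow (Sha k ρ)))

/-- Corank `0` and a finite `2`-power torsion of the Tate-Shafarevich group. -/
structure ZeroOn : Prop where
  corank : HasCorank k ρ 0
  fin : Finite (TwoPow (Sha k ρ))

theorem goodOn_iff (j : ℕ) : GoodOn k ρ j ↔ L.GoodOn k ρ j :=
  ⟨fun h => ⟨h.fin, h.lt, h.corank⟩, fun h => ⟨h.fin, h.lt, h.corank⟩⟩

theorem zeroOn_iff : ZeroOn k ρ ↔ HasCorank k ρ 0 ∧ Finite (Sha2 k ρ) :=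
  ⟨fun h => ⟨h.corank, h.fin⟩, fun h => ⟨h.1, h.2⟩⟩

end twoPow

section jp

variable {K : Type} (Ω : Type) [Field K] [Field Ω] [Algebra K Ω] (f : K[X]) [OddDeg f]

instance : OddDeg (f.map (algebraMap K Ω)) := ⟨by
  rw [natDegree_map]
  exact OddDeg.odd⟩

/-- The geometric points of the Jacobian of `y ^ 2 = f(x)`. -/
abbrev JP : Type := Jc (f.map (algebraMap K Ω))

omit [OddDeg f] in
theorem map_gal (s : Ω ≃ₐ[K] Ω) :
    (f.map (algebraMap K Ω)).map (s.toRingEquiv : Ω →+* Ω) = f.map (algebraMap K Ω) := by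
  rw [Polynomial.map_map]
  congr 1
  ext x
  exact s.commutes x

/-- The action of the Galois group. -/
noncomputable def galP (s : Ω ≃ₐ[K] Ω) : JP Ω f →+ JP Ω f := jcMap s.toRingEquiv (map_gal Ω f s)

end jp

section curve

variable (k : Type) {K : Type} [Field k] [Field K] [Algebra k K] (f : K[X]) [OddDeg f]

/-- The conclusions for the Jacobian of `y ^ 2 = f(x)`. -/
def GoodP (j : ℕ) : Prop := GoodOn k (galP (SeparableClosure K) f) j

/-- The Jacobian of `y ^ 2 = f(x)` has corank `0` and the `2`-power torsion of its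
Tate-Shafarevich group is finite. -/
def ZeroP : Prop := ZeroOn k (galP (SeparableClosure K) f)

/-- The Jacobian of `y ^ 2 = f(x)` has corank `1`. -/
def OneP : Prop := HasCorank k (galP (SeparableClosure K) f) 1

end curve

section split

variable {K : Type} {Ω : Type} [Field K] [Field Ω] [Algebra K Ω] {g : ℕ}

/-- Transport: the action on the class group of the curve with the roots `c i`. -/
theorem trans_split (Φ : (M : Type) → [AddCommGroup M] → ((Ω ≃ₐ[K] Ω) → M →+ M) → Prop)
    (f : K[X]) [OddDeg f] (c : Fin (2 * g + 1) → K)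
    (h : f.map (algebraMap K Ω) = ff (L.rts Ω c)) :
    Φ (JP Ω f) (galP Ω f) ↔ Φ (L.Jac Ω c) (L.gal Ω c) := by
  have key : ∀ (F : Polynomial Ω) (hF : OddDeg F) (hs : ∀ s : Ω ≃ₐ[K] Ω,
      F.map (s.toRingEquiv : Ω →+* Ω) = F), F = ff (L.rts Ω c) →
      (Φ (Jc F) (fun s => jcMap s.toRingEquiv (hs s)) ↔ Φ (L.Jac Ω c) (L.gal Ω c)) := by
    rintro F hF hs rfl
    exact Iff.rfl
  exact key _ _ (map_gal Ω f) h

end split

section twist

variable {k : Type} [Field k] {g : ℕ}

/-- The polynomial `∏ (x - D a i)`. -/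
noncomputable def fT (a : Fin (2 * g + 1) → k[X]) (D : k[X]) : (RatFunc k)[X] :=
  ∏ i, (X - C (algebraMap k[X] (RatFunc k) (D * a i)))

instance (a : Fin (2 * g + 1) → k[X]) (D : k[X]) : OddDeg (fT a D) := ⟨g, natDegree_ff _⟩

/-- The conclusions for the Jacobian of the quadratic twist `y ^ 2 = ∏ (x - D a i)` by `D` of the
curve `y ^ 2 = ∏ (x - a i)` over `k(t)`. -/
def Good (a : Fin (2 * g + 1) → k[X]) (j : ℕ) (D : k[X]) : Prop := GoodP k (fT a D) j

/-- The Jacobian of the quadratic twist by `D` has corank `0` and the `2`-power torsion of its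
Tate-Shafarevich group is finite. -/
def Corank0 (a : Fin (2 * g + 1) → k[X]) (D : k[X]) : Prop := ZeroP k (fT a D)

/-- The Jacobian of the quadratic twist by `D` has corank `1`. -/
def Corank1 (a : Fin (2 * g + 1) → k[X]) (D : k[X]) : Prop := OneP k (fT a D)

private theorem map_fT (a : Fin (2 * g + 1) → k[X]) (D : k[X]) (Ω : Type) [Field Ω]
    [Algebra (RatFunc k) Ω] :
    (fT a D).map (algebraMap (RatFunc k) Ω) =
      ff (L.rts Ω fun i => algebraMap k[X] (RatFunc k) (D * a i)) := by
  unfold fT ff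
  rw [Polynomial.map_prod]
  refine Finset.prod_congr rfl fun i _ => ?_
  rw [Polynomial.map_sub, map_X, map_C]

theorem good_iff (a : Fin (2 * g + 1) → k[X]) (j : ℕ) (D : k[X]) : Good a j D ↔ L.Good a j D :=
  (trans_split (Ω := SeparableClosure (RatFunc k)) (fun _ _ ρ => GoodOn k ρ j) (fT a D) _
    (map_fT a D _)).trans (goodOn_iff k _ j)

theorem corank0_iff (a : Fin (2 * g + 1) → k[X]) (D : k[X]) : Corank0 a D ↔
    HasCorank k (L.gal (SeparableClosure (RatFunc k)) fun i =>
      algebraMap k[X] (RatFunc k) (D * a i)) 0 ∧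
    Finite (Sha2 k (L.gal (SeparableClosure (RatFunc k)) fun i =>
      algebraMap k[X] (RatFunc k) (D * a i))) :=
  (trans_split (Ω := SeparableClosure (RatFunc k)) (fun _ _ ρ => ZeroOn k ρ) (fT a D) _
    (map_fT a D _)).trans (zeroOn_iff k _)

theorem corank1_iff (a : Fin (2 * g + 1) → k[X]) (D : k[X]) : Corank1 a D ↔
    HasCorank k (L.gal (SeparableClosure (RatFunc k)) fun i =>
      algebraMap k[X] (RatFunc k) (D * a i)) 1 :=
  trans_split (Ω := SeparableClosure (RatFunc k)) (fun _ _ ρ => HasCorank k ρ 1) (fT a D) _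
    (map_fT a D _)

end twist

end Pool.Agent.SmJ.R
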