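import Mathlib

/-!
SMITH for Jacobians (MP_950c68_ag): an algebra of endomorphisms which contains the rank one maps
`w ↦ e (δ i) w • δ i` for a family `δ` which spans `V` and is connected for the relation
`e (δ i) (δ j) ≠ 0` is the algebra of all endomorphisms.
-/

set_option autoImplicit false

namespace Pool.Agent.SmJ.R1

variable {V : Type} [AddCommGroup V] [Module (ZMod 2) V]

/-- the rank one map `w ↦ e x w • y` -/
def rk (e : V →ₗ[ZMod 2] V →ₗ[ZMod 2] ZMod 2) (x y : V) : Module.End (ZMod 2) V :=
  (e x).smulRight y

theorem rk_apply (e : V →ₗ[ZMod 2] V →ₗ[ZMod 2] ZMod 2) (x y w : V) :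
    rk e x y w = e x w • y := rfl

theorem rk_mul (e : V →ₗ[ZMod 2] V →ₗ[ZMod 2] ZMod 2) (x y x' y' : V) :
    rk e x y * rk e x' y' = e x y' • rk e x' y := by
  apply LinearMap.ext
  intro w
  simp only [Module.End.mul_apply, rk_apply, LinearMap.smul_apply, map_smul, ← mul_smul]
  rw [mul_comm]

/-- the rank one maps generate everything -/
theorem adjoin_rank_one [Finite V] (e : V →ₗ[ZMod 2] V →ₗ[ZMod 2] ZMod 2)
    (he : ∀ x y, e x y = e y x) (hn : ∀ x, (∀ y, e y x = 0) → x = 0)
    (A : Subalgebra (ZMod 2) (Module.End (ZMod 2) V)) {I : Type} (δ : I → V)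
    (hA : ∀ i, rk e (δ i) (δ i) ∈ A)
    (hc : ∀ i j, Relation.ReflTransGen (fun i j => δ i = δ j ∨ e (δ i) (δ j) ≠ 0) i j)
    (hs : Submodule.span (ZMod 2) (Set.range δ) = ⊤) : A = ⊤ := by
  classical
  have h1 : ∀ a : ZMod 2, a ≠ 0 → a = 1 := by decide
  -- the mixed maps
  have hmix : ∀ i j, rk e (δ i) (δ j) ∈ A := by
    intro i j
    induction hc i j with
    | refl => exact hA i
    | @tail b c _ hbc ih =>
      rcases hbc with hbc | hbc
      · rw [← hbc]
        exact ih
      · have h2 := A.mul_mem (hA c) ih
        rw [rk_mul, he, h1 _ hbc, one_smul] at h2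
        exact h2
  have hmix' : ∀ x y, rk e x y ∈ A := by
    intro x y
    have hx : x ∈ Submodule.span (ZMod 2) (Set.range δ) := by rw [hs]; trivial
    have hy : y ∈ Submodule.span (ZMod 2) (Set.range δ) := by rw [hs]; trivial
    induction hx using Submodule.span_induction with
    | mem x hx =>
      obtain ⟨i, rfl⟩ := hx
      induction hy using Submodule.span_induction with
      | mem y hy =>
        obtain ⟨j, rfl⟩ := hy
        exact hmix i j
      | zero =>
        have : rk e (δ i) 0 = 0 := by
          apply LinearMap.ext
          intro w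
          rw [rk_apply, smul_zero]
          rfl
        rw [this]
        exact A.zero_mem
      | add a b _ _ ha hb =>
        have : rk e (δ i) (a + b) = rk e (δ i) a + rk e (δ i) b := by
          apply LinearMap.ext
          intro w
          rw [rk_apply, smul_add]
          rfl
        rw [this]
        exact A.add_mem ha hb
      | smul c a _ ha =>
        have : rk e (δ i) (c • a) = c • rk e (δ i) a := by
          apply LinearMap.ext
          intro w
          rw [rk_apply, smul_comm]
          rfl
        rw [this]
        exact A.smul_mem ha c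
    | zero =>
      have : rk e 0 y = 0 := by
        apply LinearMap.ext
        intro w
        rw [rk_apply, map_zero, LinearMap.zero_apply, zero_smul]
        rfl
      rw [this]
      exact A.zero_mem
    | add a b _ _ ha hb =>
      have : rk e (a + b) y = rk e a y + rk e b y := by
        apply LinearMap.ext
        intro w
        rw [rk_apply, map_add, LinearMap.add_apply, add_smul]
        rfl
      rw [this]
      exact A.add_mem ha hb
    | smul c a _ ha =>
      have : rk e (c • a) y = c • rk e a y := by
        apply LinearMap.ext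
        intro w
        rw [rk_apply, map_smul, LinearMap.smul_apply, smul_eq_mul, mul_smul]
        rfl
      rw [this]
      exact A.smul_mem ha c
  -- functionals are represented
  have hrep : ∀ φ : V →ₗ[ZMod 2] ZMod 2, ∃ m, e m = φ := by
    intro φ
    have hinj : Function.Injective e := by
      rw [injective_iff_map_eq_zero]
      intro x hx
      apply hn
      intro y
      rw [he, hx]
      rfl
    have h2 : Module.finrank (ZMod 2) V = Module.finrank (ZMod 2) (V →ₗ[ZMod 2] ZMod 2) :=
      (Subspace.dual_finrank_eq (K := ZMod 2) (V := V)).symm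
    exact (LinearMap.injective_iff_surjective_of_finrank_eq_finrank h2).1 hinj φ
  rw [eq_top_iff]
  intro φ _
  -- a basis
  let b := Module.finBasis (ZMod 2) V
  have h3 : φ = ∑ i, (b.coord i).smulRight (φ (b i)) := by
    apply LinearMap.ext
    intro w
    conv_lhs => rw [← b.sum_repr w]
    rw [map_sum, LinearMap.sum_apply]
    refine Finset.sum_congr rfl fun i _ => ?_
    rw [map_smul]
    rfl
  rw [h3]
  refine A.sum_mem fun i _ => ?_
  obtain ⟨m, hm⟩ := hrep (b.coord i)
  rw [← hm]
  exact hmix' m _

end Pool.Agent.SmJ.R1
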