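import Pool.Agent.Lib.SmJ.L.LapDefs
import Pool.Agent.Lib.SmJ.L.RankOne

/-!
SMITH for Jacobians over `F_q(t)` (MP_950c68_ag): the form on the even vectors, the maps `lap a P` are
self-adjoint, and they generate all endomorphisms if the graph `brGraph a` is connected.
-/

set_option autoImplicit false

open Polynomial

namespace Pool.Agent.SmJ.L

variable {k : Type} [Field k] {g : ℕ}

/-! ### the form on the even vectors -/

section form

variable (g)

/-- The form `∑ x i y i` on the even vectors. -/
def dotE : EV g →ₗ[ZMod 2] EV g →ₗ[ZMod 2] ZMod 2 :=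
  LinearMap.mk₂ (ZMod 2) (fun x y => ∑ i, x.1 i * y.1 i)
    (by
      intro x y z
      rw [← Finset.sum_add_distrib]
      exact Finset.sum_congr rfl fun i _ => add_mul _ _ _)
    (by
      intro c x y
      rw [smul_eq_mul, Finset.mul_sum]
      exact Finset.sum_congr rfl fun i _ => mul_assoc _ _ _)
    (by
      intro x y z
      rw [← Finset.sum_add_distrib]
      exact Finset.sum_congr rfl fun i _ => mul_add _ _ _)
    (by
      intro c x y
      rw [smul_eq_mul, Finset.mul_sum]
      exact Finset.sum_congr rfl fun i _ => mul_left_comm _ _ _)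

variable {g}

theorem dotE_apply (x y : EV g) :
    dotE g x y = ∑ i, x.1 i * y.1 i := rfl

theorem dotE_comm (x y : EV g) : dotE g x y = dotE g y x := by
  rw [dotE_apply, dotE_apply]
  exact Finset.sum_congr rfl fun i _ => mul_comm _ _

theorem dotE_alt (x : EV g) : dotE g x x = 0 := by
  have h1 : ∀ a : ZMod 2, a * a = a := by decide
  rw [dotE_apply]
  simp only [h1]
  exact x.2

/-- `δ i + δ j` -/
def dd (i j : Fin (2 * g + 1)) : EV g :=
  ⟨Pi.single i 1 + Pi.single j 1, by
    change ∑ r, ((Pi.single i 1 : Fin (2 * g + 1) → ZMod 2) r +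
      (Pi.single j 1 : Fin (2 * g + 1) → ZMod 2) r) = 0
    rw [Finset.sum_add_distrib, Finset.sum_pi_single', Finset.sum_pi_single']
    simp only [Finset.mem_univ, if_true]
    decide⟩

theorem dd_apply (i j r : Fin (2 * g + 1)) : (dd i j).1 r =
    (if r = i then 1 else 0) + (if r = j then 1 else 0) := by
  change (Pi.single i 1 : Fin (2 * g + 1) → ZMod 2) r +
      (Pi.single j 1 : Fin (2 * g + 1) → ZMod 2) r = _
  rw [Pi.single_apply, Pi.single_apply]

theorem dotE_dd (i j : Fin (2 * g + 1)) (x : EV g) :
    dotE g (dd i j) x = x.1 i + x.1 j := by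
  rw [dotE_apply]
  simp only [dd_apply, add_mul, ite_mul, one_mul, zero_mul, Finset.sum_add_distrib,
    Finset.sum_ite_eq', Finset.mem_univ, if_true]

theorem dd_comm (i j : Fin (2 * g + 1)) : dd i j = dd j i := by
  apply Subtype.ext
  funext r
  rw [dd_apply, dd_apply, add_comm]

theorem dotE_nd (x : EV g) (h : ∀ y, dotE g y x = 0) : x = 0 := by
  have h1 : ∀ a b : ZMod 2, a + b = 0 → a = b := by decide
  have h2 : ∀ i j, x.1 i = x.1 j := by
    intro i j
    have h3 := h (dd i j)
    rw [dotE_dd] at h3
    exact h1 _ _ h3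
  have h3 : ∑ i, x.1 i = 0 := x.2
  rw [Finset.sum_congr rfl fun i _ => h2 i 0, Finset.sum_const, Finset.card_univ,
    Fintype.card_fin, nsmul_eq_mul] at h3
  have h4 : ((2 * g + 1 : ℕ) : ZMod 2) = 1 := by
    rw [ZMod.natCast_eq_one_iff_odd]
    exact ⟨g, rfl⟩
  rw [h4, one_mul] at h3
  apply Subtype.ext
  funext i
  rw [h2 i 0, h3]
  rfl

end form

/-! ### the maps `lap` -/

section lap

variable (a : Fin (2 * g + 1) → k[X])

theorem lap_apply (P : k[X]) (x : EV g) (i : Fin (2 * g + 1)) :
    (lap a P x).1 i = ∑ j, if i = j then 0 else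
      (multiplicity P (a i - a j) : ZMod 2) * (x.1 i + x.1 j) := rfl

theorem lap_symm (P : k[X]) (x y : EV g) :
    dotE g x (lap a P y) = dotE g (lap a P x) y := by
  set v : Fin (2 * g + 1) → Fin (2 * g + 1) → ZMod 2 := fun i j =>
    if i = j then 0 else (multiplicity P (a i - a j) : ZMod 2) with hv
  have hsym : ∀ i j, v i j = v j i := by
    intro i j
    simp only [hv]
    by_cases h : i = j
    · rw [if_pos h, if_pos h.symm]
    · rw [if_neg h, if_neg (Ne.symm h)]
      have : a i - a j = -(a j - a i) := by ring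
      rw [this, multiplicity_neg]
  have hl : ∀ (x : EV g) i, (lap a P x).1 i =
      ∑ j, v i j * (x.1 i + x.1 j) := by
    intro x i
    rw [lap_apply]
    refine Finset.sum_congr rfl fun j _ => ?_
    simp only [hv]
    split_ifs
    · rw [zero_mul]
    · rfl
  rw [dotE_apply, dotE_apply]
  simp only [hl, Finset.mul_sum, Finset.sum_mul]
  have h1 : ∀ (x y : EV g), ∑ i, ∑ j, x.1 i *
      (v i j * (y.1 i + y.1 j)) =
      ∑ i, ∑ j, v i j * (x.1 i * y.1 i) +
      ∑ i, ∑ j, v i j * (x.1 i * y.1 j) := by
    intro x y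
    rw [← Finset.sum_add_distrib]
    refine Finset.sum_congr rfl fun i _ => ?_
    rw [← Finset.sum_add_distrib]
    exact Finset.sum_congr rfl fun j _ => by ring
  have h2 : ∑ i, ∑ j, v i j * (x.1 i + x.1 j) *
      y.1 i =
      ∑ i, ∑ j, v i j * (x.1 i * y.1 i) +
      ∑ i, ∑ j, v i j * (x.1 j * y.1 i) := by
    rw [← Finset.sum_add_distrib]
    refine Finset.sum_congr rfl fun i _ => ?_
    rw [← Finset.sum_add_distrib]
    exact Finset.sum_congr rfl fun j _ => by ring
  rw [h1, h2]
  congr 1
  rw [Finset.sum_comm]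
  refine Finset.sum_congr rfl fun i _ => Finset.sum_congr rfl fun j _ => ?_
  rw [hsym]

theorem lap_eq_zero {P : k[X]} (h : ∀ i j, i ≠ j → ¬ P ∣ a i - a j) : lap a P = 0 := by
  apply LinearMap.ext
  intro x
  apply Subtype.ext
  funext i
  rw [lap_apply]
  apply Finset.sum_eq_zero
  intro j _
  split_ifs with hij
  · rfl
  · rw [multiplicity_eq_zero.2 (h i j hij), Nat.cast_zero, zero_mul]

theorem lap_congr {P Q : k[X]} (h : Associated P Q) : lap a P = lap a Q := by
  apply LinearMap.ext
  intro x
  apply Subtype.ext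
  funext i
  rw [lap_apply, lap_apply]
  refine Finset.sum_congr rfl fun j _ => ?_
  rw [multiplicity_eq_of_associated_left h]

/-- only the `P` which divide some difference matter -/
theorem gen_range (hg : Gen a) {h : ℕ} (ell : Fin h → k[X])
    (hell : ∀ P : k[X], P.Monic → Irreducible P → (∃ i j, i ≠ j ∧ P ∣ a i - a j) →
      ∃ μ, ell μ = P) :
    Algebra.adjoin (ZMod 2)
      (Set.range (fun μ => lap a (ell μ)) : Set (Module.End (ZMod 2) (EV g))) = ⊤ := by
  rw [eq_top_iff, ← show _ = _ from hg]
  apply Algebra.adjoin_le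
  rintro _ ⟨P, hP, rfl⟩
  by_cases h1 : ∃ i j, i ≠ j ∧ P ∣ a i - a j
  · obtain ⟨i, j, hij, hd⟩ := h1
    have hass : Associated P (P * C P.leadingCoeff⁻¹) := by
      refine (associated_mul_unit_right P _ ?_)
      rw [Polynomial.isUnit_C, isUnit_iff_ne_zero]
      exact inv_ne_zero (leadingCoeff_ne_zero.2 hP.ne_zero)
    obtain ⟨μ, hμ⟩ := hell (P * C P.leadingCoeff⁻¹) (monic_mul_leadingCoeff_inv hP.ne_zero)
      (hass.irreducible hP) ⟨i, j, hij, hass.symm.dvd.trans hd⟩
    rw [lap_congr a hass, ← hμ]
    exact Algebra.subset_adjoin ⟨μ, rfl⟩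
  · push Not at h1
    change lap a P ∈ _
    rw [lap_eq_zero a h1]
    exact Subalgebra.zero_mem _

/-- a prime which divides exactly one difference, to an odd power, gives a rank one map -/
theorem lap_edge {i j : Fin (2 * g + 1)} (hij : i ≠ j) {P : k[X]}
    (h1 : Odd (multiplicity P (a i - a j)))
    (h2 : ∀ r s, r ≠ s → ¬ ((r = i ∧ s = j) ∨ (r = j ∧ s = i)) → ¬ P ∣ a r - a s) :
    lap a P = R1.rk (dotE g) (dd i j) (dd i j) := by
  have hm1 : (multiplicity P (a i - a j) : ZMod 2) = 1 := (ZMod.natCast_eq_one_iff_odd).2 h1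
  have hm2 : (multiplicity P (a j - a i) : ZMod 2) = 1 := by
    have : a j - a i = -(a i - a j) := by ring
    rw [this, multiplicity_neg]
    exact hm1
  apply LinearMap.ext
  intro x
  apply Subtype.ext
  funext r
  have hR : (R1.rk (dotE g) (dd i j) (dd i j) x).1 r =
      (x.1 i + x.1 j) *
        ((if r = i then 1 else 0) + (if r = j then 1 else 0)) := by
    rw [R1.rk_apply, dotE_dd, ← dd_apply]
    rfl
  rw [hR, lap_apply]
  by_cases hri : r = i
  · subst hri
    rw [if_pos rfl, if_neg hij, add_zero, mul_one, Finset.sum_eq_single j]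
    · rw [if_neg hij, hm1, one_mul]
    · intro s _ hs
      split_ifs with hrs
      · rfl
      · rw [multiplicity_eq_zero.2 (h2 r s hrs (fun h => by
          rcases h with h | h
          · exact hs h.2
          · exact hij h.1)), Nat.cast_zero, zero_mul]
    · intro h
      exact absurd (Finset.mem_univ _) h
  · by_cases hrj : r = j
    · subst hrj
      rw [if_neg hri, if_pos rfl, zero_add, mul_one, Finset.sum_eq_single i]
      · rw [if_neg hri, hm2, one_mul, add_comm]
      · intro s _ hs
        split_ifs with hrs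
        · rfl
        · rw [multiplicity_eq_zero.2 (h2 r s hrs (fun h => by
            rcases h with h | h
            · exact hri h.1
            · exact hs h.2)), Nat.cast_zero, zero_mul]
      · intro h
        exact absurd (Finset.mem_univ _) h
    · rw [if_neg hri, if_neg hrj, add_zero, mul_zero]
      apply Finset.sum_eq_zero
      intro s _
      split_ifs with hrs
      · rfl
      · rw [multiplicity_eq_zero.2 (h2 r s hrs (fun h => by
          rcases h with h | h
          · exact hri h.1
          · exact hrj h.1)), Nat.cast_zero, zero_mul]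

end lap

/-- **Connected graph.** If the graph `brGraph a` is connected then the maps `lap a P` generate all
endomorphisms. -/
theorem gen_of_graph (a : Fin (2 * g + 1) → k[X]) (hG : (brGraph a).Connected) : Gen a := by
  classical
  have hreach : ∀ i j, Relation.ReflTransGen (brGraph a).Adj i j := fun i j =>
    (SimpleGraph.reachable_iff_reflTransGen i j).1 (hG.preconnected i j)
  let I : Type := {p : Fin (2 * g + 1) × Fin (2 * g + 1) // (brGraph a).Adj p.1 p.2}
  let δ : I → EV g := fun p => dd p.1.1 p.1.2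
  have hstep : ∀ (u v z : Fin (2 * g + 1)) (h1 : (brGraph a).Adj u v) (h2 : (brGraph a).Adj v z),
      δ ⟨(u, v), h1⟩ = δ ⟨(v, z), h2⟩ ∨ dotE g (δ ⟨(u, v), h1⟩) (δ ⟨(v, z), h2⟩) ≠ 0 := by
    intro u v z h1 h2
    by_cases huz : u = z
    · left
      subst huz
      exact dd_comm _ _
    · right
      have e1 : u ≠ v := h1.1
      have e2 : v ≠ z := h2.1
      change dotE g (dd u v) (dd v z) ≠ 0
      rw [dotE_dd, dd_apply, dd_apply, if_neg e1, if_neg huz, if_pos rfl, if_neg e2]
      decide
  have hedge : ∀ v w, Relation.ReflTransGen (brGraph a).Adj v w → ∀ (u z : Fin (2 * g + 1))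
      (h1 : (brGraph a).Adj u v) (h2 : (brGraph a).Adj w z),
      Relation.ReflTransGen (fun p q => δ p = δ q ∨ dotE g (δ p) (δ q) ≠ 0)
        (⟨(u, v), h1⟩ : I) ⟨(w, z), h2⟩ := by
    intro v w hvw
    induction hvw with
    | refl =>
      intro u z h1 h2
      exact Relation.ReflTransGen.single (hstep u v z h1 h2)
    | @tail b c _ hbc ih =>
      intro u z h1 h2
      exact (ih u c h1 hbc).tail (hstep b c z hbc h2)
  unfold Gen
  apply R1.adjoin_rank_one (dotE g) dotE_comm dotE_nd _ δ
  · rintro ⟨⟨i, j⟩, hij⟩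
    obtain ⟨hne, P, hP, h1, h2⟩ := hij
    apply Algebra.subset_adjoin
    exact ⟨P, hP, (lap_edge a hne h1 h2).symm⟩
  · rintro ⟨⟨i, j⟩, hij⟩ ⟨⟨r, s⟩, hrs⟩
    exact hedge j r (hreach j r) i s hij hrs
  · rw [eq_top_iff]
    have hdd : ∀ i, dd 0 i ∈ Submodule.span (ZMod 2) (Set.range δ) := by
      intro i
      induction hreach 0 i with
      | refl =>
        have : dd (0 : Fin (2 * g + 1)) 0 = 0 := by
          apply Subtype.ext
          funext r
          rw [dd_apply]
          exact CharTwo.add_self_eq_zero _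
        rw [this]
        exact Submodule.zero_mem _
      | @tail b c _ hbc ih =>
        have : dd 0 c = dd 0 b + dd b c := by
          apply Subtype.ext
          funext r
          change (dd 0 c).1 r = (dd 0 b).1 r + (dd b c).1 r
          rw [dd_apply, dd_apply, dd_apply]
          have h3 : ∀ p q s : ZMod 2, p + q = p + s + (s + q) := by decide
          exact h3 _ _ _
        rw [this]
        exact Submodule.add_mem _ ih (Submodule.subset_span ⟨⟨(b, c), hbc⟩, rfl⟩)
    intro x _
    have hx : x = ∑ i, x.1 i • dd 0 i := by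
      apply Subtype.ext
      funext r
      have h3 : (∑ i, x.1 i • dd 0 i : EV g).1 r =
          ∑ i, x.1 i * (dd 0 i).1 r := by
        rw [AddSubmonoidClass.coe_finsetSum, Finset.sum_apply]
        rfl
      rw [h3]
      simp only [dd_apply, mul_add, Finset.sum_add_distrib]
      have h4 : ∑ i, x.1 i * (if r = 0 then 1 else 0) = 0 := by
        rw [← Finset.sum_mul]
        have : ∑ i, x.1 i = 0 := x.2
        rw [this, zero_mul]
      rw [h4, zero_add]
      simp only [mul_ite, mul_one, mul_zero, Finset.sum_ite_eq, Finset.mem_univ, if_true]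
    rw [hx]
    exact Submodule.sum_mem _ fun i _ => Submodule.smul_mem _ _ (hdd i)

end Pool.Agent.SmJ.L
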