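import Mathlib

/-!
SMITH for Jacobians over `F_q(t)` (MP_950c68_ag): the even vectors, the maps `lap a P`, the hypothesis
`Gen` and the graph `brGraph` (definitions of helper92, used in the final statement).
-/

set_option autoImplicit false

open Polynomial

namespace Pool.Agent.SmJ.L

variable {k : Type} [Field k] {g : ℕ}

/-- The vectors over `ZMod 2` with sum `0`. -/
def EV (g : ℕ) : Submodule (ZMod 2) (Fin (2 * g + 1) → ZMod 2) where
  carrier := {x | ∑ i, x i = 0}
  zero_mem' := by simp
  add_mem' {x y} hx hy := by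
    change ∑ i, (x i + y i) = 0
    rw [Finset.sum_add_distrib, hx, hy, add_zero]
  smul_mem' c x hx := by
    change ∑ i, c * x i = 0
    rw [← Finset.mul_sum, hx, mul_zero]

/-- The map `x ↦ (∑ j, v_P (a i - a j) (x i + x j))_i`, `v_P` = multiplicity of `P`. -/
noncomputable def lap (a : Fin (2 * g + 1) → k[X]) (P : k[X]) : EV g →ₗ[ZMod 2] EV g where
  toFun x := ⟨fun i => ∑ j, if i = j then 0 else
      (multiplicity P (a i - a j) : ZMod 2) * ((x : _ → ZMod 2) i + (x : _ → ZMod 2) j), by
    change ∑ i, ∑ j, (if i = j then (0 : ZMod 2) else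
      (multiplicity P (a i - a j) : ZMod 2) * ((x : _ → ZMod 2) i + (x : _ → ZMod 2) j)) = 0
    set F : Fin (2 * g + 1) → Fin (2 * g + 1) → ZMod 2 := fun i j => if i = j then (0 : ZMod 2) else
      (multiplicity P (a i - a j) : ZMod 2) * ((x : _ → ZMod 2) i + (x : _ → ZMod 2) j)
    have hs : ∀ i j, F i j = F j i := by
      intro i j
      simp only [F]
      by_cases h : i = j
      · rw [if_pos h, if_pos h.symm]
      · rw [if_neg h, if_neg (Ne.symm h), add_comm]
        congr 2
        have : a i - a j = -(a j - a i) := by ring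
        rw [this, multiplicity_neg]
    have hd : ∀ i, F i i = 0 := fun i => by simp only [F, if_pos]
    change ∑ i, ∑ j, F i j = 0
    have h1 : ∑ i, ∑ j, F i j = ∑ p : Fin (2 * g + 1) × Fin (2 * g + 1), F p.1 p.2 :=
      (Fintype.sum_prod_type' F).symm
    rw [h1]
    refine Finset.sum_involution (fun p _ => (p.2, p.1)) (fun p _ => ?_) (fun p _ hp hpp => ?_)
      (fun _ _ => Finset.mem_univ _) fun _ _ => rfl
    · rw [hs p.2 p.1]
      exact CharTwo.add_self_eq_zero _
    · apply hp
      have : p.1 = p.2 := (congrArg Prod.snd hpp)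
      rw [this]
      exact hd _⟩
  map_add' x y := by
    ext i
    change (∑ j, if i = j then (0 : ZMod 2) else (multiplicity P (a i - a j) : ZMod 2) *
      ((x : _ → ZMod 2) i + (y : _ → ZMod 2) i + ((x : _ → ZMod 2) j + (y : _ → ZMod 2) j))) =
      (∑ j, if i = j then (0 : ZMod 2) else (multiplicity P (a i - a j) : ZMod 2) *
        ((x : _ → ZMod 2) i + (x : _ → ZMod 2) j)) +
      ∑ j, if i = j then (0 : ZMod 2) else (multiplicity P (a i - a j) : ZMod 2) *
        ((y : _ → ZMod 2) i + (y : _ → ZMod 2) j)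
    rw [← Finset.sum_add_distrib]
    refine Finset.sum_congr rfl fun j _ => ?_
    split_ifs
    · rw [add_zero]
    · ring
  map_smul' c x := by
    ext i
    change (∑ j, if i = j then (0 : ZMod 2) else (multiplicity P (a i - a j) : ZMod 2) *
      (c * (x : _ → ZMod 2) i + c * (x : _ → ZMod 2) j)) =
      c * ∑ j, if i = j then (0 : ZMod 2) else (multiplicity P (a i - a j) : ZMod 2) *
        ((x : _ → ZMod 2) i + (x : _ → ZMod 2) j)
    rw [Finset.mul_sum]
    refine Finset.sum_congr rfl fun j _ => ?_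
    split_ifs
    · rw [mul_zero]
    · ring

/-- The hypothesis of the theorem: the maps `lap a P`, `P` irreducible, generate the algebra of all
endomorphisms of the space of even vectors. -/
def Gen (a : Fin (2 * g + 1) → k[X]) : Prop :=
  Algebra.adjoin (ZMod 2) {T : Module.End (ZMod 2) (EV g) | ∃ P : k[X], Irreducible P ∧
    T = lap a P} = ⊤

/-- `i` and `j` are joined if some irreducible `P` divides `a i - a j` to an odd power and no other
difference. -/
def brGraph (a : Fin (2 * g + 1) → k[X]) : SimpleGraph (Fin (2 * g + 1)) where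
  Adj i j := i ≠ j ∧ ∃ P : k[X], Irreducible P ∧ Odd (multiplicity P (a i - a j)) ∧
    ∀ r s, r ≠ s → ¬ ((r = i ∧ s = j) ∨ (r = j ∧ s = i)) → ¬ P ∣ a r - a s
  symm := ⟨by
    rintro i j ⟨h, P, hP, h1, h2⟩
    refine ⟨h.symm, P, hP, ?_, fun r s hrs h3 => h2 r s hrs (fun h4 => h3 h4.symm)⟩
    have : a j - a i = -(a i - a j) := by ring
    rwa [this, multiplicity_neg]⟩
  loopless := ⟨fun i h => h.1 rfl⟩

end Pool.Agent.SmJ.L
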