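import Mathlib

/-!
SMITH for Jacobians over `F_q(t)` (MP_950c68_ag): Selmer and Tate-Shafarevich groups.

`K` is a field with a subfield `k` of constants, `Ω` a separable closure of `K`, `M` an abelian group
with an action `ρ` of `Gal(Ω/K)` (in the applications `M = J(Ω)`, `J` an abelian variety over `K`).
`Sel k ρ n` is the `n`-Selmer group: the classes of the continuous crossed homomorphisms
`ψ : Gal(Ω/K) → M[n]` which are coboundaries with values in `M` on the decomposition group of every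
place of `Ω`. `Sha k ρ` is the Tate-Shafarevich group.
-/

set_option autoImplicit false

namespace Pool.Agent.SmJ.L

section sel

variable (k : Type) {K Ω : Type} [Field k] [Field K] [Field Ω] [Algebra k K] [Algebra K Ω]
variable {M : Type} [AddCommGroup M] (ρ : (Ω ≃ₐ[K] Ω) → M →+ M)

/-- The continuous crossed homomorphisms `Gal(Ω/K) → M[n]` which are coboundaries in `M` at every
place, that is, on the decomposition group of every nontrivial valuation ring of `Ω` which contains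
`k`. -/
structure IsSel (n : ℕ) (ψ : (Ω ≃ₐ[K] Ω) → M) : Prop where
  cocycle : ∀ s t, ψ (s * t) = ψ s + ρ s (ψ t)
  tors : ∀ s, n • ψ s = 0
  cont : ∃ L : IntermediateField K Ω, FiniteDimensional K L ∧
    ∀ s t : Ω ≃ₐ[K] Ω, (∀ x ∈ L, s x = t x) → ψ s = ψ t
  loc : ∀ w : ValuationSubring Ω, w ≠ ⊤ → (∀ c : k, algebraMap K Ω (algebraMap k K c) ∈ w) →
    ∃ Q : M, ∀ s ∈ w.decompositionSubgroup K, ψ s = ρ s Q - Q

/-- The group of these crossed homomorphisms. -/
noncomputable def ZSel (n : ℕ) : AddSubgroup ((Ω ≃ₐ[K] Ω) → M) where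
  carrier := {ψ | IsSel k ρ n ψ}
  zero_mem' := ⟨fun s t => by simp, fun s => by simp, ⟨⊥, inferInstance, fun _ _ _ => rfl⟩,
    fun w _ _ => ⟨0, fun s _ => by simp⟩⟩
  add_mem' {x y} hx hy := by
    refine ⟨fun s t => ?_, fun s => ?_, ?_, fun w h h' => ?_⟩
    · simp only [Pi.add_apply, hx.cocycle, hy.cocycle, map_add]
      abel
    · rw [Pi.add_apply, smul_add, hx.tors, hy.tors, add_zero]
    · obtain ⟨L, hL, h1⟩ := hx.cont
      obtain ⟨L', hL', h2⟩ := hy.cont
      refine ⟨L ⊔ L', IntermediateField.finiteDimensional_sup L L', fun s t h => ?_⟩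
      rw [Pi.add_apply, Pi.add_apply, h1 s t fun x hx => h x (le_sup_left (a := L) (b := L') hx),
        h2 s t fun x hx => h x (le_sup_right (a := L) (b := L') hx)]
    · obtain ⟨Q, hQ⟩ := hx.loc w h h'
      obtain ⟨Q', hQ'⟩ := hy.loc w h h'
      refine ⟨Q + Q', fun s hs => ?_⟩
      rw [Pi.add_apply, hQ s hs, hQ' s hs, map_add]
      abel
  neg_mem' {x} hx := by
    refine ⟨fun s t => ?_, fun s => ?_, ?_, fun w h h' => ?_⟩
    · simp only [Pi.neg_apply, hx.cocycle, map_neg]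
      abel
    · rw [Pi.neg_apply, smul_neg, hx.tors, neg_zero]
    · obtain ⟨L, hL, h1⟩ := hx.cont
      exact ⟨L, hL, fun s t h => by rw [Pi.neg_apply, Pi.neg_apply, h1 s t h]⟩
    · obtain ⟨Q, hQ⟩ := hx.loc w h h'
      refine ⟨-Q, fun s hs => ?_⟩
      rw [Pi.neg_apply, hQ s hs, map_neg]
      abel

/-- The coboundaries of the elements of `M[n]`. -/
noncomputable def BSel (n : ℕ) : AddSubgroup ((Ω ≃ₐ[K] Ω) → M) where
  carrier := {ψ | ∃ T : M, n • T = 0 ∧ ∀ s, ψ s = ρ s T - T}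
  zero_mem' := ⟨0, by simp, fun s => by simp⟩
  add_mem' := by
    rintro x y ⟨T, hT, h⟩ ⟨T', hT', h'⟩
    refine ⟨T + T', by rw [smul_add, hT, hT', add_zero], fun s => ?_⟩
    rw [Pi.add_apply, h, h', map_add]
    abel
  neg_mem' := by
    rintro x ⟨T, hT, h⟩
    refine ⟨-T, by rw [smul_neg, hT, neg_zero], fun s => ?_⟩
    rw [Pi.neg_apply, h, map_neg]
    abel

/-- The `n`-Selmer group. -/
abbrev Sel (n : ℕ) : Type := ZSel k ρ n ⧸ (BSel ρ n).addSubgroupOf (ZSel k ρ n)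

/-- The continuous crossed homomorphisms `Gal(Ω/K) → M` which are coboundaries at every place. -/
structure IsSha (ψ : (Ω ≃ₐ[K] Ω) → M) : Prop where
  cocycle : ∀ s t, ψ (s * t) = ψ s + ρ s (ψ t)
  cont : ∃ L : IntermediateField K Ω, FiniteDimensional K L ∧
    ∀ s t : Ω ≃ₐ[K] Ω, (∀ x ∈ L, s x = t x) → ψ s = ψ t
  loc : ∀ w : ValuationSubring Ω, w ≠ ⊤ → (∀ c : k, algebraMap K Ω (algebraMap k K c) ∈ w) →
    ∃ Q : M, ∀ s ∈ w.decompositionSubgroup K, ψ s = ρ s Q - Q

/-- The group of these crossed homomorphisms. -/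
noncomputable def ZSha : AddSubgroup ((Ω ≃ₐ[K] Ω) → M) where
  carrier := {ψ | IsSha k ρ ψ}
  zero_mem' := ⟨fun s t => by simp, ⟨⊥, inferInstance, fun _ _ _ => rfl⟩,
    fun w _ _ => ⟨0, fun s _ => by simp⟩⟩
  add_mem' {x y} hx hy := by
    refine ⟨fun s t => ?_, ?_, fun w h h' => ?_⟩
    · simp only [Pi.add_apply, hx.cocycle, hy.cocycle, map_add]
      abel
    · obtain ⟨L, hL, h1⟩ := hx.cont
      obtain ⟨L', hL', h2⟩ := hy.cont
      refine ⟨L ⊔ L', IntermediateField.finiteDimensional_sup L L', fun s t h => ?_⟩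
      rw [Pi.add_apply, Pi.add_apply, h1 s t fun x hx => h x (le_sup_left (a := L) (b := L') hx),
        h2 s t fun x hx => h x (le_sup_right (a := L) (b := L') hx)]
    · obtain ⟨Q, hQ⟩ := hx.loc w h h'
      obtain ⟨Q', hQ'⟩ := hy.loc w h h'
      refine ⟨Q + Q', fun s hs => ?_⟩
      rw [Pi.add_apply, hQ s hs, hQ' s hs, map_add]
      abel
  neg_mem' {x} hx := by
    refine ⟨fun s t => ?_, ?_, fun w h h' => ?_⟩
    · simp only [Pi.neg_apply, hx.cocycle, map_neg]
      abel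
    · obtain ⟨L, hL, h1⟩ := hx.cont
      exact ⟨L, hL, fun s t h => by rw [Pi.neg_apply, Pi.neg_apply, h1 s t h]⟩
    · obtain ⟨Q, hQ⟩ := hx.loc w h h'
      refine ⟨-Q, fun s hs => ?_⟩
      rw [Pi.neg_apply, hQ s hs, map_neg]
      abel

/-- The coboundaries. -/
noncomputable def BSha : AddSubgroup ((Ω ≃ₐ[K] Ω) → M) where
  carrier := {ψ | ∃ T : M, ∀ s, ψ s = ρ s T - T}
  zero_mem' := ⟨0, fun s => by simp⟩
  add_mem' := by
    rintro x y ⟨T, h⟩ ⟨T', h'⟩
    refine ⟨T + T', fun s => ?_⟩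
    rw [Pi.add_apply, h, h', map_add]
    abel
  neg_mem' := by
    rintro x ⟨T, h⟩
    refine ⟨-T, fun s => ?_⟩
    rw [Pi.neg_apply, h, map_neg]
    abel

/-- The Tate-Shafarevich group. -/
abbrev Sha : Type := ZSha k ρ ⧸ (BSha ρ).addSubgroupOf (ZSha k ρ)

/-- The `2`-power torsion of the Tate-Shafarevich group. -/
noncomputable def Sha2 : AddSubgroup (Sha k ρ) where
  carrier := {x | ∃ i : ℕ, 2 ^ i • x = 0}
  zero_mem' := ⟨0, nsmul_zero _⟩
  add_mem' := by
    rintro x y ⟨i, hi⟩ ⟨j, hj⟩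
    refine ⟨i + j, ?_⟩
    have h1 : 2 ^ (i + j) • x = 0 := by rw [pow_add, mul_nsmul, hi, nsmul_zero]
    have h2 : 2 ^ (i + j) • y = 0 := by rw [pow_add, mul_comm, mul_nsmul, hj, nsmul_zero]
    rw [nsmul_add, h1, h2, add_zero]
  neg_mem' := by
    rintro x ⟨i, hi⟩
    exact ⟨i, by rw [neg_nsmul, hi, neg_zero]⟩

/-- The `2`-power Selmer group has corank `r`: up to a constant factor the `2 ^ i`-Selmer group has
`2 ^ (r i)` elements. -/
def HasCorank (r : ℕ) : Prop :=
  ∃ B : ℕ, ∀ i, Nat.card (Sel k ρ (2 ^ i)) ≤ B * 2 ^ (r * i) ∧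
    2 ^ (r * i) ≤ B * Nat.card (Sel k ρ (2 ^ i))

omit [Field k] [Algebra k K] in
/-- The elements of `M` fixed by the Galois group (`J(K)` for `M = J(Ω)`). -/
def Rat : AddSubgroup M where
  carrier := {P | ∀ s, ρ s P = P}
  zero_mem' := fun s => map_zero _
  add_mem' {P Q} hP hQ s := by rw [map_add, hP, hQ]
  neg_mem' {P} hP s := by rw [map_neg, hP]

/-- The conclusions: the `2 ^ i`-Selmer groups are finite, that of level `j` has less than `4 ^ j`
elements, the `2`-power Selmer group has corank `r ≤ 1`, and the `2`-power torsion of the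
Tate-Shafarevich group is finite if `r = 0`, and also if `J(K)` modulo torsion is not `2`-divisible
(which is the case if `J(K)` is finitely generated and infinite). -/
structure GoodOn (j : ℕ) : Prop where
  fin : ∀ i, Finite (Sel k ρ (2 ^ i))
  lt : Nat.card (Sel k ρ (2 ^ j)) < 4 ^ j
  corank : ∃ r, r ≤ 1 ∧ HasCorank k ρ r ∧ (r = 0 → Finite (Sha2 k ρ)) ∧
    ((∃ P ∈ Rat ρ, ∀ Q ∈ Rat ρ, ∀ n : ℕ, n ≠ 0 → n • (P - 2 • Q) ≠ 0) → Finite (Sha2 k ρ))

end sel

end Pool.Agent.SmJ.L
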