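import Pool.Agent.Lib.SmJ.E.Defs
import Pool.Agent.Lib.SmJ.L.SelDefs
import Pool.Agent.Lib.SmJ.L.LapDefs

/-!
SMITH for Jacobians over `F_q(t)` (MP_950c68_ag), final statement: definitions.

`K` is a field with a subfield `k` of constants, `Ω` a separable closure of `K`,
`a : Fin (2 * g + 1) → K` injective, `C` the curve `y ^ 2 = ∏ (x - a i)` of genus `g`. It has one
point at infinity, which is rational, so the group of `Ω`-points of its Jacobian is the class group
of the ring `Co = Ω[x, y] / (y ^ 2 - ∏ (x - a i))`, with the coefficientwise action of `Gal(Ω/K)`.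
`Jac Ω a` is this group, `gal Ω a` the action; so `Sel k (gal Ω a) n` (`SelDefs.lean`) is the
`n`-Selmer group of the Jacobian.
-/

set_option autoImplicit false

open Polynomial

namespace Pool.Agent.SmJ.L

/-- The ring `F[x, y] / (y ^ 2 - f)` is a domain if `f` has odd degree. -/
theorem co_isDomain {F : Type} [Field F] {f : F[X]} (hf : Odd f.natDegree) : IsDomain (Co f) := by
  obtain ⟨g, hg⟩ := hf
  have hf0 : f ≠ 0 := by
    rintro rfl
    rw [natDegree_zero] at hg
    omega
  have hN : ∀ z : Co f, z ≠ 0 → z.norm ≠ 0 := by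
    intro z hz h
    rw [norm_eq, sub_eq_zero] at h
    by_cases h1 : z.im = 0
    · have h0 : z.re ≠ 0 := fun h0 => hz (QuadraticAlgebra.ext h0 h1)
      rw [h1] at h
      simp [h0] at h
    · have h2 := congrArg natDegree h
      rw [natDegree_pow, natDegree_mul hf0 (pow_ne_zero 2 h1), natDegree_pow, hg] at h2
      omega
  have : NoZeroDivisors (Co f) := by
    refine ⟨fun {z w} h => ?_⟩
    by_contra hc
    push Not at hc
    have h1 := mul_ne_zero (hN z hc.1) (hN w hc.2)
    apply h1
    rw [← map_mul, h, QuadraticAlgebra.norm_zero]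
  exact NoZeroDivisors.to_isDomain _

instance {F : Type} [Field F] {g : ℕ} (a : Fin (2 * g + 1) → F) : IsDomain (Co (ff a)) :=
  co_isDomain ⟨g, natDegree_ff a⟩

section jac

variable {K : Type} (Ω : Type) [Field K] [Field Ω] [Algebra K Ω]
variable {g : ℕ} (a : Fin (2 * g + 1) → K)

/-- The roots, in `Ω`. -/
abbrev rts : Fin (2 * g + 1) → Ω := fun i => algebraMap K Ω (a i)

/-- The group `J(Ω)`: the class group of `Ω[x, y] / (y ^ 2 - ∏ (x - a i))`. -/
abbrev Jac : Type := Additive (ClassGroup (Co (ff (rts Ω a))))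

theorem map_rts (s : Ω ≃ₐ[K] Ω) :
    (ff (rts Ω a)).map (s.toRingEquiv : Ω →+* Ω) = ff (rts Ω a) :=
  map_ff _ fun i => s.commutes (a i)

/-- The action of the Galois group on `J(Ω)`. -/
noncomputable def gal (s : Ω ≃ₐ[K] Ω) : Jac Ω a →+ Jac Ω a :=
  MonoidHom.toAdditive (ClassGroup.mulEquiv (coMap s.toRingEquiv (map_rts Ω a s))).toMonoidHom

end jac

section twist

variable {k : Type} [Field k] {g : ℕ}

/-- The conclusions for the Jacobian of the quadratic twist `y ^ 2 = ∏ (x - D a i)` by `D` of the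
curve `y ^ 2 = ∏ (x - a i)` over `k(t)`. -/
def Good (a : Fin (2 * g + 1) → k[X]) (j : ℕ) (D : k[X]) : Prop :=
  GoodOn k (gal (SeparableClosure (RatFunc k)) fun i => algebraMap k[X] (RatFunc k) (D * a i)) j

end twist

end Pool.Agent.SmJ.L
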