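import Pool.Agent.Lib.SmJ.L.SelDefs
import Pool.Agent.Lib.MP_48b749_nt.MW.Grp

/-!
SMITH for Jacobians, block L4, for an abstract Galois module `M`: the exact sequence
`0 → J(K)/n → Sel_n → Sha[n] → 0`, in the form `#Sel_n = (J(K) : n J(K)) * #Sha[n]`, and the
formulas for the numbers of cocycles and coboundaries.
-/

set_option autoImplicit false

open Pool.Agent.BSDFF.MW

namespace Pool.Agent.SmJ.L

section

variable {k K Ω : Type} [Field k] [Field K] [Field Ω] [Algebra k K] [Algebra K Ω]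
variable {M : Type} [AddCommGroup M]

/-- `ρ` is an action and every element is fixed by an open subgroup. -/
structure GMod (ρ : (Ω ≃ₐ[K] Ω) → M →+ M) : Prop where
  one : ∀ Q, ρ 1 Q = Q
  mul : ∀ s t Q, ρ (s * t) Q = ρ s (ρ t Q)
  level : ∀ Q, ∃ L : IntermediateField K Ω, FiniteDimensional K L ∧
    ∀ s t : Ω ≃ₐ[K] Ω, (∀ x ∈ L, s x = t x) → ρ s Q = ρ t Q

variable {ρ : (Ω ≃ₐ[K] Ω) → M →+ M}

/-- the coboundary of `Q` -/
def cob (ρ : (Ω ≃ₐ[K] Ω) → M →+ M) (Q : M) : (Ω ≃ₐ[K] Ω) → M := fun s => ρ s Q - Q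

theorem cob_add (Q R : M) : cob ρ (Q + R) = cob ρ Q + cob ρ R := by
  funext s
  simp only [cob, Pi.add_apply, map_add]
  abel

theorem cob_sub (Q R : M) : cob ρ (Q - R) = cob ρ Q - cob ρ R := by
  funext s
  simp only [cob, Pi.sub_apply, map_sub]
  abel

theorem cob_nsmul (n : ℕ) (Q : M) : cob ρ (n • Q) = n • cob ρ Q := by
  funext s
  simp only [cob, Pi.smul_apply, map_nsmul, nsmul_sub]

theorem isSha_cob (h : GMod ρ) (Q : M) : IsSha k ρ (cob ρ Q) := by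
  refine ⟨fun s t => ?_, ?_, fun w _ _ => ⟨Q, fun s _ => rfl⟩⟩
  · simp only [cob, h.mul, map_sub]
    abel
  · obtain ⟨L, hL, h1⟩ := h.level Q
    exact ⟨L, hL, fun s t hst => by simp only [cob]; rw [h1 s t hst]⟩

theorem isSel_iff {n : ℕ} {ψ : (Ω ≃ₐ[K] Ω) → M} :
    IsSel k ρ n ψ ↔ IsSha k ρ ψ ∧ n • ψ = 0 := by
  constructor
  · intro h
    exact ⟨⟨h.cocycle, h.cont, h.loc⟩, funext fun s => h.tors s⟩
  · rintro ⟨h, h'⟩
    exact ⟨h.cocycle, fun s => congrFun h' s, h.cont, h.loc⟩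

theorem mem_Rat {Q : M} : Q ∈ Rat ρ ↔ ∀ s, ρ s Q = Q := Iff.rfl

theorem cob_eq_zero_iff {Q : M} : cob ρ Q = 0 ↔ Q ∈ Rat ρ :=
  ⟨fun h s => sub_eq_zero.mp (congrFun h s), fun h => funext fun s => sub_eq_zero.mpr (h s)⟩

variable (k ρ) in
/-- `Sel_n → Sha` -/
noncomputable def selToSha (n : ℕ) : Sel k ρ n →+ Sha k ρ :=
  QuotientAddGroup.map _ _
    (AddSubgroup.inclusion (fun _ h => (isSel_iff.mp h).1 : ZSel k ρ n ≤ ZSha k ρ)) (by
    intro x hx
    obtain ⟨T, -, hT⟩ := hx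
    exact ⟨T, hT⟩)

variable (k) in
/-- `J(K) → Sel_n`, `P ↦ (s ↦ s Q - Q)`, `n Q = P`. -/
noncomputable def kum (h : GMod ρ) (n : ℕ) (hdiv : ∀ P : M, ∃ Q, n • Q = P) :
    Rat ρ →+ Sel k ρ n :=
  AddMonoidHom.mk' (fun P => QuotientAddGroup.mk ⟨cob ρ (hdiv P).choose,
    isSel_iff.mpr ⟨isSha_cob h _, by
      rw [← cob_nsmul, (hdiv P).choose_spec, cob_eq_zero_iff.mpr P.2]⟩⟩) (by
    intro P P'
    have h1 := (hdiv P).choose_spec
    have h2 := (hdiv P').choose_spec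
    have h3 := (hdiv ((P + P' : Rat ρ) : M)).choose_spec
    rw [← QuotientAddGroup.mk_add, QuotientAddGroup.eq]
    refine ⟨(hdiv P).choose + (hdiv P').choose - (hdiv ((P + P' : Rat ρ) : M)).choose, ?_,
      fun s => ?_⟩
    · rw [nsmul_sub, nsmul_add, h1, h2, h3, AddSubgroup.coe_add, sub_self]
    · simp only [cob, map_add, map_sub, NegMemClass.coe_neg,
        Pi.add_apply, Pi.neg_apply, AddSubgroup.subtype_apply]
      abel)

theorem kum_eq_zero (h : GMod ρ) (n : ℕ) (hdiv : ∀ P : M, ∃ Q, n • Q = P) (P : Rat ρ) :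
    kum k h n hdiv P = 0 ↔ P ∈ nG (Rat ρ) n := by
  have h1 := (hdiv P).choose_spec
  set Q := (hdiv P).choose with hQ
  have h0 : kum k h n hdiv P = 0 ↔ ∃ T : M, n • T = 0 ∧ ∀ s, cob ρ Q s = ρ s T - T := by
    change (QuotientAddGroup.mk _ : Sel k ρ n) = 0 ↔ _
    rw [QuotientAddGroup.eq_zero_iff]
    rfl
  rw [h0]
  constructor
  · rintro ⟨T, hT, h⟩
    have hR : Q - T ∈ Rat ρ := by
      rw [← cob_eq_zero_iff, cob_sub, sub_eq_zero]
      exact funext h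
    refine mem_nG.mpr ⟨⟨Q - T, hR⟩, ?_⟩
    apply Subtype.ext
    change n • (Q - T) = P
    rw [nsmul_sub, h1, hT, sub_zero]
  · intro h
    obtain ⟨R, hR⟩ := mem_nG.mp h
    refine ⟨Q - R, ?_, fun s => ?_⟩
    · rw [nsmul_sub, h1, ← hR, AddSubgroup.coe_nsmul, sub_self]
    · rw [map_sub, R.2 s]
      simp only [cob]
      abel

theorem ker_kum (h : GMod ρ) (n : ℕ) (hdiv : ∀ P : M, ∃ Q, n • Q = P) :
    (kum k h n hdiv).ker = nG (Rat ρ) n := by
  ext P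
  exact kum_eq_zero h n hdiv P

theorem ker_selToSha (h : GMod ρ) (n : ℕ) (hdiv : ∀ P : M, ∃ Q, n • Q = P) :
    (selToSha k ρ n).ker = (kum k h n hdiv).range := by
  ext x
  constructor
  · intro hx
    obtain ⟨ψ, rfl⟩ := QuotientAddGroup.mk_surjective x
    have hx' : ∃ T : M, ∀ s, (ψ : (Ω ≃ₐ[K] Ω) → M) s = ρ s T - T := by
      have hx2 : (selToSha k ρ n) (QuotientAddGroup.mk ψ) = 0 := hx
      unfold selToSha at hx2
      rw [QuotientAddGroup.map_mk, QuotientAddGroup.eq_zero_iff] at hx2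
      exact hx2
    obtain ⟨T, hT⟩ := hx'
    have hψ : (ψ : (Ω ≃ₐ[K] Ω) → M) = cob ρ T := funext hT
    have hP : n • T ∈ Rat ρ := by
      rw [← cob_eq_zero_iff, cob_nsmul, ← hψ]
      exact (isSel_iff.mp ψ.2).2
    refine ⟨⟨n • T, hP⟩, ?_⟩
    have h1 := (hdiv (n • T)).choose_spec
    change (QuotientAddGroup.mk _ : Sel k ρ n) = _
    rw [QuotientAddGroup.eq]
    refine ⟨T - (hdiv (n • T)).choose, ?_, fun s => ?_⟩
    · rw [nsmul_sub, h1, sub_self]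
    · simp only [cob, map_sub, NegMemClass.coe_neg, Pi.add_apply, Pi.neg_apply,
        AddSubgroup.subtype_apply, AddSubgroup.coe_add, hT]
      abel
  · rintro ⟨P, rfl⟩
    change (selToSha k ρ n) (QuotientAddGroup.mk _) = 0
    unfold selToSha
    rw [QuotientAddGroup.map_mk, QuotientAddGroup.eq_zero_iff]
    exact ⟨(hdiv P).choose, fun s => rfl⟩

theorem range_selToSha (h : GMod ρ) (n : ℕ) (hdiv : ∀ P : M, ∃ Q, n • Q = P) :
    (selToSha k ρ n).range = Gn (Sha k ρ) n := by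
  ext x
  rw [mem_Gn]
  constructor
  · rintro ⟨y, rfl⟩
    obtain ⟨ψ, rfl⟩ := QuotientAddGroup.mk_surjective y
    rw [← map_nsmul, ← QuotientAddGroup.mk_nsmul]
    have h : n • ψ = 0 := by
      apply Subtype.ext
      exact (isSel_iff.mp ψ.2).2
    rw [h, QuotientAddGroup.mk_zero, map_zero]
  · intro hx
    obtain ⟨ψ, rfl⟩ := QuotientAddGroup.mk_surjective x
    rw [← QuotientAddGroup.mk_nsmul, QuotientAddGroup.eq_zero_iff] at hx
    obtain ⟨T, hT⟩ := hx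
    obtain ⟨Q, hQ⟩ := hdiv T
    have h1 : n • (ψ : (Ω ≃ₐ[K] Ω) → M) = cob ρ T := funext hT
    refine ⟨QuotientAddGroup.mk ⟨(ψ : (Ω ≃ₐ[K] Ω) → M) - cob ρ Q,
      isSel_iff.mpr ⟨(ZSha k ρ).sub_mem ψ.2 (isSha_cob h Q), ?_⟩⟩, ?_⟩
    · rw [nsmul_sub, h1, ← cob_nsmul, hQ, sub_self]
    · unfold selToSha
      rw [QuotientAddGroup.map_mk, QuotientAddGroup.eq]
      refine ⟨Q, fun s => ?_⟩
      change -((ψ : (Ω ≃ₐ[K] Ω) → M) s - cob ρ Q s) + (ψ : (Ω ≃ₐ[K] Ω) → M) s = _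
      simp only [cob]
      abel

theorem card_ker_range {A B : Type} [AddCommGroup A] [AddCommGroup B] (f : A →+ B) :
    Nat.card A = Nat.card f.ker * Nat.card f.range := by
  rw [AddSubgroup.card_eq_card_quotient_mul_card_addSubgroup f.ker, mul_comm]
  congr 1
  exact Nat.card_congr (QuotientAddGroup.quotientKerEquivRange f).toEquiv

/-- `#Sel_n = (J(K) : n J(K)) * #Sha[n]` -/
theorem card_sel (h : GMod ρ) (n : ℕ) (hdiv : ∀ P : M, ∃ Q, n • Q = P) :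
    Nat.card (Sel k ρ n) = (nG (Rat ρ) n).index * Nat.card (Gn (Sha k ρ) n) := by
  rw [card_ker_range (selToSha k ρ n), range_selToSha h n hdiv, ker_selToSha h n hdiv]
  congr 1
  rw [← ker_kum (k := k) h n hdiv, AddSubgroup.index]
  exact (Nat.card_congr (QuotientAddGroup.quotientKerEquivRange _).toEquiv).symm

theorem card_zsel (h : GMod ρ) (n : ℕ) :
    Nat.card (ZSel k ρ n) = Nat.card (Sel k ρ n) * Nat.card (BSel ρ n) := by
  have hle : BSel ρ n ≤ ZSel k ρ n := by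
    rintro ψ ⟨T, hT, h'⟩
    have h1 : ψ = cob ρ T := funext h'
    refine isSel_iff.mpr ?_
    rw [h1]
    exact ⟨isSha_cob h T, by rw [← cob_nsmul, hT]; funext s; simp [cob]⟩
  rw [AddSubgroup.card_eq_card_quotient_mul_card_addSubgroup
    ((BSel ρ n).addSubgroupOf (ZSel k ρ n))]
  congr 1
  exact Nat.card_congr (AddSubgroup.addSubgroupOfEquivOfLe hle).toEquiv

theorem card_zsel_gn (n : ℕ) : Nat.card (ZSel k ρ n) = Nat.card (Gn (ZSha k ρ) n) := by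
  refine Nat.card_congr ⟨fun ψ => ⟨⟨ψ.1, (isSel_iff.mp ψ.2).1⟩,
    Subtype.ext (isSel_iff.mp ψ.2).2⟩, fun ψ => ⟨ψ.1.1, isSel_iff.mpr
      ⟨ψ.1.2, congrArg Subtype.val ψ.2⟩⟩, fun _ => rfl, fun _ => rfl⟩

theorem card_bsel (n : ℕ) :
    Nat.card (Gn M n) = Nat.card (Gn (Rat ρ) n) * Nat.card (BSel ρ n) := by
  let f : Gn M n →+ ((Ω ≃ₐ[K] Ω) → M) :=
    AddMonoidHom.mk' (fun T => cob ρ T.1) (fun T T' => cob_add T.1 T'.1)
  rw [card_ker_range f]
  congr 1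
  · refine (Nat.card_congr (Equiv.ofBijective (fun P : Gn (Rat ρ) n =>
      (⟨⟨P.1.1, ?_⟩, ?_⟩ : f.ker)) ⟨?_, ?_⟩)).symm
    · exact congrArg Subtype.val (mem_Gn.mp P.2)
    · exact cob_eq_zero_iff.mpr P.1.2
    · intro P Q h
      apply Subtype.ext
      apply Subtype.ext
      exact congrArg (fun x : f.ker => (x.1.1 : M)) h
    · rintro ⟨⟨T, hT⟩, hT'⟩
      exact ⟨⟨⟨T, cob_eq_zero_iff.mp hT'⟩, Subtype.ext hT⟩, rfl⟩
  · have h1 : f.range = BSel ρ n := by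
      ext ψ
      constructor
      · rintro ⟨T, rfl⟩
        exact ⟨T.1, T.2, fun s => rfl⟩
      · rintro ⟨T, hT, h⟩
        exact ⟨⟨T, hT⟩, (funext h).symm⟩
    rw [h1]

end

end Pool.Agent.SmJ.L
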