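import Pool.Agent.Lib.SmJ.L.Stmt
import Pool.Agent.Lib.SmJ.L.Kum
import Pool.Agent.Lib.SmJ.E.J2

/-!
SMITH for Jacobians, block L4: the action `gal` of the final statement is the action `act` of block E,
and `J(Ω)` is a Galois module (`GMod`).
-/

set_option autoImplicit false

open Polynomial

namespace Pool.Agent.SmJ.L

section cg

open nonZeroDivisors

theorem coeIdeal_map {R R' : Type} [CommRing R] [IsDomain R] [CommRing R'] [IsDomain R']
    (e : R ≃+* R') (I : Ideal R) :
    FractionalIdeal.ringEquivOfRingEquiv (FractionRing R) (FractionRing R') e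
      (I : FractionalIdeal R⁰ (FractionRing R)) =
      ((I.map (e : R →+* R') : Ideal R') : FractionalIdeal R'⁰ (FractionRing R')) := by
  apply SetLike.coe_injective
  ext x
  have hs : ∀ r : R, IsFractionRing.ringEquivOfRingEquiv (K := FractionRing R)
      (L := FractionRing R') e (algebraMap R (FractionRing R) r) =
        algebraMap R' (FractionRing R') (e r) := fun r =>
    IsFractionRing.ringEquivOfRingEquiv_algebraMap e r
  constructor
  · intro h
    have h1 : ∃ y, y ∈ (I : FractionalIdeal R⁰ (FractionRing R)) ∧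
      IsFractionRing.ringEquivOfRingEquiv (K := FractionRing R)
      (L := FractionRing R') e y = x := h
    obtain ⟨y, hy, rfl⟩ := h1
    obtain ⟨r, hr, rfl⟩ := (FractionalIdeal.mem_coeIdeal _).mp hy
    rw [hs]
    exact (FractionalIdeal.mem_coeIdeal _).mpr ⟨e r, Ideal.mem_map_of_mem _ hr, rfl⟩
  · intro h
    obtain ⟨r', hr', rfl⟩ := (FractionalIdeal.mem_coeIdeal _).mp h
    obtain ⟨r, hr, rfl⟩ := (Ideal.mem_map_iff_of_surjective _ e.surjective).mp hr'
    have h1 : ∃ y, y ∈ (I : FractionalIdeal R⁰ (FractionRing R)) ∧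
      IsFractionRing.ringEquivOfRingEquiv (K := FractionRing R)
      (L := FractionRing R') e y = algebraMap R' (FractionRing R') (e r) :=
      ⟨algebraMap R (FractionRing R) r, (FractionalIdeal.mem_coeIdeal _).mpr ⟨r, hr, rfl⟩, hs r⟩
    exact h1

theorem mulEquiv_mk0 {R R' : Type} [CommRing R] [IsDedekindDomain R] [CommRing R']
    [IsDedekindDomain R'] (e : R ≃+* R') (I : (Ideal R)⁰)
    (hI' : I.1.map (e : R →+* R') ∈ (Ideal R')⁰) :
    ClassGroup.mulEquiv e (ClassGroup.mk0 I) = ClassGroup.mk0 ⟨I.1.map (e : R →+* R'), hI'⟩ := by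
  apply (ClassGroup.equiv (FractionRing R')).injective
  rw [ClassGroup.equiv_mk0]
  unfold ClassGroup.mulEquiv
  rw [MulEquiv.trans_apply, MulEquiv.trans_apply, MulEquiv.apply_symm_apply, ClassGroup.equiv_mk0]
  have h1 : Units.mapEquiv (FractionalIdeal.ringEquivOfRingEquiv (FractionRing R)
      (FractionRing R') e : FractionalIdeal R⁰ (FractionRing R) ≃*
        FractionalIdeal R'⁰ (FractionRing R')) (FractionalIdeal.mk0 (FractionRing R) I) =
      FractionalIdeal.mk0 (FractionRing R') ⟨I.1.map (e : R →+* R'), hI'⟩ := by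
    apply Units.ext
    exact coeIdeal_map e I.1
  rw [← h1]
  rfl

end cg

section jac

variable {K : Type} {Ω : Type} [Field K] [Field Ω] [Algebra K Ω]
variable {g : ℕ} (a : Fin (2 * g + 1) → K)

theorem gal_eq_act [HypA (rts Ω a)] (s : Ω ≃ₐ[K] Ω) (Q : Jac Ω a) :
    gal Ω a s Q = act s.toRingEquiv (map_rts Ω a s) Q := by
  obtain ⟨I, hI, rfl⟩ := exists_cls Q
  rw [act_cls]
  have h1 := map_ne_bot (coMap s.toRingEquiv (map_rts Ω a s)) hI
  rw [cls_of_ne hI, cls_of_ne h1]
  exact congrArg Additive.ofMul (mulEquiv_mk0 (coMap s.toRingEquiv (map_rts Ω a s))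
    ⟨I, mem_nonZeroDivisors_of_ne_zero hI⟩ (mem_nonZeroDivisors_of_ne_zero h1))

theorem gal_one [HypA (rts Ω a)] (Q : Jac Ω a) : gal Ω a 1 Q = Q := by
  obtain ⟨I, hI, rfl⟩ := exists_cls Q
  rw [gal_eq_act, act_cls]
  have h1 : (coMap (1 : Ω ≃ₐ[K] Ω).toRingEquiv (map_rts Ω a 1) : Co (ff (rts Ω a)) →+* _) =
      RingHom.id _ := by
    apply RingHom.ext
    intro z
    ext1
    · exact Polynomial.map_id
    · exact Polynomial.map_id
  rw [h1, Ideal.map_id]

theorem gal_mul [HypA (rts Ω a)] (s t : Ω ≃ₐ[K] Ω) (Q : Jac Ω a) :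
    gal Ω a (s * t) Q = gal Ω a s (gal Ω a t Q) := by
  obtain ⟨I, hI, rfl⟩ := exists_cls Q
  rw [gal_eq_act, gal_eq_act, gal_eq_act, act_cls, act_cls, act_cls, Ideal.map_map]
  have h1 : (coMap (s * t).toRingEquiv (map_rts Ω a (s * t)) : Co (ff (rts Ω a)) →+* _) =
      (coMap s.toRingEquiv (map_rts Ω a s) : Co (ff (rts Ω a)) →+* Co (ff (rts Ω a))).comp
        (coMap t.toRingEquiv (map_rts Ω a t) : Co (ff (rts Ω a)) →+* Co (ff (rts Ω a))) := by
    apply RingHom.ext
    intro z
    ext1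
    · exact (Polynomial.map_map (t.toRingEquiv : Ω →+* Ω) (s.toRingEquiv : Ω →+* Ω) z.re).symm
    · exact (Polynomial.map_map (t.toRingEquiv : Ω →+* Ω) (s.toRingEquiv : Ω →+* Ω) z.im).symm
  rw [h1]

theorem map_mI {f : Polynomial Ω} (σ : Ω ≃+* Ω) (h : f.map (σ : Ω →+* Ω) = f) (A B : Polynomial Ω) :
    (mI A B : Ideal (Co f)).map (coMap σ h : Co f →+* Co f) =
      mI (A.map (σ : Ω →+* Ω)) (B.map (σ : Ω →+* Ω)) := by
  rw [mI_def, mI_def, Ideal.map_span, Set.image_pair]
  congr 2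
  · ext1
    · rfl
    · exact Polynomial.map_zero _
  · congr 1
    ext1
    · exact Polynomial.map_neg _
    · exact Polynomial.map_one _

/-- Every class is fixed by an open subgroup. -/
theorem gal_level [Algebra.IsAlgebraic K Ω] [HypA (rts Ω a)] (Q : Jac Ω a) :
    ∃ L : IntermediateField K Ω, FiniteDimensional K L ∧
      ∀ s t : Ω ≃ₐ[K] Ω, (∀ x ∈ L, s x = t x) → gal Ω a s Q = gal Ω a t Q := by
  obtain ⟨A, B, -, -, rfl⟩ := exists_cls_mI Q
  classical
  let S : Finset Ω := A.coeffs ∪ B.coeffs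
  refine ⟨IntermediateField.adjoin K (S : Set Ω), ?_, fun s t hst => ?_⟩
  · exact IntermediateField.finiteDimensional_adjoin fun x _ =>
      (Algebra.IsAlgebraic.isAlgebraic x).isIntegral
  · have hp : ∀ p : Polynomial Ω, p.coeffs ⊆ S → p.map (s.toRingEquiv : Ω →+* Ω) =
        p.map (t.toRingEquiv : Ω →+* Ω) := by
      intro p hp
      ext n
      rw [coeff_map, coeff_map]
      by_cases h0 : p.coeff n = 0
      · rw [h0, map_zero, map_zero]
      · exact hst _ (IntermediateField.subset_adjoin K _ (hp (coeff_mem_coeffs h0)))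
    rw [gal_eq_act, gal_eq_act, act_cls, act_cls, map_mI, map_mI,
      hp A Finset.subset_union_left, hp B Finset.subset_union_right]

/-- `J(Ω)` is a Galois module. -/
theorem gMod_gal [Algebra.IsAlgebraic K Ω] [HypA (rts Ω a)] : GMod (gal Ω a) :=
  ⟨gal_one a, gal_mul a, gal_level a⟩

end jac

end Pool.Agent.SmJ.L
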