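import Pool.Agent.Lib.SmJ.Defs
import Pool.Agent.Lib.SmJ.L.GenGraph
import Pool.Agent.Lib.SM.E.TwD

/-!
SMITH for Jacobians, block L: the data `twdJ` (`TwData k (EV g)`) of the curve
`y ^ 2 = ∏ (x - a i)` over `k(t)`, and the expansion of the characters `chi (a i - a j)`.

`mapW c x = ∑ i, ∑ j, x i c(i, j) (δ i + δ j)`; `T μ = lap a (ell μ)` is of this form with
`c = v_(ell μ) (a i - a j)`, and `Tc` is defined by `c = lcz (a i - a j)`.
-/

set_option autoImplicit false

open Polynomial UniqueFactorizationMonoid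
open Pool.Agent.BSDP.R (primesOf)
open Pool.Agent.SmithE (vm lcz rf mem_primesOf vm_neg vm_eq_zero chi_poly)
open Pool.Agent.Lib.SmD (chi)

namespace Pool.Agent.SmJ.L

variable {k : Type} [Field k] {g : ℕ}

/-- `x ↦ ∑ i, ∑ j, x i c(i, j) (δ i + δ j)` -/
noncomputable def mapW (c : Fin (2 * g + 1) → Fin (2 * g + 1) → ZMod 2) : EV g →ₗ[ZMod 2] EV g where
  toFun x := ∑ i, ∑ j, (x.1 i * c i j) • dd i j
  map_add' x y := by
    rw [← Finset.sum_add_distrib]
    refine Finset.sum_congr rfl fun i _ => ?_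
    rw [← Finset.sum_add_distrib]
    refine Finset.sum_congr rfl fun j _ => ?_
    rw [← add_smul, ← add_mul]
    rfl
  map_smul' t x := by
    rw [RingHom.id_apply, Finset.smul_sum]
    refine Finset.sum_congr rfl fun i _ => ?_
    rw [Finset.smul_sum]
    refine Finset.sum_congr rfl fun j _ => ?_
    rw [smul_smul, ← mul_assoc]
    rfl

theorem mapW_apply (c : Fin (2 * g + 1) → Fin (2 * g + 1) → ZMod 2) (x : EV g) :
    mapW c x = ∑ i, ∑ j, (x.1 i * c i j) • dd i j := rfl

theorem dd_self (i : Fin (2 * g + 1)) : dd i i = 0 := by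
  apply Subtype.ext
  funext r
  rw [dd_apply]
  exact CharTwo.add_self_eq_zero _

theorem mapW_congr {c c' : Fin (2 * g + 1) → Fin (2 * g + 1) → ZMod 2}
    (h : ∀ i j, i ≠ j → c i j = c' i j) (x : EV g) : mapW c x = mapW c' x := by
  rw [mapW_apply, mapW_apply]
  refine Finset.sum_congr rfl fun i _ => Finset.sum_congr rfl fun j _ => ?_
  by_cases hij : i = j
  · rw [hij, dd_self, smul_zero, smul_zero]
  · rw [h i j hij]

theorem mapW_add (c c' : Fin (2 * g + 1) → Fin (2 * g + 1) → ZMod 2) (x : EV g) :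
    mapW (fun i j => c i j + c' i j) x = mapW c x + mapW c' x := by
  rw [mapW_apply, mapW_apply, mapW_apply, ← Finset.sum_add_distrib]
  refine Finset.sum_congr rfl fun i _ => ?_
  rw [← Finset.sum_add_distrib]
  refine Finset.sum_congr rfl fun j _ => ?_
  rw [mul_add, add_smul]

theorem mapW_mul (t : ZMod 2) (c : Fin (2 * g + 1) → Fin (2 * g + 1) → ZMod 2) (x : EV g) :
    mapW (fun i j => t * c i j) x = t • mapW c x := by
  rw [mapW_apply, mapW_apply, Finset.smul_sum]
  refine Finset.sum_congr rfl fun i _ => ?_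
  rw [Finset.smul_sum]
  refine Finset.sum_congr rfl fun j _ => ?_
  rw [smul_smul]
  congr 1
  ring

theorem mapW_sum {ι : Type} (S : Finset ι)
    (c : ι → Fin (2 * g + 1) → Fin (2 * g + 1) → ZMod 2) (x : EV g) :
    mapW (fun i j => ∑ s ∈ S, c s i j) x = ∑ s ∈ S, mapW (c s) x := by
  classical
  induction S using Finset.induction_on with
  | empty =>
    simp only [Finset.sum_empty]
    rw [mapW_apply]
    simp
  | insert s S hs ih =>
    simp only [Finset.sum_insert hs]
    rw [mapW_add, ih]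

/-- the components -/
theorem mapW_val (c : Fin (2 * g + 1) → Fin (2 * g + 1) → ZMod 2) (hc : ∀ i j, c i j = c j i)
    (x : EV g) (r : Fin (2 * g + 1)) :
    (mapW c x).1 r = ∑ j, if r = j then 0 else c r j * (x.1 r + x.1 j) := by
  have h1 : (mapW c x).1 r = ∑ i, ∑ j, x.1 i * c i j *
      ((if r = i then 1 else 0) + (if r = j then 1 else 0)) := by
    rw [mapW_apply, AddSubmonoidClass.coe_finsetSum, Finset.sum_apply]
    refine Finset.sum_congr rfl fun i _ => ?_
    rw [AddSubmonoidClass.coe_finsetSum, Finset.sum_apply]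
    refine Finset.sum_congr rfl fun j _ => ?_
    rw [← dd_apply]
    rfl
  have h2 : ∑ i, ∑ j, x.1 i * c i j * ((if r = i then 1 else 0) + (if r = j then 1 else 0)) =
      ∑ j, x.1 r * c r j + ∑ i, x.1 i * c i r := by
    simp only [mul_add, Finset.sum_add_distrib, mul_ite, mul_one, mul_zero]
    congr 1
    · rw [Finset.sum_comm]
      refine Finset.sum_congr rfl fun j _ => ?_
      rw [Finset.sum_ite_eq]
      simp
    · refine Finset.sum_congr rfl fun i _ => ?_
      rw [Finset.sum_ite_eq]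
      simp
  rw [h1, h2, ← Finset.sum_add_distrib]
  refine Finset.sum_congr rfl fun j _ => ?_
  rw [hc j r]
  by_cases h : r = j
  · rw [if_pos h, h]
    exact CharTwo.add_self_eq_zero _
  · rw [if_neg h]
    ring

theorem mult_eq_vm {P f : k[X]} (hP : P.Monic) (hi : Irreducible P) (hf : f ≠ 0) :
    (multiplicity P f : ZMod 2) = vm P f := by
  classical
  have h := emultiplicity_eq_count_normalizedFactors hi hf
  rw [hP.normalize_eq_self] at h
  have h1 : multiplicity P f = (normalizedFactors f).count P :=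
    multiplicity_eq_of_emultiplicity_eq_some h
  rw [h1]
  rfl

variable (a : Fin (2 * g + 1) → k[X])

/-- the product of the differences -/
noncomputable def dpr : k[X] := ∏ i, ∏ j ∈ Finset.Ioi i, (a i - a j)

variable {a}

theorem dpr_ne_zero (ha : Function.Injective a) : dpr a ≠ 0 := by
  refine Finset.prod_ne_zero_iff.mpr fun i _ => Finset.prod_ne_zero_iff.mpr fun j hj => ?_
  rw [Finset.mem_Ioi] at hj
  exact sub_ne_zero.mpr fun h => hj.ne (ha h)

theorem dvd_dpr {i j : Fin (2 * g + 1)} (h : i ≠ j) : a i - a j ∣ dpr a := by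
  have key : ∀ i j : Fin (2 * g + 1), i < j → a i - a j ∣ dpr a := by
    intro i j hij
    exact (Finset.dvd_prod_of_mem (fun j => a i - a j) (Finset.mem_Ioi.mpr hij)).trans
      (Finset.dvd_prod_of_mem (fun i => ∏ j ∈ Finset.Ioi i, (a i - a j)) (Finset.mem_univ i))
  rcases lt_or_gt_of_ne h with h1 | h1
  · exact key i j h1
  · rw [← neg_sub, neg_dvd]
    exact key j i h1

theorem dvd_dpr_iff {P : k[X]} (hP : Irreducible P) :
    P ∣ dpr a ↔ ∃ i j, i ≠ j ∧ P ∣ a i - a j := by
  constructor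
  · intro h
    obtain ⟨i, _, hi⟩ := (Prime.dvd_finsetProd_iff hP.prime _).mp h
    obtain ⟨j, hj, hij⟩ := (Prime.dvd_finsetProd_iff hP.prime _).mp hi
    rw [Finset.mem_Ioi] at hj
    exact ⟨i, j, hj.ne, hij⟩
  · rintro ⟨i, j, hij, h⟩
    exact h.trans (dvd_dpr hij)

/-- the bad primes, enumerated -/
noncomputable def ellJ (a : Fin (2 * g + 1) → k[X]) (i : Fin (primesOf (dpr a)).card) : k[X] :=
  ((primesOf (dpr a)).equivFin.symm i).1

theorem ellJ_mem (i : Fin (primesOf (dpr a)).card) : ellJ a i ∈ primesOf (dpr a) :=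
  ((primesOf (dpr a)).equivFin.symm i).2

theorem exists_ellJ {P : k[X]} (hP : P ∈ primesOf (dpr a)) : ∃ i, ellJ a i = P :=
  ⟨(primesOf (dpr a)).equivFin ⟨P, hP⟩, by simp [ellJ]⟩

theorem ellJ_inj : Function.Injective (ellJ a) := by
  intro i j h
  exact (primesOf (dpr a)).equivFin.symm.injective (Subtype.ext h)

/-- the data of the curve `y ^ 2 = ∏ (x - a i)` -/
noncomputable def twdJ (u : k) (hu : ¬ IsSquare u) (ha : Function.Injective a) (hg : Gen a) :
    TwData k (EV g) where
  e := dotE g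
  alt := dotE_alt
  nd := dotE_nd
  h := (primesOf (dpr a)).card
  ell := ellJ a
  u := u
  T := fun i => lap a (ellJ a i)
  Tc := mapW fun i j => lcz (a i - a j)
  ell_monic := fun i => ((mem_primesOf (dpr_ne_zero ha)).mp (ellJ_mem i)).1
  ell_irr := fun i => ((mem_primesOf (dpr_ne_zero ha)).mp (ellJ_mem i)).2.1
  ell_inj := ellJ_inj
  u_nonsq := hu
  symm := by
    intro i w w'
    rw [lap_symm a (ellJ a i) w' w]
    exact dotE_comm _ _
  gen := gen_range a hg (ellJ a) fun P hm hi ⟨i, j, hij, hd⟩ =>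
    exists_ellJ ((mem_primesOf (dpr_ne_zero ha)).mpr ⟨hm, hi, hd.trans (dvd_dpr hij)⟩)

/-- the bad primes are the monic irreducible factors of the differences -/
theorem twdJ_ell_iff {u : k} (hu : ¬ IsSquare u) (ha : Function.Injective a) (hg : Gen a)
    {P : k[X]} (hm : P.Monic) (hi : Irreducible P) :
    (∃ i, (twdJ u hu ha hg).ell i = P) ↔ P ∣ dpr a := by
  constructor
  · rintro ⟨i, rfl⟩
    exact ((mem_primesOf (dpr_ne_zero ha)).mp (ellJ_mem i)).2.2
  · intro hd
    exact exists_ellJ ((mem_primesOf (dpr_ne_zero ha)).mpr ⟨hm, hi, hd⟩)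

section main

variable [Finite k] {Ω : Type} [Field Ω] [Algebra (RatFunc k) Ω] [IsSepClosure (RatFunc k) Ω]

omit [Finite k] in
theorem lap_eq_mapW (ha : Function.Injective a) {P : k[X]} (hm : P.Monic) (hi : Irreducible P)
    (x : EV g) : lap a P x = mapW (fun i j => vm P (a i - a j)) x := by
  apply Subtype.ext
  funext r
  rw [mapW_val _ (fun i j => by rw [← neg_sub, vm_neg]), lap_apply]
  refine Finset.sum_congr rfl fun j _ => ?_
  by_cases h : r = j
  · rw [if_pos h, if_pos h]
  · rw [if_neg h, if_neg h, mult_eq_vm hm hi (sub_ne_zero.mpr fun h1 => h (ha h1))]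

/-- the value of `κ` (without the twist) in terms of the data -/
theorem mapW_chi (h2 : (2 : RatFunc k) ≠ 0) {u : k} (hu : ¬ IsSquare u)
    (ha : Function.Injective a) (hg : Gen a) (s : Ω ≃ₐ[RatFunc k] Ω) (w : EV g) :
    mapW (fun i j => chi (RatFunc k) (rf (a i - a j)) s) w =
      chi (RatFunc k) (rf (C u)) s • (twdJ u hu ha hg).Tc w +
        ∑ i, chi (RatFunc k) (rf ((twdJ u hu ha hg).ell i)) s • (twdJ u hu ha hg).T i w := by
  have h0 := dpr_ne_zero ha
  have hsub : ∀ i j, i ≠ j → primesOf (a i - a j) ⊆ primesOf (dpr a) := by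
    intro i j hij P hP
    obtain ⟨hm, hi, hPf⟩ := (mem_primesOf (sub_ne_zero.mpr fun h1 => hij (ha h1))).mp hP
    exact (mem_primesOf h0).mpr ⟨hm, hi, hPf.trans (dvd_dpr hij)⟩
  have h1 : mapW (fun i j => chi (RatFunc k) (rf (a i - a j)) s) w =
      mapW (fun i j => chi (RatFunc k) (rf (C u)) s * lcz (a i - a j) +
        ∑ P ∈ primesOf (dpr a), chi (RatFunc k) (rf P) s * vm P (a i - a j)) w := by
    refine mapW_congr (fun i j hij => ?_) w
    rw [chi_poly h2 hu (sub_ne_zero.mpr fun h1 => hij (ha h1)) _ (hsub i j hij) s]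
    congr 1
    · ring
    · exact Finset.sum_congr rfl fun P _ => mul_comm _ _
  rw [h1, mapW_add, mapW_mul, mapW_sum]
  congr 1
  have h3 : ∀ P ∈ primesOf (dpr a), mapW (fun i j => chi (RatFunc k) (rf P) s *
      vm P (a i - a j)) w = chi (RatFunc k) (rf P) s • lap a P w := by
    intro P hP
    obtain ⟨hm, hi, -⟩ := (mem_primesOf h0).mp hP
    rw [mapW_mul, lap_eq_mapW ha hm hi]
  rw [Finset.sum_congr rfl h3]
  symm
  refine Finset.sum_bij (fun i _ => ellJ a i) (fun i _ => ellJ_mem i)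
    (fun i _ j _ hij => ellJ_inj hij) (fun P hP => ?_) (fun i _ => rfl)
  obtain ⟨i, hi⟩ := exists_ellJ hP
  exact ⟨i, Finset.mem_univ _, hi⟩

end main

end Pool.Agent.SmJ.L
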