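import Pool.Agent.Lib.SmJ.L.AbsMain
import Pool.Agent.Lib.SmJ.L.TwJ

/-!
SMITH for Jacobians, block L: assembly, abstract form. The theorem for the twists by monic squarefree
`D` prime to the bad primes, for the data `twdJ` of the curve `y ^ 2 = ∏ (x - a i)`, from `Sys.Ok`,
`ChOk` and Theorem I.
-/

set_option autoImplicit false

open Polynomial

namespace Pool.Agent.SmJ.L

open Pool.Agent.SmK (DD)

/-- The number of the even vectors. -/
theorem card_EV (g : ℕ) : Nat.card (EV g) = 4 ^ g := by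
  have key : ∀ y : Fin (2 * g + 1) → ZMod 2, ∑ i, y i = 0 →
      (Fin.snoc (α := fun _ => ZMod 2) (fun i : Fin (2 * g) => y i.castSucc)
        (∑ i : Fin (2 * g), y i.castSucc) : Fin (2 * g + 1) → ZMod 2) = y := by
    intro y hx
    rw [Fin.sum_univ_castSucc] at hx
    have hx' : ∑ i : Fin (2 * g), y i.castSucc = y (Fin.last (2 * g)) :=
      CharTwo.add_eq_zero.mp hx
    funext i
    refine Fin.lastCases ?_ (fun j => ?_) i
    · rw [Fin.snoc_last]
      exact hx'
    · rw [Fin.snoc_castSucc]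
  have e : EV g ≃ (Fin (2 * g) → ZMod 2) :=
    { toFun := fun x i => x.1 i.castSucc
      invFun := fun y => ⟨Fin.snoc (α := fun _ => ZMod 2) y (∑ i, y i), by
        change ∑ i : Fin (2 * g + 1), (Fin.snoc (α := fun _ => ZMod 2) y (∑ i, y i) :
          Fin (2 * g + 1) → ZMod 2) i = 0
        rw [Fin.sum_univ_castSucc]
        simp only [Fin.snoc_castSucc, Fin.snoc_last]
        exact CharTwo.add_self_eq_zero _⟩
      left_inv := fun x => Subtype.ext (key x.1 x.2)
      right_inv := by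
        intro y
        funext i
        change (Fin.snoc (α := fun _ => ZMod 2) _ _ : Fin (2 * g + 1) → ZMod 2) i.castSucc = _
        rw [Fin.snoc_castSucc] }
  rw [Nat.card_congr e, Nat.card_eq_fintype_card, Fintype.card_pi, Finset.prod_const,
    Finset.card_univ, Fintype.card_fin, ZMod.card, pow_mul]
  norm_num

variable {k : Type} [Field k] {g : ℕ} {a : Fin (2 * g + 1) → k[X]}

/-- Membership in `DD`. -/
theorem mem_DD_badPJ [Finite k] {u : k} (hu : ¬ IsSquare u) (ha : Function.Injective a)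
    (hg : Gen a) {n : ℕ} {D : k[X]} (hm : D.Monic) (hsq : Squarefree D)
    (hco : IsCoprime D (dpr a)) (hn : D.natDegree = n) :
    D ∈ DD (badP (twdJ u hu ha hg)) n := by
  refine SmK.mem_DD.2 ⟨hm, hn, hsq, fun P hP hd => ?_⟩
  obtain ⟨hPm, hPi⟩ := badP_irr _ P hP
  have h1 := (twdJ_ell_iff hu ha hg hPm hPi).1 (mem_badP.1 hP)
  exact hPi.not_isUnit (hco.isUnit_of_dvd' hd h1)

/-- If `V1` is trivial then `V` is trivial. -/
theorem sys_trivial {G V V1 Pl : Type} [Group G] [AddCommGroup V] [DistribMulAction G V]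
    [AddCommGroup V1] [Module (ZMod 2) V1] [Subsingleton V1] {S : Sys G V V1 Pl} (h : S.Ok)
    (Q : V) : Q = 0 := by
  obtain ⟨j, hj⟩ := h.tors Q
  induction j with
  | zero => rwa [pow_zero, one_smul] at hj
  | succ j ih =>
    refine ih ?_
    rw [pow_succ', mul_smul] at hj
    obtain ⟨w, hw⟩ := h.iota_range _ hj
    rw [← hw, Subsingleton.elim w 0, map_zero]

/-- All but `ε` of the monic squarefree `D` prime to the bad primes have small Selmer groups of
level `j`: assembly for a predicate `P` which follows from the smallness. -/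
theorem good_of_abs [Finite k] {G V Pl : Type} [Group G] [AddCommGroup V] [DistribMulAction G V]
    {S : Sys G V (EV g) Pl} {ch : k[X] → G → ZMod 2} {pl : k[X] → Pl} {u : k}
    {hu : ¬ IsSquare u} {ha : Function.Injective a} {hg : Gen a} (hOk : S.Ok)
    (hc : ChOk S ch (twdJ u hu ha hg) pl)
    (hG : ∀ m, 1 ≤ m → GridThm S ch (twdJ u hu ha hg) m) (P : ℕ → k[X] → Prop)
    (hP : ∀ j, 1 ≤ j → ∀ D : k[X], D.Monic → Squarefree D → IsCoprime D (dpr a) →
      Finite {Psi : G → V // S.IsSel (ch D) j Psi} →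
      4 ^ g * Nat.card {Psi : G → V // S.IsSel (ch D) j Psi} < (4 ^ (g + 1)) ^ j → P j D)
    (ε : ℝ) (hε : 0 < ε) :
    ∃ j₀ : ℕ, ∀ j ≥ j₀, ∃ n₀ : ℕ, ∀ n ≥ n₀,
      (Nat.card {D : k[X] // D.Monic ∧ Squarefree D ∧ IsCoprime D (dpr a) ∧
        D.natDegree = n ∧ ¬ P j D} : ℝ) ≤ ε * (Nat.card k : ℝ) ^ n := by
  classical
  have : Fintype (EV g) := Fintype.ofFinite _
  rcases subsingleton_or_nontrivial (EV g) with hV | hV
  · -- the trivial case
    have hg1 : 4 ^ g = 1 := by
      rw [← card_EV, Nat.card_eq_fintype_card]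
      exact Fintype.card_le_one_iff_subsingleton.2 hV |>.antisymm Fintype.card_pos
    refine ⟨1, fun j hj => ⟨0, fun n _ => ?_⟩⟩
    have hempty : IsEmpty {D : k[X] // D.Monic ∧ Squarefree D ∧ IsCoprime D (dpr a) ∧
        D.natDegree = n ∧ ¬ P j D} := by
      refine ⟨fun D => D.2.2.2.2.2 (hP j hj D.1 D.2.1 D.2.2.1 D.2.2.2.1 ?_ ?_)⟩
      · have : Subsingleton {Psi : G → V // S.IsSel (ch D.1) j Psi} :=
          ⟨fun x y => Subtype.ext (funext fun s =>
            (sys_trivial hOk (x.1 s)).trans (sys_trivial hOk (y.1 s)).symm)⟩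
        exact Finite.of_subsingleton
      · have hsub : Subsingleton {Psi : G → V // S.IsSel (ch D.1) j Psi} :=
          ⟨fun x y => Subtype.ext (funext fun s =>
            (sys_trivial hOk (x.1 s)).trans (sys_trivial hOk (y.1 s)).symm)⟩
        have h1 : Nat.card {Psi : G → V // S.IsSel (ch D.1) j Psi} ≤ 1 :=
          Finite.card_le_one_iff_subsingleton.2 hsub
        have h2 : 1 < (4 ^ (g + 1)) ^ j :=
          Nat.one_lt_pow (by omega) (Nat.one_lt_pow (by omega) (by norm_num))
        rw [hg1, one_mul]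
        omega
    rw [Nat.card_of_isEmpty, Nat.cast_zero]
    positivity
  · obtain ⟨m₀, h1⟩ := abs_main hOk hc hG ε hε
    refine ⟨max m₀ 1, fun m hm => ?_⟩
    obtain ⟨n₀, h3⟩ := h1 m (le_trans (le_max_left _ _) hm)
    refine ⟨n₀, fun n hn => le_trans ?_ (h3 n hn)⟩
    set d := twdJ u hu ha hg with hd
    have hfin : Finite {D : k[X] // D ∈ DD (badP d) n ∧
        ¬ (Finite {Psi : G → V // S.IsSel (ch D) m Psi} ∧
          Nat.card (EV g) * Nat.card {Psi : G → V // S.IsSel (ch D) m Psi} <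
            (4 * Nat.card (EV g)) ^ m)} :=
      Finite.of_injective (β := {D : k[X] // D ∈ DD (badP d) n}) (fun D => ⟨D.1, D.2.1⟩)
        fun D D' h => Subtype.ext (congrArg (fun z : {D : k[X] // D ∈ DD (badP d) n} => z.1) h)
    have h4 : Nat.card {D : k[X] // D.Monic ∧ Squarefree D ∧ IsCoprime D (dpr a) ∧
          D.natDegree = n ∧ ¬ P m D} ≤
        Nat.card {D : k[X] // D ∈ DD (badP d) n ∧
          ¬ (Finite {Psi : G → V // S.IsSel (ch D) m Psi} ∧
            Nat.card (EV g) * Nat.card {Psi : G → V // S.IsSel (ch D) m Psi} <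
              (4 * Nat.card (EV g)) ^ m)} := by
      refine Nat.card_le_card_of_injective (fun D => ⟨D.1,
        mem_DD_badPJ hu ha hg D.2.1 D.2.2.1 D.2.2.2.1 D.2.2.2.2.1, fun hgd =>
        D.2.2.2.2.2 ?_⟩) fun D D' h => Subtype.ext (congrArg
          (fun z : {D : k[X] // D ∈ DD (badP d) n ∧
            ¬ (Finite {Psi : G → V // S.IsSel (ch D) m Psi} ∧
              Nat.card (EV g) * Nat.card {Psi : G → V // S.IsSel (ch D) m Psi} <
                (4 * Nat.card (EV g)) ^ m)} => z.1) h)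
      refine hP m (le_trans (le_max_right _ _) hm) D.1 D.2.1 D.2.2.1 D.2.2.2.1 hgd.1 ?_
      have h5 := hgd.2
      rw [card_EV] at h5
      rw [pow_succ' 4 g]
      exact h5
    exact_mod_cast h4

end Pool.Agent.SmJ.L
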