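import Pool.Agent.Lib.SmJ.G.CTDefs
import Pool.Agent.Lib.SmJ.Defs
import Pool.Agent.Lib.Sm.L.Vec

/-!
SMITH for Jacobians (MP_950c68_ag), general `V1`: vectors of primes, codes over an arbitrary index set, and the statement of
Theorem I (the interface between block I and block L).

`J` is the (finite) index set of ALL primes of `D`, small and large, `p : J → k[X]` the vector of
these primes, `ch f : G → ZMod 2` the Kummer character of `f`. The types of the codes do not depend
on `p`, so vectors `p`, `p'` over the same `J` can be compared.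
-/

set_option autoImplicit false

open Polynomial

namespace Pool.Agent.SmJ

open Pool.Agent.Sm (leg Irr Dir repl repl_dir repl_off N0)

section codes

variable {k : Type} [Field k] {V1 : Type} [AddCommGroup V1] [Module (ZMod 2) V1]

/-- Codes over the index set `J` (`JDefs.Code d D` with `PD D` replaced by `J`). -/
abbrev CodeJ (d : TwData k V1) (J : Type) : Type := V1 × (Fin d.h → V1) × (J → V1)

/-- The code of the 2-torsion point `w`. -/
def kapJ (d : TwData k V1) (J : Type) (w : V1) : CodeJ d J := (d.Tc w, fun i => d.T i w, fun _ => w)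

/-- A vector of distinct primes, prime to the bad ones. -/
structure PVec (d : TwData k V1) {J : Type} (p : J → k[X]) : Prop where
  monic : ∀ j, (p j).Monic
  irr : ∀ j, Irreducible (p j)
  inj : Function.Injective p
  ne : ∀ j i, p j ≠ d.ell i

/-- Same degrees and same symbols. -/
structure SymEq (d : TwData k V1) {J : Type} (p p' : J → k[X]) : Prop where
  deg : ∀ j, (p j).natDegree = (p' j).natDegree
  ell : ∀ j i, leg (p j) (d.ell i) = leg (p' j) (d.ell i)
  sym : ∀ i j, leg (p i) (p j) = leg (p' i) (p' j)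

/-- The explicit Selmer condition at the prime `p j`. -/
noncomputable def condJ (d : TwData k V1) {J : Type} [Fintype J] (p : J → k[X]) (c : CodeJ d J)
    (j : J) : V1 :=
  leg (p j) (C d.u) • (c.1 + d.Tc (c.2.2 j)) +
    ∑ i, leg (p j) (d.ell i) • (c.2.1 i + d.T i (c.2.2 j)) +
    ∑ l, leg (p j) (p l) • (c.2.2 l + c.2.2 j)

/-- The explicit Selmer group (`JDefs.Selp` in codes over `J`). -/
def SelpJ (d : TwData k V1) {J : Type} [Fintype J] (p : J → k[X]) : Set (CodeJ d J) :=
  {c | ∀ j, condJ d p c j = 0}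

end codes

section sel

variable {k : Type} [Field k] {G V V1 Pl : Type} [Group G] [AddCommGroup V] [DistribMulAction G V]
  [AddCommGroup V1] [Module (ZMod 2) V1]
variable (S : Sys G V V1 Pl) (ch : k[X] → G → ZMod 2) (d : TwData k V1) {J : Type} [Fintype J]

/-- The homomorphism coded by `c`. -/
noncomputable def homJ (p : J → k[X]) (c : CodeJ d J) (s : G) : V1 :=
  ch (C d.u) s • c.1 + ∑ i, ch (d.ell i) s • c.2.1 i + ∑ j, ch (p j) s • c.2.2 j

/-- The character of `D = ∏ j, p j`. -/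
def chiJ (p : J → k[X]) (s : G) : ZMod 2 := ∑ j, ch (p j) s

/-- The codes of the 2-Selmer group of the twist by `D = ∏ j, p j`. -/
def FJ (p : J → k[X]) : Set (CodeJ d J) := {c | S.IsSel1 (chiJ ch p) (homJ ch d p c)}

/-- `Psi` is a Selmer cocycle of level `i` above the code `a`: `2 ^ (i - 1) Psi = a`. -/
def Abv (p : J → k[X]) (i : ℕ) (a : CodeJ d J) (Psi : G → V) : Prop :=
  S.IsSel (chiJ ch p) i Psi ∧ ∀ s, (2 : ℕ) ^ (i - 1) • Psi s = S.iota (homJ ch d p a s)

/-- The relation `Lam i`: the pairs `(a, <Psi, .>)`, `Psi` of level `i` above `a`. The functional is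
extended by `0` to the codes outside `FJ`. -/
def LamJ (p : J → k[X]) (i : ℕ) : Set (CodeJ d J × (CodeJ d J → ZMod 2)) :=
  {y | y.1 ∈ FJ S ch d p ∧ ∃ Psi : G → V, Abv S ch d p i y.1 Psi ∧
    (∀ c ∈ FJ S ch d p, y.2 c = S.CT (chiJ ch p) Psi (homJ ch d p c)) ∧
    ∀ c, c ∉ FJ S ch d p → y.2 c = 0}

open Classical in
/-- `F_ab`: the value `<Psi, b>` for `Psi` of level `m` above `a` (`0` if there is none). -/
noncomputable def FFJ (p : J → k[X]) (m : ℕ) (a b : CodeJ d J) : ZMod 2 :=
  if h : ∃ Psi : G → V, Abv S ch d p m a Psi then S.CT (chiJ ch p) h.choose (homJ ch d p b) else 0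

end sel

section flags

variable {k : Type} [Field k] {V1 : Type} [AddCommGroup V1] [Module (ZMod 2) V1]
  {d : TwData k V1} {J : Type}

/-- `L 1 = F`, `L (i + 1) = {a | (a, 0) ∈ Lam i}`: the codes `a` with a Selmer cocycle of level
`i + 1` above. -/
def Lfl (F : Set (CodeJ d J)) (Lam : ℕ → Set (CodeJ d J × (CodeJ d J → ZMod 2))) :
    ℕ → Set (CodeJ d J)
  | 0 => F
  | 1 => F
  | i + 2 => {a | (a, 0) ∈ Lam (i + 1)}

/-- `b` is perpendicular to all Selmer cocycles of level `i` (`i = 0`: no condition). -/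
def Perp (Lam : ℕ → Set (CodeJ d J × (CodeJ d J → ZMod 2))) (i : ℕ) (b : CodeJ d J) : Prop :=
  1 ≤ i → ∀ y ∈ Lam i, y.2 b = 0

/-- `a` and `b` are independent modulo the codes of the 2-torsion. -/
def Indep2 (d : TwData k V1) {J : Type} (a b : CodeJ d J) : Prop :=
  ∀ (x y : ZMod 2) (w : V1), x • a + y • b = kapJ d J w → x = 0 ∧ y = 0

/-- Section I2 of the paper: a basis `c` of `F` modulo the 2-torsion, adapted to the flag
`L 1 ⊇ ... ⊇ L m`, with `c l1 = a` and `b` in the span of the others, and directions `dir` with the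
prescribed supports. -/
structure Supp (d : TwData k V1) {J : Type} (F : Set (CodeJ d J)) (L : ℕ → Set (CodeJ d J)) (m : ℕ)
    (a b : CodeJ d J) (dir : Dir m ↪ J) where
  r : ℕ
  c : Fin r → CodeJ d J
  l1 : Fin r
  l0 : Fin r
  e : V1
  e' : V1
  ne : l0 ≠ l1
  c_l1 : c l1 = a
  mem : ∀ l, c l ∈ F
  span : ∀ x ∈ F, ∃ (α : Fin r → ZMod 2) (w : V1), x = kapJ d J w + ∑ l, α l • c l
  indep : ∀ (α : Fin r → ZMod 2) (w : V1), ∑ l, α l • c l = kapJ d J w → α = 0
  adapted : ∀ i, 1 ≤ i → i ≤ m → ∀ x ∈ L i, ∃ (α : Fin r → ZMod 2) (w : V1),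
    x = kapJ d J w + ∑ l, α l • c l ∧ ∀ l, α l ≠ 0 → c l ∈ L i
  β : Fin r → ZMod 2
  b_eq : b = ∑ l, β l • c l
  β_l1 : β l1 = 0
  β_l0 : β l0 = 1
  supp0 : ∀ l (i : Fin m), (c l).2.2 (dir (some (some i))) = 0
  suppa : ∀ l, (c l).2.2 (dir (some none)) = if l = l1 then e else 0
  suppb : ∀ l, (c l).2.2 (dir none) = if l = l0 then e' else 0
  pair : d.e e e' = 1

end flags

section grid

variable {k : Type} [Field k] {G V V1 Pl : Type} [Group G] [AddCommGroup V] [DistribMulAction G V]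
  [AddCommGroup V1] [Module (ZMod 2) V1]

/-- Same symbols and same relations below level `m`. -/
def TypEq (S : Sys G V V1 Pl) (ch : k[X] → G → ZMod 2) (d : TwData k V1) {J : Type} [Fintype J] (m : ℕ)
    (p p' : J → k[X]) : Prop :=
  SymEq d p p' ∧ FJ S ch d p = FJ S ch d p' ∧
    ∀ i, 1 ≤ i → i < m → LamJ S ch d p i = LamJ S ch d p' i

open Classical in
/-- **Theorem I** at level `m`, as a statement. -/
def GridThm (S : Sys G V V1 Pl) (ch : k[X] → G → ZMod 2) (d : TwData k V1) (m : ℕ) : Prop :=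
  ∀ (R : ℕ) (η : ℝ), 0 < η → ∃ n₀ : ℕ, ∀ (J : Type) (_ : Fintype J) (p : J → k[X])
    (a b : CodeJ d J) (dir : Dir m ↪ J), PVec d p →
    n₀ ≤ (∏ j, p j).natDegree →
    (Nat.card J : ℝ) ≤ 2 * Real.log (∏ j, p j).natDegree →
    (∀ i, N0 (∏ j, p j).natDegree ≤ (p (dir i)).natDegree) →
    (∀ i j, (p j).natDegree = (p (dir i)).natDegree → j = dir i) →
    4 ∣ (p (dir none)).natDegree →
    Nat.card (FJ S ch d p) ≤ 2 ^ R →
    a ∈ Lfl (FJ S ch d p) (LamJ S ch d p) m →
    b ∈ FJ S ch d p →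
    Perp (LamJ S ch d p) (m - 1) b →
    Nonempty (Supp d (FJ S ch d p) (Lfl (FJ S ch d p) (LamJ S ch d p)) m a b dir) →
    |∑ᶠ x : (i : Dir m) → Irr k (p (dir i)).natDegree,
        if TypEq S ch d m (repl p dir fun i => (x i).1) p then
          (-1 : ℝ) ^ (FFJ S ch d (repl p dir fun i => (x i).1) m a b).val else 0| ≤
      η * ((∏ i, (Nat.card (Irr k (p (dir i)).natDegree) : ℝ)) /
        2 ^ ((m + 2) * (d.h + (Nat.card J - (m + 2)))))

end grid

end Pool.Agent.SmJ
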