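import Pool.Agent.Lib.SmJ.Inst.ChInst
import Pool.Agent.Lib.SmJ.I.GridThm
import Pool.Agent.Lib.SmB.P5Odd

/-!
SMITH for Jacobians (MP_950c68_ag), block L: Theorem I for the instance.
-/

set_option autoImplicit false

open Polynomial Pool.Agent.BSDFF

namespace Pool.Agent.SmJ.L

open Pool.Agent.SmithE (chP)

variable {k : Type} [Field k] [Finite k] {g : ℕ}

/-- Theorem I for the instance. -/
theorem gridThmJ (Ω : Type) [Field Ω] [Algebra (RatFunc k) Ω] [IsSepClosure (RatFunc k) Ω]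
    (a : Fin (2 * g + 1) → k[X]) [HypP a] (hS : (sysOf Ω a).Ok) {u : k} (hu : ¬ IsSquare u)
    (ha : Function.Injective a) (hg : Gen a) (m : ℕ) (hm : 1 ≤ m) :
    GridThm (sysOf Ω a) (chP Ω) (twdJ u hu ha hg) m := by
  have h2 : (2 : k) ≠ 0 := HypP.two (a := a)
  have : IsSepClosed Ω := IsSepClosure.sep_closed (RatFunc k)
  have : IsGalois (RatFunc k) Ω := inferInstance
  refine grid_thm hS (Inst.chOk a hu ha hg) (a := 4) (C := 11 * Nat.card k) ?_ m hm
  exact SmB.chebOdd h2 _ _ (fun P h _ => by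
    change Lib.SmD.sg Ω (Sm.Inst.plF P) = _
    rw [Sm.Inst.plF, dif_pos h]) (fun P h _ => by
    change Lib.SmD.ph Ω (Sm.Inst.plF P) = _
    rw [Sm.Inst.plF, dif_pos h])

end Pool.Agent.SmJ.L
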