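import Pool.Agent.Lib.SmJ.L.Final4
import Pool.Agent.Lib.SmJ.L.GalAct
import Pool.Agent.Lib.SmJ.L.AsmAbs
import Pool.Agent.Lib.SmJ.E.Kap
import Pool.Agent.Lib.SmJ.E.Half

/-!
SMITH for Jacobians, block L4: the facts `JOk` on the Galois module `J(Ω)`.
-/

set_option autoImplicit false

open Polynomial Pool.Agent.BSDFF Pool.Agent.BSDFF.MW
open Pool.Agent.Lib.SmD (chi)

namespace Pool.Agent.SmJ.L

section general

variable {K Ω : Type} [Field K] [Field Ω] [Algebra K Ω] {g : ℕ}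

theorem gal_eq_ga (a : Fin (2 * g + 1) → K) [HypA (rts Ω a)] (s : Ω ≃ₐ[K] Ω) (Q : Jac Ω a) :
    gal Ω a s Q = ga a s Q := gal_eq_act a s Q

variable (Ω) in
/-- The inclusion of the even vectors in `J(Ω)`. -/
noncomputable def iotaM (a : Fin (2 * g + 1) → K) [HypA (rts Ω a)] : EV g →+ Jac Ω a where
  toFun x := io (rts Ω a) (x : Fin (2 * g + 1) → ZMod 2)
  map_zero' := map_zero (io (rts Ω a))
  map_add' x y := map_add (io (rts Ω a)) x.1 y.1

theorem iotaM_apply (a : Fin (2 * g + 1) → K) [HypA (rts Ω a)] (x : EV g) :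
    iotaM Ω a x = io (rts Ω a) (x : Fin (2 * g + 1) → ZMod 2) := rfl

/-- The facts `JOk`, from the divisibility by `2`. -/
theorem jOk_of [IsGalois K Ω] [IsSepClosed Ω] (a : Fin (2 * g + 1) → K) [HypA (rts Ω a)]
    (hd : ∀ Q : JJ (ff (rts Ω a)), ∃ R, (2 : ℕ) • R = Q) : JOk a (iotaM Ω a) where
  gmod := gMod_gal a
  tors := by
    intro i
    have h1 : Nat.card (Gn (Jac Ω a) (2 ^ i)) =
        Nat.card {Q : JJ (ff (rts Ω a)) // (2 : ℕ) ^ i • Q = 0} :=
      Nat.card_congr ⟨fun Q => ⟨Q.1, mem_Gn.mp Q.2⟩, fun Q => ⟨Q.1, mem_Gn.mpr Q.2⟩,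
        fun _ => rfl, fun _ => rfl⟩
    rw [h1, card_tors hd, card_VJ_two, card_EV, pow_mul]
  half := hd
  fin := by
    intro j
    obtain ⟨N, hN, h⟩ := act_fin_of (K := K) (Ω := Ω) (a := a) hd j
    refine ⟨N, hN, fun s hs Q hQ => ?_⟩
    rw [gal_eq_ga]
    exact congrArg Subtype.val (h s hs ⟨Q, j, hQ⟩ (Subtype.ext hQ))
  inj := by
    rw [injective_iff_map_eq_zero]
    intro x hx
    exact Subtype.ext (io_inj (rts Ω a) x.2 hx)
  two := fun w => two_io _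
  range := by
    intro Q hQ
    obtain ⟨x, hx, h⟩ := io_range (rts Ω a) hQ
    exact ⟨⟨x, hx⟩, h⟩
  fix := by
    intro s w
    rw [gal_eq_ga]
    exact ga_io a s _
  kap := by
    intro z w hz s
    rw [gal_eq_ga]
    exact kapE z w hz s

end general

section main

variable {k : Type} [Field k] {Ω : Type} [Field Ω] [Algebra (RatFunc k) Ω] {g : ℕ}

theorem hypA_rk (h2 : (2 : k) ≠ 0) {b : Fin (2 * g + 1) → k[X]} (hb : Function.Injective b) :
    HypA (rts Ω (rk b)) := by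
  refine hypA_rts (rk b) (rk_inj hb) fun h => h2 ?_
  apply (algebraMap k (RatFunc k)).injective
  rw [map_ofNat, h, map_zero]

/-- The facts `JOk` for the Jacobian of `y ^ 2 = ∏ (x - b i)` over `k(t)`. -/
theorem jOk [IsSepClosure (RatFunc k) Ω] {b : Fin (2 * g + 1) → k[X]}
    [HypA (rts Ω (rk b))] : JOk (rk b) (iotaM Ω (rk b)) := by
  have hsc : IsSepClosed Ω := IsSepClosure.sep_closed (RatFunc k)
  have hgal : IsGalois (RatFunc k) Ω := inferInstance
  exact jOk_of (rk b) exists_half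

/-- The elements of `2`-power order. -/
theorem exists_VJ {a : Fin (2 * g + 1) → RatFunc k} [HypA (rts Ω a)] (Q : Jac Ω a)
    (hQ : ∃ i : ℕ, (2 : ℕ) ^ i • Q = 0) : ∃ x : VJ Ω a, (VJ Ω a).subtype x = Q :=
  ⟨⟨Q, hQ⟩, rfl⟩

/-- The action on the elements of `2`-power order. -/
theorem VJ_smul_eq {a : Fin (2 * g + 1) → RatFunc k} [HypA (rts Ω a)]
    (s : Ω ≃ₐ[RatFunc k] Ω) (x : VJ Ω a) :
    (VJ Ω a).subtype (s • x) = gal Ω a s ((VJ Ω a).subtype x) := by
  rw [gal_eq_ga]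
  rfl

end main

end Pool.Agent.SmJ.L
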