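import Pool.Agent.Lib.SmJ.L.Final
import Pool.Agent.Lib.SmJ.L.GridJ
import Pool.Agent.Lib.SmJ.L.AsmAbs
import Pool.Agent.Lib.SmJ.L.JOkInst
import Pool.Agent.Lib.SmJ.Inst.FinInv

/-!
SMITH for Jacobians (MP_950c68_ag), block L: the theorem for all squarefree `D`.
-/

set_option autoImplicit false

open Polynomial Pool.Agent.BSDFF
open Pool.Agent.SmithE (rf chP)

namespace Pool.Agent.SmJ.L

variable {k : Type} [Field k] [Finite k] {g : ℕ}

/-- In a finite field of odd characteristic there is a non-square. -/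
theorem exists_nonsq (h2 : (2 : k) ≠ 0) : ∃ u : k, ¬ IsSquare u := by
  have : Fintype k := Fintype.ofFinite k
  refine FiniteField.exists_nonsquare fun h => h2 ?_
  have : CharP k 2 := by rw [← h]; exact ringChar.charP k
  exact_mod_cast CharP.cast_eq_zero k 2

/-- The family of the twists by monic squarefree `D` prime to the bad primes. -/
theorem good_inst (Ω : Type) [Field Ω] [Algebra (RatFunc k) Ω] [IsSepClosure (RatFunc k) Ω]
    (h2 : (2 : k) ≠ 0) (b : Fin (2 * g + 1) → k[X]) (hb : Function.Injective b) (hg : Gen b)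
    (ε : ℝ) (hε : 0 < ε) :
    ∃ j₀ : ℕ, ∀ j ≥ j₀, ∃ n₀ : ℕ, ∀ n ≥ n₀,
      (Nat.card {D : k[X] // D.Monic ∧ Squarefree D ∧ IsCoprime D (dpr b) ∧
        D.natDegree = n ∧ ¬ GoodOn k (gal Ω (rk fun i => D * b i)) j} : ℝ) ≤
        ε * (Nat.card k : ℝ) ^ n := by
  obtain ⟨u, hu⟩ := exists_nonsq h2
  have hyp : HypP b := ⟨hb, h2⟩
  have hOk : (sysOf Ω b).Ok := sysOf_ok b
  refine good_of_abs hOk (Inst.chOk b hu hb hg) (fun m hm => gridThmJ Ω b hOk hu hb hg m hm)
    (fun j D => GoodOn k (gal Ω (rk fun i => D * b i)) j) (fun j hj D hm hsq hco hf hlt => ?_) ε hε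
  have hD : D ≠ 0 := hm.ne_zero
  have hbi : Function.Injective (fun i => D * b i) := injective_mul hb hD
  have hA : HypA (rts Ω (rk fun i => D * b i)) := hypA_rk h2 hbi
  have hA' : HypA (rts Ω (rk b)) := hypA_rk h2 hb
  exact goodOn_twistJ (Ω := Ω) h2 hu hb hD (fun i => rfl) (hg.twist hb hD) jOk (card_EV g)
    (fun c _ _ s Q => gal_eq_act c s Q) (e6_rts h2 _) (VJ Ω (rk b)).subtype
    Subtype.val_injective exists_VJ VJ_smul_eq (sysOf Ω b) rfl
    (fun v => ⟨Pool.Agent.Lib.SmD.ab Ω v, Pool.Agent.Sm.L.ab_ne_top v,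
      Pool.Agent.Sm.L.ab_const v, rfl⟩) hj hf hlt

/-- **All squarefree twists.** -/
theorem all_twists (h2 : (2 : k) ≠ 0) (a : Fin (2 * g + 1) → k[X]) (ha : Function.Injective a)
    (hg : Gen a) (ε : ℝ) (hε : 0 < ε) :
    ∃ j n₀ : ℕ, ∀ n ≥ n₀,
      (Nat.card {D : k[X] // Squarefree D ∧ D.natDegree = n ∧ ¬ Good a j D} : ℝ) ≤
        ε * (Nat.card {D : k[X] // Squarefree D ∧ D.natDegree = n} : ℝ) :=
  final_of h2 (fun b hb hg ε hε => good_inst (SeparableClosure (RatFunc k)) h2 b hb hg ε hε)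
    a ha hg ε hε

end Pool.Agent.SmJ.L
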