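import Pool.Agent.Lib.SmJ.L.HalfInst
import Pool.Agent.Lib.SmJ.L.Done
import Pool.Agent.Lib.SmJ.L.GridJ
import Pool.Agent.Lib.SmJ.L.JOkInst
import Pool.Agent.Lib.SmJ.Inst.FinInv
import Pool.Agent.Lib.SmJ.Inst.ParInst
import Pool.Agent.Lib.SmJ.Inst.QInst
import Pool.Agent.Lib.SmJ.P.MultInst

/-!
SMITH for Jacobians over `F_q(t)` (MP_950c68_ag), the theorem with parity: half of the squarefree
twists which keep an edge prime have corank `0` and half have corank `1` (`half_jac`), and a positive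
proportion of the squarefree twists has corank `0` if one of them has a 2-Selmer group of even
dimension (`pos_jac`).
-/

set_option autoImplicit false

open Polynomial Pool.Agent.BSDFF
open Pool.Agent.SmithE (rf chP)

namespace Pool.Agent.SmJ.L

variable {k : Type} [Field k] [Finite k] {g : ℕ}

/-- The facts on the instance. -/
theorem pFacts (Ω : Type) [Field Ω] [Algebra (RatFunc k) Ω] [IsSepClosure (RatFunc k) Ω]
    (b : Fin (2 * g + 1) → k[X]) [HypP b] {u : k} (hu : ¬ IsSquare u) (hg : Gen b) :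
    PFacts Ω b u hu hg where
  ok := sysOf_ok b
  ch := Inst.chOk b hu HypP.inj hg
  grid := fun m hm => gridThmJ Ω b (sysOf_ok b) hu HypP.inj hg m hm
  alt := fun _ _ _ _ hp =>
    altn_sysOf b (sysOf_ok b) (Code.codeOk (sysOf_ok b) (Inst.chOk b hu HypP.inj hg) hp)
  q := ⟨_, qOk⟩
  mult := by
    intro P hPm hE chi chi' hchi hchi' h0 h0' hph
    obtain ⟨hP, i, j, hij, hodd, hall⟩ := hE
    rw [Sm.Inst.plF_eq hP] at h0 h0' hph ⊢
    have h1 := sysOf_card_inf b (sysOf_ok b) hP hij hodd hall hchi hchi' h0 h0' hph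
    have hg1 : 1 ≤ g := by
      by_contra hcon
      have hg0 : g = 0 := by omega
      subst hg0
      exact hij (Fin.ext (by have h1 := i.2; have h2 := j.2; omega))
    refine ⟨2 * g - 1, ⟨g - 1, by omega⟩, ?_⟩
    have h3 : Nat.card (EV g) = 2 * 2 ^ (2 * g - 1) := by
      rw [card_EV, ← pow_succ', show 2 * g - 1 + 1 = 2 * g by omega, pow_mul]
      norm_num
    rw [h3] at h1
    exact Nat.eq_of_mul_eq_mul_left two_pos h1

/-- The facts on the Galois module. -/
theorem gFacts (h2 : (2 : k) ≠ 0) (Ω : Type) [Field Ω] [Algebra (RatFunc k) Ω]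
    [IsSepClosure (RatFunc k) Ω] (b : Fin (2 * g + 1) → k[X]) (hb : Function.Injective b) :
    GFacts Ω b := by
  have := hypA_rk (Ω := Ω) h2 hb
  exact ⟨⟨iotaM Ω (rk b), jOk⟩, e6_rts h2 (rk b)⟩

omit [Finite k] in
/-- `RR` over the separable closure is the conclusion `Good` and the corank. -/
theorem RR_iff {r j : ℕ} {a : Fin (2 * g + 1) → k[X]} {D : k[X]} :
    RR k (SeparableClosure (RatFunc k)) r j (fun i => D * a i) ↔ Good a j D ∧
      HasCorank k (gal (SeparableClosure (RatFunc k))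
        fun i => algebraMap k[X] (RatFunc k) (D * a i)) r := Iff.rfl

/-- **The parity theorem for hyperelliptic Jacobians over `F_q(t)`.** `a` are `2 g + 1` distinct
polynomials over the finite field `k` of odd characteristic, in general position (`Gen`). Among the
squarefree polynomials `D` of degree `n` for which some edge prime (a prime which divides exactly
one difference of the roots, to an odd power) does not divide `D`, half have the conclusions `Good`
of level `j` and 2-power Selmer corank `0`, and half have the conclusions and corank `1`, up to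
`ε` times the number of all the squarefree polynomials of degree `n`. -/
theorem half_jac (h2 : (2 : k) ≠ 0) (a : Fin (2 * g + 1) → k[X]) (ha : Function.Injective a)
    (hg : Gen a) (r : ℕ) (hr : r = 0 ∨ r = 1) (ε : ℝ) (hε : 0 < ε) :
    ∃ j₀ : ℕ, ∀ j ≥ j₀, ∃ n₀ : ℕ, ∀ n ≥ n₀,
      |(Nat.card {D : k[X] // Squarefree D ∧ D.natDegree = n ∧ MultJ a D ∧ Good a j D ∧
        HasCorank k (gal (SeparableClosure (RatFunc k))
          fun i => algebraMap k[X] (RatFunc k) (D * a i)) r} : ℝ) -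
        (Nat.card {D : k[X] // Squarefree D ∧ D.natDegree = n ∧ MultJ a D} : ℝ) / 2| ≤
        ε * (Nat.card {D : k[X] // Squarefree D ∧ D.natDegree = n} : ℝ) := by
  obtain ⟨u, hu⟩ := exists_nonsq h2
  exact half_final_of h2 (SeparableClosure (RatFunc k)) hu (fun b _ hg => pFacts _ b hu hg)
    (fun b hb => gFacts h2 _ b hb) a ha hg r hr ε hε

/-- **A positive proportion with corank `0`.** If the 2-Selmer group of the Jacobian of the twist by
one squarefree `D₀` has order a power of `4`, then for the `n` with the parity of `deg D₀` at least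
`c` times the number of the squarefree polynomials `D` of degree `n` have the conclusions `Good` of
level `j` and 2-power Selmer corank `0`. -/
theorem pos_jac (h2 : (2 : k) ≠ 0) (hg1 : 1 ≤ g) (a : Fin (2 * g + 1) → k[X])
    (ha : Function.Injective a) (hg : Gen a) (D₀ : k[X]) (hD₀ : Squarefree D₀)
    (hE : ∃ r : ℕ, Nat.card (Sel k (gal (SeparableClosure (RatFunc k))
      fun i => algebraMap k[X] (RatFunc k) (D₀ * a i)) 2) = 4 ^ r) :
    ∃ c : ℝ, 0 < c ∧ ∃ j₀ : ℕ, ∀ j ≥ j₀, ∃ n₀ : ℕ, ∀ n ≥ n₀, Even (n + D₀.natDegree) →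
      c * (Nat.card {D : k[X] // Squarefree D ∧ D.natDegree = n} : ℝ) ≤
        (Nat.card {D : k[X] // Squarefree D ∧ D.natDegree = n ∧ Good a j D ∧
          HasCorank k (gal (SeparableClosure (RatFunc k))
            fun i => algebraMap k[X] (RatFunc k) (D * a i)) 0} : ℝ) := by
  obtain ⟨u, hu⟩ := exists_nonsq h2
  refine pos_final_of h2 hg1 (SeparableClosure (RatFunc k)) hu (fun b _ hg => pFacts _ b hu hg)
    (fun b hb => gFacts h2 _ b hb) a ha hg D₀ hD₀ ?_
  obtain ⟨r, hr⟩ := hE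
  exact ⟨r, by rw [pow_one]; exact hr⟩

/-- The half theorem for one family, coranks only. -/
theorem half_fam_cor {Ω : Type} [Field Ω] [Algebra (RatFunc k) Ω] [IsSepClosure (RatFunc k) Ω]
    {b : Fin (2 * g + 1) → k[X]} [HypP b] {u : k} {hu : ¬ IsSquare u}
    {hgb : Gen b} (F : PFacts Ω b u hu hgb) (hP : ∃ P, EdgeAt b P)
    (hGF : ∀ D : k[X], D ≠ 0 → GFacts Ω fun i => D * b i) (ε : ℝ) (hε : 0 < ε) (r : ℕ)
    (hr : r ≤ 1) :
    ∃ j₀ : ℕ, ∀ j ≥ j₀, ∃ n₀ : ℕ, ∀ n ≥ n₀,
      |(Nat.card {D : k[X] // D.Monic ∧ Squarefree D ∧ IsCoprime D (dpr b) ∧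
        D.natDegree = n ∧ HasCorank k (gal Ω (rk fun i => D * b i)) r} : ℝ) -
        (Nat.card {D : k[X] // D.Monic ∧ Squarefree D ∧ IsCoprime D (dpr b) ∧
        D.natDegree = n} : ℝ) / 2| ≤ ε * (Nat.card k : ℝ) ^ n := by
  classical
  obtain ⟨P₀, hP₀⟩ := hP
  obtain ⟨P, hPm, hP⟩ := hP₀.monic
  have hg1 : 1 ≤ g := by
    obtain ⟨-, i, j, hij, -⟩ := hP
    by_contra hcon
    have h0 : g = 0 := by omega
    subst h0
    exact hij (Fin.ext (by have h1 := i.2; have h2 := j.2; omega))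
  obtain ⟨i0, hi0⟩ := (twdJ_ell_iff hu (HypP.inj (a := b)) hgb hPm hP.1).2 hP.dvd
  obtain ⟨qv, hq⟩ := F.q
  have hmult := F.mult P hPm hP
  rw [← hi0] at hmult
  have heven := SmJP.half_even F.ok F.ch hq (B := badP (twdJ u hu HypP.inj hgb))
    (fun P => mem_badP) i0 hmult
  have hdis : ∀ (_ : ℕ) (D : k[X]), HasCorank k (gal Ω (rk fun i => D * b i)) 0 →
      HasCorank k (gal Ω (rk fun i => D * b i)) 1 →
      False := fun _ D h0 h1 => absurd (HasCorank.unique h0 h1) (by norm_num)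
  have key := half_fam hg1 F.ok F.ch F.grid F.alt (fun ε hε => by
      obtain ⟨n0, hn⟩ := heven ε hε
      refine ⟨n0, fun n hnn => ?_⟩
      have h3 := hn n hnn
      convert h3 using 5
      ext D
      rw [Finset.mem_filter, Finset.mem_filter]
      exact Iff.rfl)
    (fun _ D => HasCorank k (gal Ω (rk fun i => D * b i)) 0)
    (fun _ D => HasCorank k (gal Ω (rk fun i => D * b i)) 1) hdis
    (fun j hj D hDm hDs hDc hf hlt hfin hB =>
      (cmp_twist hu hDm.ne_zero (hgb.twist HypP.inj hDm.ne_zero)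
          (hGF D hDm.ne_zero)).2.1 hfin hB)
    (fun j hj D hDm hDs hDc hf hlt hfin h8 hB =>
      (cmp_twist hu hDm.ne_zero (hgb.twist HypP.inj hDm.ne_zero)
          (hGF D hDm.ne_zero)).2.2.1 h8 hB) ε hε
  have hr' : r = 0 ∨ r = 1 := by omega
  rcases hr' with rfl | rfl
  · exact key.1
  · exact key.2

/-- The hypothesis of `parity_ofJ`. -/
theorem half_hhalfJ (h2 : (2 : k) ≠ 0) :
    ∀ r : ℕ, r ≤ 1 → ∀ b : Fin (2 * g + 1) → k[X], Function.Injective b → Gen b →
      (∃ P, EdgeAt b P) → ∀ ε : ℝ, 0 < ε → ∃ j₀ : ℕ, ∀ j ≥ j₀, ∃ n₀ : ℕ, ∀ n ≥ n₀,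
      |(Nat.card {D : k[X] // D.Monic ∧ Squarefree D ∧ IsCoprime D (dpr b) ∧
        D.natDegree = n ∧ HasCorank k (gal (SeparableClosure (RatFunc k)) fun i =>
          algebraMap k[X] (RatFunc k) (D * b i)) r} : ℝ) -
        (Nat.card {D : k[X] // D.Monic ∧ Squarefree D ∧ IsCoprime D (dpr b) ∧
        D.natDegree = n} : ℝ) / 2| ≤ ε * (Nat.card k : ℝ) ^ n := by
  intro r hr b hb hgb hPb ε hε
  obtain ⟨u, hu⟩ := exists_nonsq h2
  have : HypP b := ⟨hb, h2⟩
  exact half_fam_cor (pFacts (SeparableClosure (RatFunc k)) b hu hgb) hPb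
    (fun D hD => gFacts h2 _ _ (injective_mul hb hD)) ε hε r hr

end Pool.Agent.SmJ.L
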