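import Pool.Agent.Lib.SmJ.L.Vec

/-!
SMITH, block L: what block L needs to know about the tower of Selmer cocycles of one vector `p`
(delivered by blocks G, G6 and the module Code). Definitions only.
-/

set_option autoImplicit false

open Polynomial

namespace Pool.Agent.SmJ

variable {k : Type} [Field k] {G V V1 Pl : Type} [Group G] [AddCommGroup V] [DistribMulAction G V]
  [AddCommGroup V1] [Module (ZMod 2) V1]

/-- The number of the Selmer cocycles of level `i` of the twist by `∏ j, p j`. -/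
noncomputable def nZJ (S : Sys G V V1 Pl) (ch : k[X] → G → ZMod 2) {J : Type} [Fintype J]
    (p : J → k[X]) (i : ℕ) : ℕ := Nat.card {Psi : G → V // S.IsSel (chiJ ch p) i Psi}

/-- A basis of `F` modulo the 2-torsion, adapted to the flag, with `c l1 = a` and `b` in the span of
the others (the structure `Supp` without the directions). -/
structure Bas (d : TwData k V1) {J : Type} (F : Set (CodeJ d J)) (L : ℕ → Set (CodeJ d J)) (m : ℕ)
    (a b : CodeJ d J) where
  r : ℕ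
  c : Fin r → CodeJ d J
  l1 : Fin r
  l0 : Fin r
  ne : l0 ≠ l1
  c_l1 : c l1 = a
  mem : ∀ l, c l ∈ F
  span : ∀ x ∈ F, ∃ (α : Fin r → ZMod 2) (w : V1), x = kapJ d J w + ∑ l, α l • c l
  indep : ∀ (α : Fin r → ZMod 2) (w : V1), ∑ l, α l • c l = kapJ d J w → α = 0
  adapted : ∀ i, 1 ≤ i → i ≤ m → ∀ x ∈ L i, ∃ (α : Fin r → ZMod 2) (w : V1),
    x = kapJ d J w + ∑ l, α l • c l ∧ ∀ l, α l ≠ 0 → c l ∈ L i
  β : Fin r → ZMod 2
  b_eq : b = ∑ l, β l • c l
  β_l1 : β l1 = 0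
  β_l0 : β l0 = 1

open Classical in
/-- What block L needs for one vector `p` (with `PVec d p`). -/
structure LFacts [Fintype V1] (S : Sys G V V1 Pl) (ch : k[X] → G → ZMod 2) (d : TwData k V1) {J : Type} [Fintype J]
    (p : J → k[X]) : Prop where
  /-- module Code -/
  sub : FJ S ch d p ⊆ SelpJ d p
  fin : ∀ i, Finite {Psi : G → V // S.IsSel (chiJ ch p) i Psi}
  card_zero : nZJ S ch p 0 = 1
  card_succ : ∀ i, nZJ S ch p (i + 1) =
    nZJ S ch p i * Nat.card (Lfl (FJ S ch d p) (LamJ S ch d p) (i + 1))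
  recur : ∀ i, 1 ≤ i → (nZJ S ch p (i + 1) : ℝ) ≤ 3 * Nat.card V1 * nZJ S ch p i +
    nZJ S ch p (i - 1) *
    ∑ a : CodeJ d J, ∑ b : CodeJ d J,
      if a ∈ Lfl (FJ S ch d p) (LamJ S ch d p) i ∧ b ∈ FJ S ch d p ∧ Indep2 d a b ∧
        Perp (LamJ S ch d p) (i - 1) b then (-1 : ℝ) ^ (FFJ S ch d p i a b).val else 0
  basis : ∀ m, 1 ≤ m → ∀ a ∈ Lfl (FJ S ch d p) (LamJ S ch d p) m, ∀ b ∈ FJ S ch d p,
    Indep2 d a b → Nonempty (Bas d (FJ S ch d p) (Lfl (FJ S ch d p) (LamJ S ch d p)) m a b)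

end Pool.Agent.SmJ
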