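import Pool.Agent.Lib.SmJ.L.Pat
import Pool.Agent.Lib.Sm.L.NUgrid

/-!
SMITH for Jacobians, block L (general `V1`): near uniformity of the patterns off a set `S` of directions, on the grids
`(Ds, T)` of block K.
-/

set_option autoImplicit false

open Polynomial

namespace Pool.Agent.SmJ

open Pool.Agent.Sm (leg Irr PD JG vecG vecG_deg_inr N0 N0_large sqrt_pow_N0 two_pow_le_sq near_uniform_gen)

variable {k : Type} [Field k] [Finite k] {V1 : Type} [AddCommGroup V1] [Module (ZMod 2) V1]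

open Classical in
theorem nu_grid (h2 : (2 : k) ≠ 0) (d : TwData k V1) : ∃ n₀ : ℕ, ∀ n ≥ n₀,
    ∀ g : k[X] × Finset ℕ, SmK.IsGrid (badP d) (N0 n) n g →
    ((Nat.card (PD g.1) + g.2.card : ℕ) : ℝ) ≤ 2 * Real.log n →
    ∀ (s : PatG d g) (S : Finset g.2),
    (Nat.card {r : ∀ i : {i // i ∉ S}, Irr k (i.1 : ℕ) //
        ∃ P : SmK.Pts k g.2, patG d g P = s ∧ ∀ i, r i = P i} : ℝ) *
      2 ^ ((g.2.card - S.card) * (d.h + Nat.card (PD g.1)) + (g.2.card - S.card).choose 2) ≤
        2 * ∏ i ∈ Sᶜ, (Nat.card (Irr k (i : ℕ)) : ℝ) := by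
  obtain ⟨c, hc, hnu⟩ := near_uniform_gen
  set E : ℕ := ∑ i, (d.ell i).natDegree with hE
  have hq : 3 ≤ Nat.card k := by
    by_contra hlt
    have h3 : 1 < Nat.card k := Finite.one_lt_card
    have h4 : Nat.card k = 2 := by omega
    have := Fintype.ofFinite k
    rw [Nat.card_eq_fintype_card] at h4
    have h5 : ((Fintype.card k : ℕ) : k) = 0 := Nat.cast_card_eq_zero k
    rw [h4] at h5
    exact h2 (by exact_mod_cast h5)
  obtain ⟨n1, hn1⟩ := sqrt_pow_N0 (8 * 2 ^ d.h * c) (Nat.card k) hq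
  obtain ⟨n2, hn2⟩ := N0_large E
  refine ⟨max (max n1 n2) (max E 1), fun n hn g hg hfew s S => ?_⟩
  have hnn1 : n ≥ n1 := le_trans (le_trans (le_max_left _ _) (le_max_left _ _)) hn
  have hnn2 : n ≥ n2 := le_trans (le_trans (le_max_right _ _) (le_max_left _ _)) hn
  have hnE : E ≤ n := le_trans (le_trans (le_max_left _ _) (le_max_right _ _)) hn
  have hnone : 1 ≤ n := le_trans (le_trans (le_max_right _ _) (le_max_right _ _)) hn
  have hEN := hn2 n hnn2
  have hell : ∀ i, (d.ell i).natDegree < N0 n := fun i =>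
    lt_of_le_of_lt (Finset.single_le_sum (f := fun i => (d.ell i).natDegree)
      (fun _ _ => Nat.zero_le _) (Finset.mem_univ i)) hEN
  have hN : ∀ P ∈ badP d, P.natDegree < N0 n := by
    intro P hP
    obtain ⟨i, rfl⟩ := mem_badP.1 hP
    exact hell i
  let deg : {i // i ∉ S} → ℕ := fun i => (i.1 : ℕ)
  have hcard : Fintype.card {i // i ∉ S} = g.2.card - S.card := by
    rw [Fintype.card_subtype_compl, Fintype.card_coe, Fintype.card_coe]
  have hFcard : Nat.card (FG d g) = d.h + Nat.card (PD g.1) := by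
    rw [Nat.card_sum, Nat.card_eq_fintype_card (α := Fin d.h), Fintype.card_fin]
  have hdegsum : ∑ᶠ y, (fixG d g y).natDegree + ∑ i, deg i ≤ E + n := by
    have h3 : ∑ᶠ y, (fixG d g y).natDegree = E + ∑ P : PD g.1, P.1.natDegree := by
      rw [finsum_eq_sum_of_fintype, Fintype.sum_sum_type]
      rfl
    have h4 : ∑ P : PD g.1, P.1.natDegree = g.1.natDegree := by
      conv_rhs => rw [← SmK.prod_primesOf hg.monic hg.sqf]
      rw [natDegree_prod_of_monic _ _ fun P hP => (SmK.primesOf_irr hg.monic.ne_zero hP).1]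
      exact Finset.sum_coe_sort (Pool.Agent.BSDP.R.primesOf g.1) (fun P => P.natDegree)
    have h5 : ∑ i, deg i ≤ ∑ t ∈ g.2, t := by
      have h6 : ∑ t ∈ g.2, t = ∑ t : g.2, (t : ℕ) := (Finset.sum_coe_sort g.2 fun t => t).symm
      rw [h6]
      have h7 : ∑ i, deg i = ∑ t ∈ Finset.univ.filter (fun t : g.2 => t ∉ S), (t : ℕ) := by
        rw [← Finset.sum_subtype (p := fun t : g.2 => t ∉ S)
          (Finset.univ.filter fun t : g.2 => t ∉ S) (by simp) (fun t => (t : ℕ))]
      rw [h7]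
      exact Finset.sum_le_sum_of_subset (Finset.filter_subset _ _)
    have h6 := hg.deg
    omega
  have hnum : (Fintype.card {i // i ∉ S} : ℝ) *
      2 ^ (Nat.card (FG d g) + Fintype.card {i // i ∉ S}) * c * ((E + n : ℕ) : ℝ) ^ 2 ≤
      √(Nat.card k) ^ N0 n := by
    refine le_trans ?_ (hn1 n hnn1)
    have hn0 : (1 : ℝ) ≤ n := by exact_mod_cast hnone
    have h3 : (Fintype.card {i // i ∉ S} : ℝ) ≤ 2 * n := by
      have h4 : Fintype.card {i // i ∉ S} ≤ Nat.card (PD g.1) + g.2.card := by rw [hcard]; omega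
      have h5 : ((Fintype.card {i // i ∉ S} : ℕ) : ℝ) ≤ ((Nat.card (PD g.1) + g.2.card : ℕ) : ℝ) := by
        exact_mod_cast h4
      have h6 : Real.log n ≤ n := by
        have := Real.log_le_sub_one_of_pos (lt_of_lt_of_le one_pos hn0)
        linarith
      linarith
    have h4 : (2 : ℝ) ^ (Nat.card (FG d g) + Fintype.card {i // i ∉ S}) ≤ 2 ^ d.h * (n : ℝ) ^ 2 := by
      have h5 : (2 : ℝ) ^ (Nat.card (FG d g) + Fintype.card {i // i ∉ S}) ≤
          2 ^ (d.h + (Nat.card (PD g.1) + g.2.card)) := by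
        refine pow_le_pow_right₀ (by norm_num) ?_
        rw [hFcard, hcard]
        omega
      refine le_trans h5 ?_
      rw [pow_add]
      exact mul_le_mul_of_nonneg_left (two_pow_le_sq hnone hfew) (by positivity)
    have h5 : ((E + n : ℕ) : ℝ) ^ 2 ≤ 4 * (n : ℝ) ^ 2 := by
      have h6 : ((E + n : ℕ) : ℝ) ≤ 2 * n := by
        have : E + n ≤ 2 * n := by omega
        exact_mod_cast this
      nlinarith [Nat.cast_nonneg (α := ℝ) (E + n)]
    calc _ ≤ (2 * n) * (2 ^ d.h * (n : ℝ) ^ 2) * c * (4 * (n : ℝ) ^ 2) := by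
          refine mul_le_mul (mul_le_mul_of_nonneg_right (mul_le_mul h3 h4 (by positivity)
            (by positivity)) hc.le) h5 (by positivity) (by positivity)
      _ = 8 * 2 ^ d.h * c * (n : ℝ) ^ 5 := by ring
  have hinj : Function.Injective (fixG d g) := by
    rintro (i | P) (i' | P') h
    · exact congrArg Sum.inl (d.ell_inj h)
    · exfalso
      refine hg.notdvd (d.ell i) (mem_badP.2 ⟨i, rfl⟩) ?_
      change d.ell i = P'.1 at h
      rw [h]
      exact (pd_irr hg P').2.2.1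
    · exfalso
      refine hg.notdvd (d.ell i') (mem_badP.2 ⟨i', rfl⟩) ?_
      change P.1 = d.ell i' at h
      rw [← h]
      exact (pd_irr hg P).2.2.1
    · exact congrArg Sum.inr (Subtype.ext h)
  have key := hnu k inferInstance inferInstance h2 (FG d g) inferInstance (fixG d g) hinj
    (by rintro (i | P); exacts [d.ell_monic i, (pd_irr hg P).1])
    (by rintro (i | P); exacts [d.ell_irr i, (pd_irr hg P).2.1])
    {i // i ∉ S} inferInstance deg (E + n) (N0 n)
    (fun i j h => Subtype.ext (Subtype.ext h)) (fun i => hg.large _ i.1.2)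
    (by rintro (i | P); exacts [hell i, (pd_irr hg P).2.2.2]) hdegsum hnum
    (fun i y => s.1 i.1 y) (fun i j => if h : i.1 < j.1 then s.2 ⟨(i.1, j.1), h⟩ else 0)
  rw [hFcard, hcard] at key
  have hprod : ∏ i : {i // i ∉ S}, Nat.card (Irr k (deg i)) =
      ∏ i ∈ Sᶜ, Nat.card (Irr k (i : ℕ)) := by
    rw [← Finset.prod_subtype (p := fun t : g.2 => t ∉ S) Sᶜ (by simp)
      (fun t => Nat.card (Irr k (t : ℕ)))]
  rw [hprod] at key
  have key2 : ((Nat.card {P : (i : {i // i ∉ S}) → Irr k (deg i) //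
      (∀ i x, leg (P i).1 (fixG d g x) = s.1 i.1 x) ∧ ∀ i j, deg i < deg j →
        leg (P j).1 (P i).1 = if h : i.1 < j.1 then s.2 ⟨(i.1, j.1), h⟩ else 0} : ℕ) : ℝ) *
      2 ^ ((g.2.card - S.card) * (d.h + Nat.card (PD g.1)) + (g.2.card - S.card).choose 2) ≤
        2 * ∏ i ∈ Sᶜ, (Nat.card (Irr k (i : ℕ)) : ℝ) := by
    exact_mod_cast key
  refine le_trans (mul_le_mul_of_nonneg_right ?_ (by positivity)) key2
  norm_cast
  refine Nat.card_le_card_of_injective (fun r => ⟨r.1, ?_, ?_⟩) ?_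
  · intro i y
    obtain ⟨P, hP, hr⟩ := r.2
    rw [hr i, ← hP]
    rfl
  · intro i j hij
    obtain ⟨P, hP, hr⟩ := r.2
    have h3 : i < j := hij
    rw [dif_pos h3, hr i, hr j, ← hP]
    rfl
  · intro r r' h
    simp only [Subtype.mk.injEq] at h
    exact Subtype.ext h

end Pool.Agent.SmJ
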