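import Pool.Agent.Lib.SmJ.L.DirSum
import Pool.Agent.Lib.SmJ.L.DirChoice
import Pool.Agent.Lib.SmJ.L.NUgrid
import Pool.Agent.Lib.Sm.L.LevelSum

/-!
SMITH for Jacobians, block L (general `V1`): the independent part of the recursion is small on every grid.
-/

set_option autoImplicit false

open Polynomial

namespace Pool.Agent.SmJ

open Pool.Agent.Sm (leg Irr PD Dir JG vecG vecG_deg_inr N0 fsum fsum_eq fsum_congr finite_types grid_sum
  typeBound type_count)

variable {k : Type} [Field k] {G V V1 Pl : Type} [Group G] [AddCommGroup V] [DistribMulAction G V]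
  [AddCommGroup V1] [Module (ZMod 2) V1]

/-- The types below level `m`. -/
abbrev ThG (d : TwData k V1) (J : Type) (m : ℕ) : Type :=
  Set (CodeJ d J) × (Fin (m - 1) → Set (CodeJ d J × (CodeJ d J → ZMod 2)))

section fin

variable [Fintype V1]

open Classical in
/-- A fixed instance for the pairs of codes. -/
@[reducible] noncomputable def codeFin (d : TwData k V1) (J : Type) [Fintype J] :
    Fintype (CodeJ d J × CodeJ d J) := inferInstance

end fin

/-- The type of a vector. -/
def thG (S : Sys G V V1 Pl) (ch : k[X] → G → ZMod 2) (d : TwData k V1) (m : ℕ) {J : Type} [Fintype J]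
    (p : J → k[X]) : ThG d J m := (FJ S ch d p, fun i => LamJ S ch d p (i + 1))

open Classical in
/-- The relations as a function on all levels. -/
noncomputable def lamOf {d : TwData k V1} {J : Type} {m : ℕ}
    (L : Fin (m - 1) → Set (CodeJ d J × (CodeJ d J → ZMod 2))) (i : ℕ) :
    Set (CodeJ d J × (CodeJ d J → ZMod 2)) :=
  if h : i - 1 < m - 1 then L ⟨i - 1, h⟩ else ∅

theorem lamOf_thG (S : Sys G V V1 Pl) (ch : k[X] → G → ZMod 2) (d : TwData k V1) (m : ℕ) {J : Type}
    [Fintype J] (p : J → k[X]) {i : ℕ} (h1 : 1 ≤ i) (h2 : i < m) :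
    lamOf (thG S ch d m p).2 i = LamJ S ch d p i := by
  unfold lamOf thG
  rw [dif_pos (by omega)]
  simp only
  rw [Nat.sub_add_cancel h1]

theorem lfl_congr {d : TwData k V1} {J : Type} {F F' : Set (CodeJ d J)}
    {Lam Lam' : ℕ → Set (CodeJ d J × (CodeJ d J → ZMod 2))} {m : ℕ} (hF : F = F')
    (h : ∀ i, 1 ≤ i → i < m → Lam i = Lam' i) {i : ℕ} (hi : i ≤ m) :
    Lfl F Lam i = Lfl F' Lam' i := by
  match i with
  | 0 => exact hF
  | 1 => exact hF
  | i + 2 =>
    change {a | (a, 0) ∈ Lam (i + 1)} = {a | (a, 0) ∈ Lam' (i + 1)}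
    rw [h (i + 1) (by omega) (by omega)]

theorem perp_congr {d : TwData k V1} {J : Type}
    {Lam Lam' : ℕ → Set (CodeJ d J × (CodeJ d J → ZMod 2))} {m : ℕ}
    (h : ∀ i, 1 ≤ i → i < m → Lam i = Lam' i) (hm : 1 ≤ m) (b : CodeJ d J) :
    Perp Lam (m - 1) b ↔ Perp Lam' (m - 1) b := by
  unfold Perp
  constructor
  · intro h1 h2 y hy
    exact h1 h2 y (by rw [h (m - 1) h2 (by omega)]; exact hy)
  · intro h1 h2 y hy
    exact h1 h2 y (by rw [← h (m - 1) h2 (by omega)]; exact hy)

theorem typEq_iff (S : Sys G V V1 Pl) (ch : k[X] → G → ZMod 2) (d : TwData k V1) (m : ℕ) {J : Type}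
    [Fintype J] (p p' : J → k[X]) :
    TypEq S ch d m p p' ↔ SymEq d p p' ∧ thG S ch d m p = thG S ch d m p' := by
  unfold TypEq
  refine and_congr_right fun _ => ?_
  constructor
  · rintro ⟨h1, h2⟩
    refine Prod.ext h1 (funext fun i => ?_)
    exact h2 (i + 1) (by omega) (by have := i.2; omega)
  · intro h
    refine ⟨congrArg Prod.fst h, fun i h1 h2 => ?_⟩
    rw [← lamOf_thG S ch d m p h1 h2, ← lamOf_thG S ch d m p' h1 h2, h]

/-- The product of the orders of `L 1, ..., L i`. -/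
noncomputable def nzOf {d : TwData k V1} {J : Type} (F : Set (CodeJ d J))
    (Lam : ℕ → Set (CodeJ d J × (CodeJ d J → ZMod 2))) (i : ℕ) : ℕ :=
  ∏ l ∈ Finset.range i, Nat.card (Lfl F Lam (l + 1))

theorem nZJ_eq [Fintype V1] {S : Sys G V V1 Pl} {ch : k[X] → G → ZMod 2} {d : TwData k V1} {J : Type}
    [Fintype J] {p : J → k[X]} (h : LFacts S ch d p) (i : ℕ) :
    nZJ S ch p i = nzOf (FJ S ch d p) (LamJ S ch d p) i := by
  induction i with
  | zero => simp [nzOf, h.card_zero]
  | succ i ih => rw [h.card_succ, ih, nzOf, nzOf, Finset.prod_range_succ]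

theorem lfl_sub {S : Sys G V V1 Pl} {ch : k[X] → G → ZMod 2} {d : TwData k V1} {J : Type}
    [Fintype J] {p : J → k[X]} (i : ℕ) :
    Lfl (FJ S ch d p) (LamJ S ch d p) i ⊆ FJ S ch d p := by
  match i with
  | 0 => exact subset_rfl
  | 1 => exact subset_rfl
  | i + 2 =>
    intro a ha
    exact ha.1

theorem nZJ_le [Fintype V1] {S : Sys G V V1 Pl} {ch : k[X] → G → ZMod 2} {d : TwData k V1} {J : Type}
    [Fintype J] {p : J → k[X]} (h : LFacts S ch d p) {N : ℕ}
    (hN : Nat.card (FJ S ch d p) ≤ N) (i : ℕ) : nZJ S ch p i ≤ N ^ i := by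
  rw [nZJ_eq h, nzOf]
  refine le_trans (Finset.prod_le_prod (fun _ _ => Nat.zero_le _) (g := fun _ => N) ?_) ?_
  · intro l _
    exact le_trans (Nat.card_mono (Set.toFinite _) (lfl_sub _)) hN
  · rw [Finset.prod_const, Finset.card_range]

/-- The condition on the pair `(a, b)` in the recursion at level `m`. -/
def CondW (d : TwData k V1) {J : Type} (F : Set (CodeJ d J))
    (Lam : ℕ → Set (CodeJ d J × (CodeJ d J → ZMod 2))) (m : ℕ) (a b : CodeJ d J) : Prop :=
  a ∈ Lfl F Lam m ∧ b ∈ F ∧ Indep2 d a b ∧ Perp Lam (m - 1) b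

theorem supp_congr {d : TwData k V1} {J : Type} {F : Set (CodeJ d J)} {L L' : ℕ → Set (CodeJ d J)}
    {m : ℕ} {a b : CodeJ d J} {dir : Dir m ↪ J} (h : ∀ i, 1 ≤ i → i ≤ m → L i = L' i)
    (hs : Nonempty (Supp d F L m a b dir)) : Nonempty (Supp d F L' m a b dir) := by
  obtain ⟨s⟩ := hs
  exact ⟨{ s with
    adapted := fun i h1 h2 x hx => by
      have h3 := s.adapted i h1 h2 x (by rw [h i h1 h2]; exact hx)
      rw [h i h1 h2] at h3
      exact h3 }⟩

open Classical in
/-- The independent part of the recursion at level `m` for the vector `p`. -/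
noncomputable def indPart [Fintype V1] (S : Sys G V V1 Pl) (ch : k[X] → G → ZMod 2) (d : TwData k V1) {J : Type}
    [Fintype J] (p : J → k[X]) (m : ℕ) : ℝ :=
  nZJ S ch p (m - 1) * ∑ a : CodeJ d J, ∑ b : CodeJ d J,
    if CondW d (FJ S ch d p) (LamJ S ch d p) m a b then
      (-1 : ℝ) ^ (FFJ S ch d p m a b).val else 0

open Classical in
theorem indPart_eq [Fintype V1] (S : Sys G V V1 Pl) (ch : k[X] → G → ZMod 2) (d : TwData k V1) {J : Type}
    [Fintype J] (p : J → k[X]) (m : ℕ) : indPart S ch d p m =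
    ∑ a ∈ (@Finset.univ _ (codeFin d J)),
      (if CondW d (FJ S ch d p) (LamJ S ch d p) m a.1 a.2 then (nZJ S ch p (m - 1) : ℝ) else 0) *
        (-1 : ℝ) ^ (FFJ S ch d p m a.1 a.2).val := by
  have h := Fintype.sum_prod_type (fun a : CodeJ d J × CodeJ d J =>
      (if CondW d (FJ S ch d p) (LamJ S ch d p) m a.1 a.2 then (nZJ S ch p (m - 1) : ℝ) else 0) *
        (-1 : ℝ) ^ (FFJ S ch d p m a.1 a.2).val)
  refine Eq.trans ?_ h.symm
  unfold indPart
  rw [Finset.mul_sum]
  refine Finset.sum_congr rfl fun a _ => ?_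
  rw [Finset.mul_sum]
  refine Finset.sum_congr rfl fun b _ => ?_
  by_cases hc : CondW d (FJ S ch d p) (LamJ S ch d p) m a b
  · rw [if_pos hc, if_pos hc]
  · rw [if_neg hc, if_neg hc, zero_mul, mul_zero]

theorem level_sum [Fintype V1] [Nontrivial V1] [Finite k] [∀ n, Fintype (Irr k n)] (h2 : (2 : k) ≠ 0) (S : Sys G V V1 Pl)
    (ch : k[X] → G → ZMod 2) (d : TwData k V1) (m : ℕ) (hm : 1 ≤ m) (hG : GridThm S ch d m)
    (hL : ∀ (J : Type) (_ : Fintype J) (_ : Nonempty J) (p : J → k[X]), PVec d p →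
      LFacts S ch d p)
    (R kk : ℕ) (hmk : m ≤ kk) (hkk : 1 ≤ kk) :
    ∃ n₀ : ℕ, ∀ n ≥ n₀, ∀ g : k[X] × Finset ℕ, (∀ P ∈ badP d, P.natDegree < N0 n) →
    SmK.IsGrid (badP d) (N0 n) n g →
    ((Nat.card (PD g.1) + g.2.card : ℕ) : ℝ) ≤ 2 * Real.log n →
    |fsum (fun x : SmK.Pts k g.2 =>
        ∃ x', patG d g x' = patG d g x ∧ TypJ d (vecG g x') R kk (N0 n))
      (fun x => indPart S ch d (vecG g x) m)| ≤
        ∏ t : g.2, (Fintype.card (Irr k (t : ℕ)) : ℝ) := by
  classical
  set C : ℝ := (typeBound (2 ^ R) (m - 1) : ℝ) with hC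
  set W : ℝ := ((2 : ℝ) ^ R) ^ (m - 1) with hW
  have hC0 : 0 < C := by
    rw [hC]
    unfold typeBound
    positivity
  have hW0 : 0 < W := by rw [hW]; positivity
  set η : ℝ := 1 / (C * W * 2 ^ (1 + (m + 2).choose 2)) with hη
  have hη0 : 0 < η := by rw [hη]; positivity
  obtain ⟨n1, hn1⟩ := dir_sum S ch d m hG R η hη0
  obtain ⟨n2, hn2⟩ := nu_grid h2 d
  refine ⟨max (max n1 n2) 1, fun n hn g hN hg hfew => ?_⟩
  have hds := hn1 n (le_trans (le_trans (le_max_left _ _) (le_max_left _ _)) hn) g hN hg hfew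
  have hnu := hn2 n (le_trans (le_trans (le_max_right _ _) (le_max_left _ _)) hn) g hg hfew
  have hn1' : 1 ≤ n := le_trans (le_max_right _ _) hn
  have hpv : ∀ x : SmK.Pts k g.2, PVec d (vecG g x) := fun x => pvec_vecG hN hg x
  have hLx : ∀ x : SmK.Pts k g.2, LFacts S ch d (vecG g x) := by
    intro x
    refine hL _ _ ?_ _ (hpv x)
    by_contra hne
    rw [not_nonempty_iff] at hne
    have h3 := prod_vecG hg x
    rw [Finset.prod_of_isEmpty] at h3
    have h4 := (SmK.mem_DD.1 (SmK.ev_mem (badP_irr d) hN hg x).1).2.1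
    rw [← h3, natDegree_one] at h4
    omega
  have hsym : ∀ x x' : SmK.Pts k g.2, patG d g x = patG d g x' →
      SymEq d (vecG g x) (vecG g x') := fun x x' h => (symEq_iff h2 hN hg x x').2 h
  have : Finite (ThG d (JG g) m) := finite_types (CodeJ d (JG g)) (m - 1)
  let _ : Fintype (CodeJ d (JG g) × CodeJ d (JG g)) := codeFin d (JG g)
  let typ : PatG d g → Prop := fun s => ∃ x', patG d g x' = s ∧ TypJ d (vecG g x') R kk (N0 n)
  let w : PatG d g → ThG d (JG g) m → CodeJ d (JG g) × CodeJ d (JG g) → ℝ := fun _ t a =>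
    if CondW d t.1 (lamOf t.2) m a.1 a.2 then (nzOf t.1 (lamOf t.2) (m - 1) : ℝ) else 0
  let gf : CodeJ d (JG g) × CodeJ d (JG g) → SmK.Pts k g.2 → ℝ := fun a x =>
    (-1 : ℝ) ^ (FFJ S ch d (vecG g x) m a.1 a.2).val
  -- the relations of the type
  have hlam : ∀ x : SmK.Pts k g.2, ∀ i, 1 ≤ i → i < m →
      lamOf (thG S ch d m (vecG g x)).2 i = LamJ S ch d (vecG g x) i := fun x i h1 h3 =>
    lamOf_thG S ch d m _ h1 h3
  have hlfl : ∀ x : SmK.Pts k g.2, ∀ i, i ≤ m →
      Lfl (thG S ch d m (vecG g x)).1 (lamOf (thG S ch d m (vecG g x)).2) i =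
        Lfl (FJ S ch d (vecG g x)) (LamJ S ch d (vecG g x)) i := fun x i hi =>
    lfl_congr rfl (hlam x) hi
  have hcond : ∀ (x : SmK.Pts k g.2) (a b : CodeJ d (JG g)),
      CondW d (thG S ch d m (vecG g x)).1 (lamOf (thG S ch d m (vecG g x)).2) m a b ↔
        CondW d (FJ S ch d (vecG g x)) (LamJ S ch d (vecG g x)) m a b := by
    intro x a b
    unfold CondW
    rw [hlfl x m le_rfl, perp_congr (hlam x) hm b]
    exact Iff.rfl
  have hnz : ∀ x : SmK.Pts k g.2,
      nzOf (thG S ch d m (vecG g x)).1 (lamOf (thG S ch d m (vecG g x)).2) (m - 1) =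
        nZJ S ch (vecG g x) (m - 1) := by
    intro x
    rw [nZJ_eq (hLx x), nzOf, nzOf]
    refine Finset.prod_congr rfl fun l hl => ?_
    have hl' := Finset.mem_range.1 hl
    rw [hlfl x (l + 1) (by omega)]
  -- the Selmer groups are small
  have hsel : ∀ x : SmK.Pts k g.2, typ (patG d g x) →
      TypJ d (vecG g x) R kk (N0 n) := by
    rintro x ⟨x', h1, h3⟩
    exact h3.of_symEq h2 (hpv x') (hpv x) (hsym x' x h1)
  have hFcard : ∀ x : SmK.Pts k g.2, typ (patG d g x) →
      Nat.card (FJ S ch d (vecG g x)) ≤ 2 ^ R := by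
    intro x hx
    exact le_trans (Nat.card_mono (Set.toFinite _) (hLx x).sub) (hsel x hx).small
  have hcardT : Fintype.card g.2 = g.2.card := Fintype.card_coe g.2
  have key := grid_sum (ι := g.2) (fun t => Irr k (t : ℕ)) (patG d g)
    (fun x => thG S ch d m (vecG g x)) typ w gf W η C (m + 2) (d.h + Nat.card (PD g.1))
    hη0.le hW0.le hC0.le ?_ ?_ ?_ ?_ ?_
  · have h3 : C * W * η * 2 ^ (1 + (m + 2).choose 2) = 1 := by
      rw [hη]
      field_simp
    rw [h3, one_mul] at key
    refine le_trans (le_of_eq ?_) key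
    congr 1
    refine fsum_congr (fun x => Iff.rfl) fun x _ => ?_
    rw [indPart_eq]
    refine Finset.sum_congr rfl fun a _ => ?_
    simp only [w, gf]
    congr 1
    by_cases hc : CondW d (FJ S ch d (vecG g x)) (LamJ S ch d (vecG g x)) m a.1 a.2
    · rw [if_pos hc, if_pos ((hcond x a.1 a.2).2 hc), hnz x]
    · rw [if_neg hc, if_neg (fun h => hc ((hcond x a.1 a.2).1 h))]
  · -- weights
    rintro s t a hs ⟨P, rfl, rfl⟩
    simp only [w]
    split_ifs with h
    · rw [abs_of_nonneg (Nat.cast_nonneg _), hnz P, hW]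
      exact_mod_cast nZJ_le (hLx P) (hFcard P hs) (m - 1)
    · rw [abs_zero]
      exact hW0.le
  · -- number of types
    rintro s hs
    obtain ⟨x', hx', htx'⟩ := hs
    have h3 := type_count (SelpJ d (vecG g x')) (2 ^ R) (m - 1) htx'.small
      (fun q : ThG d (JG g) m × (CodeJ d (JG g) × CodeJ d (JG g)) =>
        w s q.1 q.2 ≠ 0 ∧ ∃ P, patG d g P = s ∧ thG S ch d m (vecG g P) = q.1) ?_
    · rw [hC]
      exact_mod_cast h3
    · rintro ⟨t, a, b⟩ ⟨hw, P, hP, rfl⟩
      have hsub : FJ S ch d (vecG g P) ⊆ SelpJ d (vecG g x') := by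
        rw [← selpJ_symEq h2 (hpv P) (hpv x') (hsym P x' (by rw [hP, hx']))]
        exact (hLx P).sub
      have hc : CondW d (FJ S ch d (vecG g P)) (LamJ S ch d (vecG g P)) m a b := by
        by_contra hc
        exact hw (if_neg fun h => hc ((hcond P a b).1 h))
      refine ⟨hsub, fun i y hy => ⟨hsub hy.1, fun c hc' => ?_⟩, hsub (lfl_sub m hc.1),
        hsub hc.2.1⟩
      obtain ⟨_, Psi, _, _, h5⟩ := hy
      exact h5 c fun h6 => hc' (hsub h6)
  · -- directions
    rintro s t ⟨a, b⟩ hs hw ⟨P0, hP0, rfl⟩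
    have hc : CondW d (FJ S ch d (vecG g P0)) (LamJ S ch d (vecG g P0)) m a b := by
      by_contra hc
      exact hw (if_neg fun h => hc ((hcond P0 a b).1 h))
    have ht0 : TypJ d (vecG g P0) R kk (N0 n) := hsel P0 (by rw [hP0]; exact hs)
    obtain ⟨B⟩ := (hLx P0).basis m hm a hc.1 b hc.2.1 hc.2.2.1
    obtain ⟨dir, hdir, hsupp⟩ := exists_supp ht0 (hLx P0).sub hmk hkk B
    have hinr : ∀ i, ∃ t : g.2, dir i = Sum.inr t := by
      intro i
      rcases h3 : dir i with Q | t
      · exfalso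
        have h4 := (hdir i).1
        rw [h3] at h4
        change N0 n ≤ Q.1.natDegree at h4
        have h5 := hg.small Q.1 Q.2
        omega
      · exact ⟨t, rfl⟩
    choose tt htt using hinr
    let tte : Dir m ↪ g.2 := ⟨tt, fun i j hij => dir.injective (by rw [htt, htt, hij])⟩
    have hdireq : dir = tte.trans Function.Embedding.inr := by
      ext i : 1
      exact htt i
    refine ⟨Finset.univ.map tte, ?_, ?_⟩
    · rw [Finset.card_map, Finset.card_univ, Fintype.card_option, Fintype.card_option,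
        Fintype.card_fin]
    · intro P hPs hPt
      have hF : FJ S ch d (vecG g P) = FJ S ch d (vecG g P0) := congrArg Prod.fst hPt
      have hLm : ∀ i, 1 ≤ i → i < m → LamJ S ch d (vecG g P0) i = LamJ S ch d (vecG g P) i := by
        intro i h1 h3
        rw [← hlam P i h1 h3, ← hlam P0 i h1 h3, hPt]
      have hc' : CondW d (FJ S ch d (vecG g P)) (LamJ S ch d (vecG g P)) m a b := by
        unfold CondW at hc ⊢
        rw [hF, ← lfl_congr rfl hLm le_rfl, ← perp_congr hLm hm b]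
        exact hc
      have hPtyp : typ (patG d g P) := by rw [hPs]; exact hs
      have h4 : 4 ∣ (tte none : ℕ) := by
        have h5 := (hdir none).2
        rw [htt] at h5
        rw [vecG_deg_inr] at h5
        exact h5
      have hb := hds a b tte P h4 (hFcard P hPtyp) hc'.1 hc'.2.1 hc'.2.2.2 (by
        rw [← hdireq, hF]
        exact supp_congr (fun i h1 h3 => lfl_congr rfl hLm h3) hsupp)
      rw [hcardT, Finset.prod_map]
      have hfil : fsum (fun x : SmK.Pts k g.2 =>
          (∀ t, (∀ i, tte i ≠ t) → x t = P t) ∧ TypEq S ch d m (vecG g x) (vecG g P))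
          (fun x => (-1 : ℝ) ^ (FFJ S ch d (vecG g x) m a b).val) =
          fsum (fun x : (i : g.2) → Irr k (i : ℕ) =>
            (∀ i ∉ Finset.univ.map tte, x i = P i) ∧ patG d g x = s ∧
              thG S ch d m (vecG g x) = thG S ch d m (vecG g P0)) (gf (a, b)) := by
        refine fsum_congr (fun x => ?_) fun x _ => rfl
        simp only [Finset.mem_univ, true_and, Finset.mem_map, not_exists]
        rw [typEq_iff, symEq_iff h2 hN hg, hPs, hPt]
      rw [hfil] at hb
      have hprod : ∏ i, (Nat.card (Irr k (tte i : ℕ)) : ℝ) =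
          ∏ i, (Fintype.card (Irr k (tte i : ℕ)) : ℝ) :=
        Finset.prod_congr rfl fun i _ => by rw [Nat.card_eq_fintype_card]
      rw [hprod] at hb
      exact hb
  · -- near uniformity
    intro s T hT
    have h3 := hnu s T
    rw [hT] at h3
    rw [hcardT]
    refine le_trans h3 (le_of_eq ?_)
    congr 1
    exact Finset.prod_congr rfl fun i _ => by rw [Nat.card_eq_fintype_card]
  · -- number of patterns
    rw [hcardT, card_PatG]

end Pool.Agent.SmJ
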