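import Pool.Agent.Lib.SmJ.L.MainCount
import Pool.Agent.Lib.SmJ.I.CodeL

/-!
SMITH for Jacobians, block L (general `V1`): `main_count` from `Sys.Ok`, `ChOk` and Theorem I.
-/

set_option autoImplicit false

open Polynomial

namespace Pool.Agent.SmJ

open Pool.Agent.SmK (DD)
open Pool.Agent.BSDP.R (primesOf)
open Pool.Agent.Sm (PD)

variable {k : Type} [Field k] {G V V1 Pl : Type} [Group G] [AddCommGroup V] [DistribMulAction G V]
  [AddCommGroup V1] [Module (ZMod 2) V1] {S : Sys G V V1 Pl} {ch : k[X] → G → ZMod 2}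
  {d : TwData k V1} {pl : k[X] → Pl}

/-- The character of the product. -/
theorem chiJ_eq_prod (hc : ChOk S ch d pl) (J : Type) [Fintype J] (p : J → k[X])
    (hp : PVec d p) : chiJ ch p = ch (∏ j, p j) := by
  classical
  funext s
  unfold chiJ
  have h1 : ∀ T : Finset J, ∑ j ∈ T, ch (p j) s = ch (∏ j ∈ T, p j) s := by
    intro T
    induction T using Finset.induction_on with
    | empty =>
      rw [Finset.sum_empty, Finset.prod_empty]
      have h2 := hc.mul 1 1 one_ne_zero one_ne_zero s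
      rw [mul_one] at h2
      exact (left_eq_add.mp h2).symm
    | insert i T hi ih =>
      rw [Finset.sum_insert hi, Finset.prod_insert hi, hc.mul _ _ (hp.monic i).ne_zero
        (Finset.prod_ne_zero_iff.2 fun j _ => (hp.monic j).ne_zero), ih]
  exact h1 Finset.univ

/-- The vector of all the primes of `D`. -/
theorem exists_pvec [Finite k] {n : ℕ} {D : k[X]} (hD : D ∈ DD (badP d) n) (hn : 1 ≤ n) :
    PVec d (fun P : PD D => P.1) ∧ ∏ P : PD D, P.1 = D ∧ Nonempty (PD D) := by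
  classical
  obtain ⟨hm, hdeg, hsq, hbad⟩ := SmK.mem_DD.1 hD
  have hprod : ∏ P : PD D, P.1 = D := by
    have h1 := SmK.prod_primesOf hm hsq
    rw [← Finset.prod_coe_sort] at h1
    exact h1
  refine ⟨⟨fun P => ?_, fun P => ?_, fun P Q h => Subtype.ext h, fun P i h => ?_⟩, hprod, ?_⟩
  · exact ((SmK.mem_primesOf hm.ne_zero).1 P.2).1
  · exact ((SmK.mem_primesOf hm.ne_zero).1 P.2).2.1
  · refine hbad (d.ell i) (mem_badP.2 ⟨i, rfl⟩) ?_
    rw [← h]
    exact ((SmK.mem_primesOf hm.ne_zero).1 P.2).2.2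
  · by_contra hne
    rw [not_nonempty_iff] at hne
    rw [Finset.prod_of_isEmpty] at hprod
    rw [← hprod, natDegree_one] at hdeg
    omega

/-- All but `ε` of the monic squarefree `D` prime to the bad primes have small Selmer groups of
level `m`. -/
theorem abs_main [Fintype V1] [Nontrivial V1] [Finite k] (h : S.Ok) (hc : ChOk S ch d pl)
    (hG : ∀ m, 1 ≤ m → GridThm S ch d m) (ε : ℝ) (hε : 0 < ε) :
    ∃ m₀ : ℕ, ∀ m ≥ m₀, ∃ n₀ : ℕ, ∀ n ≥ n₀,
      (Nat.card {D : k[X] // D ∈ DD (badP d) n ∧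
        ¬ (Finite {Psi : G → V // S.IsSel (ch D) m Psi} ∧
          Nat.card V1 * Nat.card {Psi : G → V // S.IsSel (ch D) m Psi} <
            (4 * Nat.card V1) ^ m)} : ℝ) ≤
        ε * (Nat.card k : ℝ) ^ n := by
  classical
  obtain ⟨m₀, h1⟩ := main_count hc.two S ch d (fun J _ p hp => chiJ_eq_prod hc J p hp) hG
    (fun J _ _ p hp => lfacts_of h hc hp) ε hε
  refine ⟨m₀, fun m hm => ?_⟩
  obtain ⟨n₀, h2⟩ := h1 m hm
  refine ⟨max n₀ 1, fun n hn => ?_⟩
  have hn1 : 1 ≤ n := le_trans (le_max_right _ _) hn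
  have h3 := h2 n (le_trans (le_max_left _ _) hn)
  have hfin : Finite {D : k[X] // D ∈ DD (badP d) n ∧ ¬ Nat.card V1 * nzD S ch D m < (4 * Nat.card V1) ^ m} :=
    Finite.of_injective (β := {D : k[X] // D ∈ DD (badP d) n}) (fun D => ⟨D.1, D.2.1⟩)
      fun D D' h => Subtype.ext (congrArg (fun z : {D : k[X] // D ∈ DD (badP d) n} => z.1) h)
  have h4 : Nat.card {D : k[X] // D ∈ DD (badP d) n ∧
        ¬ (Finite {Psi : G → V // S.IsSel (ch D) m Psi} ∧
          Nat.card V1 * Nat.card {Psi : G → V // S.IsSel (ch D) m Psi} <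
            (4 * Nat.card V1) ^ m)} ≤
      Nat.card {D : k[X] // D ∈ DD (badP d) n ∧ ¬ Nat.card V1 * nzD S ch D m < (4 * Nat.card V1) ^ m} := by
    refine Nat.card_le_card_of_injective (fun D => ⟨D.1, D.2.1, fun hlt => D.2.2 ⟨?_, hlt⟩⟩)
      fun D D' h => Subtype.ext (congrArg (fun z : {D : k[X] // D ∈ DD (badP d) n ∧
        ¬ Nat.card V1 * nzD S ch D m < (4 * Nat.card V1) ^ m} => z.1) h)
    obtain ⟨hp, hprod, hne⟩ := exists_pvec D.2.1 hn1
    have h5 := (lfacts_of h hc hp).fin m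
    rw [chiJ_eq_prod hc _ _ hp, hprod] at h5
    exact h5
  have h5 : ((DD (badP d) n).card : ℝ) ≤ (Nat.card k : ℝ) ^ n := by
    have h6 := Finset.card_le_card (SmK.DD_subset (badP d) n)
    rw [SmK.card_Mon] at h6
    exact_mod_cast h6
  calc _ ≤ (Nat.card {D : k[X] // D ∈ DD (badP d) n ∧ ¬ Nat.card V1 * nzD S ch D m < (4 * Nat.card V1) ^ m} : ℝ) := by
        exact_mod_cast h4
    _ ≤ ε * ((DD (badP d) n).card : ℝ) := h3
    _ ≤ _ := mul_le_mul_of_nonneg_left h5 hε.le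

end Pool.Agent.SmJ
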