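import Pool.Agent.Lib.SmJ.L.Kum
import Pool.Agent.Lib.SmJ.Sys
import Pool.Agent.Lib.SmD.NN

/-!
SMITH for Jacobians, block L4, for abstract Galois modules: the bridge. A Selmer cocycle of the
quadratic twist `M'` of `M` (finite level, values in `M'[2^j]`) is a Selmer cocycle of the abstract
structure `Sys` (2-finite, values in `V[2^j]`, `V` the 2-power torsion of `M`, twisted action).
-/

set_option autoImplicit false

namespace Pool.Agent.SmJ.L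

section

variable {k K Ω : Type} [Field k] [Field K] [Field Ω] [Algebra k K] [Algebra K Ω]
variable {M M' V V1 Pl : Type} [AddCommGroup M] [AddCommGroup M']
variable {ρ : (Ω ≃ₐ[K] Ω) → M →+ M} {ρ' : (Ω ≃ₐ[K] Ω) → M' →+ M'}

/-- A finite level cocycle with values in `M[2^j]` is `2`-finite. -/
theorem twoFin_of_level [IsGalois K Ω] {j : ℕ}
    (hN : ∃ N ∈ SmD.NN K Ω, ∀ s ∈ N, ∀ Q : M, (2 : ℕ) ^ j • Q = 0 → ρ s Q = Q)
    {ψ : (Ω ≃ₐ[K] Ω) → M} (hc : ∀ s t, ψ (s * t) = ψ s + ρ s (ψ t)) (h1' : ∀ Q, ρ 1 Q = Q)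
    (ht : ∀ s, (2 : ℕ) ^ j • ψ s = 0)
    (hL : ∃ L : IntermediateField K Ω, FiniteDimensional K L ∧
      ∀ s t : Ω ≃ₐ[K] Ω, (∀ x ∈ L, s x = t x) → ψ s = ψ t) :
    ∃ N ∈ SmD.NN K Ω, ∀ s, ∀ n ∈ N, ψ (s * n) = ψ s := by
  obtain ⟨N, hNN, hN⟩ := hN
  obtain ⟨L, hLf, hL⟩ := hL
  have h1 : ψ 1 = 0 := by
    have h := hc 1 1
    rw [mul_one, h1'] at h
    exact left_eq_add.mp h
  have hNn := SmD.NN.normal hNN
  let H : Subgroup (Ω ≃ₐ[K] Ω) :=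
    { carrier := {h | h ∈ N ∧ ψ h = 0}
      one_mem' := ⟨N.one_mem, h1⟩
      mul_mem' := by
        rintro a b ⟨ha, ha'⟩ ⟨hb, hb'⟩
        exact ⟨N.mul_mem ha hb, by rw [hc, ha', hb', map_zero, add_zero]⟩
      inv_mem' := by
        rintro a ⟨ha, ha'⟩
        refine ⟨N.inv_mem ha, ?_⟩
        have h := hc a⁻¹ a
        rw [inv_mul_cancel, h1, ha', map_zero, add_zero] at h
        exact h.symm }
  have hmem : ∀ h, h ∈ H ↔ h ∈ N ∧ ψ h = 0 := fun h => Iff.rfl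
  have hpow : ∀ τ ∈ N, ∀ a : ℕ, ψ (τ ^ a) = a • ψ τ := by
    intro τ hτ a
    induction a with
    | zero => rw [pow_zero, h1, zero_smul]
    | succ a ih =>
      rw [pow_succ', hc, ih, hN τ hτ, succ_nsmul']
      rw [smul_comm, ht, smul_zero]
  refine ⟨H, SmD.mem_NN_of_pow ?_ ?_ ?_, ?_⟩
  · refine ⟨fun h hh t => ?_⟩
    rw [hmem] at hh ⊢
    refine ⟨hNn.conj_mem h hh.1 t, ?_⟩
    have h2 : ψ t + ρ t (ψ t⁻¹) = 0 := by rw [← hc, mul_inv_cancel, h1]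
    rw [mul_assoc, hc, hc, hh.2, zero_add, hN h hh.1 _ (ht _), h2]
  · have h2 : N ⊓ L.fixingSubgroup ≤ H := by
      intro h hh
      rw [hmem]
      refine ⟨hh.1, ?_⟩
      rw [← h1]
      refine hL h 1 fun x hx => ?_
      exact (IntermediateField.mem_fixingSubgroup_iff L h).mp hh.2 x hx
    refine Subgroup.isOpen_mono h2 ?_
    rw [Subgroup.coe_inf]
    exact (SmD.NN.isOpen hNN).inter (IntermediateField.fixingSubgroup_isOpen L)
  · intro σ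
    obtain ⟨r, hr⟩ := hNN.2.2
    have h2 : σ ^ (2 ^ r) ∈ N := by
      rw [← hr]
      exact Subgroup.pow_index_mem N σ
    refine ⟨r + j, ?_⟩
    rw [hmem, pow_add, pow_mul]
    refine ⟨N.pow_mem h2 _, ?_⟩
    rw [hpow _ h2, ht]
  · intro s n hn
    rw [hmem] at hn
    rw [hc, hn.2, map_zero, add_zero]

variable (k) in
/-- The local cocycles with values in the `2`-power torsion are coboundaries of `2`-power torsion
elements (E6). -/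
def E6Prop (ρ : (Ω ≃ₐ[K] Ω) → M →+ M) : Prop :=
  ∀ w : ValuationSubring Ω, w ≠ ⊤ → (∀ x : k, algebraMap K Ω (algebraMap k K x) ∈ w) →
    ∀ (j : ℕ) (Q : M), (∀ s ∈ w.decompositionSubgroup K, (2 : ℕ) ^ j • (ρ s Q - Q) = 0) →
    ∃ Q' : M, (∃ i : ℕ, (2 : ℕ) ^ i • Q' = 0) ∧
      ∀ s ∈ w.decompositionSubgroup K, ρ s Q - Q = ρ s Q' - Q'

variable [AddCommGroup V] [DistribMulAction (Ω ≃ₐ[K] Ω) V] [AddCommGroup V1]
  [Module (ZMod 2) V1]

theorem bridge [IsGalois K Ω] (h' : GMod ρ') (φ : M ≃+ M') (χ : (Ω ≃ₐ[K] Ω) → ZMod 2)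
    (hφ : ∀ (s : Ω ≃ₐ[K] Ω) (Q : M), ρ' s (φ Q) = φ (sgn (χ s) • ρ s Q))
    (inc : V →+ M) (hinc : Function.Injective inc)
    (hinc' : ∀ Q : M, (∃ i : ℕ, (2 : ℕ) ^ i • Q = 0) → ∃ x, inc x = Q)
    (heq : ∀ (s : Ω ≃ₐ[K] Ω) (x : V), inc (s • x) = ρ s (inc x))
    (hact : ∀ j : ℕ, ∃ N ∈ SmD.NN K Ω, ∀ s ∈ N, ∀ Q : M', (2 : ℕ) ^ j • Q = 0 → ρ' s Q = Q)
    (S : Sys (Ω ≃ₐ[K] Ω) V V1 Pl) (hNN : S.NN = SmD.NN K Ω)
    (hDv : ∀ v : Pl, ∃ w : ValuationSubring Ω, w ≠ ⊤ ∧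
      (∀ c : k, algebraMap K Ω (algebraMap k K c) ∈ w) ∧ S.D v = w.decompositionSubgroup K)
    (hE6 : E6Prop k ρ') (j : ℕ) :
    ∃ f : ZSel k ρ' (2 ^ j) → {Psi // S.IsSel χ j Psi}, Function.Injective f := by
  have hφ' : ∀ (s : Ω ≃ₐ[K] Ω) (Q : M'), φ.symm (ρ' s Q) = sgn (χ s) • ρ s (φ.symm Q) := by
    intro s Q
    apply φ.injective
    rw [← hφ, AddEquiv.apply_symm_apply, AddEquiv.apply_symm_apply]
  have hmem : ∀ (i : ℕ) (Q : M'), (2 : ℕ) ^ i • Q = 0 → ∃ x, inc x = φ.symm Q := by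
    intro i Q hQ
    refine hinc' _ ⟨i, ?_⟩
    rw [← map_nsmul, hQ, map_zero]
  choose F hF using fun ψ : ZSel k ρ' (2 ^ j) => fun s => hmem j _ (ψ.2.tors s)
  refine ⟨fun ψ => ⟨F ψ, ?_⟩, ?_⟩
  · have hc := ψ.2.cocycle
    refine ⟨?_, fun s t => ?_, fun s => ?_, fun v => ?_⟩
    · obtain ⟨N1, hN1, hN1'⟩ := twoFin_of_level (j := j) (hact j) hc h'.one ψ.2.tors ψ.2.cont
      refine ⟨N1, by rw [hNN]; exact hN1, fun s n hn => ?_⟩
      apply hinc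
      rw [hF, hF, hN1' s n hn]
    · apply hinc
      rw [tw, map_add, map_zsmul, heq, hF, hF, hF, hc, map_add, hφ']
    · apply hinc
      rw [map_nsmul, hF, ← map_nsmul, map_zero]
      exact (congrArg φ.symm (ψ.2.tors s)).trans (map_zero _)
    · obtain ⟨w, hw, hw', hDw⟩ := hDv v
      obtain ⟨Q, hQ⟩ := ψ.2.loc w hw hw'
      obtain ⟨Q', ⟨i, hi⟩, hQ'⟩ := hE6 w hw hw' j Q (fun s hs => by
        rw [← hQ s hs]
        exact ψ.2.tors s)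
      obtain ⟨x, hx⟩ := hmem i Q' hi
      refine ⟨x, fun s hs => ?_⟩
      rw [hDw] at hs
      apply hinc
      rw [hF, dl, tw, map_sub, map_zsmul, heq, hx, ← hφ', ← map_sub, ← hQ' s hs]
      exact congrArg φ.symm (hQ s hs)
  · intro ψ ψ' h
    apply Subtype.ext
    funext s
    have h3 := congrFun (congrArg Subtype.val h) s
    apply φ.symm.injective
    rw [← hF ψ s, ← hF ψ' s]
    exact congrArg inc h3

end

end Pool.Agent.SmJ.L
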