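import Pool.Agent.Lib.SmJ.L.TwJ

/-!
SMITH for Jacobians, parity: the maps `mapW c` of the even vectors whose weights `c i j` are equal to
`t` with the exception of a matching.
-/

set_option autoImplicit false

namespace Pool.Agent.SmJ.L

variable {g : ℕ}

private theorem EvenGraph_sum {n : ℕ} (F : Fin n → Fin n → ZMod 2) (hs : ∀ i j, F i j = F j i)
    (hd : ∀ i, F i i = 0) : ∑ i, ∑ j, F i j = 0 := by
  have h1 : ∑ i, ∑ j, F i j = ∑ p : Fin n × Fin n, F p.1 p.2 := (Fintype.sum_prod_type' F).symm
  rw [h1]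
  refine Finset.sum_involution (fun p _ => (p.2, p.1)) (fun p _ => ?_) (fun p _ hp hpp => ?_)
    (fun _ _ => Finset.mem_univ _) fun _ _ => rfl
  · rw [hs p.2 p.1]
    exact CharTwo.add_self_eq_zero _
  · apply hp
    have : p.1 = p.2 := (congrArg Prod.snd hpp)
    rw [this]
    exact hd _

/-- The vector of the degrees. -/
def degv (c : Fin (2 * g + 1) → Fin (2 * g + 1) → ZMod 2) (hc : ∀ i j, c i j = c j i) : EV g :=
  ⟨fun i => ∑ j, if i = j then 0 else c i j, by
    change ∑ i, ∑ j, (if i = j then (0 : ZMod 2) else c i j) = 0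
    refine EvenGraph_sum _ (fun i j => ?_) fun i => if_pos rfl
    by_cases h : i = j
    · rw [if_pos h, if_pos h.symm]
    · rw [if_neg h, if_neg (Ne.symm h), hc]⟩

theorem degv_val (c : Fin (2 * g + 1) → Fin (2 * g + 1) → ZMod 2) (hc : ∀ i j, c i j = c j i)
    (i : Fin (2 * g + 1)) : (degv c hc).1 i = ∑ j, if i = j then 0 else c i j := rfl

/-- The diagonal of the form `<mapW c x, y>`. -/
theorem dot_mapW (c : Fin (2 * g + 1) → Fin (2 * g + 1) → ZMod 2) (hc : ∀ i j, c i j = c j i)
    (w : EV g) : dotE g (mapW c w) w = dotE g w (degv c hc) := by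
  rw [dotE_apply, dotE_apply]
  have h1 : ∀ i, (mapW c w).1 i * w.1 i = w.1 i * (degv c hc).1 i +
      ∑ j, if i = j then 0 else c i j * (w.1 i * w.1 j) := by
    intro i
    rw [mapW_val c hc, degv_val, Finset.sum_mul, Finset.mul_sum, ← Finset.sum_add_distrib]
    refine Finset.sum_congr rfl fun j _ => ?_
    split_ifs
    · simp
    · have h2 : ∀ x : ZMod 2, x * x = x := by decide
      calc c i j * (w.1 i + w.1 j) * w.1 i = c i j * (w.1 i * w.1 i) + c i j * (w.1 i * w.1 j) := by
            ring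
        _ = _ := by rw [h2]; ring
  rw [Finset.sum_congr rfl fun i _ => h1 i, Finset.sum_add_distrib]
  have h3 : ∑ i, ∑ j, (if i = j then (0 : ZMod 2) else c i j * (w.1 i * w.1 j)) = 0 := by
    refine EvenGraph_sum _ (fun i j => ?_) fun i => if_pos rfl
    by_cases h : i = j
    · rw [if_pos h, if_pos h.symm]
    · rw [if_neg h, if_neg (Ne.symm h), hc, mul_comm (w.1 i)]
  rw [h3, add_zero]

/-- The weights are `t` with the exception of a matching. -/
def Mtc (c : Fin (2 * g + 1) → Fin (2 * g + 1) → ZMod 2) (t : ZMod 2) : Prop :=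
  ∀ i j l, i ≠ j → i ≠ l → j ≠ l → c i j = t ∨ c i l = t

theorem mapW_one (w : EV g) : mapW (fun _ _ => 1) w = w := by
  apply Subtype.ext
  funext r
  rw [mapW_val _ (fun _ _ => rfl)]
  have h1 : ∀ j, (if r = j then (0 : ZMod 2) else 1 * (w.1 r + w.1 j)) = w.1 r + w.1 j := by
    intro j
    split_ifs with h
    · rw [← h]
      exact (CharTwo.add_self_eq_zero _).symm
    · rw [one_mul]
  have h2 : ∑ j, w.1 j = 0 := w.2
  rw [Finset.sum_congr rfl fun j _ => h1 j, Finset.sum_add_distrib, h2, add_zero,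
    Finset.sum_const, Finset.card_univ, Fintype.card_fin, nsmul_eq_mul]
  push_cast
  have h3 : (2 : ZMod 2) = 0 := rfl
  rw [h3]
  ring

section mtc

variable {c : Fin (2 * g + 1) → Fin (2 * g + 1) → ZMod 2} {t : ZMod 2}

private theorem EvenGraph_mu (hm : Mtc c t) {r j l : Fin (2 * g + 1)} (hrj : r ≠ j) (hrl : r ≠ l)
    (hjl : j ≠ l) (h : c r j + t ≠ 0) : c r l + t = 0 := by
  rcases hm r j l hrj hrl hjl with h1 | h1
  · exact absurd (by rw [h1]; exact CharTwo.add_self_eq_zero _) h
  · rw [h1]
    exact CharTwo.add_self_eq_zero _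

private theorem EvenGraph_val (hc : ∀ i j, c i j = c j i) (hm : Mtc c t) (w : EV g)
    {r j : Fin (2 * g + 1)} (hrj : r ≠ j) (h : c r j + t ≠ 0) :
    (mapW (fun i j => c i j + t) w).1 r = w.1 r + w.1 j := by
  rw [mapW_val _ (fun i j => by rw [hc i j]), Finset.sum_eq_single j]
  · have h1 : ∀ x : ZMod 2, x ≠ 0 → x = 1 := by decide
    rw [if_neg hrj, h1 _ h, one_mul]
  · intro l _ hl
    by_cases hrl : r = l
    · rw [if_pos hrl]
    · rw [if_neg hrl, EvenGraph_mu hm hrj hrl (Ne.symm hl) h, zero_mul]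
  · intro h1
    exact absurd (Finset.mem_univ j) h1

/-- A sum of transvections with orthogonal centres. -/
private theorem EvenGraph_sq (hc : ∀ i j, c i j = c j i) (hm : Mtc c t) (w : EV g) :
    mapW (fun i j => c i j + t) (mapW (fun i j => c i j + t) w) = 0 := by
  apply Subtype.ext
  funext r
  rw [mapW_val _ (fun i j => by rw [hc i j])]
  refine Finset.sum_eq_zero fun j _ => ?_
  by_cases hrj : r = j
  · rw [if_pos hrj]
  · rw [if_neg hrj]
    by_cases h : c r j + t = 0
    · rw [h, zero_mul]
    · rw [EvenGraph_val hc hm w hrj h, EvenGraph_val hc hm w (Ne.symm hrj) (by rw [hc]; exact h),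
        add_comm (w.1 j), CharTwo.add_self_eq_zero, mul_zero]

private theorem EvenGraph_split (c : Fin (2 * g + 1) → Fin (2 * g + 1) → ZMod 2) (t : ZMod 2)
    (w : EV g) : (1 + t) • w + mapW c w = w + mapW (fun i j => c i j + t) w := by
  have h1 : mapW (fun i j => c i j + t) w = mapW c w + t • w := by
    have h2 := mapW_mul t (fun (_ _ : Fin (2 * g + 1)) => (1 : ZMod 2)) w
    rw [mapW_one] at h2
    rw [mapW_add c (fun _ _ => t) w, ← h2]
    congr 1
    exact mapW_congr (fun i j _ => (mul_one t).symm) w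
  rw [h1, add_smul, one_smul]
  abel

theorem Mtc.inj (hm : Mtc c t) (hc : ∀ i j, c i j = c j i) (w : EV g)
    (h : (1 + t) • w + mapW c w = 0) : w = 0 := by
  rw [EvenGraph_split] at h
  have h1 : w = mapW (fun i j => c i j + t) w := by
    have h3 := eq_neg_of_add_eq_zero_left h
    rwa [ZModModule.neg_eq_self] at h3
  have h2 := EvenGraph_sq hc hm w
  rw [← h1] at h2
  rw [h1, h2]

theorem Mtc.fix (hm : Mtc c t) (hc : ∀ i j, c i j = c j i) :
    (1 + t) • degv c hc + mapW c (degv c hc) = degv c hc := by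
  rw [EvenGraph_split, add_eq_left]
  -- the degrees
  have hdeg : ∀ r j, r ≠ j → c r j + t ≠ 0 → (degv c hc).1 r = 1 := by
    intro r j hrj h
    have h1 : ∀ i, (degv c hc).1 i = ∑ l, if i = l then 0 else c i l + t := by
      intro i
      have h2 : ∑ l, (if i = l then (0 : ZMod 2) else c i l + t) =
          (∑ l, if i = l then (0 : ZMod 2) else c i l) + ∑ l, if i = l then (0 : ZMod 2) else t := by
        rw [← Finset.sum_add_distrib]
        refine Finset.sum_congr rfl fun l _ => ?_
        split_ifs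
        · rw [add_zero]
        · rfl
      have h3 : ∑ l : Fin (2 * g + 1), (if i = l then (0 : ZMod 2) else t) = 0 := by
        have h4 : ∑ l : Fin (2 * g + 1), (if i = l then (0 : ZMod 2) else t) +
            ∑ l : Fin (2 * g + 1), (if i = l then t else 0) = ∑ _l : Fin (2 * g + 1), t := by
          rw [← Finset.sum_add_distrib]
          refine Finset.sum_congr rfl fun l _ => ?_
          split_ifs
          · rw [zero_add]
          · rw [add_zero]
        rw [Finset.sum_ite_eq, if_pos (Finset.mem_univ i), Finset.sum_const, Finset.card_univ,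
          Fintype.card_fin, nsmul_eq_mul] at h4
        push_cast at h4
        have h5 : (2 : ZMod 2) = 0 := rfl
        rw [h5, zero_mul, zero_add, one_mul] at h4
        exact add_eq_right.1 h4
      rw [h2, h3, add_zero, degv_val]
    rw [h1, Finset.sum_eq_single j]
    · have h2 : ∀ x : ZMod 2, x ≠ 0 → x = 1 := by decide
      rw [if_neg hrj, h2 _ h]
    · intro l _ hl
      by_cases hrl : r = l
      · rw [if_pos hrl]
      · rw [if_neg hrl, EvenGraph_mu hm hrj hrl (Ne.symm hl) h]
    · intro h1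
      exact absurd (Finset.mem_univ j) h1
  apply Subtype.ext
  funext r
  rw [mapW_val _ (fun i j => by rw [hc i j])]
  refine Finset.sum_eq_zero fun j _ => ?_
  by_cases hrj : r = j
  · rw [if_pos hrj]
  · rw [if_neg hrj]
    by_cases h : c r j + t = 0
    · rw [h, zero_mul]
    · rw [hdeg r j hrj h, hdeg j r (Ne.symm hrj) (by rw [hc]; exact h), CharTwo.add_self_eq_zero,
        mul_zero]

end mtc

end Pool.Agent.SmJ.L
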