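import Mathlib

/-!
SMITH for Jacobians, block L: from the twists by monic squarefree `D` prime to the bad primes, of all
the curves `E_e`, `e` a divisor of the discriminant, to the twists by all squarefree polynomials.
Abstract form: `P j D` = the conclusions of level `j` for the twist by `D`.
-/

set_option autoImplicit false

open Polynomial

namespace Pool.Agent.SmJ.L

variable {k : Type} [Field k]

private lemma allJ_finite [Finite k] (n : ℕ) : {D : k[X] | D.natDegree ≤ n}.Finite := by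
  have h : {D : k[X] | D.natDegree ≤ n} ⊆ (degreeLT k (n + 1) : Set k[X]) := by
    intro D hD
    rw [SetLike.mem_coe, mem_degreeLT]
    exact lt_of_le_of_lt degree_le_natDegree (by exact_mod_cast Nat.lt_succ_of_le hD)
  refine Set.Finite.subset ?_ h
  have : Finite (degreeLT k (n + 1)) := Finite.of_equiv _ (degreeLTEquiv k (n + 1)).toEquiv.symm
  exact Set.toFinite _

/-- From monic squarefree `D` prime to the bad primes to all squarefree `D`. -/
theorem all_squarefree_abs [Finite k] {M : k[X]} (hM0 : M ≠ 0) (P : ℕ → k[X] → Prop)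
    (hmain : ∀ e : k[X], e ≠ 0 → e ∣ M → ∀ ε : ℝ, 0 < ε → ∃ j₀ : ℕ, ∀ j ≥ j₀, ∃ n₀ : ℕ, ∀ n ≥ n₀,
      (Nat.card {D : k[X] // D.Monic ∧ Squarefree D ∧ IsCoprime D (e * M) ∧
        D.natDegree = n ∧ ¬ P j (e * D)} : ℝ) ≤ ε * (Nat.card k : ℝ) ^ n)
    (hlow : ∃ c : ℝ, 0 < c ∧ ∃ n₁ : ℕ, ∀ n ≥ n₁, c * (Nat.card k : ℝ) ^ n ≤
      (Nat.card {D : k[X] // Squarefree D ∧ D.natDegree = n} : ℝ))
    (ε : ℝ) (hε : 0 < ε) :
    ∃ j n₀ : ℕ, ∀ n ≥ n₀,
      (Nat.card {D : k[X] // Squarefree D ∧ D.natDegree = n ∧ ¬ P j D} : ℝ) ≤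
        ε * (Nat.card {D : k[X] // Squarefree D ∧ D.natDegree = n} : ℝ) := by
  classical
  obtain ⟨c₀, hc₀, n₁, hlow⟩ := hlow
  -- the finite set of the multipliers `e = c D₁`
  have hfin : {e : k[X] | e ≠ 0 ∧ e ∣ M}.Finite := by
    refine Set.Finite.subset (allJ_finite M.natDegree) ?_
    rintro e ⟨_, he⟩
    exact natDegree_le_of_dvd he hM0
  set Es := hfin.toFinset with hEs
  set N : ℝ := (Es.card : ℝ) + 1 with hN
  have hN0 : 0 < N := by positivity
  set ε' : ℝ := ε * c₀ / N with hε'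
  have hε'0 : 0 < ε' := by positivity
  have hmem : ∀ e ∈ Es, e ≠ 0 ∧ e ∣ M := fun e he => by simpa [hEs] using he
  have hj : ∀ e : k[X], ∃ j₀ : ℕ, e ∈ Es → ∀ j ≥ j₀, ∃ n₀ : ℕ, ∀ n ≥ n₀,
      (Nat.card {D : k[X] // D.Monic ∧ Squarefree D ∧
        IsCoprime D (e * M) ∧
        D.natDegree = n ∧ ¬ P j (e * D)} : ℝ) ≤ ε' * (Nat.card k : ℝ) ^ n := by
    intro e
    by_cases he : e ∈ Es
    · obtain ⟨j₀, h⟩ := hmain e (hmem e he).1 (hmem e he).2 ε' hε'0
      exact ⟨j₀, fun _ => h⟩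
    · exact ⟨0, fun h => absurd h he⟩
  choose j₀ hj₀ using hj
  set j := Es.sup j₀ with hjdef
  have hn : ∀ e : k[X], ∃ n₀ : ℕ, e ∈ Es → ∀ n ≥ n₀,
      (Nat.card {D : k[X] // D.Monic ∧ Squarefree D ∧
        IsCoprime D (e * M) ∧
        D.natDegree = n ∧ ¬ P j (e * D)} : ℝ) ≤ ε' * (Nat.card k : ℝ) ^ n := by
    intro e
    by_cases he : e ∈ Es
    · obtain ⟨n₀, h⟩ := hj₀ e he j (Finset.le_sup he)
      exact ⟨n₀, fun _ => h⟩
    · exact ⟨0, fun h => absurd h he⟩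
  choose n₀ hn₀ using hn
  refine ⟨j, Es.sup n₀ + M.natDegree + n₁, fun n hnn => ?_⟩
  -- finiteness
  have hq1 : (1 : ℝ) ≤ (Nat.card k : ℝ) := by
    have : 1 ≤ Nat.card k := Nat.card_pos
    exact_mod_cast this
  -- the sets
  let B : Set k[X] := {D | Squarefree D ∧ D.natDegree = n ∧ ¬ P j D}
  let T : k[X] → Set k[X] := fun e => {D | D.Monic ∧ Squarefree D ∧
        IsCoprime D (e * M) ∧
        D.natDegree = n - e.natDegree ∧ ¬ P j (e * D)}
  have hTfin : ∀ e, (T e).Finite := fun e =>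
    (allJ_finite (n - e.natDegree)).subset fun D hD => hD.2.2.2.1.le
  have hsub : B ⊆ ⋃ e ∈ Es, (fun D => e * D) '' T e := by
    rintro D ⟨hsq, hdeg, hbad⟩
    have hD0 : D ≠ 0 := hsq.ne_zero
    set c := D.leadingCoeff with hc
    have hc0 : c ≠ 0 := leadingCoeff_ne_zero.2 hD0
    set D' : k[X] := D * C c⁻¹ with hD'
    have hD'm : D'.Monic := monic_mul_leadingCoeff_inv hD0
    have hCu : IsUnit (C c⁻¹ : k[X]) := isUnit_C.2 (isUnit_iff_ne_zero.2 (inv_ne_zero hc0))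
    have hD'sq : Squarefree D' := by
      refine hsq.squarefree_of_dvd ?_
      exact (hCu.mul_right_dvd).2 dvd_rfl
    have hDD' : D = C c * D' := by
      rw [hD', mul_left_comm, ← C_mul, mul_inv_cancel₀ hc0, C_1, mul_one]
    set D₁ : k[X] := normalize (gcd D' M) with hD₁
    have hg0 : gcd D' M ≠ 0 := fun h => hM0 ((gcd_eq_zero_iff _ _).1 h).2
    have hD₁m : D₁.Monic := monic_normalize hg0
    have hD₁D : D₁ ∣ D' := (normalize_associated _).dvd.trans (gcd_dvd_left _ _)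
    have hD₁M : D₁ ∣ M := (normalize_associated _).dvd.trans (gcd_dvd_right _ _)
    obtain ⟨D₂, hD₂⟩ := hD₁D
    have hD₂m : D₂.Monic := hD₁m.of_mul_monic_left (hD₂ ▸ hD'm)
    have hD₂sq : Squarefree D₂ := hD'sq.squarefree_of_dvd ⟨D₁, by rw [hD₂]; ring⟩
    have hcop12 : IsCoprime D₁ D₂ := by
      have := hD'sq
      rw [hD₂] at this
      exact (squarefree_mul_iff.1 this).1.isCoprime
    have hcopM : IsCoprime D₂ M := by
      rw [← gcd_isUnit_iff]
      have h1 : gcd D₂ M ∣ D₁ := by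
        have h2 : gcd D₂ M ∣ gcd D' M :=
          dvd_gcd ((gcd_dvd_left _ _).trans ⟨D₁, by rw [hD₂]; ring⟩) (gcd_dvd_right _ _)
        exact h2.trans (normalize_associated _).symm.dvd
      exact hcop12.isUnit_of_dvd' h1 (gcd_dvd_left _ _)
    set e : k[X] := C c * D₁ with he
    have hCcu : IsUnit (C c : k[X]) := isUnit_C.2 (isUnit_iff_ne_zero.2 hc0)
    have he0 : e ≠ 0 := mul_ne_zero (C_ne_zero.2 hc0) hD₁m.ne_zero
    have heM : e ∣ M := (hCcu.mul_left_dvd).2 hD₁M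
    have heE : e ∈ Es := by
      rw [hEs, Set.Finite.mem_toFinset]
      exact ⟨he0, heM⟩
    have hDe : D = e * D₂ := by rw [hDD', hD₂, he]; ring
    have hdege : e.natDegree + D₂.natDegree = n := by
      rw [← natDegree_mul he0 hD₂m.ne_zero, ← hDe, hdeg]
    refine Set.mem_biUnion heE ⟨D₂, ⟨hD₂m, hD₂sq, ?_, by omega, ?_⟩, hDe.symm⟩
    · refine IsCoprime.mul_right ?_ hcopM
      rw [he]
      exact (isCoprime_mul_unit_left_right hCcu _ _).2 hcop12.symm
    · rw [← hDe]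
      exact hbad
  have hB : (B.ncard : ℝ) ≤ ∑ e ∈ Es, ((T e).ncard : ℝ) := by
    have h1 : (⋃ e ∈ Es, (fun D => e * D) '' T e).Finite :=
      Set.Finite.biUnion Es.finite_toSet fun e _ => (hTfin e).image _
    have h2 : B.ncard ≤ (⋃ e ∈ Es, (fun D => e * D) '' T e).ncard := Set.ncard_le_ncard hsub h1
    have h3 : (⋃ e ∈ Es, (fun D => e * D) '' T e).ncard ≤
        ∑ e ∈ Es, ((fun D => e * D) '' T e).ncard := by
      have := Finset.set_ncard_biUnion_le Es fun e => (fun D => e * D) '' T e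
      simpa using this
    have h4 : ∑ e ∈ Es, ((fun D => e * D) '' T e).ncard ≤ ∑ e ∈ Es, (T e).ncard :=
      Finset.sum_le_sum fun e _ => Set.ncard_image_le (hTfin e)
    exact_mod_cast h2.trans (h3.trans h4)
  have hT : ∀ e ∈ Es, ((T e).ncard : ℝ) ≤ ε' * (Nat.card k : ℝ) ^ n := by
    intro e he
    have hdeg : e.natDegree ≤ M.natDegree := natDegree_le_of_dvd (hmem e he).2 hM0
    have h1 : n₀ e ≤ Es.sup n₀ := Finset.le_sup he
    have h2 := hn₀ e he (n - e.natDegree) (by omega)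
    refine le_trans h2 (mul_le_mul_of_nonneg_left ?_ hε'0.le)
    exact pow_le_pow_right₀ hq1 (Nat.sub_le _ _)
  have hfinal : (B.ncard : ℝ) ≤ ε * (Nat.card {D : k[X] // Squarefree D ∧ D.natDegree = n} : ℝ) := by
    calc (B.ncard : ℝ) ≤ ∑ e ∈ Es, ((T e).ncard : ℝ) := hB
      _ ≤ ∑ _e ∈ Es, ε' * (Nat.card k : ℝ) ^ n := Finset.sum_le_sum hT
      _ = (Es.card : ℝ) * (ε' * (Nat.card k : ℝ) ^ n) := by rw [Finset.sum_const, nsmul_eq_mul]
      _ ≤ N * (ε' * (Nat.card k : ℝ) ^ n) := by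
          refine mul_le_mul_of_nonneg_right ?_ (by positivity)
          rw [hN]; linarith
      _ = ε * (c₀ * (Nat.card k : ℝ) ^ n) := by
          rw [hε']
          field_simp
      _ ≤ _ := mul_le_mul_of_nonneg_left (hlow n (by omega)) hε.le
  exact hfinal

end Pool.Agent.SmJ.L
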