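import Pool.Agent.Lib.SmJ.L.TwJ

/-!
SMITH for Jacobians over `F_q(t)` (MP_950c68_ag): the hypothesis `Gen` and the product `dpr` of the
differences under a common factor `e` of the roots (quadratic twist by `e`).

`lap_mul`: `lap (e a) P = lap a P + v_P(e)`; `Gen.twist`: `Gen a → Gen (e a)`;
`dpr_mul`; `isCoprime_dpr_mul`; `injective_mul`; `gen_of_connected`.
-/

set_option autoImplicit false

open Polynomial

namespace Pool.Agent.SmJ.L

variable {k : Type} [Field k] {g : ℕ}

/-- a common factor of the roots -/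
theorem injective_mul {a : Fin (2 * g + 1) → k[X]} (ha : Function.Injective a) {e : k[X]}
    (he : e ≠ 0) : Function.Injective fun i => e * a i :=
  fun _ _ h => ha (mul_left_cancel₀ he h)

/-- `lap (e a) P = lap a P + v_P(e)` -/
theorem lap_mul {a : Fin (2 * g + 1) → k[X]} (ha : Function.Injective a) {e : k[X]} (he : e ≠ 0)
    {P : k[X]} (hP : Irreducible P) (x : EV g) :
    lap (fun i => e * a i) P x = lap a P x + ((multiplicity P e : ℕ) : ZMod 2) • x := by
  apply Subtype.ext
  funext i
  have hR : (lap a P x + ((multiplicity P e : ℕ) : ZMod 2) • x).1 i =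
      (lap a P x).1 i + ((multiplicity P e : ℕ) : ZMod 2) * x.1 i := rfl
  rw [hR, lap_apply, lap_apply]
  have h1 : ∀ j, (if i = j then (0 : ZMod 2) else
      (multiplicity P (e * a i - e * a j) : ZMod 2) * (x.1 i + x.1 j)) =
      (if i = j then (0 : ZMod 2) else (multiplicity P (a i - a j) : ZMod 2) *
        (x.1 i + x.1 j)) + ((multiplicity P e : ℕ) : ZMod 2) * (x.1 i + x.1 j) := by
    intro j
    by_cases hij : i = j
    · rw [if_pos hij, if_pos hij, hij, CharTwo.add_self_eq_zero, mul_zero, add_zero]
    · rw [if_neg hij, if_neg hij, ← mul_sub]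
      have hne : a i - a j ≠ 0 := sub_ne_zero.mpr fun h => hij (ha h)
      have hfin : FiniteMultiplicity P (e * (a i - a j)) :=
        FiniteMultiplicity.of_not_isUnit hP.not_isUnit (mul_ne_zero he hne)
      rw [multiplicity_mul hP.prime hfin, Nat.cast_add]
      ring
  rw [Finset.sum_congr rfl fun j _ => h1 j, Finset.sum_add_distrib]
  congr 1
  rw [← Finset.mul_sum, Finset.sum_add_distrib, Finset.sum_const, Finset.card_univ,
    Fintype.card_fin, nsmul_eq_mul]
  have h2 : ((2 * g + 1 : ℕ) : ZMod 2) = 1 := by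
    rw [ZMod.natCast_eq_one_iff_odd]
    exact ⟨g, rfl⟩
  have h3 : ∑ j, x.1 j = 0 := x.2
  rw [h2, h3, one_mul, add_zero]

/-- `Gen` passes to the twists -/
theorem Gen.twist {a : Fin (2 * g + 1) → k[X]} (hg : Gen a) (ha : Function.Injective a)
    {e : k[X]} (he : e ≠ 0) : Gen fun i => e * a i := by
  unfold Gen
  rw [eq_top_iff, ← show _ = _ from hg]
  apply Algebra.adjoin_le
  rintro _ ⟨P, hP, rfl⟩
  have h1 : (lap a P : Module.End (ZMod 2) (EV g)) =
      lap (fun i => e * a i) P + algebraMap (ZMod 2) (Module.End (ZMod 2) (EV g))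
        ((multiplicity P e : ℕ) : ZMod 2) := by
    apply LinearMap.ext
    intro x
    rw [LinearMap.add_apply, lap_mul ha he hP, Module.algebraMap_end_apply, add_assoc, ← add_smul,
      CharTwo.add_self_eq_zero, zero_smul, add_zero]
  rw [h1]
  exact add_mem (Algebra.subset_adjoin ⟨P, hP, rfl⟩) (Subalgebra.algebraMap_mem _ _)

/-- the product of the differences -/
theorem dpr_mul (a : Fin (2 * g + 1) → k[X]) (e : k[X]) :
    dpr (fun i => e * a i) = e ^ (∑ i : Fin (2 * g + 1), (Finset.Ioi i).card) * dpr a := by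
  unfold dpr
  rw [← Finset.prod_pow_eq_pow_sum, ← Finset.prod_mul_distrib]
  refine Finset.prod_congr rfl fun i _ => ?_
  rw [← Finset.prod_const, ← Finset.prod_mul_distrib]
  exact Finset.prod_congr rfl fun j _ => (mul_sub _ _ _).symm

/-- a polynomial prime to `e` and to the differences of the roots is prime to the differences of the
roots `e a i` -/
theorem isCoprime_dpr_mul {a : Fin (2 * g + 1) → k[X]} {e D : k[X]}
    (h : IsCoprime D (e * dpr a)) : IsCoprime D (dpr fun i => e * a i) := by
  rw [dpr_mul]
  exact (IsCoprime.pow_right (IsCoprime.of_isCoprime_of_dvd_right h (Dvd.intro _ rfl))).mul_right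
    (IsCoprime.of_isCoprime_of_dvd_right h (Dvd.intro_left _ rfl))

/-- **Connected graph.** If `brGraph a` is connected then the maps `lap a P` generate all
endomorphisms. -/
theorem gen_of_connected {a : Fin (2 * g + 1) → k[X]} (hG : (brGraph a).Connected) : Gen a :=
  gen_of_graph a hG

end Pool.Agent.SmJ.L
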