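import Pool.Agent.Lib.SmJ.L.AllP
import Pool.Agent.Lib.SmJ.L.GenTw

/-!
SMITH for Jacobians, block L with parity: from the families of the twists by monic squarefree `D`
prime to the bad primes to all squarefree `D`.

`EdgeAt a P` : the prime `P` divides exactly one difference of the roots, to an odd power.
`MultJ a D` : some such `P` does not divide `D`.
-/

set_option autoImplicit false

open Polynomial

namespace Pool.Agent.SmJ.L

variable {k : Type} [Field k] {g : ℕ}

/-- `P` divides exactly one difference of the roots, to an odd power. -/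
def EdgeAt (a : Fin (2 * g + 1) → k[X]) (P : k[X]) : Prop :=
  Irreducible P ∧ ∃ i j, i ≠ j ∧ Odd (multiplicity P (a i - a j)) ∧
    ∀ r s, r ≠ s → ¬ ((r = i ∧ s = j) ∨ (r = j ∧ s = i)) → ¬ P ∣ a r - a s

/-- Some prime which divides exactly one difference of the roots, to an odd power, does not divide
`D`. -/
def MultJ (a : Fin (2 * g + 1) → k[X]) (D : k[X]) : Prop := ∃ P, EdgeAt a P ∧ ¬ P ∣ D

theorem EdgeAt.dvd {a : Fin (2 * g + 1) → k[X]} {P : k[X]} (h : EdgeAt a P) : P ∣ dpr a := by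
  obtain ⟨-, i, j, hij, hodd, -⟩ := h
  refine dvd_trans ?_ (dvd_dpr hij)
  by_contra hcon
  rw [multiplicity_eq_zero.2 hcon] at hodd
  exact absurd hodd (by decide)

theorem EdgeAt.twist {a : Fin (2 * g + 1) → k[X]} (ha : Function.Injective a) {P e : k[X]}
    (h : EdgeAt a P) (he : ¬ P ∣ e) : EdgeAt (fun i => e * a i) P := by
  obtain ⟨hP, i, j, hij, hodd, hall⟩ := h
  refine ⟨hP, i, j, hij, ?_, fun r s hrs hne hd => ?_⟩
  · have he0 : e ≠ 0 := by rintro rfl; exact he (dvd_zero P)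
    have hne : a i - a j ≠ 0 := sub_ne_zero.mpr fun h => hij (ha h)
    have hfin : FiniteMultiplicity P (e * (a i - a j)) :=
      FiniteMultiplicity.of_not_isUnit hP.not_isUnit (mul_ne_zero he0 hne)
    rw [← mul_sub, multiplicity_mul hP.prime hfin, multiplicity_eq_zero.2 he, zero_add]
    exact hodd
  · rw [← mul_sub] at hd
    exact hall r s hrs hne ((hP.prime.dvd_or_dvd hd).resolve_left he)

theorem multJ_mul {a : Fin (2 * g + 1) → k[X]} {e D : k[X]} (hD : IsCoprime D (e * dpr a)) :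
    MultJ a (e * D) ↔ MultJ a e := by
  constructor
  · rintro ⟨P, h1, h2⟩
    exact ⟨P, h1, fun h => h2 (h.mul_right D)⟩
  · rintro ⟨P, h1, h2⟩
    refine ⟨P, h1, fun h => ?_⟩
    rcases h1.1.prime.dvd_or_dvd h with h6 | h6
    · exact h2 h6
    · exact h1.1.not_isUnit (hD.isUnit_of_dvd' h6 (h1.dvd.mul_left e))

theorem isCoprime_dpr_mul_iff {a : Fin (2 * g + 1) → k[X]} {e D : k[X]} (he : e ∣ dpr a) :
    IsCoprime D (dpr fun i => e * a i) ↔ IsCoprime D (e * dpr a) := by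
  refine ⟨fun h => ?_, isCoprime_dpr_mul⟩
  rw [dpr_mul] at h
  have h1 : IsCoprime D (dpr a) := h.of_mul_right_right
  exact IsCoprime.mul_right (h1.of_isCoprime_of_dvd_right he) h1

/-- **All squarefree twists, half**: `R j b` is a property of the curve with the roots `b i`. -/
theorem all_half_jac [Finite k] (R : ℕ → (Fin (2 * g + 1) → k[X]) → Prop)
    (hfam : ∀ b : Fin (2 * g + 1) → k[X], Function.Injective b → Gen b → (∃ P, EdgeAt b P) →
      ∀ ε : ℝ, 0 < ε → ∃ j₀ : ℕ, ∀ j ≥ j₀, ∃ n₀ : ℕ, ∀ n ≥ n₀,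
      |(Nat.card {D : k[X] // D.Monic ∧ Squarefree D ∧ IsCoprime D (dpr b) ∧
        D.natDegree = n ∧ R j fun i => D * b i} : ℝ) -
        (Nat.card {D : k[X] // D.Monic ∧ Squarefree D ∧ IsCoprime D (dpr b) ∧
        D.natDegree = n} : ℝ) / 2| ≤ ε * (Nat.card k : ℝ) ^ n)
    (hlow : ∃ c : ℝ, 0 < c ∧ ∃ n₁ : ℕ, ∀ n ≥ n₁, c * (Nat.card k : ℝ) ^ n ≤
      (Nat.card {D : k[X] // Squarefree D ∧ D.natDegree = n} : ℝ))
    (a : Fin (2 * g + 1) → k[X]) (ha : Function.Injective a) (hg : Gen a)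
    (ε : ℝ) (hε : 0 < ε) :
    ∃ j₀ : ℕ, ∀ j ≥ j₀, ∃ n₀ : ℕ, ∀ n ≥ n₀,
      |(Nat.card {D : k[X] // Squarefree D ∧ D.natDegree = n ∧ MultJ a D ∧
        R j fun i => D * a i} : ℝ) -
        (Nat.card {D : k[X] // Squarefree D ∧ D.natDegree = n ∧ MultJ a D} : ℝ) / 2| ≤
        ε * (Nat.card {D : k[X] // Squarefree D ∧ D.natDegree = n} : ℝ) := by
  refine all_halfJ (dpr_ne_zero ha) (MultJ a) (fun j D => R j fun i => D * a i)
    (fun e _ _ D _ _ hD => multJ_mul hD) (fun e hesq heM hT ε hε => ?_) hlow ε hε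
  obtain ⟨P, hP, hPe⟩ := hT
  obtain ⟨j₀, h⟩ := hfam (fun i => e * a i) (injective_mul ha hesq.ne_zero)
    (hg.twist ha hesq.ne_zero) ⟨P, hP.twist ha hPe⟩ ε hε
  refine ⟨j₀, fun j hj => ?_⟩
  obtain ⟨n₀, h⟩ := h j hj
  refine ⟨n₀, fun n hn => ?_⟩
  have h1 := h n hn
  have e1 : Nat.card {D : k[X] // D.Monic ∧ Squarefree D ∧ IsCoprime D (e * dpr a) ∧
      D.natDegree = n ∧ R j fun i => e * D * a i} =
      Nat.card {D : k[X] // D.Monic ∧ Squarefree D ∧ IsCoprime D (dpr fun i => e * a i) ∧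
        D.natDegree = n ∧ R j fun i => D * (e * a i)} := by
    refine Nat.card_congr (Equiv.subtypeEquivRight fun D => ?_)
    have e2 : (fun i => e * D * a i) = fun i => D * (e * a i) := by
      funext i
      ring
    rw [isCoprime_dpr_mul_iff heM, e2]
  have e3 : Nat.card {D : k[X] // D.Monic ∧ Squarefree D ∧ IsCoprime D (e * dpr a) ∧
      D.natDegree = n} =
      Nat.card {D : k[X] // D.Monic ∧ Squarefree D ∧ IsCoprime D (dpr fun i => e * a i) ∧
        D.natDegree = n} := by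
    refine Nat.card_congr (Equiv.subtypeEquivRight fun D => ?_)
    rw [isCoprime_dpr_mul_iff heM]
  rw [e1, e3]
  exact h1

private theorem AllHalf_card_le [Finite k] (n : ℕ) :
    (Nat.card {D : k[X] // Squarefree D ∧ D.natDegree = n} : ℝ) ≤ (Nat.card k : ℝ) ^ (n + 1) := by
  have e : (degreeLT k (n + 1)) ≃ (Fin (n + 1) → k) := (degreeLTEquiv k (n + 1)).toEquiv
  have hf : Finite (degreeLT k (n + 1)) := Finite.of_equiv _ e.symm
  have h1 : Nat.card {D : k[X] // Squarefree D ∧ D.natDegree = n} ≤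
      Nat.card (degreeLT k (n + 1)) := by
    refine Nat.card_le_card_of_injective (fun D => ⟨D.1, ?_⟩) fun D D' h =>
      Subtype.ext (congrArg (fun z : degreeLT k (n + 1) => z.1) h)
    rw [mem_degreeLT]
    exact lt_of_le_of_lt degree_le_natDegree (by exact_mod_cast Nat.lt_succ_of_le D.2.2.le)
  have h2 : Nat.card (degreeLT k (n + 1)) = Nat.card k ^ (n + 1) := by
    rw [Nat.card_congr e, Nat.card_fun, Nat.card_eq_fintype_card (α := Fin (n + 1)),
      Fintype.card_fin]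
  rw [h2] at h1
  exact_mod_cast h1

/-- **All squarefree twists, a positive proportion**: `E b` is the parity condition on the curve with
the roots `b i`. -/
theorem all_pos_jac [Finite k] (R : ℕ → (Fin (2 * g + 1) → k[X]) → Prop)
    (E : (Fin (2 * g + 1) → k[X]) → Prop)
    (hfam : ∀ b : Fin (2 * g + 1) → k[X], Function.Injective b → Gen b →
      ∀ D₂ : k[X], D₂.Monic → Squarefree D₂ → IsCoprime D₂ (dpr b) → (E fun i => D₂ * b i) →
      ∃ c : ℝ, 0 < c ∧ ∃ j₀ : ℕ, ∀ j ≥ j₀, ∃ n₀ : ℕ, ∀ n ≥ n₀, Even (n + D₂.natDegree) →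
      c * (Nat.card k : ℝ) ^ n ≤
      (Nat.card {D : k[X] // D.Monic ∧ Squarefree D ∧ IsCoprime D (dpr b) ∧
        D.natDegree = n ∧ R j fun i => D * b i} : ℝ))
    (a : Fin (2 * g + 1) → k[X]) (ha : Function.Injective a) (hg : Gen a)
    (D₀ : k[X]) (hD₀ : Squarefree D₀) (hE : E fun i => D₀ * a i) :
    ∃ c : ℝ, 0 < c ∧ ∃ j₀ : ℕ, ∀ j ≥ j₀, ∃ n₀ : ℕ, ∀ n ≥ n₀, Even (n + D₀.natDegree) →
      c * (Nat.card {D : k[X] // Squarefree D ∧ D.natDegree = n} : ℝ) ≤
        (Nat.card {D : k[X] // Squarefree D ∧ D.natDegree = n ∧ R j fun i => D * a i} : ℝ) := by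
  have hM := dpr_ne_zero ha
  obtain ⟨e, D₂, hesq, heM, hD₂m, hD₂sq, hcop, hDe⟩ := exists_decomp hM hD₀
  have hcop' : IsCoprime D₂ (dpr fun i => e * a i) := by
    rw [isCoprime_dpr_mul_iff heM]
    exact IsCoprime.mul_right (hcop.of_isCoprime_of_dvd_right heM) hcop
  obtain ⟨c, hc, j₀, h⟩ := hfam (fun i => e * a i) (injective_mul ha hesq.ne_zero)
    (hg.twist ha hesq.ne_zero) D₂ hD₂m hD₂sq hcop' (by
      have e2 : (fun i => D₂ * (e * a i)) = fun i => D₀ * a i := by
        funext i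
        rw [hDe]
        ring
      rw [e2]
      exact hE)
  have hq1 : (1 : ℝ) ≤ (Nat.card k : ℝ) := by
    have : 1 ≤ Nat.card k := Nat.card_pos
    exact_mod_cast this
  refine ⟨c * ((Nat.card k : ℝ) ^ (e.natDegree + 1))⁻¹, by positivity, j₀, fun j hj => ?_⟩
  obtain ⟨n₀, h⟩ := h j hj
  have h1 := all_posJ hM (fun D => R j fun i => D * a i) hesq heM
    (fun n => Even (n + D₂.natDegree)) (c := c) (n₀ := n₀) (fun n hn hev => by
      refine (h n hn hev).trans (le_of_eq ?_)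
      norm_cast
      refine Nat.card_congr (Equiv.subtypeEquivRight fun D => ?_)
      have e2 : (fun i => e * D * a i) = fun i => D * (e * a i) := by
        funext i
        ring
      rw [isCoprime_dpr_mul_iff heM, e2])
  refine ⟨n₀ + (dpr a).natDegree, fun n hn hev => ?_⟩
  have hdeg : e.natDegree ≤ (dpr a).natDegree := natDegree_le_of_dvd heM hM
  have hdD : D₀.natDegree = e.natDegree + D₂.natDegree := by
    rw [hDe, natDegree_mul hesq.ne_zero hD₂m.ne_zero]
  have h2 := h1 n hn (by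
    show Even (n - e.natDegree + D₂.natDegree)
    rw [hdD, Nat.even_iff] at hev
    rw [Nat.even_iff]
    omega)
  refine le_trans ?_ h2
  have h3 := AllHalf_card_le (k := k) n
  have h4 : (Nat.card k : ℝ) ^ (n + 1) =
      (Nat.card k : ℝ) ^ (e.natDegree + 1) * (Nat.card k : ℝ) ^ (n - e.natDegree) := by
    rw [← pow_add]
    congr 1
    omega
  have h5 : (0 : ℝ) < (Nat.card k : ℝ) ^ (e.natDegree + 1) := by positivity
  calc c * ((Nat.card k : ℝ) ^ (e.natDegree + 1))⁻¹ *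
        (Nat.card {D : k[X] // Squarefree D ∧ D.natDegree = n} : ℝ)
      ≤ c * ((Nat.card k : ℝ) ^ (e.natDegree + 1))⁻¹ * (Nat.card k : ℝ) ^ (n + 1) :=
        mul_le_mul_of_nonneg_left h3 (by positivity)
    _ = c * (Nat.card k : ℝ) ^ (n - e.natDegree) := by
        rw [h4]
        field_simp

end Pool.Agent.SmJ.L
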