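import Mathlib

/-!
SMITH for Jacobians, block L with parity: the decomposition `D = e * D₂` of the squarefree
polynomials, `e` a squarefree divisor of `M` and `D₂` monic and prime to `M`; the distribution of a
property on all squarefree `D` of a given sort, and a positive proportion.
-/

set_option autoImplicit false

open Polynomial

namespace Pool.Agent.SmJ.L

variable {k : Type} [Field k]

private lemma AllP_finite [Finite k] (n : ℕ) : {D : k[X] | D.natDegree ≤ n}.Finite := by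
  have h : {D : k[X] | D.natDegree ≤ n} ⊆ (degreeLT k (n + 1) : Set k[X]) := by
    intro D hD
    rw [SetLike.mem_coe, mem_degreeLT]
    exact lt_of_le_of_lt degree_le_natDegree (by exact_mod_cast Nat.lt_succ_of_le hD)
  refine Set.Finite.subset ?_ h
  have : Finite (degreeLT k (n + 1)) := Finite.of_equiv _ (degreeLTEquiv k (n + 1)).toEquiv.symm
  exact Set.toFinite _

private lemma AllP_unique {M e e' D D' : k[X]} (he0 : e ≠ 0) (he : e ∣ M) (he' : e' ∣ M)
    (hD : D.Monic) (hD' : D'.Monic) (hc : IsCoprime D M) (hc' : IsCoprime D' M)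
    (h : e * D = e' * D') : e = e' ∧ D = D' := by
  have h1 : e ∣ e' := by
    have h3 : IsCoprime e D' := (hc'.of_isCoprime_of_dvd_right he).symm
    exact h3.dvd_of_dvd_mul_right (h ▸ dvd_mul_right e D)
  have h2 : e' ∣ e := by
    have h3 : IsCoprime e' D := (hc.of_isCoprime_of_dvd_right he').symm
    exact h3.dvd_of_dvd_mul_right (h ▸ dvd_mul_right e' D')
  obtain ⟨u, hu⟩ := associated_of_dvd_dvd h1 h2
  have h3 : D = u * D' := by
    refine mul_left_cancel₀ he0 ?_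
    rw [h, ← hu, mul_assoc]
  obtain ⟨c, hc, hcu⟩ := Polynomial.isUnit_iff.1 u.isUnit
  have h4 : c = 1 := by
    have h5 := congrArg leadingCoeff h3
    rw [hD.leadingCoeff, leadingCoeff_mul, hD'.leadingCoeff, mul_one, ← hcu,
      leadingCoeff_C] at h5
    exact h5.symm
  rw [h4, C_1] at hcu
  rw [← hcu, one_mul] at h3
  rw [← hcu, mul_one] at hu
  exact ⟨hu, h3⟩

/-- The decomposition of one squarefree polynomial. -/
theorem exists_decomp {M : k[X]} (hM0 : M ≠ 0) {D : k[X]} (hsq : Squarefree D) :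
    ∃ e D₂ : k[X], Squarefree e ∧ e ∣ M ∧ D₂.Monic ∧ Squarefree D₂ ∧ IsCoprime D₂ M ∧
      D = e * D₂ := by
  classical
  have hD0 : D ≠ 0 := hsq.ne_zero
  set c := D.leadingCoeff with hc
  have hc0 : c ≠ 0 := leadingCoeff_ne_zero.2 hD0
  set D' : k[X] := D * C c⁻¹ with hD'
  have hD'm : D'.Monic := monic_mul_leadingCoeff_inv hD0
  have hCu : IsUnit (C c⁻¹ : k[X]) := isUnit_C.2 (isUnit_iff_ne_zero.2 (inv_ne_zero hc0))
  have hD'sq : Squarefree D' := by
    refine hsq.squarefree_of_dvd ?_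
    exact (hCu.mul_right_dvd).2 dvd_rfl
  have hDD' : D = C c * D' := by
    rw [hD', mul_left_comm, ← C_mul, mul_inv_cancel₀ hc0, C_1, mul_one]
  set D₁ : k[X] := normalize (gcd D' M) with hD₁
  have hg0 : gcd D' M ≠ 0 := fun h => hM0 ((gcd_eq_zero_iff _ _).1 h).2
  have hD₁m : D₁.Monic := monic_normalize hg0
  have hD₁D : D₁ ∣ D' := (normalize_associated _).dvd.trans (gcd_dvd_left _ _)
  have hD₁M : D₁ ∣ M := (normalize_associated _).dvd.trans (gcd_dvd_right _ _)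
  have hD₁sq : Squarefree D₁ := hD'sq.squarefree_of_dvd hD₁D
  obtain ⟨D₂, hD₂⟩ := hD₁D
  have hD₂m : D₂.Monic := hD₁m.of_mul_monic_left (hD₂ ▸ hD'm)
  have hD₂sq : Squarefree D₂ := hD'sq.squarefree_of_dvd ⟨D₁, by rw [hD₂]; ring⟩
  have hcop12 : IsCoprime D₁ D₂ := by
    have := hD'sq
    rw [hD₂] at this
    exact (squarefree_mul_iff.1 this).1.isCoprime
  have hcopM : IsCoprime D₂ M := by
    rw [← gcd_isUnit_iff]
    have h1 : gcd D₂ M ∣ D₁ := by
      have h2 : gcd D₂ M ∣ gcd D' M :=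
        dvd_gcd ((gcd_dvd_left _ _).trans ⟨D₁, by rw [hD₂]; ring⟩) (gcd_dvd_right _ _)
      exact h2.trans (normalize_associated _).symm.dvd
    exact hcop12.isUnit_of_dvd' h1 (gcd_dvd_left _ _)
  have hCcu : IsUnit (C c : k[X]) := isUnit_C.2 (isUnit_iff_ne_zero.2 hc0)
  exact ⟨C c * D₁, D₂, hD₁sq.squarefree_of_dvd ((hCcu.mul_left_dvd).2 dvd_rfl),
    (hCcu.mul_left_dvd).2 hD₁M, hD₂m, hD₂sq, hcopM, by rw [hDD', hD₂]; ring⟩

/-- The decomposition, counted. -/
theorem card_decompJ [Finite k] {M : k[X]} (hM0 : M ≠ 0) (Es : Finset k[X])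
    (hEs : ∀ e, e ∈ Es ↔ Squarefree e ∧ e ∣ M) (n : ℕ)
    (hn : M.natDegree ≤ n) (P : k[X] → Prop) :
    Nat.card {D : k[X] // Squarefree D ∧ D.natDegree = n ∧ P D} =
      ∑ e ∈ Es, Nat.card {D : k[X] // D.Monic ∧ Squarefree D ∧
        IsCoprime D (e * M) ∧ D.natDegree = n - e.natDegree ∧
        P (e * D)} := by
  classical
  have hcop : ∀ e ∈ Es, ∀ D : k[X], IsCoprime D (e * M) ↔ IsCoprime D M := by
    intro e he D
    constructor
    · intro h
      exact h.of_mul_right_right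
    · intro h
      exact IsCoprime.mul_right (h.of_isCoprime_of_dvd_right ((hEs e).1 he).2) h
  have hfin : ∀ e : Es, Finite {D : k[X] // D.Monic ∧ Squarefree D ∧
      IsCoprime D (e.1 * M) ∧
        D.natDegree = n - e.1.natDegree ∧ P (e.1 * D)} := by
    intro e
    have h1 := (AllP_finite (k := k) (n - e.1.natDegree)).to_subtype
    exact Finite.of_injective (β := {D : k[X] | D.natDegree ≤ n - e.1.natDegree})
      (fun D => ⟨D.1, D.2.2.2.2.1.le⟩) fun D D' h => Subtype.ext (congrArg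
        (fun z : {D : k[X] | D.natDegree ≤ n - e.1.natDegree} => z.1) h)
  rw [← Finset.sum_coe_sort Es fun e => Nat.card {D : k[X] // D.Monic ∧ Squarefree D ∧
        IsCoprime D (e * M) ∧ D.natDegree = n - e.natDegree ∧
        P (e * D)}, ← Nat.card_sigma]
  symm
  refine Nat.card_congr (Equiv.ofBijective (fun y => ⟨y.1.1 * y.2.1, ?_, ?_, y.2.2.2.2.2.2⟩)
    ⟨?_, ?_⟩)
  · -- squarefree
    obtain ⟨hsq, hdvd⟩ := (hEs y.1.1).1 y.1.2
    rw [squarefree_mul_iff]
    refine ⟨?_, hsq, y.2.2.2.1⟩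
    have h1 := (hcop _ y.1.2 _).1 y.2.2.2.2.1
    exact (h1.of_isCoprime_of_dvd_right hdvd).symm.isRelPrime
  · -- degree
    obtain ⟨hsq, hdvd⟩ := (hEs y.1.1).1 y.1.2
    have h1 : y.1.1.natDegree ≤ M.natDegree := natDegree_le_of_dvd hdvd hM0
    rw [natDegree_mul hsq.ne_zero y.2.2.1.ne_zero, y.2.2.2.2.2.1]
    omega
  · -- injective
    rintro ⟨⟨e, he⟩, D, hD⟩ ⟨⟨e', he'⟩, D', hD'⟩ h
    have h1 : e * D = e' * D' := congrArg Subtype.val h
    obtain ⟨rfl, rfl⟩ := AllP_unique ((hEs e).1 he).1.ne_zero ((hEs e).1 he).2 ((hEs e').1 he').2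
      hD.1 hD'.1 ((hcop e he D).1 hD.2.2.1) ((hcop e' he' D').1 hD'.2.2.1) h1
    rfl
  · -- surjective
    rintro ⟨D, hsq, hdeg, hP⟩
    obtain ⟨e, D₂, hesq, heM, hD₂m, hD₂sq, hcopM, hDe⟩ := exists_decomp hM0 hsq
    have heE : e ∈ Es := (hEs e).2 ⟨hesq, heM⟩
    have hdege : e.natDegree + D₂.natDegree = n := by
      rw [← natDegree_mul hesq.ne_zero hD₂m.ne_zero, ← hDe, hdeg]
    refine ⟨⟨⟨e, heE⟩, D₂, hD₂m, hD₂sq, (hcop e heE D₂).2 hcopM, by
      simp only; omega, ?_⟩, ?_⟩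
    · simp only
      rw [← hDe]
      exact hP
    · exact Subtype.ext hDe.symm

/-- **All squarefree twists, half.** `T D` : the sort of the polynomials for which the half theorem
holds (it depends only on the divisor `e`), `Q j D` : the property of level `j`. -/
theorem all_halfJ [Finite k] {M : k[X]} (hM0 : M ≠ 0) (T : k[X] → Prop) (Q : ℕ → k[X] → Prop)
    (hT : ∀ e : k[X], Squarefree e → e ∣ M → ∀ D : k[X], D.Monic → Squarefree D →
      IsCoprime D (e * M) → (T (e * D) ↔ T e))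
    (hmain : ∀ e : k[X], Squarefree e → e ∣ M → T e → ∀ ε : ℝ, 0 < ε →
      ∃ j₀ : ℕ, ∀ j ≥ j₀, ∃ n₀ : ℕ, ∀ n ≥ n₀,
      |(Nat.card {D : k[X] // D.Monic ∧ Squarefree D ∧ IsCoprime D (e * M) ∧
        D.natDegree = n ∧ Q j (e * D)} : ℝ) -
        (Nat.card {D : k[X] // D.Monic ∧ Squarefree D ∧ IsCoprime D (e * M) ∧
        D.natDegree = n} : ℝ) / 2| ≤ ε * (Nat.card k : ℝ) ^ n)
    (hlow : ∃ c : ℝ, 0 < c ∧ ∃ n₁ : ℕ, ∀ n ≥ n₁, c * (Nat.card k : ℝ) ^ n ≤
      (Nat.card {D : k[X] // Squarefree D ∧ D.natDegree = n} : ℝ))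
    (ε : ℝ) (hε : 0 < ε) :
    ∃ j₀ : ℕ, ∀ j ≥ j₀, ∃ n₀ : ℕ, ∀ n ≥ n₀,
      |(Nat.card {D : k[X] // Squarefree D ∧ D.natDegree = n ∧ T D ∧ Q j D} : ℝ) -
        (Nat.card {D : k[X] // Squarefree D ∧ D.natDegree = n ∧ T D} : ℝ) / 2| ≤
        ε * (Nat.card {D : k[X] // Squarefree D ∧ D.natDegree = n} : ℝ) := by
  classical
  obtain ⟨c₀, hc₀, n₁, hlow⟩ := hlow
  have hfin : {e : k[X] | Squarefree e ∧ e ∣ M}.Finite := by
    refine Set.Finite.subset (AllP_finite M.natDegree) ?_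
    rintro e ⟨_, he⟩
    exact natDegree_le_of_dvd he hM0
  set Es := hfin.toFinset with hEs
  have hEs' : ∀ e, e ∈ Es ↔ Squarefree e ∧ e ∣ M := by
    intro e
    rw [hEs, Set.Finite.mem_toFinset]
    rfl
  set N : ℝ := (Es.card : ℝ) + 1 with hN
  have hN0 : 0 < N := by positivity
  set ε' : ℝ := ε * c₀ / N with hε'
  have hε'0 : 0 < ε' := by positivity
  have hj : ∀ e : k[X], ∃ j₀ : ℕ, e ∈ Es → T e → ∀ j ≥ j₀, ∃ n₀ : ℕ, ∀ n ≥ n₀,
      |(Nat.card {D : k[X] // D.Monic ∧ Squarefree D ∧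
        IsCoprime D (e * M) ∧
        D.natDegree = n ∧ Q j (e * D)} : ℝ) -
        (Nat.card {D : k[X] // D.Monic ∧ Squarefree D ∧
          IsCoprime D (e * M) ∧
        D.natDegree = n} : ℝ) / 2| ≤ ε' * (Nat.card k : ℝ) ^ n := by
    intro e
    by_cases he : e ∈ Es ∧ T e
    · obtain ⟨j₀, h⟩ := hmain e ((hEs' e).1 he.1).1 ((hEs' e).1 he.1).2 he.2 ε' hε'0
      exact ⟨j₀, fun _ _ => h⟩
    · exact ⟨0, fun h h' => absurd ⟨h, h'⟩ he⟩
  choose j₀ hj₀ using hj
  refine ⟨Es.sup j₀, fun j hjj => ?_⟩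
  have hn : ∀ e : k[X], ∃ n₀ : ℕ, e ∈ Es → T e → ∀ n ≥ n₀,
      |(Nat.card {D : k[X] // D.Monic ∧ Squarefree D ∧
        IsCoprime D (e * M) ∧
        D.natDegree = n ∧ Q j (e * D)} : ℝ) -
        (Nat.card {D : k[X] // D.Monic ∧ Squarefree D ∧
          IsCoprime D (e * M) ∧
        D.natDegree = n} : ℝ) / 2| ≤ ε' * (Nat.card k : ℝ) ^ n := by
    intro e
    by_cases he : e ∈ Es ∧ T e
    · obtain ⟨n₀, h⟩ := hj₀ e he.1 he.2 j (le_trans (Finset.le_sup he.1) hjj)
      exact ⟨n₀, fun _ _ => h⟩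
    · exact ⟨0, fun h h' => absurd ⟨h, h'⟩ he⟩
  choose n₀ hn₀ using hn
  refine ⟨Es.sup n₀ + M.natDegree + n₁, fun n hnn => ?_⟩
  have hq1 : (1 : ℝ) ≤ (Nat.card k : ℝ) := by
    have : 1 ≤ Nat.card k := Nat.card_pos
    exact_mod_cast this
  have hdec1 := card_decompJ hM0 Es hEs' n (by omega) (fun D => T D ∧ Q j D)
  have hdec2 := card_decompJ hM0 Es hEs' n (by omega) (fun D => T D)
  rw [hdec1, hdec2]
  push_cast
  rw [Finset.sum_div, ← Finset.sum_sub_distrib]
  refine le_trans (Finset.abs_sum_le_sum_abs _ _) ?_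
  have hTT : ∀ e ∈ Es, |(Nat.card {D : k[X] // D.Monic ∧ Squarefree D ∧
        IsCoprime D (e * M) ∧ D.natDegree = n - e.natDegree ∧
        T (e * D) ∧ Q j (e * D)} : ℝ) -
        (Nat.card {D : k[X] // D.Monic ∧ Squarefree D ∧
        IsCoprime D (e * M) ∧ D.natDegree = n - e.natDegree ∧
        T (e * D)} : ℝ) / 2| ≤ ε' * (Nat.card k : ℝ) ^ n := by
    intro e he
    obtain ⟨hesq, heM⟩ := (hEs' e).1 he
    by_cases hm : T e
    · have h1 : n₀ e ≤ Es.sup n₀ := Finset.le_sup he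
      have hdeg : e.natDegree ≤ M.natDegree := natDegree_le_of_dvd heM hM0
      have h2 := hn₀ e he hm (n - e.natDegree) (by omega)
      refine le_trans (le_of_eq ?_) (h2.trans (mul_le_mul_of_nonneg_left
        (pow_le_pow_right₀ hq1 (Nat.sub_le _ _)) hε'0.le))
      have e1 : Nat.card {D : k[X] // D.Monic ∧ Squarefree D ∧
        IsCoprime D (e * M) ∧ D.natDegree = n - e.natDegree ∧
        T (e * D) ∧ Q j (e * D)} = Nat.card {D : k[X] // D.Monic ∧
        Squarefree D ∧ IsCoprime D (e * M) ∧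
        D.natDegree = n - e.natDegree ∧ Q j (e * D)} := by
        refine Nat.card_congr (Equiv.subtypeEquivRight fun D => ?_)
        constructor
        · rintro ⟨h1, h2, h3, h5, h6, h7⟩
          exact ⟨h1, h2, h3, h5, h7⟩
        · rintro ⟨h1, h2, h3, h5, h7⟩
          exact ⟨h1, h2, h3, h5, (hT e hesq heM D h1 h2 h3).2 hm, h7⟩
      have e4 : Nat.card {D : k[X] // D.Monic ∧ Squarefree D ∧
        IsCoprime D (e * M) ∧ D.natDegree = n - e.natDegree ∧
        T (e * D)} = Nat.card {D : k[X] // D.Monic ∧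
        Squarefree D ∧ IsCoprime D (e * M) ∧
        D.natDegree = n - e.natDegree} := by
        refine Nat.card_congr (Equiv.subtypeEquivRight fun D => ?_)
        constructor
        · rintro ⟨h1, h2, h3, h5, h6⟩
          exact ⟨h1, h2, h3, h5⟩
        · rintro ⟨h1, h2, h3, h5⟩
          exact ⟨h1, h2, h3, h5, (hT e hesq heM D h1 h2 h3).2 hm⟩
      rw [e1, e4]
    · have e1 : Nat.card {D : k[X] // D.Monic ∧ Squarefree D ∧
        IsCoprime D (e * M) ∧ D.natDegree = n - e.natDegree ∧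
        T (e * D) ∧ Q j (e * D)} = 0 := by
        have : IsEmpty {D : k[X] // D.Monic ∧ Squarefree D ∧
          IsCoprime D (e * M) ∧ D.natDegree = n - e.natDegree ∧
          T (e * D) ∧ Q j (e * D)} :=
          ⟨fun D => hm ((hT e hesq heM D.1 D.2.1 D.2.2.1 D.2.2.2.1).1 D.2.2.2.2.2.1)⟩
        exact Nat.card_of_isEmpty
      have e4 : Nat.card {D : k[X] // D.Monic ∧ Squarefree D ∧
        IsCoprime D (e * M) ∧ D.natDegree = n - e.natDegree ∧
        T (e * D)} = 0 := by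
        have : IsEmpty {D : k[X] // D.Monic ∧ Squarefree D ∧
          IsCoprime D (e * M) ∧ D.natDegree = n - e.natDegree ∧
          T (e * D)} :=
          ⟨fun D => hm ((hT e hesq heM D.1 D.2.1 D.2.2.1 D.2.2.2.1).1 D.2.2.2.2.2)⟩
        exact Nat.card_of_isEmpty
      rw [e1, e4]
      have : (0 : ℝ) ≤ ε' * (Nat.card k : ℝ) ^ n := by positivity
      simpa using this
  calc _ ≤ ∑ _e ∈ Es, ε' * (Nat.card k : ℝ) ^ n := Finset.sum_le_sum hTT
    _ = (Es.card : ℝ) * (ε' * (Nat.card k : ℝ) ^ n) := by rw [Finset.sum_const, nsmul_eq_mul]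
    _ ≤ N * (ε' * (Nat.card k : ℝ) ^ n) := by
        refine mul_le_mul_of_nonneg_right ?_ (by positivity)
        rw [hN]; linarith
    _ = ε * (c₀ * (Nat.card k : ℝ) ^ n) := by
        rw [hε']
        field_simp
    _ ≤ _ := mul_le_mul_of_nonneg_left (hlow n (by omega)) hε.le

/-- **A positive proportion of all squarefree twists**, from one family `e * D`. -/
theorem all_posJ [Finite k] {M : k[X]} (hM0 : M ≠ 0) (Q : k[X] → Prop) {e : k[X]}
    (hesq : Squarefree e) (heM : e ∣ M) (ev : ℕ → Prop) {c : ℝ} {n₀ : ℕ}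
    (h : ∀ n ≥ n₀, ev n → c * (Nat.card k : ℝ) ^ n ≤
      (Nat.card {D : k[X] // D.Monic ∧ Squarefree D ∧ IsCoprime D (e * M) ∧
        D.natDegree = n ∧ Q (e * D)} : ℝ)) :
    ∀ n ≥ n₀ + M.natDegree, ev (n - e.natDegree) →
      c * (Nat.card k : ℝ) ^ (n - e.natDegree) ≤
        (Nat.card {D : k[X] // Squarefree D ∧ D.natDegree = n ∧ Q D} : ℝ) := by
  classical
  intro n hn hev
  have hdeg : e.natDegree ≤ M.natDegree := natDegree_le_of_dvd heM hM0
  have h1 := h (n - e.natDegree) (by omega) hev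
  refine h1.trans ?_
  have hf := (AllP_finite (k := k) n).to_subtype
  have hfin : Finite {D : k[X] // Squarefree D ∧ D.natDegree = n ∧ Q D} :=
    Finite.of_injective (β := {D : k[X] | D.natDegree ≤ n})
      (fun D => ⟨D.1, D.2.2.1.le⟩) fun D D' h => Subtype.ext (congrArg
        (fun z : {D : k[X] | D.natDegree ≤ n} => z.1) h)
  have h2 : Nat.card {D : k[X] // D.Monic ∧ Squarefree D ∧ IsCoprime D (e * M) ∧
        D.natDegree = n - e.natDegree ∧ Q (e * D)} ≤
      Nat.card {D : k[X] // Squarefree D ∧ D.natDegree = n ∧ Q D} := by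
    refine Nat.card_le_card_of_injective (fun D => ⟨e * D.1, ?_, ?_, D.2.2.2.2.2⟩) ?_
    · rw [squarefree_mul_iff]
      exact ⟨(D.2.2.2.1.of_mul_right_left).symm.isRelPrime, hesq, D.2.2.1⟩
    · rw [natDegree_mul hesq.ne_zero D.2.1.ne_zero, D.2.2.2.2.1]
      omega
    · intro D D' hDD
      exact Subtype.ext (mul_left_cancel₀ hesq.ne_zero (congrArg Subtype.val hDD))
  exact_mod_cast h2

end Pool.Agent.SmJ.L
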