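import Pool.Agent.Lib.SmJ.L.Brg
import Pool.Agent.Lib.SmD.Conj
import Pool.Agent.Lib.SmD.DvrBelow

/-!
SMITH for Jacobians, block L4, for abstract Galois modules: the inverse direction of `bridge`. Every
Selmer cocycle of the abstract structure `Sys` (2-finite, values in `V[2^j]`, `V` the 2-power torsion
of `M`, twisted action) is a Selmer cocycle of the quadratic twist `M'` of `M`. Hence the numbers of
Selmer cocycles are equal (`zsel_equiv`, `card_zsel`).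
-/

set_option autoImplicit false

namespace Pool.Agent.SmJ.L

section

variable {k K Ω : Type} [Field k] [Field K] [Field Ω] [Algebra k K] [Algebra K Ω]
variable {M M' V V1 Pl : Type} [AddCommGroup M] [AddCommGroup M']
variable {ρ : (Ω ≃ₐ[K] Ω) → M →+ M} {ρ' : (Ω ≃ₐ[K] Ω) → M' →+ M'}

/-- A crossed homomorphism which is a coboundary on a subgroup `D` is a coboundary on the subgroups
conjugate to subgroups of `D`. -/
theorem cob_of_conj (h' : GMod ρ') {ψ : (Ω ≃ₐ[K] Ω) → M'}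
    (hc : ∀ s t, ψ (s * t) = ψ s + ρ' s (ψ t)) {D : Subgroup (Ω ≃ₐ[K] Ω)} {Q : M'}
    (hQ : ∀ s ∈ D, ψ s = ρ' s Q - Q) (σ : Ω ≃ₐ[K] Ω) {s : Ω ≃ₐ[K] Ω} (hs : σ * s * σ⁻¹ ∈ D) :
    ψ s = ρ' s (ρ' σ⁻¹ (Q + ψ σ)) - ρ' σ⁻¹ (Q + ψ σ) := by
  have hinv : ∀ Q, ρ' σ⁻¹ (ρ' σ Q) = Q := by
    intro Q
    rw [← h'.mul, inv_mul_cancel, h'.one]
  have h1 : ψ (σ * s) = ψ (σ * s * σ⁻¹) + ρ' (σ * s * σ⁻¹) (ψ σ) := by
    rw [← hc, inv_mul_cancel_right]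
  rw [hQ _ hs, hc] at h1
  have h2 : ρ' σ (ψ s) = ρ' (σ * s * σ⁻¹) (Q + ψ σ) - (Q + ψ σ) := by
    have h3 : ρ' σ (ψ s) = (ψ σ + ρ' σ (ψ s)) - ψ σ := by abel
    rw [h3, h1, map_add]
    abel
  have h4 : ψ s = ρ' σ⁻¹ (ρ' σ (ψ s)) := (hinv _).symm
  rw [h4, h2, map_sub, ← h'.mul, ← h'.mul]
  congr 3
  group

variable [AddCommGroup V] [DistribMulAction (Ω ≃ₐ[K] Ω) V] [AddCommGroup V1]
  [Module (ZMod 2) V1]

/-- The inverse direction of `bridge`. -/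
theorem bridge_back (h' : GMod ρ') (φ : M ≃+ M') (χ : (Ω ≃ₐ[K] Ω) → ZMod 2)
    (hφ : ∀ (s : Ω ≃ₐ[K] Ω) (Q : M), ρ' s (φ Q) = φ (sgn (χ s) • ρ s Q))
    (inc : V →+ M) (hinc : Function.Injective inc)
    (heq : ∀ (s : Ω ≃ₐ[K] Ω) (x : V), inc (s • x) = ρ s (inc x))
    (S : Sys (Ω ≃ₐ[K] Ω) V V1 Pl) (hNN : S.NN = SmD.NN K Ω)
    (hDw : ∀ w : ValuationSubring Ω, w ≠ ⊤ →
      (∀ c : k, algebraMap K Ω (algebraMap k K c) ∈ w) →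
      ∃ (v : Pl) (σ : Ω ≃ₐ[K] Ω), ∀ s ∈ w.decompositionSubgroup K, σ * s * σ⁻¹ ∈ S.D v)
    (j : ℕ) :
    ∃ f : {Psi // S.IsSel χ j Psi} → ZSel k ρ' (2 ^ j), Function.Injective f := by
  have htw : ∀ (s : Ω ≃ₐ[K] Ω) (x : V), φ (inc (tw χ s x)) = ρ' s (φ (inc x)) := by
    intro s x
    rw [tw, map_zsmul, heq, hφ]
  refine ⟨fun Psi => ⟨fun s => φ (inc (Psi.1 s)), ?_⟩, ?_⟩
  · have hc : ∀ s t : Ω ≃ₐ[K] Ω, φ (inc (Psi.1 (s * t))) =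
        φ (inc (Psi.1 s)) + ρ' s (φ (inc (Psi.1 t))) := by
      intro s t
      rw [Psi.2.coc, map_add, map_add, htw]
    refine ⟨hc, fun s => ?_, ?_, fun w hw hw' => ?_⟩
    · rw [← map_nsmul, ← map_nsmul, Psi.2.lev, map_zero, map_zero]
    · obtain ⟨N, hN, hN'⟩ := Psi.2.tf
      rw [hNN] at hN
      obtain ⟨L, hL, hLN⟩ := (krullTopology_mem_nhds_one_iff K Ω (N : Set (Ω ≃ₐ[K] Ω))).mp
        ((SmD.NN.isOpen hN).mem_nhds N.one_mem)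
      refine ⟨L, hL, fun s t hst => ?_⟩
      have h1 : s⁻¹ * t ∈ N := by
        apply hLN
        rw [SetLike.mem_coe, IntermediateField.mem_fixingSubgroup_iff]
        intro x hx
        rw [AlgEquiv.mul_apply, ← hst x hx, ← AlgEquiv.mul_apply, inv_mul_cancel,
          AlgEquiv.one_apply]
      have h2 := hN' s _ h1
      rw [mul_inv_cancel_left] at h2
      rw [h2]
    · obtain ⟨v, σ, hσ⟩ := hDw w hw hw'
      obtain ⟨Q, hQ⟩ := Psi.2.loc v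
      have hQ' : ∀ s ∈ S.D v, φ (inc (Psi.1 s)) = ρ' s (φ (inc Q)) - φ (inc Q) := by
        intro s hs
        rw [hQ s hs, dl, map_sub, map_sub, htw]
      exact ⟨_, fun s hs => cob_of_conj h' hc hQ' σ (hσ s hs)⟩
  · intro Psi Psi' h
    apply Subtype.ext
    funext s
    apply hinc
    apply φ.injective
    exact congrFun (congrArg Subtype.val h) s

/-- The Selmer cocycles of the twist `M'` and of the abstract structure are the same. -/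
theorem zsel_equiv [IsGalois K Ω] (h' : GMod ρ') (φ : M ≃+ M') (χ : (Ω ≃ₐ[K] Ω) → ZMod 2)
    (hφ : ∀ (s : Ω ≃ₐ[K] Ω) (Q : M), ρ' s (φ Q) = φ (sgn (χ s) • ρ s Q))
    (inc : V →+ M) (hinc : Function.Injective inc)
    (hinc' : ∀ Q : M, (∃ i : ℕ, (2 : ℕ) ^ i • Q = 0) → ∃ x, inc x = Q)
    (heq : ∀ (s : Ω ≃ₐ[K] Ω) (x : V), inc (s • x) = ρ s (inc x))
    (hact : ∀ j : ℕ, ∃ N ∈ SmD.NN K Ω, ∀ s ∈ N, ∀ Q : M', (2 : ℕ) ^ j • Q = 0 → ρ' s Q = Q)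
    (S : Sys (Ω ≃ₐ[K] Ω) V V1 Pl) (hNN : S.NN = SmD.NN K Ω)
    (hDv : ∀ v : Pl, ∃ w : ValuationSubring Ω, w ≠ ⊤ ∧
      (∀ c : k, algebraMap K Ω (algebraMap k K c) ∈ w) ∧ S.D v = w.decompositionSubgroup K)
    (hDw : ∀ w : ValuationSubring Ω, w ≠ ⊤ →
      (∀ c : k, algebraMap K Ω (algebraMap k K c) ∈ w) →
      ∃ (v : Pl) (σ : Ω ≃ₐ[K] Ω), ∀ s ∈ w.decompositionSubgroup K, σ * s * σ⁻¹ ∈ S.D v)
    (hE6 : E6Prop k ρ') (j : ℕ) :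
    Nonempty (ZSel k ρ' (2 ^ j) ≃ {Psi // S.IsSel χ j Psi}) := by
  obtain ⟨f, hf⟩ := bridge (k := k) h' φ χ hφ inc hinc hinc' heq hact S hNN hDv hE6 j
  obtain ⟨g, hg⟩ := bridge_back (k := k) h' φ χ hφ inc hinc heq S hNN hDw j
  obtain ⟨e, he⟩ := Function.Embedding.schroeder_bernstein hf hg
  exact ⟨Equiv.ofBijective e he⟩

/-- The numbers of Selmer cocycles are equal. -/
theorem card_zsel_eq [IsGalois K Ω] (h' : GMod ρ') (φ : M ≃+ M') (χ : (Ω ≃ₐ[K] Ω) → ZMod 2)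
    (hφ : ∀ (s : Ω ≃ₐ[K] Ω) (Q : M), ρ' s (φ Q) = φ (sgn (χ s) • ρ s Q))
    (inc : V →+ M) (hinc : Function.Injective inc)
    (hinc' : ∀ Q : M, (∃ i : ℕ, (2 : ℕ) ^ i • Q = 0) → ∃ x, inc x = Q)
    (heq : ∀ (s : Ω ≃ₐ[K] Ω) (x : V), inc (s • x) = ρ s (inc x))
    (hact : ∀ j : ℕ, ∃ N ∈ SmD.NN K Ω, ∀ s ∈ N, ∀ Q : M', (2 : ℕ) ^ j • Q = 0 → ρ' s Q = Q)
    (S : Sys (Ω ≃ₐ[K] Ω) V V1 Pl) (hNN : S.NN = SmD.NN K Ω)
    (hDv : ∀ v : Pl, ∃ w : ValuationSubring Ω, w ≠ ⊤ ∧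
      (∀ c : k, algebraMap K Ω (algebraMap k K c) ∈ w) ∧ S.D v = w.decompositionSubgroup K)
    (hDw : ∀ w : ValuationSubring Ω, w ≠ ⊤ →
      (∀ c : k, algebraMap K Ω (algebraMap k K c) ∈ w) →
      ∃ (v : Pl) (σ : Ω ≃ₐ[K] Ω), ∀ s ∈ w.decompositionSubgroup K, σ * s * σ⁻¹ ∈ S.D v)
    (hE6 : E6Prop k ρ') (j : ℕ) :
    Nat.card (ZSel k ρ' (2 ^ j)) = Nat.card {Psi // S.IsSel χ j Psi} := by
  obtain ⟨e⟩ := zsel_equiv h' φ χ hφ inc hinc hinc' heq hact S hNN hDv hDw hE6 j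
  exact Nat.card_congr e

end

section places

variable {k : Type} [Field k] {Ω : Type} [Field Ω] [Algebra (RatFunc k) Ω]
  [IsSepClosure (RatFunc k) Ω]

open Pool.Agent.BSDFF in
/-- Every decomposition group of a place of `Ω` is conjugate to one of the chosen ones (hypothesis
`hDw` of `bridge_back` for `S.D = dv Ω`). -/
theorem conj_dv (w : ValuationSubring Ω) (hw : w ≠ ⊤)
    (hk : ∀ c : k, algebraMap (RatFunc k) Ω (algebraMap k (RatFunc k) c) ∈ w) :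
    ∃ (v : Place k (RatFunc k)) (σ : Ω ≃ₐ[RatFunc k] Ω),
      ∀ s ∈ w.decompositionSubgroup (RatFunc k), σ * s * σ⁻¹ ∈ Pool.Agent.Lib.SmD.dv Ω v := by
  obtain ⟨v, hv⟩ := Pool.Agent.Lib.SmD.exists_place_below w hw hk
  obtain ⟨σ, hσ⟩ := Pool.Agent.Lib.SmD.conj (RatFunc k) w (Pool.Agent.Lib.SmD.ab Ω v)
    (by rw [Pool.Agent.Lib.SmD.below_ab]; exact hv.symm)
  refine ⟨v, σ, fun s hs => ?_⟩
  have hs' := (Pool.Agent.Lib.SmD.mem_dec (RatFunc k)).mp hs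
  refine (Pool.Agent.Lib.SmD.mem_dec (RatFunc k)).mpr fun x => ?_
  rw [AlgEquiv.mul_apply, AlgEquiv.mul_apply, hσ, hs', ← hσ, ← AlgEquiv.mul_apply,
    mul_inv_cancel, AlgEquiv.one_apply]

end places

end Pool.Agent.SmJ.L
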