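import Pool.Agent.Lib.SmJ.L.Stmt
import Pool.Agent.Lib.Sm.L.StmtW

/-!
SMITH for Jacobians (MP_950c68_ag), heights: definitions for the final statement.

`V = M[2 ^ ∞]` and `W = V ⊗ Z[ε] / ε ^ 2` with the action
`s (Q + R ε) = s Q + (s R + deg(s) s Q) ε`, `deg(s)` being the power of the Frobenius through which
`s` acts on the constants (`Sm.L.IsDeg`). `WSel i` is the group of the classes of the continuous
crossed homomorphisms with values in `W[2 ^ i]` which are coboundaries with values in `W` on the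
decomposition group of every place of `Ω`. They are written as pairs `(ψ, y)`.
-/

set_option autoImplicit false

open Polynomial
open Pool.Agent.Sm.L (IsDeg)

namespace Pool.Agent.SmJ.L

section wsel

variable (k : Type) {K Ω : Type} [Field k] [Field K] [Field Ω] [Algebra k K] [Algebra K Ω]
variable {M : Type} [AddCommGroup M] (ρ : (Ω ≃ₐ[K] Ω) → M →+ M)

/-- The pair `(ψ, y)` is a continuous crossed homomorphism with values in `W[2 ^ i]` and a coboundary
at every place. -/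
structure IsWSel (i : ℕ) (p : ((Ω ≃ₐ[K] Ω) → M) × ((Ω ≃ₐ[K] Ω) → M)) : Prop where
  cocycle : ∀ s t, p.1 (s * t) = p.1 s + ρ s (p.1 t)
  cocycle' : ∀ s t d, IsDeg k Ω i s d →
    p.2 (s * t) = p.2 s + ρ s (p.2 t) + d • ρ s (p.1 t)
  tors : ∀ s, 2 ^ i • p.1 s = 0 ∧ 2 ^ i • p.2 s = 0
  cont : ∃ L : IntermediateField K Ω, FiniteDimensional K L ∧
    ∀ s t : Ω ≃ₐ[K] Ω, (∀ x ∈ L, s x = t x) → p.1 s = p.1 t ∧ p.2 s = p.2 t
  loc : ∀ w : ValuationSubring Ω, w ≠ ⊤ → (∀ c : k, algebraMap K Ω (algebraMap k K c) ∈ w) →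
    ∃ (N : ℕ) (Q R : M), 2 ^ N • Q = 0 ∧ 2 ^ N • R = 0 ∧
      ∀ s ∈ w.decompositionSubgroup K, p.1 s = ρ s Q - Q ∧
        ∀ d, IsDeg k Ω N s d → p.2 s = ρ s R - R + d • ρ s Q

/-- The group of these pairs. -/
noncomputable def WZSel (i : ℕ) :
    AddSubgroup (((Ω ≃ₐ[K] Ω) → M) × ((Ω ≃ₐ[K] Ω) → M)) where
  carrier := {p | IsWSel k ρ i p}
  zero_mem' := ⟨fun s t => by simp, fun s t d _ => by simp, fun s => by simp,
    ⟨⊥, inferInstance, fun _ _ _ => ⟨rfl, rfl⟩⟩,
    fun w _ _ => ⟨0, 0, 0, by simp, by simp, fun s _ => ⟨by simp, fun d _ => by simp⟩⟩⟩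
  add_mem' {a b} ha hb := by
    refine ⟨fun s t => ?_, fun s t d hd => ?_, fun s => ?_, ?_, fun w h h' => ?_⟩
    · simp only [Prod.fst_add, Pi.add_apply, ha.cocycle, hb.cocycle, map_add]
      abel
    · simp only [Prod.fst_add, Prod.snd_add, Pi.add_apply, ha.cocycle' s t d hd,
        hb.cocycle' s t d hd, map_add, smul_add]
      abel
    · simp only [Prod.fst_add, Prod.snd_add, Pi.add_apply, smul_add, (ha.tors s).1, (ha.tors s).2,
        (hb.tors s).1, (hb.tors s).2, add_zero, and_self]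
    · obtain ⟨L, hL, h1⟩ := ha.cont
      obtain ⟨L', hL', h2⟩ := hb.cont
      refine ⟨L ⊔ L', IntermediateField.finiteDimensional_sup L L', fun s t h => ?_⟩
      have e1 := h1 s t fun x hx => h x (le_sup_left (a := L) (b := L') hx)
      have e2 := h2 s t fun x hx => h x (le_sup_right (a := L) (b := L') hx)
      simp only [Prod.fst_add, Prod.snd_add, Pi.add_apply, e1.1, e1.2, e2.1, e2.2, and_self]
    · obtain ⟨N, Q, R, hQ, hR, h1⟩ := ha.loc w h h'
      obtain ⟨M, Q', R', hQ', hR', h2⟩ := hb.loc w h h'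
      refine ⟨max N M, Q + Q', R + R', ?_, ?_, fun s hs => ⟨?_, fun d hd => ?_⟩⟩
      · obtain ⟨e, he⟩ := Nat.exists_eq_add_of_le (le_max_left N M)
        obtain ⟨f, hf⟩ := Nat.exists_eq_add_of_le (le_max_right N M)
        rw [smul_add]
        nth_rw 1 [he]
        rw [hf, pow_add, pow_add, mul_nsmul, mul_nsmul, hQ, hQ', nsmul_zero, nsmul_zero,
          add_zero]
      · obtain ⟨e, he⟩ := Nat.exists_eq_add_of_le (le_max_left N M)
        obtain ⟨f, hf⟩ := Nat.exists_eq_add_of_le (le_max_right N M)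
        rw [smul_add]
        nth_rw 1 [he]
        rw [hf, pow_add, pow_add, mul_nsmul, mul_nsmul, hR, hR', nsmul_zero, nsmul_zero,
          add_zero]
      · rw [Prod.fst_add, Pi.add_apply, (h1 s hs).1, (h2 s hs).1, map_add]
        abel
      · rw [Prod.snd_add, Pi.add_apply, (h1 s hs).2 d (hd.mono (le_max_left _ _)),
          (h2 s hs).2 d (hd.mono (le_max_right _ _)), map_add, map_add, smul_add]
        abel
  neg_mem' {a} ha := by
    refine ⟨fun s t => ?_, fun s t d hd => ?_, fun s => ?_, ?_, fun w h h' => ?_⟩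
    · simp only [Prod.fst_neg, Pi.neg_apply, ha.cocycle, map_neg]
      abel
    · simp only [Prod.fst_neg, Prod.snd_neg, Pi.neg_apply, ha.cocycle' s t d hd, map_neg,
        smul_neg]
      abel
    · simp only [Prod.fst_neg, Prod.snd_neg, Pi.neg_apply, smul_neg, (ha.tors s).1,
        (ha.tors s).2, neg_zero, and_self]
    · obtain ⟨L, hL, h1⟩ := ha.cont
      refine ⟨L, hL, fun s t h => ?_⟩
      have e1 := h1 s t h
      simp only [Prod.fst_neg, Prod.snd_neg, Pi.neg_apply, e1.1, e1.2, and_self]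
    · obtain ⟨N, Q, R, hQ, hR, h1⟩ := ha.loc w h h'
      refine ⟨N, -Q, -R, by rw [smul_neg, hQ, neg_zero], by rw [smul_neg, hR, neg_zero],
        fun s hs => ⟨?_, fun d hd => ?_⟩⟩
      · rw [Prod.fst_neg, Pi.neg_apply, (h1 s hs).1, map_neg]
        abel
      · rw [Prod.snd_neg, Pi.neg_apply, (h1 s hs).2 d hd, map_neg, map_neg, smul_neg]
        abel

/-- The pair `(ψ, y)` is the coboundary of an element of `W[2 ^ i]`. -/
def IsWCob (i : ℕ) (p : ((Ω ≃ₐ[K] Ω) → M) × ((Ω ≃ₐ[K] Ω) → M)) : Prop :=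
  ∃ S T : M, 2 ^ i • S = 0 ∧ 2 ^ i • T = 0 ∧ ∀ s,
    p.1 s = ρ s S - S ∧ ∀ d, IsDeg k Ω i s d → p.2 s = ρ s T - T + d • ρ s S

/-- The group of these pairs. -/
noncomputable def WBSel (i : ℕ) :
    AddSubgroup (((Ω ≃ₐ[K] Ω) → M) × ((Ω ≃ₐ[K] Ω) → M)) where
  carrier := {p | IsWCob k ρ i p}
  zero_mem' := ⟨0, 0, by simp, by simp, fun s => ⟨by simp, fun d _ => by simp⟩⟩
  add_mem' := by
    rintro a b ⟨S, T, hS, hT, h⟩ ⟨S', T', hS', hT', h'⟩
    refine ⟨S + S', T + T', by rw [smul_add, hS, hS', add_zero], by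
      rw [smul_add, hT, hT', add_zero], fun s => ⟨?_, fun d hd => ?_⟩⟩
    · rw [Prod.fst_add, Pi.add_apply, (h s).1, (h' s).1, map_add]
      abel
    · rw [Prod.snd_add, Pi.add_apply, (h s).2 d hd, (h' s).2 d hd, map_add, map_add, smul_add]
      abel
  neg_mem' := by
    rintro a ⟨S, T, hS, hT, h⟩
    refine ⟨-S, -T, by rw [smul_neg, hS, neg_zero], by rw [smul_neg, hT, neg_zero],
      fun s => ⟨?_, fun d hd => ?_⟩⟩
    · rw [Prod.fst_neg, Pi.neg_apply, (h s).1, map_neg]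
      abel
    · rw [Prod.snd_neg, Pi.neg_apply, (h s).2 d hd, map_neg, map_neg, smul_neg]
      abel

/-- The Selmer group of `W[2 ^ i]`. -/
abbrev WSel (i : ℕ) : Type := WZSel k ρ i ⧸ (WBSel k ρ i).addSubgroupOf (WZSel k ρ i)

/-- The Selmer group of `W = V ⊗ Z[ε] / ε ^ 2` has corank `r`. -/
def HasCorankW (r : ℕ) : Prop :=
  ∃ B : ℕ, ∀ i, Nat.card (WSel k ρ i) ≤ B * 2 ^ (r * i) ∧
    2 ^ (r * i) ≤ B * Nat.card (WSel k ρ i)

/-- The Selmer groups of `V` and of `W` have the same corank `r ≤ 1`: the order of vanishing of the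
`L`-function is the corank. -/
def OrdOn : Prop := ∃ r, r ≤ 1 ∧ HasCorank k ρ r ∧ HasCorankW k ρ r

end wsel

section twist

variable {k : Type} [Field k] {g : ℕ}

/-- The Selmer groups of `V` and of `W` have the same corank `r ≤ 1`, for the Jacobian of the
quadratic twist `y ^ 2 = ∏ (x - D a i)` by `D`. -/
def Ord (a : Fin (2 * g + 1) → k[X]) (D : k[X]) : Prop :=
  OrdOn k (gal (SeparableClosure (RatFunc k)) fun i => algebraMap k[X] (RatFunc k) (D * a i))

end twist

end Pool.Agent.SmJ.L
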