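import Pool.Agent.Lib.Sm.L.DegK
import Pool.Agent.Lib.SmJ.L.StmtW
import Pool.Agent.Lib.SmJ.L.Brg
import Pool.Agent.Lib.SmH.Link.WSel

/-!
SMITH for Jacobians, heights: the bridge for pairs. A Selmer cocycle with values in `W[2 ^ j]`,
`W = M'[2 ^ ∞] ⊗ Z[ε] / ε ^ 2`, is a Selmer cocycle of the abstract structure.
-/

set_option autoImplicit false

open Polynomial
open Pool.Agent.Sm.L (IsDeg)

namespace Pool.Agent.SmJ.L

section

variable {k K Ω : Type} [Field k] [Field K] [Field Ω] [Algebra k K] [Algebra K Ω]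
variable {M M' V V1 Pl : Type} [AddCommGroup M] [AddCommGroup M']
variable {ρ : (Ω ≃ₐ[K] Ω) → M →+ M} {ρ' : (Ω ≃ₐ[K] Ω) → M' →+ M'}

omit [Field k] [Algebra k K] in
/-- A pair of finite level with values in `M[2^j]` is `2`-finite. -/
theorem twoFin_of_levelW [IsGalois K Ω] (hG : GMod ρ) {j : ℕ}
    (hN : ∃ N ∈ SmD.NN K Ω, ∀ s ∈ N, ∀ Q : M, (2 : ℕ) ^ j • Q = 0 → ρ s Q = Q)
    (hH : ∃ H ∈ SmD.NN K Ω, ∀ s ∈ H, IsDeg k Ω j s 0)
    (hex : ∀ s : Ω ≃ₐ[K] Ω, ∃ d, IsDeg k Ω j s d)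
    {x y : (Ω ≃ₐ[K] Ω) → M} (hx : ∀ s t, x (s * t) = x s + ρ s (x t))
    (hxt : ∀ s, (2 : ℕ) ^ j • x s = 0)
    (hy : ∀ s t d, IsDeg k Ω j s d → y (s * t) = y s + ρ s (y t) + d • ρ s (x t))
    (hyt : ∀ s, (2 : ℕ) ^ j • y s = 0)
    (hL : ∃ L : IntermediateField K Ω, FiniteDimensional K L ∧
      ∀ s t : Ω ≃ₐ[K] Ω, (∀ a ∈ L, s a = t a) → x s = x t ∧ y s = y t) :
    ∃ N ∈ SmD.NN K Ω, ∀ s, ∀ n ∈ N, x (s * n) = x s ∧ y (s * n) = y s := by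
  obtain ⟨N₁, hN₁, hN₁'⟩ := hN
  obtain ⟨N₂, hN₂, hN₂'⟩ := hH
  obtain ⟨N, hNN, hN, hd⟩ : ∃ N ∈ SmD.NN K Ω, (∀ s ∈ N, ∀ Q : M, (2 : ℕ) ^ j • Q = 0 → ρ s Q = Q) ∧
      ∀ s ∈ N, IsDeg k Ω j s 0 :=
    ⟨N₁ ⊓ N₂, SmD.inf_mem_NN hN₁ hN₂, fun s hs => hN₁' s hs.1, fun s hs => hN₂' s hs.2⟩
  obtain ⟨L, hLf, hL⟩ := hL
  have h1 : x 1 = 0 := by
    have h := hx 1 1
    rw [mul_one, hG.one] at h
    exact left_eq_add.mp h
  have h1' : y 1 = 0 := by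
    have h := hy 1 1 0 (IsDeg.one j)
    rw [mul_one, hG.one, zero_smul, add_zero] at h
    exact left_eq_add.mp h
  have hNn := SmD.NN.normal hNN
  let H : Subgroup (Ω ≃ₐ[K] Ω) :=
    { carrier := {h | h ∈ N ∧ x h = 0 ∧ y h = 0}
      one_mem' := ⟨N.one_mem, h1, h1'⟩
      mul_mem' := by
        rintro a b ⟨ha, ha', ha''⟩ ⟨hb, hb', hb''⟩
        exact ⟨N.mul_mem ha hb, by rw [hx, ha', hb', map_zero, add_zero], by
          rw [hy a b 0 (hd a ha), ha'', hb'', map_zero, zero_smul, add_zero, add_zero]⟩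
      inv_mem' := by
        rintro a ⟨ha, ha', ha''⟩
        refine ⟨N.inv_mem ha, ?_, ?_⟩
        · have h := hx a⁻¹ a
          rw [inv_mul_cancel, h1, ha', map_zero, add_zero] at h
          exact h.symm
        · have h := hy a⁻¹ a 0 (hd _ (N.inv_mem ha))
          rw [inv_mul_cancel, h1', ha'', map_zero, zero_smul, add_zero, add_zero] at h
          exact h.symm }
  have hmem : ∀ h, h ∈ H ↔ h ∈ N ∧ x h = 0 ∧ y h = 0 := fun h => Iff.rfl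
  have hpow : ∀ τ ∈ N, ∀ a : ℕ, x (τ ^ a) = a • x τ ∧ y (τ ^ a) = a • y τ := by
    intro τ hτ a
    induction a with
    | zero => rw [pow_zero, h1, h1', zero_smul, zero_smul]; exact ⟨rfl, rfl⟩
    | succ a ih =>
      have e1 : (2 : ℕ) ^ j • (a • x τ) = 0 := by rw [smul_comm, hxt, smul_zero]
      have e2 : (2 : ℕ) ^ j • (a • y τ) = 0 := by rw [smul_comm, hyt, smul_zero]
      rw [pow_succ', hx, hy τ _ 0 (hd τ hτ), ih.1, ih.2, hN τ hτ _ e1, hN τ hτ _ e2, zero_smul,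
        add_zero, succ_nsmul', succ_nsmul']
      exact ⟨rfl, rfl⟩
  refine ⟨H, SmD.mem_NN_of_pow ?_ ?_ ?_, ?_⟩
  · refine ⟨fun h hh t => ?_⟩
    rw [hmem] at hh ⊢
    obtain ⟨d, hdt⟩ := hex t
    have ex : x (h * t⁻¹) = x t⁻¹ := by rw [hx, hh.2.1, zero_add, hN h hh.1 _ (hxt _)]
    have ey : y (h * t⁻¹) = y t⁻¹ := by
      rw [hy h _ 0 (hd h hh.1), hh.2.2, zero_add, hN h hh.1 _ (hyt _), zero_smul, add_zero]
    refine ⟨hNn.conj_mem h hh.1 t, ?_, ?_⟩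
    · rw [mul_assoc, hx, ex, ← hx, mul_inv_cancel, h1]
    · rw [mul_assoc, hy t _ d hdt, ex, ey, ← hy t _ d hdt, mul_inv_cancel, h1']
  · have h2 : N ⊓ L.fixingSubgroup ≤ H := by
      intro h hh
      rw [hmem]
      have h3 := hL h 1 fun a ha => (IntermediateField.mem_fixingSubgroup_iff L h).mp hh.2 a ha
      exact ⟨hh.1, h3.1.trans h1, h3.2.trans h1'⟩
    refine Subgroup.isOpen_mono h2 ?_
    rw [Subgroup.coe_inf]
    exact (SmD.NN.isOpen hNN).inter (IntermediateField.fixingSubgroup_isOpen L)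
  · intro σ
    obtain ⟨r, hr⟩ := hNN.2.2
    have h2 : σ ^ (2 ^ r) ∈ N := by
      rw [← hr]
      exact Subgroup.pow_index_mem N σ
    refine ⟨r + j, ?_⟩
    rw [hmem, pow_add, pow_mul]
    refine ⟨N.pow_mem h2 _, ?_, ?_⟩
    · rw [(hpow _ h2 _).1, hxt]
    · rw [(hpow _ h2 _).2, hyt]
  · intro s n hn
    rw [hmem] at hn
    obtain ⟨d, hds⟩ := hex s
    constructor
    · rw [hx, hn.2.1, map_zero, add_zero]
    · rw [hy s n d hds, hn.2.1, hn.2.2, map_zero, smul_zero, add_zero, add_zero]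

variable [AddCommGroup V] [DistribMulAction (Ω ≃ₐ[K] Ω) V] [AddCommGroup V1]
  [Module (ZMod 2) V1]

theorem bridgeW [IsGalois K Ω] [IsSepClosed Ω] [Finite k] (hk : (2 : k) ≠ 0) (h' : GMod ρ')
    (φ : M ≃+ M') (χ : (Ω ≃ₐ[K] Ω) → ZMod 2)
    (hφ : ∀ (s : Ω ≃ₐ[K] Ω) (Q : M), ρ' s (φ Q) = φ (sgn (χ s) • ρ s Q))
    (inc : V →+ M) (hinc : Function.Injective inc)
    (hinc' : ∀ Q : M, (∃ i : ℕ, (2 : ℕ) ^ i • Q = 0) → ∃ x, inc x = Q)
    (heq : ∀ (s : Ω ≃ₐ[K] Ω) (x : V), inc (s • x) = ρ s (inc x))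
    (hact : ∀ j : ℕ, ∃ N ∈ SmD.NN K Ω, ∀ s ∈ N, ∀ Q : M', (2 : ℕ) ^ j • Q = 0 → ρ' s Q = Q)
    (S : Sys (Ω ≃ₐ[K] Ω) V V1 Pl) (hNN : S.NN = SmD.NN K Ω)
    (hDv : ∀ v : Pl, ∃ w : ValuationSubring Ω, w ≠ ⊤ ∧
      (∀ c : k, algebraMap K Ω (algebraMap k K c) ∈ w) ∧ S.D v = w.decompositionSubgroup K)
    {dg : ℕ → (Ω ≃ₐ[K] Ω) → ℕ} (hdg' : ∀ m s, IsDeg k Ω m s (dg m s)) (j : ℕ) :
    ∃ f : WZSel k ρ' j → {p : ((Ω ≃ₐ[K] Ω) → V) × ((Ω ≃ₐ[K] Ω) → V) //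
        SmH.IsWSel S dg χ j p.1 p.2}, Function.Injective f := by
  have hdg : SmH.IsDeg dg := Pool.Agent.Sm.L.isDeg_of hk hdg'
  have hφ' : ∀ (s : Ω ≃ₐ[K] Ω) (Q : M'), φ.symm (ρ' s Q) = sgn (χ s) • ρ s (φ.symm Q) := by
    intro s Q
    apply φ.injective
    rw [← hφ, AddEquiv.apply_symm_apply, AddEquiv.apply_symm_apply]
  have hmem : ∀ (i : ℕ) (Q : M'), (2 : ℕ) ^ i • Q = 0 → ∃ x, inc x = φ.symm Q := by
    intro i Q hQ
    refine hinc' _ ⟨i, ?_⟩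
    rw [← map_nsmul, hQ, map_zero]
  have hlev : ∀ (i : ℕ) (Q : M') (x : V), (2 : ℕ) ^ i • Q = 0 → inc x = φ.symm Q →
      (2 : ℕ) ^ i • x = 0 := by
    intro i Q x hQ hx
    apply hinc
    rw [map_nsmul, hx, ← map_nsmul, hQ, map_zero, map_zero]
  have htw : ∀ (s : Ω ≃ₐ[K] Ω) (Q : M') (x : V), inc x = φ.symm Q →
      inc (tw χ s x) = φ.symm (ρ' s Q) := by
    intro s Q x hx
    rw [tw, map_zsmul, heq, hx, hφ']
  have htwl : ∀ (s : Ω ≃ₐ[K] Ω) (i : ℕ) (x : V), (2 : ℕ) ^ i • x = 0 →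
      (2 : ℕ) ^ i • tw χ s x = 0 := by
    intro s i x hx
    unfold tw
    rw [smul_comm, smul_comm ((2 : ℕ) ^ i) s, hx, smul_zero, smul_zero]
  have hds : ∀ (s : Ω ≃ₐ[K] Ω) (i : ℕ) (Q : M') (x : V), (2 : ℕ) ^ i • Q = 0 →
      inc x = φ.symm Q → inc (SmH.ds dg s (tw χ s x)) = φ.symm (dg i s • ρ' s Q) := by
    intro s i Q x hQ hx
    rw [SmH.ds_eq hdg s (htwl s i x (hlev i Q x hQ hx)), map_nsmul, htw s Q x hx, map_nsmul]
  choose F hF using fun p : WZSel k ρ' j => fun s => hmem j _ (p.2.tors s).1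
  choose F' hF' using fun p : WZSel k ρ' j => fun s => hmem j _ (p.2.tors s).2
  refine ⟨fun p => ⟨(F p, F' p), ?_⟩, ?_⟩
  · have hcx := p.2.cocycle
    have hcy := p.2.cocycle'
    obtain ⟨N1, hN1, hN1'⟩ := twoFin_of_levelW (k := k) h' (j := j) (hact j)
      (Pool.Agent.Sm.L.exists_NN_isDeg_zero hk j)
      (fun s => ⟨dg j s, hdg' j s⟩) hcx (fun s => (p.2.tors s).1) hcy
      (fun s => (p.2.tors s).2) p.2.cont
    refine ⟨⟨N1, by rw [hNN]; exact hN1, fun s n hn => ?_⟩,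
      ⟨N1, by rw [hNN]; exact hN1, fun s n hn => ?_⟩,
      fun s => hlev j _ _ (p.2.tors s).1 (hF p s),
      fun s => hlev j _ _ (p.2.tors s).2 (hF' p s), fun s t => ?_, fun s t => ?_, fun v => ?_⟩
    · apply hinc
      rw [hF, hF, (hN1' s n hn).1]
    · apply hinc
      rw [hF', hF', (hN1' s n hn).2]
    · apply hinc
      rw [map_add, hF, hF, htw s _ _ (hF p t), hcx, map_add]
    · apply hinc
      rw [map_add, map_add, hF', hF', htw s _ _ (hF' p t), hds s j _ _ (p.2.tors t).1 (hF p t),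
        hcy s t _ (hdg' j s), map_add, map_add]
    · obtain ⟨w, hw, hw', hDw⟩ := hDv v
      obtain ⟨n, Q, R, hQ, hR, hQR⟩ := p.2.loc w hw hw'
      obtain ⟨x, hx⟩ := hmem n Q hQ
      obtain ⟨z, hz⟩ := hmem n R hR
      refine ⟨x, z, fun s hs => ?_⟩
      rw [hDw] at hs
      have h5 := hQR s hs
      constructor
      · apply hinc
        rw [hF, dl, map_sub, htw s Q x hx, hx, h5.1, map_sub]
      · apply hinc
        rw [hF', map_add, dl, map_sub, htw s R z hz, hz, hds s n Q x hQ hx,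
          h5.2 _ (hdg' n s), map_add, map_sub]
  · intro p p' h
    apply Subtype.ext
    have h3 := congrArg Subtype.val h
    ext1
    · funext s
      have h4 := congrFun (congrArg Prod.fst h3) s
      apply φ.symm.injective
      rw [← hF p s, ← hF p' s]
      exact congrArg inc h4
    · funext s
      have h4 := congrFun (congrArg Prod.snd h3) s
      apply φ.symm.injective
      rw [← hF' p s, ← hF' p' s]
      exact congrArg inc h4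

end

end Pool.Agent.SmJ.L
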