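import Pool.Agent.Lib.SmJ.L.Kum

/-!
SMITH for Jacobians, block L4, for an abstract Galois module `M`: the conclusions `GoodOn` from the
bound `4^g #Z(2^j) < 4^((g+1) j)` for the number of Selmer cocycles of level `j`.
-/

set_option autoImplicit false

open Pool.Agent.BSDFF.MW

namespace Pool.Agent.SmJ.L

section growth

variable {A : Type} [AddCommGroup A]

/-- `2^i A[2^(i+1)]` -/
private def cntP (A : Type) [AddCommGroup A] (i : ℕ) : AddSubgroup A :=
  (Gn A (2 ^ (i + 1))).map (nsmulAddMonoidHom (α := A) (2 ^ i))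

private theorem cnt_mono {i j : ℕ} (h : i ≤ j) : Gn A (2 ^ i) ≤ Gn A (2 ^ j) := by
  intro x hx
  rw [mem_Gn] at *
  obtain ⟨m, rfl⟩ := Nat.exists_eq_add_of_le h
  rw [pow_add, mul_nsmul, hx, nsmul_zero]

private theorem cnt_anti (i : ℕ) : cntP A (i + 1) ≤ cntP A i := by
  rintro _ ⟨x, hx, rfl⟩
  have hx' : 2 ^ (i + 1 + 1) • x = 0 := hx
  refine ⟨2 • x, ?_, ?_⟩
  · change 2 ^ (i + 1) • (2 • x) = 0
    rw [← mul_nsmul, ← pow_succ']
    exact hx'
  · change 2 ^ i • (2 • x) = 2 ^ (i + 1) • x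
    rw [← mul_nsmul, ← pow_succ']

private theorem cnt_le_two (i : ℕ) : cntP A i ≤ Gn A (2 ^ 1) := by
  rintro _ ⟨x, hx, rfl⟩
  have hx' : 2 ^ (i + 1) • x = 0 := hx
  change 2 ^ 1 • (2 ^ i • x) = 0
  rw [← mul_nsmul, ← pow_add]
  exact hx'

private theorem cnt_card (i : ℕ) :
    Nat.card (Gn A (2 ^ (i + 1))) = Nat.card (Gn A (2 ^ i)) * Nat.card (cntP A i) := by
  let f : Gn A (2 ^ (i + 1)) →+ A :=
    (nsmulAddMonoidHom (α := A) (2 ^ i)).comp (Gn A (2 ^ (i + 1))).subtype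
  rw [card_ker_range f]
  congr 1
  · refine Nat.card_congr ⟨fun x => ⟨x.1.1, x.2⟩, fun x => ⟨⟨x.1, cnt_mono (Nat.le_succ i) x.2⟩,
      x.2⟩, fun x => rfl, fun x => rfl⟩
  · have : f.range = cntP A i := by
      ext y
      constructor
      · rintro ⟨x, rfl⟩
        exact ⟨x.1, x.2, rfl⟩
      · rintro ⟨x, hx, rfl⟩
        exact ⟨⟨x, hx⟩, rfl⟩
    rw [this]

private theorem cnt_pow_two (i : ℕ) (hf : Finite (cntP A i)) :
    ∃ a : ℕ, Nat.card (cntP A i) = 2 ^ a := by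
  have hp : IsPGroup 2 (Multiplicative (cntP A i)) := by
    intro x
    refine ⟨1, ?_⟩
    apply Multiplicative.toAdd.injective
    apply Subtype.ext
    exact cnt_le_two i x.toAdd.2
  have := Fact.mk Nat.prime_two
  have : Finite (Multiplicative (cntP A i)) := hf
  exact (IsPGroup.iff_card (G := Multiplicative (cntP A i))).mp hp

private theorem cnt_le (i j : ℕ) (h : i ≤ j) : cntP A j ≤ cntP A i := by
  obtain ⟨m, rfl⟩ := Nat.exists_eq_add_of_le h
  clear h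
  induction m with
  | zero => exact le_refl _
  | succ m ih => exact (cnt_anti (i + m)).trans ih

/-- If `A[2^j]` has less than `2^(N j)` elements then `A[2^i]` has, up to a constant factor,
`2^(s i)` elements, for some `s < N`. -/
theorem growth {N j : ℕ} (hj : 1 ≤ j) (hf : Finite (Gn A (2 ^ j)))
    (h : Nat.card (Gn A (2 ^ j)) < (2 ^ N) ^ j) :
    ∃ s : ℕ, s < N ∧ ∃ B : ℕ, ∀ i, Finite (Gn A (2 ^ i)) ∧
      Nat.card (Gn A (2 ^ i)) ≤ B * 2 ^ (s * i) ∧ 2 ^ (s * i) ≤ B * Nat.card (Gn A (2 ^ i)) := by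
  have hf1 : Finite (Gn A (2 ^ 1)) :=
    Finite.of_injective _ (AddSubgroup.inclusion_injective (cnt_mono (A := A) hj))
  have hfP : ∀ i, Finite (cntP A i) := fun i =>
    Finite.of_injective _ (AddSubgroup.inclusion_injective (cnt_le_two (A := A) i))
  have hfT : ∀ i, Finite (Gn A (2 ^ i)) := by
    intro i
    induction i with
    | zero =>
      exact Finite.of_injective _
        (AddSubgroup.inclusion_injective (cnt_mono (A := A) (Nat.zero_le 1)))
    | succ i ih =>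
      apply Nat.finite_of_card_ne_zero
      rw [cnt_card]
      have := hfP i
      exact mul_ne_zero Nat.card_pos.ne' Nat.card_pos.ne'
  choose a ha using fun i => cnt_pow_two (A := A) i (hfP i)
  have hanti : ∀ i m, i ≤ m → a m ≤ a i := by
    intro i m him
    have := hfP i
    have h1 : Nat.card (cntP A m) ≤ Nat.card (cntP A i) :=
      Nat.card_le_card_of_injective _ (AddSubgroup.inclusion_injective (cnt_le (A := A) i m him))
    rw [ha, ha] at h1
    exact (Nat.pow_le_pow_iff_right (by norm_num)).mp h1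
  obtain ⟨i0, hi0⟩ : ∃ i0, ∀ i, i0 ≤ i → a i = a i0 := by
    obtain ⟨i0, h0⟩ : ∃ i0, ∀ i, a i0 ≤ a i := by
      obtain ⟨i0, h0⟩ := Nat.sInf_mem (s := Set.range a) ⟨a 0, 0, rfl⟩
      exact ⟨i0, fun i => by rw [h0]; exact Nat.sInf_le ⟨i, rfl⟩⟩
    exact ⟨i0, fun i hi => le_antisymm (hanti i0 i hi) (h0 i)⟩
  have hstep : ∀ m, Nat.card (Gn A (2 ^ (i0 + m))) = Nat.card (Gn A (2 ^ i0)) * 2 ^ (a i0 * m) := by
    intro m
    induction m with
    | zero => simp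
    | succ m ih =>
      rw [← add_assoc, cnt_card, ih, ha, hi0 _ (Nat.le_add_right _ _), mul_assoc, ← pow_add,
        Nat.mul_succ]
  have hpos : ∀ i, 1 ≤ Nat.card (Gn A (2 ^ i)) := fun i => by
    have := hfT i
    exact Nat.card_pos
  -- every `a m` with `m < j` is at least `a i0` or `m`-th term is at least the limit
  have hlim : ∀ m, a i0 ≤ a m := by
    intro m
    rcases le_total m i0 with hm | hm
    · exact hanti m i0 hm
    · exact (hi0 m hm).ge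
  have hcard : ∀ m, 2 ^ (a i0 * m) ≤ Nat.card (Gn A (2 ^ m)) := by
    intro m
    induction m with
    | zero => simpa using hpos 0
    | succ m ih =>
      rw [cnt_card, ha, Nat.mul_succ, pow_add]
      exact Nat.mul_le_mul ih (Nat.pow_le_pow_right (by norm_num) (hlim m))
  refine ⟨a i0, ?_, Nat.card (Gn A (2 ^ i0)) * 2 ^ (a i0 * i0), fun i => ⟨hfT i, ?_⟩⟩
  · have h1 := (hcard j).trans_lt h
    rw [← pow_mul] at h1
    have h2 := (Nat.pow_lt_pow_iff_right (by norm_num : 1 < 2)).mp h1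
    exact lt_of_mul_lt_mul_right h2 (Nat.zero_le j)
  · rcases le_total i i0 with hi | hi
    · have hmono : Nat.card (Gn A (2 ^ i)) ≤ Nat.card (Gn A (2 ^ i0)) := by
        have := hfT i0
        exact Nat.card_le_card_of_injective _
          (AddSubgroup.inclusion_injective (cnt_mono (A := A) hi))
      constructor
      · calc Nat.card (Gn A (2 ^ i)) ≤ Nat.card (Gn A (2 ^ i0)) := hmono
          _ ≤ Nat.card (Gn A (2 ^ i0)) * 2 ^ (a i0 * i0) := Nat.le_mul_of_pos_right _ (by positivity)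
          _ ≤ _ := Nat.le_mul_of_pos_right _ (by positivity)
      · calc 2 ^ (a i0 * i) ≤ 2 ^ (a i0 * i0) :=
            Nat.pow_le_pow_right (by norm_num) (Nat.mul_le_mul_left _ hi)
          _ ≤ Nat.card (Gn A (2 ^ i0)) * 2 ^ (a i0 * i0) := Nat.le_mul_of_pos_left _ (hpos i0)
          _ ≤ _ := Nat.le_mul_of_pos_right _ (hpos i)
    · obtain ⟨m, rfl⟩ := Nat.exists_eq_add_of_le hi
      rw [hstep m, Nat.mul_add, pow_add]
      constructor
      · calc Nat.card (Gn A (2 ^ i0)) * 2 ^ (a i0 * m)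
            ≤ Nat.card (Gn A (2 ^ i0)) * 2 ^ (a i0 * m) * (2 ^ (a i0 * i0) * 2 ^ (a i0 * i0)) :=
              Nat.le_mul_of_pos_right _ (by positivity)
          _ = _ := by ring
      · calc 2 ^ (a i0 * i0) * 2 ^ (a i0 * m)
            ≤ 2 ^ (a i0 * i0) * 2 ^ (a i0 * m) *
              (Nat.card (Gn A (2 ^ i0)) * Nat.card (Gn A (2 ^ i0))) :=
              Nat.le_mul_of_pos_right _ (Nat.mul_pos (hpos i0) (hpos i0))
          _ = _ := by ring

/-- If `R` modulo torsion is not `2`-divisible then the index of `2^i R` is at least `2^i`. -/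
theorem le_index {R : Type} [AddCommGroup R] {P : R}
    (hP : ∀ Q : R, ∀ n : ℕ, n ≠ 0 → n • (P - 2 • Q) ≠ 0) (i : ℕ)
    (h0 : (nG R (2 ^ i)).index ≠ 0) : 2 ^ i ≤ (nG R (2 ^ i)).index := by
  have hfi : (nG R (2 ^ i)).FiniteIndex := ⟨h0⟩
  have hfin : Finite (R ⧸ nG R (2 ^ i)) := AddSubgroup.finite_quotient_of_finiteIndex
  have key : ∀ n : ℕ, n ≠ 0 → n < 2 ^ i → ¬ n • P ∈ nG R (2 ^ i) := by
    intro n hn hlt hmem
    obtain ⟨x, hx⟩ := mem_nG.mp hmem
    obtain ⟨e, u, hu, rfl⟩ := Nat.exists_eq_two_pow_mul_odd hn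
    have he : e < i := by
      by_contra hc
      have h1 : 2 ^ i ≤ 2 ^ e := Nat.pow_le_pow_right (by norm_num) (by omega)
      have h2 : 0 < u := by
        rcases Nat.eq_zero_or_pos u with h | h
        · rw [h] at hn
          simp at hn
        · exact h
      have h3 : 2 ^ e * 1 ≤ 2 ^ e * u := Nat.mul_le_mul_left _ h2
      omega
    obtain ⟨m, rfl⟩ := Nat.exists_eq_add_of_lt he
    obtain ⟨v, rfl⟩ := hu
    apply hP (2 ^ m • x - v • P) (2 ^ e) (by positivity)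
    have h1 : P - 2 • (2 ^ m • x - v • P) = (2 * v + 1) • P - 2 ^ (m + 1) • x := by
      rw [nsmul_sub, ← mul_nsmul, ← mul_nsmul, add_nsmul, one_nsmul, pow_succ, mul_comm v 2]
      abel
    rw [h1, nsmul_sub, ← mul_nsmul, ← mul_nsmul, mul_comm (2 * v + 1) (2 ^ e), ← hx, ← pow_add]
    rw [show m + 1 + e = e + m + 1 by ring, sub_self]
  have hinj : Function.Injective (fun c : Fin (2 ^ i) =>
      (QuotientAddGroup.mk (c.1 • P) : R ⧸ nG R (2 ^ i))) := by
    intro c c' hcc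
    by_contra hne
    wlog hlt : c.1 < c'.1 generalizing c c' with H
    · exact H hcc.symm (Ne.symm hne) (lt_of_le_of_ne (not_lt.mp hlt) fun h =>
        hne (Fin.ext h.symm))
    have h1 := QuotientAddGroup.eq.mp hcc
    apply key (c'.1 - c.1) (by omega) (by omega)
    obtain ⟨m, hm⟩ := Nat.exists_eq_add_of_lt hlt
    have h2 : c'.1 - c.1 = m + 1 := by omega
    rw [h2]
    have h3 : (m + 1) • P = -(c.1 • P) + c'.1 • P := by
      rw [hm, add_assoc, add_nsmul P c.1]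
      abel
    rw [h3]
    exact h1
  have h := Nat.card_le_card_of_injective _ hinj
  rwa [Nat.card_eq_fintype_card, Fintype.card_fin] at h

end growth

section good

variable {k K Ω : Type} [Field k] [Field K] [Field Ω] [Algebra k K] [Algebra K Ω]
variable {M : Type} [AddCommGroup M] {ρ : (Ω ≃ₐ[K] Ω) → M →+ M}

theorem finite_sha2 {B : ℕ} (hb : ∀ i : ℕ, 1 ≤ i → Finite (Gn (Sha k ρ) (2 ^ i)) ∧
    Nat.card (Gn (Sha k ρ) (2 ^ i)) ≤ B) : Finite (Sha2 k ρ) := by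
  by_contra hinf
  rw [not_finite_iff_infinite] at hinf
  obtain ⟨s, hs⟩ := Infinite.exists_subset_card_eq (Sha2 k ρ) (B + 1)
  have hx : ∀ x : Sha2 k ρ, ∃ i : ℕ, 2 ^ i • (x : Sha k ρ) = 0 := fun x => x.2
  choose e he using hx
  have hN : ∀ x ∈ s, 2 ^ (1 + ∑ y ∈ s, e y) • (x : Sha k ρ) = 0 := by
    intro x hxs
    have h1 : e x ≤ ∑ y ∈ s, e y := Finset.single_le_sum (fun _ _ => Nat.zero_le _) hxs
    obtain ⟨m, hm⟩ := Nat.exists_eq_add_of_le (h1.trans (Nat.le_add_left _ 1))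
    rw [hm, pow_add, mul_nsmul, he x, nsmul_zero]
  obtain ⟨hf, h2⟩ := hb (1 + ∑ y ∈ s, e y) (Nat.le_add_right 1 _)
  have h3 : s.card ≤ Nat.card (Gn (Sha k ρ) (2 ^ (1 + ∑ y ∈ s, e y))) := by
    rw [← Nat.card_eq_finsetCard s]
    refine Nat.card_le_card_of_injective
      (fun x : {x // x ∈ s} => ⟨((x : Sha2 k ρ) : Sha k ρ), hN x.1 x.2⟩) ?_
    intro x y hxy
    apply Subtype.ext
    apply Subtype.ext
    exact congrArg (fun z : Gn (Sha k ρ) (2 ^ (1 + ∑ y ∈ s, e y)) => (z : Sha k ρ)) hxy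
  omega

/-- `#Sel_(2^i) 4^(g i) = 4^g #Z_(2^i)`. -/
theorem card_sel_zsel (h : GMod ρ) {g : ℕ}
    (htors : ∀ i : ℕ, Nat.card (Gn M (2 ^ i)) = 4 ^ (g * i))
    (hK : ∀ i : ℕ, 1 ≤ i → Nat.card (Gn (Rat ρ) (2 ^ i)) = 4 ^ g) (i : ℕ) (hi : 1 ≤ i) :
    Nat.card (Sel k ρ (2 ^ i)) * 4 ^ (g * i) = 4 ^ g * Nat.card (ZSel k ρ (2 ^ i)) := by
  rw [card_zsel h, ← htors i, card_bsel (ρ := ρ), hK i hi]
  ring

theorem goodOn_of (h : GMod ρ) {g j : ℕ} (hj : 1 ≤ j) (hfin : Finite (ZSel k ρ (2 ^ j)))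
    (hlt : 4 ^ g * Nat.card (ZSel k ρ (2 ^ j)) < 4 ^ ((g + 1) * j))
    (htors : ∀ i : ℕ, Nat.card (Gn M (2 ^ i)) = 4 ^ (g * i))
    (hK : ∀ i : ℕ, 1 ≤ i → Nat.card (Gn (Rat ρ) (2 ^ i)) = 4 ^ g)
    (hdiv : ∀ (i : ℕ) (P : M), ∃ Q, 2 ^ i • Q = P) : GoodOn k ρ j := by
  have hB := card_sel_zsel (k := k) h htors hK
  have h4g : 0 < 4 ^ g := by positivity
  have hGf : Finite (Gn (ZSha k ρ) (2 ^ j)) := by
    apply Nat.finite_of_card_ne_zero
    rw [← card_zsel_gn]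
    exact Nat.card_pos.ne'
  have e4 : ∀ m : ℕ, (4 : ℕ) ^ m = 2 ^ (2 * m) := fun m => by rw [pow_mul]; norm_num
  have hGlt : Nat.card (Gn (ZSha k ρ) (2 ^ j)) < (2 ^ (2 * (g + 1))) ^ j := by
    rw [← card_zsel_gn, ← pow_mul]
    refine lt_of_le_of_lt (Nat.le_mul_of_pos_left _ h4g) (hlt.trans_le (le_of_eq ?_))
    rw [e4]
    congr 1
    ring
  obtain ⟨s, hs3, B, hsB'⟩ := growth (A := ZSha k ρ) hj hGf hGlt
  have hZfin : ∀ i : ℕ, Finite (ZSel k ρ (2 ^ i)) := by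
    intro i
    apply Nat.finite_of_card_ne_zero
    rw [card_zsel_gn]
    have := (hsB' i).1
    exact Nat.card_pos.ne'
  have hSfin : ∀ i : ℕ, Finite (Sel k ρ (2 ^ i)) := by
    intro i
    have := hZfin i
    infer_instance
  have hsB : ∀ i, Nat.card (ZSel k ρ (2 ^ i)) ≤ B * 2 ^ (s * i) ∧
      2 ^ (s * i) ≤ B * Nat.card (ZSel k ρ (2 ^ i)) := by
    intro i
    rw [card_zsel_gn]
    exact (hsB' i).2
  have hB1 : 1 ≤ B := by
    have h := (hsB 0).2
    rw [mul_zero, pow_zero] at h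
    exact Nat.pos_of_mul_pos_right (Nat.lt_of_lt_of_le Nat.one_pos h)
  -- `2 g ≤ s`
  have hs2 : 2 * g ≤ s := by
    by_contra hc
    have h1 : ∀ i, 1 ≤ i → 2 ^ i * 2 ^ (s * i) ≤ 4 ^ g * B * 2 ^ (s * i) := by
      intro i hi
      calc 2 ^ i * 2 ^ (s * i) = 2 ^ ((s + 1) * i) := by rw [← pow_add]; congr 1; ring
        _ ≤ 2 ^ (2 * g * i) := Nat.pow_le_pow_right (by norm_num) (Nat.mul_le_mul_right _ (by omega))
        _ = 4 ^ (g * i) := by rw [e4]; congr 1; ring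
        _ ≤ Nat.card (Sel k ρ (2 ^ i)) * 4 ^ (g * i) := by
            have := hSfin i
            exact Nat.le_mul_of_pos_left _ Nat.card_pos
        _ = 4 ^ g * Nat.card (ZSel k ρ (2 ^ i)) := hB i hi
        _ ≤ 4 ^ g * (B * 2 ^ (s * i)) := Nat.mul_le_mul_left _ (hsB i).1
        _ = 4 ^ g * B * 2 ^ (s * i) := by rw [mul_assoc]
    have h5 : 1 ≤ 4 ^ g * B := Nat.mul_pos h4g hB1
    have h2 := Nat.le_of_mul_le_mul_right (h1 (4 ^ g * B) h5) (by positivity)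
    exact absurd h2 (not_le.mpr Nat.lt_two_pow_self)
  obtain ⟨r, rfl⟩ : ∃ r, s = r + 2 * g := ⟨s - 2 * g, by omega⟩
  have hpow : ∀ i : ℕ, 2 ^ ((r + 2 * g) * i) = 2 ^ (r * i) * 4 ^ (g * i) := by
    intro i
    rw [e4, ← pow_add]
    congr 1
    ring
  have hup : ∀ i, Nat.card (Sel k ρ (2 ^ i)) ≤ 4 ^ g * B * 2 ^ (r * i) := by
    intro i
    rcases Nat.eq_zero_or_pos i with rfl | hi
    · have h2 : Nat.card (Sel k ρ (2 ^ 0)) ≤ Nat.card (ZSel k ρ (2 ^ 0)) := by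
        have := hZfin 0
        exact Nat.card_le_card_of_surjective _ (QuotientAddGroup.mk_surjective)
      calc Nat.card (Sel k ρ (2 ^ 0)) ≤ Nat.card (ZSel k ρ (2 ^ 0)) := h2
        _ ≤ B * 2 ^ ((r + 2 * g) * 0) := (hsB 0).1
        _ ≤ 4 ^ g * B * 2 ^ (r * 0) := by
          rw [mul_zero, mul_zero]
          exact Nat.mul_le_mul_right _ (Nat.le_mul_of_pos_left _ h4g)
    · have h3 : Nat.card (Sel k ρ (2 ^ i)) * 4 ^ (g * i) ≤
          (4 ^ g * B * 2 ^ (r * i)) * 4 ^ (g * i) := by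
        rw [hB i hi]
        calc 4 ^ g * Nat.card (ZSel k ρ (2 ^ i)) ≤ 4 ^ g * (B * 2 ^ ((r + 2 * g) * i)) :=
              Nat.mul_le_mul_left _ (hsB i).1
          _ = _ := by rw [hpow]; ring
      exact Nat.le_of_mul_le_mul_right h3 (by positivity)
  have hlow : ∀ i, 2 ^ (r * i) ≤ 4 ^ g * B * Nat.card (Sel k ρ (2 ^ i)) := by
    intro i
    rcases Nat.eq_zero_or_pos i with rfl | hi
    · rw [mul_zero, pow_zero]
      have := hSfin 0
      exact Nat.mul_pos (Nat.mul_pos h4g hB1) Nat.card_pos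
    · have h3 : 2 ^ (r * i) * 4 ^ (g * i) ≤
          (4 ^ g * B * Nat.card (Sel k ρ (2 ^ i))) * 4 ^ (g * i) := by
        rw [mul_assoc (4 ^ g * B), hB i hi, ← hpow]
        calc 2 ^ ((r + 2 * g) * i) ≤ B * Nat.card (ZSel k ρ (2 ^ i)) := (hsB i).2
          _ ≤ (4 ^ g * B) * (4 ^ g * Nat.card (ZSel k ρ (2 ^ i))) :=
            Nat.mul_le_mul (Nat.le_mul_of_pos_left _ h4g) (Nat.le_mul_of_pos_left _ h4g)
      exact Nat.le_of_mul_le_mul_right h3 (by positivity)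
  have hsel := fun i => card_sel (k := k) h (2 ^ i) (hdiv i)
  have hSpos : ∀ i, Nat.card (Sel k ρ (2 ^ i)) ≠ 0 := fun i => by
    have := hSfin i
    exact Nat.card_pos.ne'
  have hidx : ∀ i, (nG (Rat ρ) (2 ^ i)).index ≠ 0 := fun i => by
    have h1 := hSpos i
    rw [hsel i] at h1
    exact left_ne_zero_of_mul h1
  have hshaf : ∀ i, Finite (Gn (Sha k ρ) (2 ^ i)) := fun i => by
    have h1 := hSpos i
    rw [hsel i] at h1
    exact Nat.finite_of_card_ne_zero (right_ne_zero_of_mul h1)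
  refine ⟨hSfin, ?_, r, by omega, ⟨4 ^ g * B, fun i => ⟨hup i, hlow i⟩⟩, ?_, ?_⟩
  · have h2 := hB j hj
    have h3 : Nat.card (Sel k ρ (2 ^ j)) * 4 ^ (g * j) < 4 ^ j * 4 ^ (g * j) := by
      rw [h2]
      refine hlt.trans_le (le_of_eq ?_)
      rw [← pow_add]
      congr 1
      ring
    exact Nat.lt_of_mul_lt_mul_right h3
  · intro hr
    refine finite_sha2 (B := 4 ^ g * B) fun i _ => ⟨hshaf i, ?_⟩
    have h1 := hup i
    rw [hr, zero_mul, pow_zero, mul_one, hsel i] at h1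
    exact (Nat.le_mul_of_pos_left _ (Nat.pos_of_ne_zero (hidx i))).trans h1
  · rintro ⟨P, hP, hPQ⟩
    refine finite_sha2 (B := 4 ^ g * B) fun i _ => ⟨hshaf i, ?_⟩
    have h5 : 2 ^ i ≤ (nG (Rat ρ) (2 ^ i)).index := by
      refine le_index (P := (⟨P, hP⟩ : Rat ρ)) (fun Q n hn h0 => ?_) i (hidx i)
      exact hPQ Q.1 Q.2 n hn (congrArg Subtype.val h0)
    have h1 := hup i
    rw [hsel i] at h1
    have h6 : 2 ^ (r * i) ≤ 2 ^ i :=
      Nat.pow_le_pow_right (by norm_num) (by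
        have : r ≤ 1 := by omega
        nlinarith)
    have h7 : Nat.card (Gn (Sha k ρ) (2 ^ i)) * 2 ^ i ≤ 4 ^ g * B * 2 ^ i := by
      calc Nat.card (Gn (Sha k ρ) (2 ^ i)) * 2 ^ i
          ≤ Nat.card (Gn (Sha k ρ) (2 ^ i)) * (nG (Rat ρ) (2 ^ i)).index :=
            Nat.mul_le_mul_left _ h5
        _ = (nG (Rat ρ) (2 ^ i)).index * Nat.card (Gn (Sha k ρ) (2 ^ i)) := mul_comm _ _
        _ ≤ 4 ^ g * B * 2 ^ (r * i) := h1
        _ ≤ 4 ^ g * B * 2 ^ i := Nat.mul_le_mul_left _ h6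
    exact Nat.le_of_mul_le_mul_right h7 (by positivity)

end good

end Pool.Agent.SmJ.L
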