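import Pool.Agent.Lib.SmJ.L.Final4
import Pool.Agent.Lib.SmJ.L.Brg2
import Pool.Agent.Lib.SmJ.L.CorP

/-!
SMITH for Jacobians, block L with parity: the corank of the `2`-power Selmer group of the quadratic
twist `J_D` and the order of its `2`-Selmer group, from the numbers of the Selmer cocycles in the
abstract structure `Sys`.
-/

set_option autoImplicit false

open Polynomial Pool.Agent.BSDFF Pool.Agent.BSDFF.MW
open Pool.Agent.SmithE (rf)
open Pool.Agent.Lib.SmD (chi)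

namespace Pool.Agent.SmJ.L

variable {k : Type} [Field k] [Finite k] {Ω : Type} [Field Ω] [Algebra (RatFunc k) Ω]
  [IsSepClosure (RatFunc k) Ω] {g : ℕ}

/-- The rational torsion points of `2`-power order. -/
theorem card_rat_jac (h2 : (2 : k) ≠ 0) {u : k} (hu : ¬ IsSquare u)
    {a : Fin (2 * g + 1) → k[X]}
    (ha : Function.Injective a) (hg : Gen a) {iota : EV g →+ Jac Ω (rk a)}
    (hJ : JOk (rk a) iota) (hcard : Nat.card (EV g) = 4 ^ g) (i : ℕ) (hi : 1 ≤ i) :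
    Nat.card (Gn (Rat (gal Ω (rk a))) (2 ^ i)) = 4 ^ g := by
  rw [← hcard]
  refine card_gn_rat iota hJ.inj hJ.two hJ.range hJ.fix (fun z w hz hs => ?_) i hi
  refine eq_zero_of_mapW (Ω := Ω) h2 hu ha hg (w := w) fun s => ?_
  apply hJ.inj
  rw [map_zero]
  have h1 := hJ.kap z w hz s
  rw [hs s, sub_self] at h1
  rw [h1]
  congr 1
  refine mapW_congr (fun i j _ => ?_) w
  rw [rf, map_sub]

/-- The numbers of the Selmer cocycles, the coranks and the order of the 2-Selmer group of the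
Jacobian of the quadratic twist. -/
theorem corank_twistJ (h2 : (2 : k) ≠ 0) {u : k} (hu : ¬ IsSquare u)
    {a b : Fin (2 * g + 1) → k[X]} (ha : Function.Injective a) {D : k[X]} (hD : D ≠ 0)
    (hb : ∀ i, b i = D * a i) (hg : Gen b) {iota : EV g →+ Jac Ω (rk b)}
    (hJ : JOk (rk b) iota) (hcard : Nat.card (EV g) = 4 ^ g)
    (hact : ∀ c : Fin (2 * g + 1) → RatFunc k, Function.Injective c →
      ∀ (_ : HypA (rts Ω c)) (s : Ω ≃ₐ[RatFunc k] Ω) (Q : Jac Ω c),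
        gal Ω c s Q = act s.toRingEquiv (map_rts Ω c s) Q)
    (hE6 : E6Prop k (gal Ω (rk b)))
    {V V1 Pl : Type} [AddCommGroup V] [DistribMulAction (Ω ≃ₐ[RatFunc k] Ω) V]
    [AddCommGroup V1] [Module (ZMod 2) V1]
    (inc : V →+ Jac Ω (rk a)) (hinc : Function.Injective inc)
    (hinc' : ∀ Q : Jac Ω (rk a), (∃ i : ℕ, (2 : ℕ) ^ i • Q = 0) → ∃ x, inc x = Q)
    (heq : ∀ (s : Ω ≃ₐ[RatFunc k] Ω) (x : V), inc (s • x) = gal Ω (rk a) s (inc x))
    (S : Sys (Ω ≃ₐ[RatFunc k] Ω) V V1 Pl) (hNN : S.NN = SmD.NN (RatFunc k) Ω)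
    (hDv : ∀ v : Pl, ∃ w : ValuationSubring Ω, w ≠ ⊤ ∧
      (∀ c : k, algebraMap (RatFunc k) Ω (algebraMap k (RatFunc k) c) ∈ w) ∧
      S.D v = w.decompositionSubgroup (RatFunc k))
    (hDw : ∀ w : ValuationSubring Ω, w ≠ ⊤ →
      (∀ c : k, algebraMap (RatFunc k) Ω (algebraMap k (RatFunc k) c) ∈ w) →
      ∃ (v : Pl) (σ : Ω ≃ₐ[RatFunc k] Ω),
        ∀ s ∈ w.decompositionSubgroup (RatFunc k), σ * s * σ⁻¹ ∈ S.D v) :
    ((∀ i, Finite {Psi // S.IsSel (chi (RatFunc k) (rf D)) i Psi}) → (∃ B : ℕ, ∀ i, Nat.card {Psi // S.IsSel (chi (RatFunc k) (rf D)) i Psi} ≤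
        B * (4 ^ g) ^ i) → HasCorank k (gal Ω (rk b)) 0) ∧
    ((∀ i, (2 * 4 ^ g) ^ i ≤ Nat.card {Psi // S.IsSel (chi (RatFunc k) (rf D)) i Psi}) →
      (∃ B : ℕ, ∀ i, Nat.card {Psi // S.IsSel (chi (RatFunc k) (rf D)) i Psi} ≤
        B * (2 * 4 ^ g) ^ i) → HasCorank k (gal Ω (rk b)) 1) ∧
    Nat.card (Sel k (gal Ω (rk b)) (2 ^ 1)) =
      Nat.card {Psi // S.IsSel (chi (RatFunc k) (rf D)) 1 Psi} := by
  have hsc : IsSepClosed Ω := IsSepClosure.sep_closed (RatFunc k)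
  have hgal : IsGalois (RatFunc k) Ω := inferInstance
  have h2K : (2 : RatFunc k) ≠ 0 := by
    intro h
    apply h2
    apply (algebraMap k (RatFunc k)).injective
    rw [map_ofNat, h, map_zero]
  have hD0 : rf D ≠ 0 := fun h =>
    hD (IsFractionRing.injective k[X] (RatFunc k) (h.trans (map_zero _).symm))
  have hbi : Function.Injective b := by
    intro i j hij
    rw [hb, hb] at hij
    exact ha (mul_left_cancel₀ hD hij)
  obtain ⟨φ, hφ⟩ := exists_twist (Ω := Ω) h2K (rk_inj ha) hD0 (b := rk b) (fun i => by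
    change algebraMap k[X] (RatFunc k) (b i) = _
    rw [hb, map_mul]) hact
  have hZ : ∀ i, Nat.card (ZSel k (gal Ω (rk b)) (2 ^ i)) =
      Nat.card {Psi // S.IsSel (chi (RatFunc k) (rf D)) i Psi} := fun i =>
    card_zsel_eq (k := k) hJ.gmod φ (chi (RatFunc k) (rf D)) hφ inc hinc hinc' heq hJ.fin
      S hNN hDv hDw hE6 i
  have hZfin : (∀ i, Finite {Psi // S.IsSel (chi (RatFunc k) (rf D)) i Psi}) →
      ∀ i, Finite (ZSel k (gal Ω (rk b)) (2 ^ i)) := by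
    intro hfin i
    obtain ⟨f, hf⟩ := bridge (k := k) hJ.gmod φ (chi (RatFunc k) (rf D)) hφ inc hinc hinc' heq
      hJ.fin S hNN hDv hE6 i
    have := hfin i
    exact Finite.of_injective f hf
  have hK := card_rat_jac h2 hu hbi hg hJ hcard
  refine ⟨fun hfin hB => ?_, fun h8 hB => ?_, ?_⟩
  · refine hasCorank_zero_of_zsel hJ.gmod hJ.tors hK (hZfin hfin) ?_
    obtain ⟨B, hB⟩ := hB
    exact ⟨B, fun i => by rw [hZ]; exact hB i⟩
  · refine hasCorank_one_of_zsel hJ.gmod hJ.tors hK (fun i => by rw [hZ]; exact h8 i) ?_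
    obtain ⟨B, hB⟩ := hB
    exact ⟨B, fun i => by rw [hZ]; exact hB i⟩
  · have h1 := card_sel_zsel (k := k) hJ.gmod hJ.tors hK 1 le_rfl
    rw [mul_one, mul_comm, hZ] at h1
    exact Nat.eq_of_mul_eq_mul_left (by positivity) h1

end Pool.Agent.SmJ.L
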