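import Pool.Agent.Lib.Sm.L.DegK
import Pool.Agent.Lib.SmJ.L.StmtW
import Pool.Agent.Lib.SmJ.L.Cnt
import Pool.Agent.Lib.SmJ.L.Brg

/-!
SMITH for Jacobians, heights: counting the classes of `WSel`. The corank of the Selmer group of
`W = V ⊗ Z[ε] / ε ^ 2` is read off from upper bounds for the numbers of cocycles.
-/

set_option autoImplicit false

open Polynomial Pool.Agent.BSDFF Pool.Agent.BSDFF.MW
open Pool.Agent.Sm.L (IsDeg exists_isDeg exists_level_deg nsmul_eq_of_mod)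

namespace Pool.Agent.SmJ.L

section countW

variable {k K Ω : Type} [Field k] [Field K] [Field Ω] [Algebra k K]
  [Algebra K Ω] {M : Type} [AddCommGroup M]

/-- The coboundary of a pair `(S, T)`. -/
noncomputable def cobW (ρ : (Ω ≃ₐ[K] Ω) → M →+ M) (n : ℕ) (d : (Ω ≃ₐ[K] Ω) → ℕ) :
    Gn M n × Gn M n →+ ((Ω ≃ₐ[K] Ω) → M) × ((Ω ≃ₐ[K] Ω) → M) :=
  AddMonoidHom.mk' (fun p => (cob ρ p.1.1, fun s => cob ρ p.2.1 s + d s • ρ s p.1.1))
    (fun p p' => by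
      ext1
      · exact cob_add _ _
      · funext s
        simp only [Prod.fst_add, Prod.snd_add, AddSubgroup.coe_add, cob_add, Pi.add_apply,
          map_add, smul_add]
        abel)

/-- `T ↦ cob T` on the points killed by `n`. -/
noncomputable def cobHom (ρ : (Ω ≃ₐ[K] Ω) → M →+ M) (n : ℕ) : Gn M n →+ ((Ω ≃ₐ[K] Ω) → M) :=
  AddMonoidHom.mk' (fun T => cob ρ T.1) (fun T T' => cob_add T.1 T'.1)

variable {ρ : (Ω ≃ₐ[K] Ω) → M →+ M}

theorem range_cobW [Finite k] [IsSepClosed Ω] (h2 : (2 : k) ≠ 0) (i : ℕ)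
    {d : (Ω ≃ₐ[K] Ω) → ℕ} (hd : ∀ s, IsDeg k Ω i s (d s)) :
    (cobW ρ (2 ^ i) d).range = WBSel k ρ i := by
  ext p
  constructor
  · rintro ⟨q, rfl⟩
    refine ⟨q.1.1, q.2.1, q.1.2, q.2.2, fun s => ⟨rfl, fun e he => ?_⟩⟩
    change cob ρ q.2.1 s + d s • ρ s q.1.1 = cob ρ q.2.1 s + e • ρ s q.1.1
    congr 1
    refine nsmul_eq_of_mod (n := 2 ^ i) (IsDeg.unique h2 (hd s) he) ?_
    rw [← map_nsmul, mem_Gn.mp q.1.2, map_zero]
  · rintro ⟨S, T, hS, hT, h⟩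
    refine ⟨(⟨S, hS⟩, ⟨T, hT⟩), ?_⟩
    ext1
    · funext s
      exact ((h s).1).symm
    · funext s
      exact ((h s).2 (d s) (hd s)).symm

theorem card_ker_cobHom (n : ℕ) : Nat.card (cobHom ρ n).ker = Nat.card (Gn (Rat ρ) n) := by
  refine (Nat.card_congr (Equiv.ofBijective (fun P : Gn (Rat ρ) n =>
      (⟨⟨P.1.1, ?_⟩, ?_⟩ : (cobHom ρ n).ker)) ⟨?_, ?_⟩)).symm
  · exact congrArg Subtype.val (mem_Gn.mp P.2)
  · exact cob_eq_zero_iff.mpr P.1.2
  · intro P Q h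
    apply Subtype.ext
    apply Subtype.ext
    exact congrArg (fun x : (cobHom ρ n).ker => (x.1.1 : M)) h
  · rintro ⟨⟨T, hT⟩, hT'⟩
    exact ⟨⟨⟨T, cob_eq_zero_iff.mp hT'⟩, Subtype.ext hT⟩, rfl⟩

theorem card_ker_cobW (n : ℕ) (d : (Ω ≃ₐ[K] Ω) → ℕ) [Finite (Gn M n)] :
    Nat.card (cobW ρ n d).ker ≤ Nat.card (cobHom ρ n).ker * Nat.card (cobHom ρ n).ker := by
  have h1 : ∀ p : Gn M n × Gn M n, p ∈ (cobW ρ n d).ker →
      cob ρ p.1.1 = 0 ∧ ∀ s, cob ρ p.2.1 s + d s • ρ s p.1.1 = 0 := by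
    intro p hp
    exact ⟨congrArg Prod.fst hp, fun s => congrFun (congrArg Prod.snd hp) s⟩
  let g : (cobW ρ n d).ker →+ Gn M n :=
    (AddMonoidHom.fst (Gn M n) (Gn M n)).comp (cobW ρ n d).ker.subtype
  rw [card_ker_range g]
  refine Nat.mul_le_mul ?_ ?_
  · refine Nat.card_le_card_of_injective (fun p : g.ker =>
      (⟨p.1.1.2, ?_⟩ : (cobHom ρ n).ker)) ?_
    · have h2 := (h1 _ p.1.2).2
      have h3 : (p.1.1.1 : Gn M n) = 0 := p.2
      rw [h3] at h2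
      refine funext fun s => ?_
      have h4 := h2 s
      rw [AddSubgroup.coe_zero, map_zero, smul_zero, add_zero] at h4
      exact h4
    · intro p p' h
      apply Subtype.ext
      apply Subtype.ext
      have h3 : (p.1.1.1 : Gn M n) = 0 := p.2
      have h3' : (p'.1.1.1 : Gn M n) = 0 := p'.2
      exact Prod.ext (h3.trans h3'.symm) (congrArg Subtype.val h)
  · have h4 : g.range ≤ (cobHom ρ n).ker := by
      rintro _ ⟨p, rfl⟩
      exact (h1 _ p.2).1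
    exact Nat.card_le_card_of_injective (AddSubgroup.inclusion h4)
      (AddSubgroup.inclusion_injective h4)

theorem wbsel_le [Finite k] [IsSepClosed Ω] [Algebra.IsAlgebraic K Ω] (hG : GMod ρ)
    (h2 : (2 : k) ≠ 0) (i : ℕ) : WBSel k ρ i ≤ WZSel k ρ i := by
  have hq : 1 < Nat.card k := by have := SmN.R.three_le_card h2; omega
  rintro p ⟨S, T, hS, hT, h⟩
  have hS' : ∀ s, 2 ^ i • ρ s S = 0 := fun s => by rw [← map_nsmul, hS, map_zero]
  refine ⟨fun s t => ?_, fun s t d hd => ?_, fun s => ⟨?_, ?_⟩, ?_, fun w _ _ =>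
    ⟨i, S, T, hS, hT, fun s _ => h s⟩⟩
  · rw [(h _).1, (h _).1, (h _).1, hG.mul, map_sub]
    abel
  · obtain ⟨e, -, he⟩ := exists_isDeg (K := K) (Ω := Ω) h2 i t
    rw [(h _).2 (d + e) (hd.mul he), (h s).2 d hd, (h t).2 e he, (h t).1, hG.mul, hG.mul,
      map_add, map_sub, map_sub, map_nsmul, smul_sub, add_smul]
    abel
  · rw [(h s).1, smul_sub, hS', hS, sub_zero]
  · obtain ⟨e, -, he⟩ := exists_isDeg (K := K) (Ω := Ω) h2 i s
    have hT' : 2 ^ i • ρ s T = 0 := by rw [← map_nsmul, hT, map_zero]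
    rw [(h s).2 e he, smul_add, smul_sub, hT', hT, sub_zero, zero_add, smul_comm, hS', smul_zero]
  · obtain ⟨L, hL, h1⟩ := hG.level S
    obtain ⟨L', hL', h1'⟩ := hG.level T
    obtain ⟨L'', hL'', h1''⟩ := exists_level_deg (K := K) (Ω := Ω) hq i
    refine ⟨L ⊔ L' ⊔ L'', ?_, fun s t hst => ⟨?_, ?_⟩⟩
    · have := IntermediateField.finiteDimensional_sup L L'
      exact IntermediateField.finiteDimensional_sup _ L''
    · rw [(h _).1, (h _).1, h1 s t fun x hx => hst x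
        (le_sup_left (a := L ⊔ L') (le_sup_left (a := L) hx))]
    · obtain ⟨e, -, he⟩ := exists_isDeg (K := K) (Ω := Ω) h2 i s
      rw [(h s).2 e he, (h t).2 e (h1'' s t (fun x hx => hst x (le_sup_right (a := L ⊔ L') hx)) e
        he), h1 s t fun x hx => hst x (le_sup_left (a := L ⊔ L') (le_sup_left (a := L) hx)),
        h1' s t fun x hx => hst x (le_sup_left (a := L ⊔ L') (le_sup_right (a := L) hx))]

theorem card_wzsel [Finite k] [IsSepClosed Ω] [Algebra.IsAlgebraic K Ω] (hG : GMod ρ)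
    (h2 : (2 : k) ≠ 0)
    (i : ℕ) : Nat.card (WZSel k ρ i) = Nat.card (WSel k ρ i) * Nat.card (WBSel k ρ i) := by
  rw [AddSubgroup.card_eq_card_quotient_mul_card_addSubgroup
    ((WBSel k ρ i).addSubgroupOf (WZSel k ρ i))]
  congr 1
  exact Nat.card_congr (AddSubgroup.addSubgroupOfEquivOfLe (wbsel_le hG h2 i)).toEquiv

/-- The inclusion `y ↦ (0, y)` of the Selmer group of `V`. -/
theorem zero_mem_wzsel {i : ℕ} {y : (Ω ≃ₐ[K] Ω) → M} (hy : IsSel k ρ (2 ^ i) y)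
    (hE6 : E6Prop k ρ) : IsWSel k ρ i (0, y) := by
  refine ⟨fun s t => ?_, fun s t d _ => ?_, fun s => ⟨?_, hy.tors s⟩, ?_, fun w hw hw' => ?_⟩
  · simp only [Pi.zero_apply, map_zero, add_zero]
  · simp only [Pi.zero_apply, map_zero, smul_zero, add_zero]
    exact hy.cocycle s t
  · simp only [Pi.zero_apply, smul_zero]
  · obtain ⟨L, hL, h⟩ := hy.cont
    exact ⟨L, hL, fun s t hst => ⟨rfl, h s t hst⟩⟩
  · obtain ⟨Q, hQ⟩ := hy.loc w hw hw'
    obtain ⟨Q', ⟨N, hN⟩, hQ'⟩ := hE6 w hw hw' i Q fun s hs => by rw [← hQ s hs, hy.tors]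
    refine ⟨N, 0, Q', by simp, hN, fun s hs => ⟨by simp, fun d _ => ?_⟩⟩
    rw [map_zero, smul_zero, add_zero, ← hQ' s hs]
    exact hQ s hs

/-- `#Sel ≤ F ^ 2 #WSel`. -/
theorem card_sel_le [Finite k] [IsSepClosed Ω] (hG : GMod ρ) (h2 : (2 : k) ≠ 0)
    (hE6 : E6Prop k ρ) (i : ℕ) [Finite (Gn M (2 ^ i))] [Finite (WZSel k ρ i)] :
    Nat.card (Sel k ρ (2 ^ i)) ≤
      Nat.card (cobHom ρ (2 ^ i)).ker ^ 2 * Nat.card (WSel k ρ i) := by
  choose d hdlt hd using exists_isDeg (K := K) (Ω := Ω) h2 i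
  let h0 : ZSel k ρ (2 ^ i) →+ WZSel k ρ i := AddMonoidHom.mk'
    (fun y => ⟨(0, y.1), zero_mem_wzsel y.2 hE6⟩) (fun y y' => Subtype.ext (by
      ext1
      · exact (add_zero _).symm
      · rfl))
  let h : ZSel k ρ (2 ^ i) →+ WSel k ρ i := (QuotientAddGroup.mk' _).comp h0
  have hWfin : Finite (WSel k ρ i) := inferInstance
  have e1 : Nat.card h.range ≤ Nat.card (WSel k ρ i) :=
    Nat.card_le_card_of_injective _ Subtype.val_injective
  have hker : ∀ y, y ∈ h.ker → ∃ S T : M, 2 ^ i • S = 0 ∧ 2 ^ i • T = 0 ∧ cob ρ S = 0 ∧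
      ∀ s, y.1 s = cob ρ T s + d s • ρ s S := by
    intro y hy
    have h1 : h0 y ∈ (WBSel k ρ i).addSubgroupOf (WZSel k ρ i) :=
      (QuotientAddGroup.eq_zero_iff (h0 y)).mp hy
    obtain ⟨S, T, hS, hT, h3⟩ := h1
    exact ⟨S, T, hS, hT, funext fun s => ((h3 s).1).symm, fun s => (h3 s).2 (d s) (hd s)⟩
  choose! S T hS hT hS0 hy using hker
  have e2 : Nat.card h.ker ≤ Nat.card (cobHom ρ (2 ^ i)).ker *
      Nat.card (Gn M (2 ^ i)) := by
    rw [← Nat.card_prod]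
    refine Nat.card_le_card_of_injective (fun y : h.ker =>
      ((⟨⟨S y.1, hS y.1 y.2⟩, hS0 y.1 y.2⟩ : (cobHom ρ (2 ^ i)).ker),
        (⟨T y.1, hT y.1 y.2⟩ : Gn M (2 ^ i)))) ?_
    intro y y' hyy
    have a1 : S y.1 = S y'.1 := congrArg (fun q : (cobHom ρ (2 ^ i)).ker ×
      Gn M (2 ^ i) => (q.1.1.1 : M)) hyy
    have a2 : T y.1 = T y'.1 := congrArg (fun q : (cobHom ρ (2 ^ i)).ker ×
      Gn M (2 ^ i) => (q.2.1 : M)) hyy
    apply Subtype.ext
    apply Subtype.ext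
    funext s
    rw [hy y.1 y.2 s, hy y'.1 y'.2 s, a1, a2]
  have e3 := card_ker_range h
  have e4 := card_zsel (k := k) hG (2 ^ i)
  have e5 := card_bsel (ρ := ρ) (2 ^ i)
  rw [← card_ker_cobHom (2 ^ i)] at e5
  have hV : 0 < Nat.card (Gn M (2 ^ i)) := Nat.card_pos
  have hB : 0 < Nat.card (BSel ρ (2 ^ i)) := by
    rw [e5] at hV
    exact Nat.pos_of_mul_pos_left hV
  refine Nat.le_of_mul_le_mul_right ?_ hB
  calc Nat.card (Sel k ρ (2 ^ i)) * Nat.card (BSel ρ (2 ^ i))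
      = Nat.card h.ker * Nat.card h.range := by rw [← e4, e3]
    _ ≤ (Nat.card (cobHom ρ (2 ^ i)).ker * Nat.card (Gn M (2 ^ i))) *
        Nat.card (WSel k ρ i) := Nat.mul_le_mul e2 e1
    _ = _ := by rw [e5]; ring

/-- The corank of the Selmer group of `W` from the corank of the Selmer group of `V` and upper
bounds for the numbers of cocycles. -/
theorem hasCorankW_of [Finite k] [IsSepClosed Ω] [Algebra.IsAlgebraic K Ω] (hG : GMod ρ)
    (h2 : (2 : k) ≠ 0) (hE6 : E6Prop k ρ) {c : ℕ} (hc : 0 < c)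
    (hV : ∀ i, Nat.card (Gn M (2 ^ i)) = c ^ i) {F : ℕ}
    (hF : ∀ i, Nat.card (Gn (Rat ρ) (2 ^ i)) ≤ F) {r : ℕ}
    (hr : HasCorank k ρ r) (hfin : ∀ i, Finite (WZSel k ρ i)) {C : ℕ}
    (hC : ∀ i, Nat.card (WZSel k ρ i) ≤ C * (2 ^ r * c ^ 2) ^ i) : HasCorankW k ρ r := by
  obtain ⟨B, hB⟩ := hr
  choose d hdlt hd using fun i => exists_isDeg (K := K) (Ω := Ω) h2 i
  have hVf : ∀ i, Finite (Gn M (2 ^ i)) := fun i =>
    Nat.finite_of_card_ne_zero (by rw [hV]; positivity)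
  have hF' : ∀ i, Nat.card (cobHom ρ (2 ^ i)).ker ≤ F := fun i => by
    rw [card_ker_cobHom]
    exact hF i
  refine ⟨C * F ^ 2 + B * F ^ 2, fun i => ⟨?_, ?_⟩⟩
  · have hf := hVf i
    have e1 := card_ker_range (cobW ρ (2 ^ i) (d i))
    rw [Nat.card_prod, hV, range_cobW h2 i (hd i)] at e1
    have e2 := card_ker_cobW (ρ := ρ) (2 ^ i) (d i)
    have e3 := card_wzsel hG h2 i
    have h16 : 0 < c ^ i * c ^ i := by positivity
    refine (Nat.le_of_mul_le_mul_right ?_ h16).trans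
      (Nat.mul_le_mul_right (2 ^ (r * i)) (Nat.le_add_right (C * F ^ 2) (B * F ^ 2)))
    have hFF := Nat.mul_le_mul (hF' i) (hF' i)
    calc Nat.card (WSel k ρ i) * (c ^ i * c ^ i)
        = Nat.card (WSel k ρ i) * (Nat.card (cobW ρ (2 ^ i) (d i)).ker *
            Nat.card (WBSel k ρ i)) := by rw [e1]
      _ = Nat.card (cobW ρ (2 ^ i) (d i)).ker * Nat.card (WZSel k ρ i) := by rw [e3]; ring
      _ ≤ (F * F) * (C * (2 ^ r * c ^ 2) ^ i) := Nat.mul_le_mul (e2.trans hFF) (hC i)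
      _ = _ := by rw [mul_pow, ← pow_mul 2 r i]; ring
  · have hf := hVf i
    have hf' := hfin i
    calc 2 ^ (r * i) ≤ B * Nat.card (Sel k ρ (2 ^ i)) := (hB i).2
      _ ≤ B * (Nat.card (cobHom ρ (2 ^ i)).ker ^ 2 * Nat.card (WSel k ρ i)) :=
        Nat.mul_le_mul_left _ (card_sel_le hG h2 hE6 i)
      _ ≤ B * (F ^ 2 * Nat.card (WSel k ρ i)) :=
        Nat.mul_le_mul_left _ (Nat.mul_le_mul_right _ (Nat.pow_le_pow_left (hF' i) 2))
      _ = B * F ^ 2 * Nat.card (WSel k ρ i) := by ring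
      _ ≤ _ := Nat.mul_le_mul_right _ (Nat.le_add_left _ _)

end countW

end Pool.Agent.SmJ.L
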