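import Pool.Agent.Lib.SmJ.L.ResJ
import Pool.Agent.Lib.SmJ.L.StmtW

/-!
SMITH for Jacobians, heights: the final theorem, from the distribution of the coranks and the
statement on the Selmer groups of `W` for the monic squarefree `D` prime to the bad primes.
-/

set_option autoImplicit false

open Polynomial Pool.Agent.BSDFF Pool.Agent

namespace Pool.Agent.SmJ.L

variable {k : Type} [Field k] {g : ℕ}

theorem ord_mul (a : Fin (2 * g + 1) → k[X]) (e D : k[X]) :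
    Ord (fun i => e * a i) D ↔ Ord a (e * D) := by
  have key : ∀ b c : Fin (2 * g + 1) → RatFunc k, b = c →
      (OrdOn k (gal (SeparableClosure (RatFunc k)) b) ↔
        OrdOn k (gal (SeparableClosure (RatFunc k)) c)) := by
    rintro b c rfl
    rfl
  refine key _ _ ?_
  funext i
  congr 1
  ring

/-- All squarefree twists. -/
theorem ord_all [Finite k] (h2 : (2 : k) ≠ 0)
    (hmain : ∀ b : Fin (2 * g + 1) → k[X], Function.Injective b → Gen b → ∀ ε : ℝ, 0 < ε →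
      ∃ n₀ : ℕ, ∀ n ≥ n₀,
      (Nat.card {D : k[X] // D.Monic ∧ Squarefree D ∧ IsCoprime D (dpr b) ∧
        D.natDegree = n ∧ ¬ Ord b D} : ℝ) ≤ ε * (Nat.card k : ℝ) ^ n)
    (a : Fin (2 * g + 1) → k[X]) (ha : Function.Injective a) (hg : Gen a) (ε : ℝ) (hε : 0 < ε) :
    ∃ n₀ : ℕ, ∀ n ≥ n₀,
      (Nat.card {D : k[X] // Squarefree D ∧ D.natDegree = n ∧ ¬ Ord a D} : ℝ) ≤
        ε * (Nat.card {D : k[X] // Squarefree D ∧ D.natDegree = n} : ℝ) := by
  have H : ∃ j n₀ : ℕ, ∀ n ≥ n₀,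
      (Nat.card {D : k[X] // Squarefree D ∧ D.natDegree = n ∧ ¬ (fun (_ : ℕ) D => Ord a D) j D} :
        ℝ) ≤ ε * (Nat.card {D : k[X] // Squarefree D ∧ D.natDegree = n} : ℝ) := ?_
  · obtain ⟨j, h⟩ := H
    exact h
  refine all_squarefree_abs (dpr_ne_zero ha) (fun _ D => Ord a D)
    (fun e he heM ε hε => ?_) ?_ ε hε
  · obtain ⟨n₀, h3⟩ := hmain (fun i => e * a i) (injective_mul ha he) (hg.twist ha he) ε hε
    refine ⟨0, fun j _ => ⟨n₀, fun n hn => le_trans ?_ (h3 n hn)⟩⟩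
    have hfin : Finite {D : k[X] // D.Monic ∧ Squarefree D ∧ IsCoprime D (dpr fun i => e * a i) ∧
        D.natDegree = n ∧ ¬ Ord (fun i => e * a i) D} :=
      Finite.of_injective (β := {D : k[X] // D ∈ SmK.Mon k n})
        (fun D => ⟨D.1, SmK.mem_Mon.2 ⟨D.2.1, D.2.2.2.2.1⟩⟩)
        fun D D' h => Subtype.ext (congrArg (fun z : {D : k[X] // D ∈ SmK.Mon k n} => z.1) h)
    have h5 : Nat.card {D : k[X] // D.Monic ∧ Squarefree D ∧ IsCoprime D (e * dpr a) ∧
        D.natDegree = n ∧ ¬ Ord a (e * D)} ≤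
        Nat.card {D : k[X] // D.Monic ∧ Squarefree D ∧ IsCoprime D (dpr fun i => e * a i) ∧
        D.natDegree = n ∧ ¬ Ord (fun i => e * a i) D} := by
      refine Nat.card_le_card_of_injective (fun D => ⟨D.1, D.2.1, D.2.2.1,
        isCoprime_dpr_mul D.2.2.2.1, D.2.2.2.2.1, fun hg => D.2.2.2.2.2
          ((ord_mul a e D.1).mp hg)⟩) fun D D' h => Subtype.ext
          (congrArg (fun z : {D : k[X] // D.Monic ∧ Squarefree D ∧
            IsCoprime D (dpr fun i => e * a i) ∧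
            D.natDegree = n ∧ ¬ Ord (fun i => e * a i) D} => z.1) h)
    exact_mod_cast h5
  · obtain ⟨c, hc, h⟩ := Pool.Agent.Sm.L.card_squarefree_ge (k := k) h2
    exact ⟨c, hc, 0, fun n _ => h n⟩

private lemma finW_finite [Finite k] {n : ℕ} {P : k[X] → Prop}
    (hP : ∀ D, P D → D.natDegree = n) : Finite {D : k[X] // P D} := by
  have h : {D : k[X] | D.natDegree ≤ n} ⊆ (degreeLT k (n + 1) : Set k[X]) := by
    intro D hD
    rw [SetLike.mem_coe, mem_degreeLT]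
    exact lt_of_le_of_lt degree_le_natDegree (by exact_mod_cast Nat.lt_succ_of_le hD)
  have h1 : {D : k[X] | D.natDegree ≤ n}.Finite := by
    refine Set.Finite.subset ?_ h
    have : Finite (degreeLT k (n + 1)) := Finite.of_equiv _ (degreeLTEquiv k (n + 1)).toEquiv.symm
    exact Set.toFinite _
  have h2 := h1.to_subtype
  exact Finite.of_injective (β := {D : k[X] | D.natDegree ≤ n}) (fun D => ⟨D.1, (hP _ D.2).le⟩)
    fun D D' h => Subtype.ext (congrArg (fun z : {D : k[X] | D.natDegree ≤ n} => z.1) h)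

private lemma finW_or [Finite k] {n : ℕ} {F A B : k[X] → Prop} (hF : ∀ D, F D → D.natDegree = n) :
    (Nat.card {D : k[X] // F D ∧ ¬ (A D ∧ B D)} : ℝ) ≤
      (Nat.card {D : k[X] // F D ∧ ¬ A D} : ℝ) + (Nat.card {D : k[X] // F D ∧ ¬ B D} : ℝ) := by
  classical
  have f2 : Finite {D : k[X] // F D ∧ ¬ A D} := finW_finite fun D h => hF D h.1
  have f3 : Finite {D : k[X] // F D ∧ ¬ B D} := finW_finite fun D h => hF D h.1
  have h3 : Nat.card {D : k[X] // F D ∧ ¬ (A D ∧ B D)} ≤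
      Nat.card ({D : k[X] // F D ∧ ¬ A D} ⊕ {D : k[X] // F D ∧ ¬ B D}) := by
    refine Nat.card_le_card_of_injective (fun D => if h : ¬ A D.1 then
      Sum.inl ⟨D.1, D.2.1, h⟩ else Sum.inr ⟨D.1, D.2.1, fun hB => D.2.2
        ⟨not_not.mp h, hB⟩⟩) ?_
    intro D D' h
    by_cases h4 : ¬ A D.1 <;> by_cases h5 : ¬ A D'.1
    · simp only [h4, h5, not_false_eq_true, dif_pos, Sum.inl.injEq, Subtype.mk.injEq] at h
      exact Subtype.ext h
    · simp only [h4, h5, not_false_eq_true, dif_pos, dif_neg, reduceCtorEq] at h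
    · simp only [h4, h5, not_false_eq_true, dif_pos, dif_neg, reduceCtorEq] at h
    · simp only [h4, h5, dif_neg, not_false_eq_true, Sum.inr.injEq, Subtype.mk.injEq] at h
      exact Subtype.ext h
  rw [Nat.card_sum] at h3
  exact_mod_cast h3

/-- The final theorem. -/
theorem heights_ofJ [Finite k] (h2 : (2 : k) ≠ 0)
    (hhalf : ∀ r : ℕ, r ≤ 1 → ∀ b : Fin (2 * g + 1) → k[X], Function.Injective b → Gen b →
      (∃ P, EdgeAt b P) → ∀ ε : ℝ, 0 < ε → ∃ j₀ : ℕ, ∀ j ≥ j₀, ∃ n₀ : ℕ, ∀ n ≥ n₀,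
      |(Nat.card {D : k[X] // D.Monic ∧ Squarefree D ∧ IsCoprime D (dpr b) ∧
        D.natDegree = n ∧ HasCorank k (gal (SeparableClosure (RatFunc k)) fun i =>
          algebraMap k[X] (RatFunc k) (D * b i)) r} : ℝ) -
        (Nat.card {D : k[X] // D.Monic ∧ Squarefree D ∧ IsCoprime D (dpr b) ∧
        D.natDegree = n} : ℝ) / 2| ≤ ε * (Nat.card k : ℝ) ^ n)
    (hord : ∀ b : Fin (2 * g + 1) → k[X], Function.Injective b → Gen b → ∀ ε : ℝ, 0 < ε →
      ∃ n₀ : ℕ, ∀ n ≥ n₀,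
      (Nat.card {D : k[X] // D.Monic ∧ Squarefree D ∧ IsCoprime D (dpr b) ∧
        D.natDegree = n ∧ ¬ Ord b D} : ℝ) ≤ ε * (Nat.card k : ℝ) ^ n)
    (a : Fin (2 * g + 1) → k[X]) (ha : Function.Injective a) (hg : Gen a)
    (hE : ∃ P, EdgeAt a P) :
    ∃ δ : ℝ, 0 < δ ∧ ∀ ε : ℝ, 0 < ε → ∃ j n₀ : ℕ, ∀ n ≥ n₀,
      (Nat.card {D : k[X] // (Squarefree D ∧ D.natDegree = n) ∧
        ¬ (Good a j D ∧ Ord a D)} : ℝ) ≤
        ε * (Nat.card {D : k[X] // Squarefree D ∧ D.natDegree = n} : ℝ) ∧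
      δ * (Nat.card {D : k[X] // Squarefree D ∧ D.natDegree = n} : ℝ) ≤
        (Nat.card {D : k[X] // Squarefree D ∧ D.natDegree = n ∧ MultJ a D} : ℝ) ∧
      |(Nat.card {D : k[X] // (Squarefree D ∧ D.natDegree = n ∧ MultJ a D) ∧
          Corank0 a D} : ℝ) -
        (Nat.card {D : k[X] // Squarefree D ∧ D.natDegree = n ∧ MultJ a D} : ℝ) / 2| ≤
        ε * (Nat.card {D : k[X] // Squarefree D ∧ D.natDegree = n ∧ MultJ a D} : ℝ) ∧
      |(Nat.card {D : k[X] // (Squarefree D ∧ D.natDegree = n ∧ MultJ a D) ∧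
          Corank1 a D} : ℝ) -
        (Nat.card {D : k[X] // Squarefree D ∧ D.natDegree = n ∧ MultJ a D} : ℝ) / 2| ≤
        ε * (Nat.card {D : k[X] // Squarefree D ∧ D.natDegree = n ∧ MultJ a D} : ℝ) := by
  obtain ⟨δ, hδ, H⟩ := parity_ofJ h2 hhalf a ha hg hE
  refine ⟨δ, hδ, fun ε hε => ?_⟩
  obtain ⟨j, n₀, hn⟩ := H (ε / 2) (by positivity)
  obtain ⟨n₁, hn₁⟩ := ord_all h2 hord a ha hg (ε / 2) (by positivity)
  refine ⟨j, max n₀ n₁, fun n hnn => ?_⟩
  obtain ⟨m1, m2, m3, m4⟩ := hn n ((le_max_left _ _).trans hnn)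
  have m5 := hn₁ n ((le_max_right _ _).trans hnn)
  have hS : (0 : ℝ) ≤ (Nat.card {D : k[X] // Squarefree D ∧ D.natDegree = n} : ℝ) :=
    Nat.cast_nonneg _
  have hF : (0 : ℝ) ≤ (Nat.card {D : k[X] // Squarefree D ∧ D.natDegree = n ∧ MultJ a D} : ℝ) :=
    Nat.cast_nonneg _
  have hε2 : ε / 2 ≤ ε := by linarith
  refine ⟨?_, m2, m3.trans (mul_le_mul_of_nonneg_right hε2 hF),
    m4.trans (mul_le_mul_of_nonneg_right hε2 hF)⟩
  have h5 := finW_or (n := n) (F := fun D : k[X] => Squarefree D ∧ D.natDegree = n)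
    (A := fun D => Good a j D) (B := fun D => Ord a D) fun D h => h.2
  have e1 : Nat.card {D : k[X] // (Squarefree D ∧ D.natDegree = n) ∧ ¬ Good a j D} =
      Nat.card {D : k[X] // Squarefree D ∧ D.natDegree = n ∧ ¬ Good a j D} :=
    Nat.card_congr (Equiv.subtypeEquivRight fun D => and_assoc)
  have e2 : Nat.card {D : k[X] // (Squarefree D ∧ D.natDegree = n) ∧ ¬ Ord a D} =
      Nat.card {D : k[X] // Squarefree D ∧ D.natDegree = n ∧ ¬ Ord a D} :=
    Nat.card_congr (Equiv.subtypeEquivRight fun D => and_assoc)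
  rw [e1, e2] at h5
  linarith

end Pool.Agent.SmJ.L
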