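import Pool.Agent.Lib.SmJ.L.HalfTwo
import Pool.Agent.Lib.SmJ.L.AsmAbs

/-!
SMITH for Jacobians, block L with parity: the half theorem for the family of the twists by monic
squarefree `D` prime to the bad primes of the curve `y ^ 2 = ∏ (x - a i)`, and the positive
proportion theorem for this family.
-/

set_option autoImplicit false

open Polynomial Finset

namespace Pool.Agent.SmJ.L

open Pool.Agent.SmK (DD)
open Pool.Agent.Sm (leg)

variable {k : Type} [Field k] {g : ℕ} {a : Fin (2 * g + 1) → k[X]}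

theorem badPJ_iff {u : k} (hu : ¬ IsSquare u) (ha : Function.Injective a) (hg : Gen a)
    (P : k[X]) (hm : P.Monic) (hi : Irreducible P) :
    P ∈ badP (twdJ u hu ha hg) ↔ P ∣ dpr a := by
  rw [mem_badP]
  exact twdJ_ell_iff hu ha hg hm hi

theorem nontrivial_EV (hg1 : 1 ≤ g) : Nontrivial (EV g) := by
  have : Fintype (EV g) := Fintype.ofFinite _
  rw [← Fintype.one_lt_card_iff_nontrivial, ← Nat.card_eq_fintype_card, card_EV]
  exact Nat.one_lt_pow (by omega) (by norm_num)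

variable [Finite k] {G V Pl : Type} [Group G] [AddCommGroup V] [DistribMulAction G V]
    {S : Sys G V (EV g) Pl} {ch : k[X] → G → ZMod 2} {pl : k[X] → Pl} {u : k}
    {hu : ¬ IsSquare u} {ha : Function.Injective a} {hg : Gen a}

private theorem HalfFam_small {m : ℕ} {D : k[X]} (h : Small S ch m D) :
    Finite {Psi : G → V // S.IsSel (ch D) m Psi} ∧
      4 ^ g * Nat.card {Psi : G → V // S.IsSel (ch D) m Psi} < (4 ^ (g + 1)) ^ m := by
  refine ⟨h.1, ?_⟩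
  have h2 := h.2
  rw [card_EV, ← pow_succ' 4 g] at h2
  exact h2

/-- **Half of the twists** of one family. -/
theorem half_fam (hg1 : 1 ≤ g) (hOk : S.Ok) (hc : ChOk S ch (twdJ u hu ha hg) pl)
    (hG : ∀ m, 1 ≤ m → GridThm S ch (twdJ u hu ha hg) m)
    (halt : ∀ (J : Type) [Fintype J] [Nonempty J] (p : J → k[X]), PVec (twdJ u hu ha hg) p →
      (twJ S hOk ch (twdJ u hu ha hg) p).Altn)
    (heven : ∀ ε : ℝ, 0 < ε → ∃ n0 : ℕ, ∀ n : ℕ, n0 ≤ n →
      |((@Finset.filter _ (EvenSel hOk ch)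
          (Classical.decPred _) (DD (badP (twdJ u hu ha hg)) n)).card : ℝ) -
        (DD (badP (twdJ u hu ha hg)) n).card / 2| ≤ ε * (DD (badP (twdJ u hu ha hg)) n).card)
    (P0 P1 : ℕ → k[X] → Prop) (hdis : ∀ j D, P0 j D → P1 j D → False)
    (h0 : ∀ j, 1 ≤ j → ∀ D : k[X], D.Monic → Squarefree D → IsCoprime D (dpr a) →
      Finite {Psi : G → V // S.IsSel (ch D) j Psi} →
      4 ^ g * Nat.card {Psi : G → V // S.IsSel (ch D) j Psi} < (4 ^ (g + 1)) ^ j →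
      (∀ i, Finite {Psi : G → V // S.IsSel (ch D) i Psi}) →
      (∃ B : ℕ, ∀ i, Nat.card {Psi : G → V // S.IsSel (ch D) i Psi} ≤ B * (4 ^ g) ^ i) → P0 j D)
    (h1 : ∀ j, 1 ≤ j → ∀ D : k[X], D.Monic → Squarefree D → IsCoprime D (dpr a) →
      Finite {Psi : G → V // S.IsSel (ch D) j Psi} →
      4 ^ g * Nat.card {Psi : G → V // S.IsSel (ch D) j Psi} < (4 ^ (g + 1)) ^ j →
      (∀ i, Finite {Psi : G → V // S.IsSel (ch D) i Psi}) →
      (∀ i, (2 * 4 ^ g) ^ i ≤ Nat.card {Psi : G → V // S.IsSel (ch D) i Psi}) →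
      (∃ B : ℕ, ∀ i, Nat.card {Psi : G → V // S.IsSel (ch D) i Psi} ≤ B * (2 * 4 ^ g) ^ i) →
        P1 j D)
    (ε : ℝ) (hε : 0 < ε) :
    (∃ j₀ : ℕ, ∀ j ≥ j₀, ∃ n₀ : ℕ, ∀ n ≥ n₀,
      |(Nat.card {D : k[X] // D.Monic ∧ Squarefree D ∧ IsCoprime D (dpr a) ∧
        D.natDegree = n ∧ P0 j D} : ℝ) -
        (Nat.card {D : k[X] // D.Monic ∧ Squarefree D ∧ IsCoprime D (dpr a) ∧
        D.natDegree = n} : ℝ) / 2| ≤ ε * (Nat.card k : ℝ) ^ n) ∧
    (∃ j₀ : ℕ, ∀ j ≥ j₀, ∃ n₀ : ℕ, ∀ n ≥ n₀,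
      |(Nat.card {D : k[X] // D.Monic ∧ Squarefree D ∧ IsCoprime D (dpr a) ∧
        D.natDegree = n ∧ P1 j D} : ℝ) -
        (Nat.card {D : k[X] // D.Monic ∧ Squarefree D ∧ IsCoprime D (dpr a) ∧
        D.natDegree = n} : ℝ) / 2| ≤ ε * (Nat.card k : ℝ) ^ n) := by
  classical
  have := nontrivial_EV hg1
  have hM := dpr_ne_zero ha
  have hB' := badP_irr (twdJ u hu ha hg)
  have hB := badPJ_iff hu ha hg
  have hev : ∀ ε : ℝ, 0 < ε → ∃ n0 : ℕ, ∀ n : ℕ, n0 ≤ n →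
      |(((DD (badP (twdJ u hu ha hg)) n).filter (EvenSel hOk ch)).card : ℝ) -
        (DD (badP (twdJ u hu ha hg)) n).card / 2| ≤
        ε * (DD (badP (twdJ u hu ha hg)) n).card := by
    intro ε hε
    obtain ⟨n0, hn⟩ := heven ε hε
    refine ⟨n0, fun n hnn => ?_⟩
    have h3 := hn n hnn
    convert h3 using 5
  have hkey := fun ε hε => half_two hOk (par_of hOk hc halt) (main_of hOk hc hG) hev P0 P1 hdis
    (fun m hm n D hD hs hc0 => by
      obtain ⟨g1, g2, g3, g4⟩ := (mem_DD_iff hM hB' hB).1 hD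
      obtain ⟨g5, g6⟩ := HalfFam_small hs
      refine h0 m hm D g1 g2 g3 g5 g6 hc0.1 ?_
      have h7 := hc0.2
      rw [card_EV] at h7
      exact h7)
    (fun m hm n D hD hs hc0 => by
      obtain ⟨g1, g2, g3, g4⟩ := (mem_DD_iff hM hB' hB).1 hD
      obtain ⟨g5, g6⟩ := HalfFam_small hs
      have h7 := hc0.2
      rw [card_EV] at h7
      exact h1 m hm D g1 g2 g3 g5 g6 hc0.1 h7.1 h7.2) ε hε
  constructor
  · refine half_card hM hB' hB P0 (fun ε hε => ?_) ε hε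
    obtain ⟨m₀, h⟩ := hkey ε hε
    refine ⟨m₀, fun m hm => ?_⟩
    obtain ⟨n₀, h⟩ := h m hm
    exact ⟨n₀, fun n hn => (h n hn).1⟩
  · refine half_card hM hB' hB P1 (fun ε hε => ?_) ε hε
    obtain ⟨m₀, h⟩ := hkey ε hε
    refine ⟨m₀, fun m hm => ?_⟩
    obtain ⟨n₀, h⟩ := h m hm
    exact ⟨n₀, fun n hn => (h n hn).2⟩

/-- **A positive proportion** of one family, if one 2-Selmer group has even dimension. -/
theorem one_fam (hg1 : 1 ≤ g) (hOk : S.Ok) (hc : ChOk S ch (twdJ u hu ha hg) pl)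
    (hG : ∀ m, 1 ≤ m → GridThm S ch (twdJ u hu ha hg) m)
    (halt : ∀ (J : Type) [Fintype J] [Nonempty J] (p : J → k[X]), PVec (twdJ u hu ha hg) p →
      (twJ S hOk ch (twdJ u hu ha hg) p).Altn)
    (D₂ : k[X])
    (hsame : ∀ n, Even (n + D₂.natDegree) → ∀ D ∈ DD (badP (twdJ u hu ha hg)) n,
      (∀ i, leg ((twdJ u hu ha hg).ell i) D = leg ((twdJ u hu ha hg).ell i) D₂) →
        ∃ r : ℕ, Nat.card (S.Sel1 hOk (ch D)) = 4 ^ r)
    (P0 : ℕ → k[X] → Prop)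
    (h0 : ∀ j, 1 ≤ j → ∀ D : k[X], D.Monic → Squarefree D → IsCoprime D (dpr a) →
      Finite {Psi : G → V // S.IsSel (ch D) j Psi} →
      4 ^ g * Nat.card {Psi : G → V // S.IsSel (ch D) j Psi} < (4 ^ (g + 1)) ^ j →
      (∀ i, Finite {Psi : G → V // S.IsSel (ch D) i Psi}) →
      (∃ B : ℕ, ∀ i, Nat.card {Psi : G → V // S.IsSel (ch D) i Psi} ≤ B * (4 ^ g) ^ i) →
        P0 j D) :
    ∃ c : ℝ, 0 < c ∧ ∃ j₀ : ℕ, ∀ j ≥ j₀, ∃ n₀ : ℕ, ∀ n ≥ n₀, Even (n + D₂.natDegree) →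
      c * (Nat.card k : ℝ) ^ n ≤
      (Nat.card {D : k[X] // D.Monic ∧ Squarefree D ∧ IsCoprime D (dpr a) ∧
        D.natDegree = n ∧ P0 j D} : ℝ) := by
  classical
  have := nontrivial_EV hg1
  have hM := dpr_ne_zero ha
  have hB' := badP_irr (twdJ u hu ha hg)
  have hB := badPJ_iff hu ha hg
  obtain ⟨c, hc', j₀, h⟩ := one_two hOk (par_of hOk hc halt) (main_of hOk hc hG) hc.two
    (twdJ u hu ha hg).ell (twdJ u hu ha hg).ell_monic (twdJ u hu ha hg).ell_irr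
    (twdJ u hu ha hg).ell_inj (fun P => mem_badP)
    (fun i => leg ((twdJ u hu ha hg).ell i) D₂) (fun n => Even (n + D₂.natDegree)) hsame P0
    (fun m hm n D hD hs hc0 => by
      obtain ⟨g1, g2, g3, g4⟩ := (mem_DD_iff hM hB' hB).1 hD
      obtain ⟨g5, g6⟩ := HalfFam_small hs
      refine h0 m hm D g1 g2 g3 g5 g6 hc0.1 ?_
      have h7 := hc0.2
      rw [card_EV] at h7
      exact h7)
  refine ⟨c, hc', j₀, fun j hj => ?_⟩
  obtain ⟨n₀, h⟩ := h j hj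
  refine ⟨n₀, fun n hn hev => ?_⟩
  rw [card_filter_eq hM hB' hB]
  exact h n hn hev

end Pool.Agent.SmJ.L
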