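import Pool.Agent.Lib.SmJ.L.HordW
import Pool.Agent.Lib.SmJ.L.FinalW
import Pool.Agent.Lib.SmJ.L.Done
import Pool.Agent.Lib.SmJ.L.HalfFam
import Pool.Agent.Lib.SmH.MainOf
import Pool.Agent.Lib.SmH.Inst.HOk

/-!
SMITH for Jacobians, heights: the order of vanishing for `100` per cent of the quadratic twists.
-/

set_option autoImplicit false

open Polynomial Pool.Agent.BSDFF
open Pool.Agent.SmithE (rf chP)

namespace Pool.Agent.SmJ.L

variable {k : Type} [Field k] [Finite k] {g : ℕ}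

/-- The order of vanishing for `100` per cent of the monic squarefree `D` prime to the bad
primes. -/
theorem hord_doneJ (h2 : (2 : k) ≠ 0) (hg1 : 1 ≤ g) (b : Fin (2 * g + 1) → k[X])
    (hb : Function.Injective b) (hg : Gen b) (ε : ℝ) (hε : 0 < ε) :
    ∃ n₀ : ℕ, ∀ n ≥ n₀,
      (Nat.card {D : k[X] // D.Monic ∧ Squarefree D ∧ IsCoprime D (dpr b) ∧
        D.natDegree = n ∧ ¬ Ord b D} : ℝ) ≤ ε * (Nat.card k : ℝ) ^ n := by
  have hsc : IsSepClosed (SeparableClosure (RatFunc k)) :=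
    IsSepClosure.sep_closed (RatFunc k)
  have hgal : IsGalois (RatFunc k) (SeparableClosure (RatFunc k)) := inferInstance
  obtain ⟨u, hu⟩ := exists_nonsq h2
  have hyp : HypP b := ⟨hb, h2⟩
  have hOk : (sysOf (SeparableClosure (RatFunc k)) b).Ok := sysOf_ok b
  obtain ⟨H, dg, hH, hDeg, hdg, -, hPD, hj⟩ := SmH.hok_sysOf b hOk
  have hCh := Inst.chOk (Ω := SeparableClosure (RatFunc k)) b hu hb hg
  refine hord_inst (SeparableClosure (RatFunc k)) b hg hH hdg hDeg
    (fun f hf => hCh.hom f hf) (B := badP (twdJ u hu hb hg))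
    (fun D h3 h4 h5 => mem_DD_badPJ hu hb hg h3 h4 h5 rfl) (fun ε hε => ?_) ε hε
  have hR : (sysOf (SeparableClosure (RatFunc k)) b).RecipM H.j := by
    rw [hj]
    exact recipM_sysOf b hOk
  have hnt : Nontrivial (EV g) := nontrivial_EV hg1
  have hft : Fintype (EV g) := Fintype.ofFinite _
  refine SmH.main_of hOk hH hR hCh (fun P hP hi => ?_) (a0 := 4)
    (C := 11 * Nat.card k) ?_ ε hε
  · rw [Sm.Inst.plF_eq hi]
    exact Ht.deg_placeOf h2 hPD hi
  · exact SmB.chebOdd h2 _ _ (fun P h _ => by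
      change Lib.SmD.sg (SeparableClosure (RatFunc k)) (Sm.Inst.plF P) = _
      rw [Sm.Inst.plF, dif_pos h]) (fun P h _ => by
      change Lib.SmD.ph (SeparableClosure (RatFunc k)) (Sm.Inst.plF P) = _
      rw [Sm.Inst.plF, dif_pos h])

/-- **The final theorem for Jacobians with the heights.** -/
theorem heights_doneJ (h2 : (2 : k) ≠ 0) (hg1 : 1 ≤ g) (a : Fin (2 * g + 1) → k[X])
    (ha : Function.Injective a) (hg : Gen a) (ε : ℝ) (hε : 0 < ε) :
    ∃ n₀ : ℕ, ∀ n ≥ n₀,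
      (Nat.card {D : k[X] // Squarefree D ∧ D.natDegree = n ∧ ¬ Ord a D} : ℝ) ≤
        ε * (Nat.card {D : k[X] // Squarefree D ∧ D.natDegree = n} : ℝ) :=
  ord_all h2 (fun b hb hg ε hε => hord_doneJ h2 hg1 b hb hg ε hε) a ha hg ε hε

end Pool.Agent.SmJ.L
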