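import Pool.Agent.Lib.SmJ.L.LapDefs
import Pool.Agent.Lib.Sm.Q.Primes

/-!
SMITH for Jacobians over `F_q(t)` (MP_950c68_ag): the hypothesis is satisfied. For every finite field
`k` of odd characteristic, every `g` and every `N` there are `a` with `a 0 = 0`, the other `a i`
distinct monic irreducible polynomials of the same degree `≥ N`; for them `brGraph a` is connected
(it contains the star with centre `0`).
-/

set_option autoImplicit false

open Polynomial

namespace Pool.Agent.SmJ.L

variable {k : Type} [Field k] {g : ℕ}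

/-- `a 0 = 0` and the other `a i` distinct monic irreducible polynomials of the same degree. -/
theorem brGraph_star {d : ℕ} (a : Fin (2 * g + 1) → k[X]) (ha : Function.Injective a)
    (h0 : a 0 = 0) (h : ∀ i, i ≠ 0 → (a i).Monic ∧ Irreducible (a i) ∧ (a i).natDegree = d) :
    (brGraph a).Connected := by
  have hadj : ∀ i, i ≠ 0 → (brGraph a).Adj 0 i := by
    intro i hi
    obtain ⟨hm, hirr, hd⟩ := h i hi
    have hne : ∀ j, j ≠ 0 → j ≠ i → ¬ a i ∣ a j := by
      intro j hj hji hdv
      apply hji
      apply ha
      exact (eq_of_monic_of_associated hm (h j hj).1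
        (hirr.associated_of_dvd (h j hj).2.1 hdv)).symm
    refine ⟨hi.symm, a i, hirr, ?_, ?_⟩
    · rw [h0, zero_sub, multiplicity_neg, multiplicity_self]
      exact odd_one
    · intro r s hrs hn hdv
      by_cases hr : r = 0
      · have hs : s ≠ 0 := fun hs => hrs (hr.trans hs.symm)
        have hsi : s ≠ i := fun hsi => hn (Or.inl ⟨hr, hsi⟩)
        rw [hr, h0, zero_sub, dvd_neg] at hdv
        exact hne s hs hsi hdv
      · by_cases hs : s = 0
        · have hri : r ≠ i := fun hri => hn (Or.inr ⟨hri, hs⟩)
          rw [hs, h0, sub_zero] at hdv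
          exact hne r hr hri hdv
        · have h1 : a r - a s ≠ 0 := sub_ne_zero.mpr fun h2 => hrs (ha h2)
          have h2 : (a r - a s).degree < (a r).degree := by
            apply degree_sub_lt_left
            · rw [degree_eq_natDegree (h r hr).1.ne_zero, degree_eq_natDegree (h s hs).1.ne_zero,
                (h r hr).2.2, (h s hs).2.2]
            · exact (h r hr).1.ne_zero
            · rw [(h r hr).1.leadingCoeff, (h s hs).1.leadingCoeff]
          have h3 : (a i).degree ≤ (a r - a s).degree := degree_le_of_dvd hdv h1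
          rw [degree_eq_natDegree (h r hr).1.ne_zero, (h r hr).2.2] at h2
          rw [degree_eq_natDegree hm.ne_zero, hd] at h3
          exact absurd (lt_of_le_of_lt h3 h2) (lt_irrefl _)
  have : Nonempty (Fin (2 * g + 1)) := ⟨0⟩
  have hr : ∀ i, (brGraph a).Reachable 0 i := by
    intro i
    by_cases hi : i = 0
    · rw [hi]
    · exact (hadj i hi).reachable
  exact ⟨fun i j => (hr i).symm.trans (hr j)⟩

private theorem ExG_pow (n : ℕ) : 2 * n * n < 3 ^ n := by
  induction n with
  | zero => norm_num
  | succ n ih =>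
    rcases Nat.lt_or_ge n 2 with h | h
    · interval_cases n <;> norm_num
    · rw [pow_succ]
      nlinarith

/-- There are such `a`. -/
theorem exists_connected [Finite k] (h2 : (2 : k) ≠ 0) (g N : ℕ) :
    ∃ a : Fin (2 * g + 1) → k[X], Function.Injective a ∧ (brGraph a).Connected ∧ a 0 = 0 ∧
      ∀ i, i ≠ 0 → (a i).Monic ∧ Irreducible (a i) ∧ N ≤ (a i).natDegree := by
  classical
  set n := 2 * g + 1 + N with hn
  have hcard : 2 * g ≤ (Sm.Q.irr k n).card := by
    have h3 := Sm.Q.card_irr_lower (k := k) h2 n (by omega)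
    by_contra hc
    push Not at hc
    have h5 : 3 ^ n ≤ Nat.card k ^ n := Nat.pow_le_pow_left (Sm.Q.card_ge_three h2) n
    have h6 := ExG_pow n
    have h7 : 2 * n * (Sm.Q.irr k n).card ≤ 2 * n * n := Nat.mul_le_mul_left _ (by omega)
    omega
  obtain ⟨s, hs, hsc⟩ := Finset.exists_subset_card_eq hcard
  have e : Fin (2 * g) ≃ s := (Fintype.equivFinOfCardEq (by simp [hsc])).symm
  have hmem : ∀ i, ((e i : k[X])).Monic ∧ Irreducible (e i : k[X]) ∧
      (e i : k[X]).natDegree = n := fun i => (Sm.Q.mem_irr n _).1 (hs (e i).2)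
  let a : Fin (2 * g + 1) → k[X] := Fin.cases 0 fun i => (e i : k[X])
  have ha0 : a 0 = 0 := rfl
  have has : ∀ i : Fin (2 * g), a i.succ = (e i : k[X]) := fun i => rfl
  have hi : ∀ i, i ≠ 0 → (a i).Monic ∧ Irreducible (a i) ∧ (a i).natDegree = n := by
    intro i
    refine Fin.cases (fun h => absurd rfl h) (fun j _ => ?_) i
    rw [has]
    exact hmem j
  have hinj : Function.Injective a := by
    intro i j
    refine Fin.cases ?_ (fun i => ?_) i <;> refine Fin.cases ?_ (fun j => ?_) j
    · intro _; rfl
    · intro h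
      rw [ha0, has] at h
      exact absurd h.symm (hmem j).1.ne_zero
    · intro h
      rw [ha0, has] at h
      exact absurd h (hmem i).1.ne_zero
    · intro h
      rw [has, has] at h
      rw [e.injective (Subtype.ext h)]
  refine ⟨a, hinj, brGraph_star a hinj ha0 hi, ha0, fun i h => ⟨(hi i h).1, (hi i h).2.1, ?_⟩⟩
  rw [(hi i h).2.2]
  omega

end Pool.Agent.SmJ.L
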