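import Pool.Agent.Lib.SmJ.L.Stmt
import Pool.Agent.Lib.SmJ.L.AllD
import Pool.Agent.Lib.SmJ.L.GenTw
import Pool.Agent.Lib.Sm.L.SqfreeLow

/-!
SMITH for Jacobians, block L: from the twists by monic squarefree `D` prime to the bad primes, for all
the curves, to the twists by all squarefree polynomials.
-/

set_option autoImplicit false

open Polynomial

namespace Pool.Agent.SmJ.L

variable {k : Type} [Field k] {g : ℕ}

theorem good_mul (a : Fin (2 * g + 1) → k[X]) (e D : k[X]) (j : ℕ) :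
    Good (fun i => e * a i) j D ↔ Good a j (e * D) := by
  have key : ∀ b c : Fin (2 * g + 1) → RatFunc k, b = c →
      (GoodOn k (gal (SeparableClosure (RatFunc k)) b) j ↔
        GoodOn k (gal (SeparableClosure (RatFunc k)) c) j) := by
    rintro b c rfl
    rfl
  refine key _ _ ?_
  funext i
  congr 1
  ring

/-- All squarefree twists. -/
theorem final_of [Finite k] (h2 : (2 : k) ≠ 0)
    (hmain : ∀ b : Fin (2 * g + 1) → k[X], Function.Injective b → Gen b → ∀ ε : ℝ, 0 < ε →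
      ∃ j₀ : ℕ, ∀ j ≥ j₀, ∃ n₀ : ℕ, ∀ n ≥ n₀,
      (Nat.card {D : k[X] // D.Monic ∧ Squarefree D ∧ IsCoprime D (dpr b) ∧
        D.natDegree = n ∧ ¬ Good b j D} : ℝ) ≤ ε * (Nat.card k : ℝ) ^ n)
    (a : Fin (2 * g + 1) → k[X]) (ha : Function.Injective a) (hg : Gen a) (ε : ℝ) (hε : 0 < ε) :
    ∃ j n₀ : ℕ, ∀ n ≥ n₀,
      (Nat.card {D : k[X] // Squarefree D ∧ D.natDegree = n ∧ ¬ Good a j D} : ℝ) ≤
        ε * (Nat.card {D : k[X] // Squarefree D ∧ D.natDegree = n} : ℝ) := by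
  refine all_squarefree_abs (dpr_ne_zero ha) (fun j D => Good a j D) (fun e he heM ε hε => ?_) ?_
    ε hε
  · obtain ⟨j₀, h1⟩ := hmain (fun i => e * a i) (injective_mul ha he) (hg.twist ha he) ε hε
    refine ⟨j₀, fun j hj => ?_⟩
    obtain ⟨n₀, h3⟩ := h1 j hj
    refine ⟨n₀, fun n hn => le_trans ?_ (h3 n hn)⟩
    have hfin : Finite {D : k[X] // D.Monic ∧ Squarefree D ∧ IsCoprime D (dpr fun i => e * a i) ∧
        D.natDegree = n ∧ ¬ Good (fun i => e * a i) j D} :=
      Finite.of_injective (β := {D : k[X] // D ∈ SmK.Mon k n})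
        (fun D => ⟨D.1, SmK.mem_Mon.2 ⟨D.2.1, D.2.2.2.2.1⟩⟩)
        fun D D' h => Subtype.ext (congrArg (fun z : {D : k[X] // D ∈ SmK.Mon k n} => z.1) h)
    have h5 : Nat.card {D : k[X] // D.Monic ∧ Squarefree D ∧ IsCoprime D (e * dpr a) ∧
        D.natDegree = n ∧ ¬ Good a j (e * D)} ≤
        Nat.card {D : k[X] // D.Monic ∧ Squarefree D ∧ IsCoprime D (dpr fun i => e * a i) ∧
        D.natDegree = n ∧ ¬ Good (fun i => e * a i) j D} := by
      refine Nat.card_le_card_of_injective (fun D => ⟨D.1, D.2.1, D.2.2.1,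
        isCoprime_dpr_mul D.2.2.2.1, D.2.2.2.2.1, fun hg => D.2.2.2.2.2
          ((good_mul a e D.1 j).mp hg)⟩) fun D D' h => Subtype.ext
          (congrArg (fun z : {D : k[X] // D.Monic ∧ Squarefree D ∧
            IsCoprime D (dpr fun i => e * a i) ∧
            D.natDegree = n ∧ ¬ Good (fun i => e * a i) j D} => z.1) h)
    exact_mod_cast h5
  · obtain ⟨c, hc, h⟩ := Pool.Agent.Sm.L.card_squarefree_ge (k := k) h2
    exact ⟨c, hc, 0, fun n _ => h n⟩

end Pool.Agent.SmJ.L
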