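import Pool.Agent.Lib.SmJ.I.ChOk
import Pool.Agent.Lib.SmJ.L.Cnt

/-!
SMITH for Jacobians, block L4: the fixed `2`-power torsion is `V1`.
-/

set_option autoImplicit false

open Polynomial Pool.Agent.BSDFF.MW

namespace Pool.Agent.SmJ

section data

variable {k : Type} [Field k] {V1 : Type} [AddCommGroup V1] [Module (ZMod 2) V1]

/-- No nonzero vector is killed by all the maps `T i`. -/
theorem TwData.eq_zero_of_T (d : TwData k V1) {w : V1} (h : ∀ i, d.T i w = 0) : w = 0 := by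
  by_contra hw
  obtain ⟨y, hy⟩ : ∃ y, d.e y w ≠ 0 := by
    by_contra hc
    push Not at hc
    exact hw (d.nd w hc)
  have hy1 : d.e y w = 1 := by
    have : ∀ a : ZMod 2, a ≠ 0 → a = 1 := by decide
    exact this _ hy
  let A : Subalgebra (ZMod 2) (Module.End (ZMod 2) V1) :=
    { carrier := {F | ∃ c : ZMod 2, F w = c • w}
      mul_mem' := by
        rintro F F' ⟨c, hc⟩ ⟨c', hc'⟩
        exact ⟨c' * c, by rw [Module.End.mul_apply, hc', map_smul, hc, smul_smul]⟩
      add_mem' := by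
        rintro F F' ⟨c, hc⟩ ⟨c', hc'⟩
        exact ⟨c + c', by rw [LinearMap.add_apply, hc, hc', add_smul]⟩
      algebraMap_mem' := fun r => ⟨r, by rw [Module.algebraMap_end_apply]⟩ }
  have h1 : (⊤ : Subalgebra (ZMod 2) (Module.End (ZMod 2) V1)) ≤ A := by
    rw [← d.gen]
    refine Algebra.adjoin_le ?_
    rintro _ ⟨i, rfl⟩
    exact ⟨0, by rw [h i, zero_smul]⟩
  obtain ⟨c, hc⟩ := h1 (Algebra.mem_top : ((d.e y).smulRight y : Module.End (ZMod 2) V1) ∈ ⊤)
  rw [LinearMap.smulRight_apply, hy1, one_smul] at hc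
  rw [hc, map_smul, LinearMap.smul_apply, d.alt, smul_zero] at hy1
  exact zero_ne_one hy1

end data

variable {k : Type} [Field k] {G V V1 Pl : Type} [Group G] [AddCommGroup V]
  [DistribMulAction G V] [AddCommGroup V1] [Module (ZMod 2) V1]
  {S : Sys G V V1 Pl} {ch : k[X] → G → ZMod 2} {d : TwData k V1} {pl : k[X] → Pl}

/-- A fixed element of order `4`: impossible. -/
theorem ChOk.fix (hc : ChOk S ch d pl) (hS : Function.Injective S.iota) {w : V1} {z : V}
    (hz : (2 : ℕ) • z = S.iota w) (hfix : ∀ s : G, s • z = z) : w = 0 := by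
  apply d.eq_zero_of_T
  intro i
  have h1 := hc.tor w z hz (S.sg (pl (d.ell i)))
  rw [hfix, sub_self] at h1
  have h2 : ∑ j, ch (d.ell j) (S.sg (pl (d.ell i))) • d.T j w +
      ch (C d.u) (S.sg (pl (d.ell i))) • d.Tc w = 0 := by
    apply hS
    rw [← h1, map_zero]
  rw [hc.sg_u (d.ell_monic i) (d.ell_irr i), zero_smul, add_zero,
    Finset.sum_eq_single i] at h2
  · rwa [hc.sg_self _ (d.ell_monic i) (d.ell_irr i), one_smul] at h2
  · intro j _ hj
    rw [hc.sg_ne (d.ell_monic i) (d.ell_irr i) (d.ell_monic j) (d.ell_irr j)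
      (fun h => hj (d.ell_inj h).symm), zero_smul]
  · intro h
    exact absurd (Finset.mem_univ _) h

namespace L

section

variable {K Ω : Type} [Field K] [Field Ω] [Algebra K Ω]
variable {M W : Type} [AddCommGroup M] [AddCommGroup W] {ρ : (Ω ≃ₐ[K] Ω) → M →+ M}

/-- The number of fixed elements of order dividing `2^i`. -/
theorem card_gn_rat (inc : W →+ M) (hinj : Function.Injective inc)
    (htwo : ∀ w : W, (2 : ℕ) • inc w = 0)
    (hrange : ∀ Q : M, (2 : ℕ) • Q = 0 → ∃ w, inc w = Q) (hfix : ∀ s w, ρ s (inc w) = inc w)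
    (hk : ∀ (z : M) (w : W), (2 : ℕ) • z = inc w → (∀ s, ρ s z = z) → w = 0) (i : ℕ)
    (hi : 1 ≤ i) : Nat.card (Gn (Rat ρ) (2 ^ i)) = Nat.card W := by
  have key : ∀ z : M, (∀ s, ρ s z = z) → (2 : ℕ) • ((2 : ℕ) • z) = 0 → (2 : ℕ) • z = 0 := by
    intro z hz h4
    obtain ⟨w, hw⟩ := hrange _ h4
    rw [← hw, hk z w hw.symm hz, map_zero]
  have hall : ∀ m : ℕ, ∀ z : M, (∀ s, ρ s z = z) → 2 ^ (m + 1) • z = 0 → (2 : ℕ) • z = 0 := by
    intro m
    induction m with
    | zero =>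
      intro z _ hz
      rwa [zero_add, pow_one] at hz
    | succ m ih =>
      intro z hz h
      apply key z hz
      apply ih (2 • z) (fun s => by rw [map_nsmul, hz s])
      rw [← mul_nsmul, ← pow_succ']
      exact h
  obtain ⟨m, rfl⟩ : ∃ m, i = m + 1 := ⟨i - 1, by omega⟩
  symm
  refine Nat.card_congr (Equiv.ofBijective (fun w : W =>
    (⟨⟨inc w, fun s => hfix s w⟩, ?_⟩ : Gn (Rat ρ) (2 ^ (m + 1)))) ⟨?_, ?_⟩)
  · rw [mem_Gn]
    apply Subtype.ext
    change 2 ^ (m + 1) • inc w = 0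
    rw [pow_succ', mul_nsmul, htwo, nsmul_zero]
  · intro w w' h
    apply hinj
    exact congrArg (fun z : Gn (Rat ρ) (2 ^ (m + 1)) => (z.1.1 : M)) h
  · rintro ⟨⟨z, hz⟩, hz'⟩
    have h1 : 2 ^ (m + 1) • z = 0 := congrArg Subtype.val (mem_Gn.mp hz')
    obtain ⟨w, hw⟩ := hrange z (hall m z hz h1)
    refine ⟨w, ?_⟩
    apply Subtype.ext
    apply Subtype.ext
    exact hw

end

end L

end Pool.Agent.SmJ
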