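import Pool.Agent.Lib.SmJ.L.TwJ
import Pool.Agent.Lib.SmJ.L.FixT
import Pool.Agent.Lib.SmD.LocV

/-!
SMITH for Jacobians, block L4: no rational point of order `4`, from the values of the quadratic
characters.
-/

set_option autoImplicit false

open Polynomial
open Pool.Agent.SmithE (rf)
open Pool.Agent.Lib.SmD (chi sg ph)

namespace Pool.Agent.SmJ.L

variable {k : Type} [Field k] {g : ℕ}

/-- A vector killed by all the values of `κ` is zero. -/
theorem eq_zero_of_mapW [Finite k] {Ω : Type} [Field Ω] [Algebra (RatFunc k) Ω]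
    [IsSepClosure (RatFunc k) Ω] (h2 : (2 : k) ≠ 0) {u : k} (hu : ¬ IsSquare u)
    {a : Fin (2 * g + 1) → k[X]} (ha : Function.Injective a) (hg : Gen a) {w : EV g}
    (h : ∀ s : Ω ≃ₐ[RatFunc k] Ω, mapW (fun i j => chi (RatFunc k) (rf (a i - a j)) s) w = 0) :
    w = 0 := by
  have h2K : (2 : RatFunc k) ≠ 0 := by
    intro h
    apply h2
    apply (algebraMap k (RatFunc k)).injective
    rw [map_ofNat, h, map_zero]
  have H := Pool.Agent.Lib.SmD.locVals (k := k) (Om := Ω) h2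
  have hu0 : u ≠ 0 := by rintro rfl; exact hu ⟨0, by simp⟩
  set d := twdJ u hu ha hg with hd
  apply d.eq_zero_of_T
  intro i
  have hi := d.ell_irr i
  have h1 := h (sg Ω (Pool.Agent.BSDFF.placeOf (d.ell i) hi))
  rw [mapW_chi h2K hu ha hg] at h1
  have h3 : chi (RatFunc k) (rf (C u)) (sg Ω (Pool.Agent.BSDFF.placeOf (d.ell i) hi)) = 0 :=
    H.sg_of_not_dvd hi (SmF.not_dvd_C hi hu0)
  rw [h3, zero_smul, zero_add, ← hd, Finset.sum_eq_single i] at h1
  · have h4 : chi (RatFunc k) (rf (d.ell i)) (sg Ω (Pool.Agent.BSDFF.placeOf (d.ell i) hi)) = 1 :=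
      H.sg_self hi
    rwa [h4, one_smul] at h1
  · intro j _ hj
    have h4 : chi (RatFunc k) (rf (d.ell j)) (sg Ω (Pool.Agent.BSDFF.placeOf (d.ell i) hi)) = 0 :=
      H.sg_of_not_dvd hi (SmF.not_dvd_of_ne hi (d.ell_monic i) (d.ell_irr j) (d.ell_monic j)
        fun h5 => hj (d.ell_inj h5).symm)
    rw [h4, zero_smul]
  · intro h5
    exact absurd (Finset.mem_univ _) h5

end Pool.Agent.SmJ.L
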