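import Pool.Agent.Lib.SmJ.L.Stmt
import Pool.Agent.Lib.SmJ.L.NoFour
import Pool.Agent.Lib.SmJ.L.Brg
import Pool.Agent.Lib.SmJ.E.Tw
import Pool.Agent.Lib.Sm.L.OstE6

/-!
SMITH for Jacobians, block L4: the conclusions `GoodOn` for the quadratic twist `J_D` from the bound
`4^g #{Psi : Selmer cocycles of level j} < (4^(g+1))^j` in the abstract structure `Sys`.
-/

set_option autoImplicit false

open Polynomial Pool.Agent.BSDFF Pool.Agent.BSDFF.MW
open Pool.Agent.SmithE (rf)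
open Pool.Agent.Lib.SmD (chi)

namespace Pool.Agent.SmJ.L

section facts

variable {K Ω : Type} [Field K] [Field Ω] [Algebra K Ω] {g : ℕ}

/-- The facts on the Galois module `J(Ω)` used below. -/
structure JOk (a : Fin (2 * g + 1) → K) (iota : EV g →+ Jac Ω a) : Prop where
  gmod : GMod (gal Ω a)
  tors : ∀ i : ℕ, Nat.card (Gn (Jac Ω a) (2 ^ i)) = 4 ^ (g * i)
  half : ∀ Q : Jac Ω a, ∃ R, (2 : ℕ) • R = Q
  fin : ∀ j : ℕ, ∃ N ∈ SmD.NN K Ω, ∀ s ∈ N, ∀ Q : Jac Ω a, (2 : ℕ) ^ j • Q = 0 →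
    gal Ω a s Q = Q
  inj : Function.Injective iota
  two : ∀ w, (2 : ℕ) • iota w = 0
  range : ∀ Q, (2 : ℕ) • Q = 0 → ∃ w, iota w = Q
  fix : ∀ s w, gal Ω a s (iota w) = iota w
  kap : ∀ (z : Jac Ω a) (w : EV g), (2 : ℕ) • z = iota w → ∀ s, gal Ω a s z - z =
    iota (mapW (fun i j => chi K (a i - a j) s) w)

theorem exists_pow_div {M : Type} [AddCommGroup M] (h : ∀ P : M, ∃ Q, (2 : ℕ) • Q = P) (i : ℕ)
    (P : M) : ∃ Q, 2 ^ i • Q = P := by
  induction i with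
  | zero => exact ⟨P, by rw [pow_zero, one_nsmul]⟩
  | succ i ih =>
    obtain ⟨Q, hQ⟩ := ih
    obtain ⟨R, hR⟩ := h Q
    exact ⟨R, by rw [pow_succ', mul_nsmul, hR, hQ]⟩

/-- The quadratic twist. -/
theorem exists_twist [IsSepClosure K Ω] (h2 : (2 : K) ≠ 0) {a b : Fin (2 * g + 1) → K}
    (ha : Function.Injective a) {D : K} (hD : D ≠ 0) (hb : ∀ i, b i = D * a i)
    (hact : ∀ c : Fin (2 * g + 1) → K, Function.Injective c → ∀ (_ : HypA (rts Ω c))
      (s : Ω ≃ₐ[K] Ω) (Q : Jac Ω c), gal Ω c s Q = act s.toRingEquiv (map_rts Ω c s) Q) :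
    ∃ φ : Jac Ω a ≃+ Jac Ω b, ∀ (s : Ω ≃ₐ[K] Ω) (Q : Jac Ω a),
      gal Ω b s (φ Q) = φ (sgn (chi K D s) • gal Ω a s Q) := by
  have h2O : (2 : Ω) ≠ 0 := by
    intro h
    apply h2
    apply (algebraMap K Ω).injective
    rw [map_ofNat, h, map_zero]
  have hA : HypA (rts Ω a) := ⟨(algebraMap K Ω).injective.comp ha, h2O⟩
  have hbi : Function.Injective b := by
    intro i j hij
    rw [hb, hb] at hij
    exact ha (mul_left_cancel₀ hD hij)
  have hB : HypA (rts Ω b) := ⟨(algebraMap K Ω).injective.comp hbi, h2O⟩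
  obtain ⟨δ, hδ⟩ := SmF.exists_sqrt (K := K) (Ω := Ω) h2 D
  have hδ0 : δ ≠ 0 := by
    rintro rfl
    rw [zero_pow two_ne_zero] at hδ
    exact hD ((map_eq_zero_iff _ (algebraMap K Ω).injective).mp hδ.symm)
  -- the statement for the roots `D * a i` in `Ω`
  have key : ∀ c : Fin (2 * g + 1) → Ω, ∀ (_ : HypA c), c = (fun i => algebraMap K Ω D * rts Ω a i) →
      ∃ φ : JJ (ff (rts Ω a)) ≃+ JJ (ff c), ∀ (s : Ω ≃ₐ[K] Ω)
        (h : (ff c).map (s.toRingEquiv : Ω →+* Ω) = ff c)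
        (h' : (ff (rts Ω a)).map (s.toRingEquiv : Ω →+* Ω) = ff (rts Ω a)) Q,
        act s.toRingEquiv h (φ Q) = φ (sgn (chi K D s) • act s.toRingEquiv h' Q) := by
    rintro c hc rfl
    refine ⟨twIso (rts Ω a) hδ hδ0, fun s h h' Q => ?_⟩
    rw [map_zsmul]
    exact twJ_act s (fun i => s.commutes (a i)) hδ hδ0 h Q
  obtain ⟨φ, hφ⟩ := key (rts Ω b) hB (by
    funext i
    change algebraMap K Ω (b i) = _
    rw [hb, map_mul])
  refine ⟨φ, fun s Q => ?_⟩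
  rw [hact b hbi hB, hact a ha hA]
  exact hφ s _ _ Q

end facts

section main

variable {k : Type} [Field k] [Finite k] {Ω : Type} [Field Ω] [Algebra (RatFunc k) Ω]
  [IsSepClosure (RatFunc k) Ω] {g : ℕ}

/-- The roots in `k(t)`. -/
noncomputable abbrev rk (a : Fin (2 * g + 1) → k[X]) : Fin (2 * g + 1) → RatFunc k :=
  fun i => algebraMap k[X] (RatFunc k) (a i)

omit [Finite k] in
theorem rk_inj {a : Fin (2 * g + 1) → k[X]} (ha : Function.Injective a) :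
    Function.Injective (rk a) := (IsFractionRing.injective k[X] (RatFunc k)).comp ha

/-- The conclusions for `J` from the number of Selmer cocycles of level `j`. -/
theorem goodOn_jac (h2 : (2 : k) ≠ 0) {u : k} (hu : ¬ IsSquare u) {a : Fin (2 * g + 1) → k[X]}
    (ha : Function.Injective a) (hg : Gen a) {iota : EV g →+ Jac Ω (rk a)}
    (hJ : JOk (rk a) iota) {j : ℕ} (hj : 1 ≤ j) (hcard : Nat.card (EV g) = 4 ^ g)
    (hfin : Finite (ZSel k (gal Ω (rk a)) (2 ^ j)))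
    (hlt : 4 ^ g * Nat.card (ZSel k (gal Ω (rk a)) (2 ^ j)) < 4 ^ ((g + 1) * j)) :
    GoodOn k (gal Ω (rk a)) j := by
  refine goodOn_of hJ.gmod hj hfin hlt hJ.tors (fun i hi => ?_)
    (fun i P => exists_pow_div hJ.half i P)
  rw [← hcard]
  refine card_gn_rat iota hJ.inj hJ.two hJ.range hJ.fix (fun z w hz hs => ?_) i hi
  refine eq_zero_of_mapW (Ω := Ω) h2 hu ha hg (w := w) fun s => ?_
  apply hJ.inj
  rw [map_zero]
  have h1 := hJ.kap z w hz s
  rw [hs s, sub_self] at h1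
  rw [h1]
  congr 1
  refine mapW_congr (fun i j _ => ?_) w
  rw [rf, map_sub]

/-- **L4 for Jacobians**, over a separable closure `Ω` of `k(t)`. -/
theorem goodOn_twistJ (h2 : (2 : k) ≠ 0) {u : k} (hu : ¬ IsSquare u)
    {a b : Fin (2 * g + 1) → k[X]} (ha : Function.Injective a) {D : k[X]} (hD : D ≠ 0)
    (hb : ∀ i, b i = D * a i) (hg : Gen b) {iota : EV g →+ Jac Ω (rk b)}
    (hJ : JOk (rk b) iota) (hcard : Nat.card (EV g) = 4 ^ g)
    (hact : ∀ c : Fin (2 * g + 1) → RatFunc k, Function.Injective c →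
      ∀ (_ : HypA (rts Ω c)) (s : Ω ≃ₐ[RatFunc k] Ω) (Q : Jac Ω c),
        gal Ω c s Q = act s.toRingEquiv (map_rts Ω c s) Q)
    (hE6 : E6Prop k (gal Ω (rk b)))
    {V V1 Pl : Type} [AddCommGroup V] [DistribMulAction (Ω ≃ₐ[RatFunc k] Ω) V]
    [AddCommGroup V1] [Module (ZMod 2) V1]
    (inc : V →+ Jac Ω (rk a)) (hinc : Function.Injective inc)
    (hinc' : ∀ Q : Jac Ω (rk a), (∃ i : ℕ, (2 : ℕ) ^ i • Q = 0) → ∃ x, inc x = Q)
    (heq : ∀ (s : Ω ≃ₐ[RatFunc k] Ω) (x : V), inc (s • x) = gal Ω (rk a) s (inc x))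
    (S : Sys (Ω ≃ₐ[RatFunc k] Ω) V V1 Pl) (hNN : S.NN = SmD.NN (RatFunc k) Ω)
    (hDv : ∀ v : Pl, ∃ w : ValuationSubring Ω, w ≠ ⊤ ∧
      (∀ c : k, algebraMap (RatFunc k) Ω (algebraMap k (RatFunc k) c) ∈ w) ∧
      S.D v = w.decompositionSubgroup (RatFunc k))
    {j : ℕ} (hj : 1 ≤ j)
    (hfin : Finite {Psi // S.IsSel (chi (RatFunc k) (rf D)) j Psi})
    (hlt : 4 ^ g * Nat.card {Psi // S.IsSel (chi (RatFunc k) (rf D)) j Psi} <
      (4 ^ (g + 1)) ^ j) :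
    GoodOn k (gal Ω (rk b)) j := by
  have hsc : IsSepClosed Ω := IsSepClosure.sep_closed (RatFunc k)
  have hgal : IsGalois (RatFunc k) Ω := inferInstance
  have h2K : (2 : RatFunc k) ≠ 0 := by
    intro h
    apply h2
    apply (algebraMap k (RatFunc k)).injective
    rw [map_ofNat, h, map_zero]
  have hD0 : rf D ≠ 0 := fun h =>
    hD (IsFractionRing.injective k[X] (RatFunc k) (h.trans (map_zero _).symm))
  have hbi : Function.Injective b := by
    intro i j hij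
    rw [hb, hb] at hij
    exact ha (mul_left_cancel₀ hD hij)
  obtain ⟨φ, hφ⟩ := exists_twist (Ω := Ω) h2K (rk_inj ha) hD0 (b := rk b) (fun i => by
    change algebraMap k[X] (RatFunc k) (b i) = _
    rw [hb, map_mul]) hact
  obtain ⟨f, hf⟩ := bridge (k := k) hJ.gmod φ (chi (RatFunc k) (rf D)) hφ inc hinc hinc' heq hJ.fin
    S hNN hDv hE6 j
  have hZfin := Finite.of_injective f hf
  have hZle := Nat.card_le_card_of_injective f hf
  refine goodOn_jac h2 hu hbi hg hJ hj hcard hZfin (lt_of_le_of_lt (Nat.mul_le_mul_left _ hZle) ?_)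
  rwa [pow_mul]

end main

end Pool.Agent.SmJ.L
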