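import Pool.Agent.Lib.SmJ.L.HalfFinal
import Pool.Agent.Lib.SmJ.L.AddDefs
import Pool.Agent.Lib.SmJ.Inst.EvenInst

/-!
SMITH for Jacobians over `F_q(t)` (MP_950c68_ag), the theorem with parity: the twists without places of
multiplicative reduction (`Add`). If `-1` is a square in `k`, almost all of them have corank 0.
-/

set_option autoImplicit false

open Polynomial Finset Pool.Agent.BSDFF
open Pool.Agent.SmithE (rf chP)

namespace Pool.Agent.SmJ.L

open Pool.Agent.SmK (DD)

variable {k : Type} [Field k] {g : ℕ}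

/-! ### The condition `Add` -/

theorem mult_sqf {P D : k[X]} (hP : Irreducible P) (hsq : Squarefree D) (hd : P ∣ D) :
    multiplicity P D = 1 := by
  have hD : D ≠ 0 := hsq.ne_zero
  have hfin : FiniteMultiplicity P D := FiniteMultiplicity.of_not_isUnit hP.not_isUnit hD
  refine le_antisymm ?_ ?_
  · by_contra hcon
    have h1 : P ^ 2 ∣ D := hfin.pow_dvd_iff_le_multiplicity.2 (by omega)
    rw [sq] at h1
    exact hP.not_isUnit (hsq P h1)
  · exact hfin.pow_dvd_iff_le_multiplicity.1 (by rwa [pow_one])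

theorem add_iff {b : Fin (2 * g + 1) → k[X]} (hb : Function.Injective b) {D : k[X]}
    (hsq : Squarefree D) (hco : IsCoprime D (dpr b)) :
    (Add fun i => D * b i) ↔
      (∀ P : k[X], Irreducible P → P ∣ dpr b → ∀ i j l : Fin (2 * g + 1), i ≠ j → i ≠ l →
        j ≠ l → Odd (multiplicity P (b i - b j)) ∨ Odd (multiplicity P (b i - b l))) ∧
      ∀ i j l : Fin (2 * g + 1), i ≠ j → i ≠ l → j ≠ l →
        Odd ((b i - b j).natDegree + D.natDegree) ∨ Odd ((b i - b l).natDegree + D.natDegree) := by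
  have hD : D ≠ 0 := hsq.ne_zero
  have hne : ∀ i j : Fin (2 * g + 1), i ≠ j → b i - b j ≠ 0 := fun i j hij =>
    sub_ne_zero.2 fun h => hij (hb h)
  have hmul : ∀ (P : k[X]), Irreducible P → ∀ i j : Fin (2 * g + 1), i ≠ j →
      multiplicity P (D * b i - D * b j) = multiplicity P D + multiplicity P (b i - b j) := by
    intro P hP i j hij
    rw [← mul_sub]
    exact multiplicity_mul hP.prime
      (FiniteMultiplicity.of_not_isUnit hP.not_isUnit (mul_ne_zero hD (hne i j hij)))
  have hdeg : ∀ i j : Fin (2 * g + 1), i ≠ j →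
      (D * b i - D * b j).natDegree = (b i - b j).natDegree + D.natDegree := by
    intro i j hij
    rw [← mul_sub, natDegree_mul hD (hne i j hij), add_comm]
  constructor
  · rintro ⟨h1, h2⟩
    refine ⟨fun P hP hPb i j l hij hil hjl => ?_, fun i j l hij hil hjl => ?_⟩
    · obtain ⟨r, s, hrs, hd⟩ := (dvd_dpr_iff hP).1 hPb
      have hPD : multiplicity P D = 0 := multiplicity_eq_zero.2 fun hd' =>
        hP.not_isUnit (hco.isUnit_of_dvd' hd' hPb)
      have h3 := h1 P hP ⟨r, s, hrs, by rw [← mul_sub]; exact hd.mul_left D⟩ i j l hij hil hjl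
      rw [hmul P hP i j hij, hmul P hP i l hil, hPD, zero_add, zero_add] at h3
      exact h3
    · have h3 := h2 i j l hij hil hjl
      rw [hdeg i j hij, hdeg i l hil] at h3
      exact h3
  · rintro ⟨h1, h2⟩
    refine ⟨fun P hP hPb i j l hij hil hjl => ?_, fun i j l hij hil hjl => ?_⟩
    · rw [hmul P hP i j hij, hmul P hP i l hil]
      by_cases hPD : P ∣ D
      · left
        rw [mult_sqf hP hsq hPD, multiplicity_eq_zero.2 fun hd =>
          hP.not_isUnit (hco.isUnit_of_dvd' hPD (hd.trans (dvd_dpr hij)))]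
        decide
      · obtain ⟨r, s, hrs, hd⟩ := hPb
        rw [← mul_sub] at hd
        rw [multiplicity_eq_zero.2 hPD, zero_add, zero_add]
        exact h1 P hP (((hP.prime.dvd_or_dvd hd).resolve_left hPD).trans (dvd_dpr hrs))
          i j l hij hil hjl
    · rw [hdeg i j hij, hdeg i l hil]
      exact h2 i j l hij hil hjl

variable [Finite k]

/-! ### One family -/

section fam

variable {Ω : Type} [Field Ω] [Algebra (RatFunc k) Ω] [IsSepClosure (RatFunc k) Ω]

/-- The theorem for one family: almost all `D` with `Add (D b)` have the conclusions and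
corank 0. -/
theorem hund_fam (hg1 : 1 ≤ g) (hneg : IsSquare (-1 : k)) {b : Fin (2 * g + 1) → k[X]} [HypP b]
    {u : k} {hu : ¬ IsSquare u} {hgb : Gen b} (F : PFacts Ω b u hu hgb)
    (hGF : ∀ D : k[X], D ≠ 0 → GFacts Ω fun i => D * b i) (ε : ℝ) (hε : 0 < ε) :
    ∃ j₀ : ℕ, ∀ j ≥ j₀, ∃ n₀ : ℕ, ∀ n ≥ n₀,
      (Nat.card {D : k[X] // D.Monic ∧ Squarefree D ∧ IsCoprime D (dpr b) ∧
        D.natDegree = n ∧ ¬ ((Add fun i => D * b i) → RR k Ω 0 j fun i => D * b i)} : ℝ) ≤
          ε * (Nat.card k : ℝ) ^ n := by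
  classical
  have := nontrivial_EV hg1
  have ha : Function.Injective b := HypP.inj
  have hM := dpr_ne_zero ha
  have hB' := badP_irr (twdJ u hu ha hgb)
  have hB := badPJ_iff hu ha hgb
  have hpar := par_of F.ok F.ch F.alt
  obtain ⟨m₀, hm⟩ := main_of F.ok F.ch F.grid ε hε
  refine ⟨max m₀ 1, fun m hmm => ?_⟩
  obtain ⟨n₁, hn₁⟩ := hm m (le_trans (le_max_left _ _) hmm)
  have hm1 : 1 ≤ m := le_trans (le_max_right _ _) hmm
  refine ⟨max n₁ 1, fun n hn => ?_⟩
  have hn1 : 1 ≤ n := le_trans (le_max_right _ _) hn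
  have hex := hn₁ n (le_trans (le_max_left _ _) hn)
  rw [card_Exc] at hex
  refine le_trans ?_ hex
  rw [card_filter_eq hM hB' hB fun D =>
    ¬ ((Add fun i => D * b i) → RR k Ω 0 m fun i => D * b i)]
  have hsub : (DD (badP (twdJ u hu ha hgb)) n).filter (fun D =>
      ¬ ((Add fun i => D * b i) → RR k Ω 0 m fun i => D * b i)) ⊆
      Exc (sysOf Ω b) (chP Ω) (badP (twdJ u hu ha hgb)) m n := by
    intro D hD
    rw [mem_filter] at hD
    obtain ⟨hD, hR⟩ := hD
    by_contra hE
    apply hR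
    intro hAdd
    obtain ⟨g1, g2, g3, g4⟩ := (mem_DD_iff hM hB' hB).1 hD
    have hS : Small (sysOf Ω b) (chP Ω) m D := by
      by_contra hcon
      exact hE (by rw [Exc, mem_filter]; exact ⟨hD, hcon⟩)
    obtain ⟨hA1, hA2⟩ := (add_iff ha g2 g3).1 hAdd
    have hsqr := even_sysOf (Ω := Ω) b F.ok hneg hA1 g1.ne_zero g2
      (fun P hP hPD hPb => hP.not_isUnit (g3.isUnit_of_dvd' hPD hPb)) hA2
    have hEv : EvenSel F.ok (chP Ω) D := by
      obtain ⟨i, hi⟩ := SmJP.card_Sel1_pow F.ok F.ch (B := badP (twdJ u hu ha hgb))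
        (fun P => mem_badP) hD
      rw [hi] at hsqr
      obtain ⟨r, hr⟩ := hsqr
      obtain ⟨c, -, hc⟩ := (Nat.dvd_prime_pow Nat.prime_two).1 (show r ∣ 2 ^ i from ⟨r, hr⟩)
      refine ⟨c, ?_⟩
      rw [hi, hr, hc, ← pow_add, ← two_mul, pow_mul]
      norm_num
    have hC := (hpar n hn1 D hD m hS).1 hEv
    have h7 := hC.2
    rw [card_EV] at h7
    have h8 := hS.2
    rw [card_EV, ← pow_succ' 4 g] at h8
    have hcmp := cmp_twist hu g1.ne_zero (hgb.twist HypP.inj g1.ne_zero) (hGF D g1.ne_zero)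
    exact ⟨hcmp.1 m hm1 hS.1 h8, hcmp.2.1 hC.1 h7⟩
  refine Nat.cast_le.2 ?_
  convert card_le_card hsub using 3

end fam

/-! ### All squarefree twists -/

/-- **The twists without places of multiplicative reduction.** `-1` is a square in `k`. Among the
squarefree `D` of degree `n` with `Add (D a)` all but `ε` times the number of all the squarefree
polynomials of degree `n` have the conclusions `Good` of level `j` and 2-power Selmer corank `0`. -/
theorem hund_jac (h2 : (2 : k) ≠ 0) (hneg : IsSquare (-1 : k)) (hg1 : 1 ≤ g)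
    (a : Fin (2 * g + 1) → k[X]) (ha : Function.Injective a) (hg : Gen a) (ε : ℝ) (hε : 0 < ε) :
    ∃ j n₀ : ℕ, ∀ n ≥ n₀,
      (Nat.card {D : k[X] // Squarefree D ∧ D.natDegree = n ∧ (Add fun i => D * a i) ∧
        ¬ (Good a j D ∧ HasCorank k (gal (SeparableClosure (RatFunc k))
          fun i => algebraMap k[X] (RatFunc k) (D * a i)) 0)} : ℝ) ≤
        ε * (Nat.card {D : k[X] // Squarefree D ∧ D.natDegree = n} : ℝ) := by
  obtain ⟨u, hu⟩ := exists_nonsq h2
  obtain ⟨j, n₀, h⟩ := all_squarefree_abs (dpr_ne_zero ha)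
    (fun j D => (Add fun i => D * a i) → RR k (SeparableClosure (RatFunc k)) 0 j fun i => D * a i)
    (fun e he heM ε hε => by
      have hyp : HypP fun i => e * a i := ⟨injective_mul ha he, h2⟩
      obtain ⟨j₀, h1⟩ := hund_fam hg1 hneg
        (pFacts (SeparableClosure (RatFunc k)) (fun i => e * a i) hu (hg.twist ha he))
        (fun D hD => gFacts h2 _ _ (injective_mul (injective_mul ha he) hD)) ε hε
      refine ⟨j₀, fun j hj => ?_⟩
      obtain ⟨n₀, h3⟩ := h1 j hj
      refine ⟨n₀, fun n hn => le_trans ?_ (h3 n hn)⟩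
      have hfin : Finite {D : k[X] // D.Monic ∧ Squarefree D ∧
          IsCoprime D (dpr fun i => e * a i) ∧ D.natDegree = n ∧
          ¬ ((Add fun i => D * (e * a i)) →
            RR k (SeparableClosure (RatFunc k)) 0 j fun i => D * (e * a i))} :=
        Finite.of_injective (β := {D : k[X] // D ∈ SmK.Mon k n})
          (fun D => ⟨D.1, SmK.mem_Mon.2 ⟨D.2.1, D.2.2.2.2.1⟩⟩)
          fun D D' h => Subtype.ext (congrArg (fun z : {D : k[X] // D ∈ SmK.Mon k n} => z.1) h)
      have h5 : Nat.card {D : k[X] // D.Monic ∧ Squarefree D ∧ IsCoprime D (e * dpr a) ∧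
          D.natDegree = n ∧ ¬ ((Add fun i => e * D * a i) →
            RR k (SeparableClosure (RatFunc k)) 0 j fun i => e * D * a i)} ≤
          Nat.card {D : k[X] // D.Monic ∧ Squarefree D ∧
          IsCoprime D (dpr fun i => e * a i) ∧ D.natDegree = n ∧
          ¬ ((Add fun i => D * (e * a i)) →
            RR k (SeparableClosure (RatFunc k)) 0 j fun i => D * (e * a i))} := by
        refine Nat.card_le_card_of_injective (fun D => ⟨D.1, D.2.1, D.2.2.1,
          isCoprime_dpr_mul D.2.2.2.1, D.2.2.2.2.1, fun hg => D.2.2.2.2.2 ?_⟩) fun D D' h =>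
            Subtype.ext (congrArg (fun z : {D : k[X] // D.Monic ∧ Squarefree D ∧
              IsCoprime D (dpr fun i => e * a i) ∧ D.natDegree = n ∧
              ¬ ((Add fun i => D * (e * a i)) →
                RR k (SeparableClosure (RatFunc k)) 0 j fun i => D * (e * a i))} => z.1) h)
        have e2 : (fun i => e * D.1 * a i) = fun i => D.1 * (e * a i) := by
          funext i
          ring
        rw [e2]
        exact hg
      exact_mod_cast h5) (by
      obtain ⟨c, hc, h⟩ := Pool.Agent.Sm.L.card_squarefree_ge (k := k) h2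
      exact ⟨c, hc, 0, fun n _ => h n⟩) ε hε
  refine ⟨j, n₀, fun n hn => le_trans (le_of_eq ?_) (h n hn)⟩
  congr 1
  refine Nat.card_congr (Equiv.subtypeEquivRight fun D => ?_)
  refine and_congr_right fun _ => and_congr_right fun _ => ?_
  rw [Classical.not_imp]
  exact Iff.rfl

/-- If `Add (D₀ a)` for one squarefree `D₀`, then a positive proportion of the squarefree polynomials
of degree `n` have this property, for the `n` with the parity of `deg D₀`. -/
theorem pos_add (h2 : (2 : k) ≠ 0) (a : Fin (2 * g + 1) → k[X]) (ha : Function.Injective a)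
    (hg : Gen a) (D₀ : k[X]) (hD₀ : Squarefree D₀) (hA : Add fun i => D₀ * a i) :
    ∃ δ : ℝ, 0 < δ ∧ ∃ n₀ : ℕ, ∀ n ≥ n₀, Even (n + D₀.natDegree) →
      δ * (Nat.card {D : k[X] // Squarefree D ∧ D.natDegree = n} : ℝ) ≤
        (Nat.card {D : k[X] // Squarefree D ∧ D.natDegree = n ∧ Add fun i => D * a i} : ℝ) := by
  classical
  obtain ⟨u, hu⟩ := exists_nonsq h2
  obtain ⟨c, hc, j₀, h⟩ := all_pos_jac (fun _ c => Add c) Add (fun b hb hgb D₂ hm hsq hco hE => by
    have hM := dpr_ne_zero hb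
    have hB' := badP_irr (twdJ u hu hb hgb)
    have hB := badPJ_iff hu hb hgb
    obtain ⟨c, hc, n1, hn1⟩ := SmK.card_DD_ge (badP (twdJ u hu hb hgb)) hB'
      (Sm.Q.card_ge_three h2)
    refine ⟨c, hc, 0, fun _ _ => ⟨n1, fun n hn hev => ?_⟩⟩
    refine (hn1 n hn).trans (le_of_eq ?_)
    rw [card_filter_eq hM hB' hB fun D => Add fun i => D * b i]
    congr 1
    rw [Finset.filter_true_of_mem]
    intro D hD
    obtain ⟨g1, g2, g3, g4⟩ := (mem_DD_iff hM hB' hB).1 hD
    obtain ⟨k1, k2⟩ := (add_iff hb hsq hco).1 hE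
    refine (add_iff hb g2 g3).2 ⟨k1, fun i j l hij hil hjl => ?_⟩
    have e3 : ∀ x : ℕ, Odd (x + D₂.natDegree) → Odd (x + D.natDegree) := by
      intro x hx
      rw [g4]
      rw [Nat.odd_iff] at hx ⊢
      rw [Nat.even_iff] at hev
      omega
    exact (k2 i j l hij hil hjl).imp (e3 _) (e3 _)) a ha hg D₀ hD₀ hA
  obtain ⟨n₀, h⟩ := h j₀ le_rfl
  exact ⟨c, hc, n₀, fun n hn hev => h n hn hev⟩

/-- **The theorem on the twists without places of multiplicative reduction.** `-1` is a square in `k`,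
and `Add (D₀ a)` for one squarefree `D₀`. For `n` of the parity of `deg D₀` the squarefree `D` of degree
`n` with `Add (D a)` have positive lower density, and almost all of them have the conclusions `Good` of
level `j` and 2-power Selmer corank `0`. -/
theorem hund_final (h2 : (2 : k) ≠ 0) (hneg : IsSquare (-1 : k)) (hg1 : 1 ≤ g)
    (a : Fin (2 * g + 1) → k[X]) (ha : Function.Injective a) (hg : Gen a) (D₀ : k[X])
    (hD₀ : Squarefree D₀) (hA : Add fun i => D₀ * a i) :
    ∃ δ : ℝ, 0 < δ ∧ ∀ ε : ℝ, 0 < ε → ∃ j n₀ : ℕ, ∀ n ≥ n₀, Even (n + D₀.natDegree) →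
      δ * (Nat.card {D : k[X] // Squarefree D ∧ D.natDegree = n} : ℝ) ≤
        (Nat.card {D : k[X] // Squarefree D ∧ D.natDegree = n ∧ Add fun i => D * a i} : ℝ) ∧
      (Nat.card {D : k[X] // Squarefree D ∧ D.natDegree = n ∧ (Add fun i => D * a i) ∧
        ¬ (Good a j D ∧ HasCorank k (gal (SeparableClosure (RatFunc k))
          fun i => algebraMap k[X] (RatFunc k) (D * a i)) 0)} : ℝ) ≤
        ε * (Nat.card {D : k[X] // Squarefree D ∧ D.natDegree = n ∧
          Add fun i => D * a i} : ℝ) := by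
  obtain ⟨δ, hδ, n1, hn1⟩ := pos_add h2 a ha hg D₀ hD₀ hA
  refine ⟨δ, hδ, fun ε hε => ?_⟩
  obtain ⟨j, n2, hn2⟩ := hund_jac h2 hneg hg1 a ha hg (ε * δ) (by positivity)
  refine ⟨j, max n1 n2, fun n hn hev => ?_⟩
  have m1 := hn1 n (le_trans (le_max_left _ _) hn) hev
  have m2 := hn2 n (le_trans (le_max_right _ _) hn)
  refine ⟨m1, m2.trans ?_⟩
  rw [mul_assoc]
  exact mul_le_mul_of_nonneg_left m1 hε.le

end Pool.Agent.SmJ.L
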