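import Pool.Agent.Lib.SmJ.L.ResW
import Pool.Agent.Lib.SmJ.L.HundJ

/-!
SMITH for Jacobians over `F_q(t)` (MP_950c68_ag): the final statement with heights and with the twists
without places of multiplicative reduction (`Add`).
-/

set_option autoImplicit false

open Polynomial

namespace Pool.Agent.SmJ.R

open Pool.Agent.SmJ.L (brGraph EdgeAt MultJ Add)

variable {k : Type} [Field k] {g : ℕ}

/-- `hund_final` in terms of the definitions of `GenR.lean` and `JacP.lean`. -/
theorem add_final [Finite k] (h2 : (2 : k) ≠ 0) (hneg : IsSquare (-1 : k)) (hg : 1 ≤ g)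
    (a : Fin (2 * g + 1) → k[X]) (ha : Function.Injective a) (hG : Gen a) (D₀ : k[X])
    (hD₀ : Squarefree D₀) (hA : Add fun i => D₀ * a i) :
    ∃ δ : ℝ, 0 < δ ∧ ∀ ε : ℝ, 0 < ε → ∃ n₀ : ℕ, ∀ n ≥ n₀, Even (n + D₀.natDegree) →
      δ * (Nat.card {D : k[X] // Squarefree D ∧ D.natDegree = n} : ℝ) ≤
        (Nat.card {D : k[X] // Squarefree D ∧ D.natDegree = n ∧ Add fun i => D * a i} : ℝ) ∧
      (Nat.card {D : k[X] // (Squarefree D ∧ D.natDegree = n ∧ Add fun i => D * a i) ∧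
        ¬ Corank0 a D} : ℝ) ≤
        ε * (Nat.card {D : k[X] // Squarefree D ∧ D.natDegree = n ∧
          Add fun i => D * a i} : ℝ) := by
  obtain ⟨δ, hδ, h⟩ := L.hund_final h2 hneg hg a ha (gen_to a hG) D₀ hD₀ hA
  refine ⟨δ, hδ, fun ε hε => ?_⟩
  obtain ⟨j, n₀, h⟩ := h ε hε
  refine ⟨n₀, fun n hn hev => ?_⟩
  obtain ⟨m1, m2⟩ := h n hn hev
  refine ⟨m1, le_trans ?_ m2⟩
  have hfin : Finite {D : k[X] // Squarefree D ∧ D.natDegree = n ∧ (Add fun i => D * a i) ∧
        ¬ (L.Good a j D ∧ L.HasCorank k (L.gal (SeparableClosure (RatFunc k))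
          fun i => algebraMap k[X] (RatFunc k) (D * a i)) 0)} := by
    have h : {D : k[X] | D.natDegree ≤ n} ⊆ (degreeLT k (n + 1) : Set k[X]) := by
      intro D hD
      rw [SetLike.mem_coe, mem_degreeLT]
      exact lt_of_le_of_lt degree_le_natDegree (by exact_mod_cast Nat.lt_succ_of_le hD)
    have h1 : {D : k[X] | D.natDegree ≤ n}.Finite := by
      refine Set.Finite.subset ?_ h
      have : Finite (degreeLT k (n + 1)) :=
        Finite.of_equiv _ (degreeLTEquiv k (n + 1)).toEquiv.symm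
      exact Set.toFinite _
    have h2 := h1.to_subtype
    exact Finite.of_injective (β := {D : k[X] | D.natDegree ≤ n}) (fun D => ⟨D.1, D.2.2.1.le⟩)
      fun D D' h => Subtype.ext (congrArg (fun z : {D : k[X] | D.natDegree ≤ n} => z.1) h)
  norm_cast
  refine Nat.card_le_card_of_injective (fun D => ⟨D.1, D.2.1.1, D.2.1.2.1, D.2.1.2.2, fun h => ?_⟩)
    fun D D' h => Subtype.ext (congrArg (fun z => z.1) h)
  exact D.2.2 ((corank0_iff a D.1).2 ⟨h.2, L.GoodOn.of_corank_zero h.1 h.2⟩)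

end Pool.Agent.SmJ.R
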