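import Pool.Agent.Lib.SmJ.L.LapDefs

/-!
SMITH for Jacobians: the hypothesis `Gen` of the final statement in elementary form.
-/

set_option autoImplicit false

open Polynomial

namespace Pool.Agent.SmJ.R

open Pool.Agent.SmJ.L (EV)

section gen

variable {k : Type} [Field k] {g : ℕ}

/-- The vector `(∑ j, v_P (a i - a j) (x i + x j))_i`, `v_P` = multiplicity of `P`. -/
noncomputable def lapV (a : Fin (2 * g + 1) → k[X]) (P : k[X]) (x : Fin (2 * g + 1) → ZMod 2)
    (i : Fin (2 * g + 1)) : ZMod 2 :=
  ∑ j, if i = j then 0 else (multiplicity P (a i - a j) : ZMod 2) * (x i + x j)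

/-- The maps obtained from the identity by addition and by composition with the `lapV a P`, `P`
irreducible. -/
inductive Word (a : Fin (2 * g + 1) → k[X]) :
    ((Fin (2 * g + 1) → ZMod 2) → Fin (2 * g + 1) → ZMod 2) → Prop
  | one : Word a fun x => x
  | lap (P : k[X]) (f : (Fin (2 * g + 1) → ZMod 2) → Fin (2 * g + 1) → ZMod 2) :
      Irreducible P → Word a f → Word a fun x => lapV a P (f x)
  | add (f h : (Fin (2 * g + 1) → ZMod 2) → Fin (2 * g + 1) → ZMod 2) :
      Word a f → Word a h → Word a fun x i => f x i + h x i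

/-- The hypothesis of the theorem: the maps `lapV a P`, `P` irreducible, generate the ring of all
endomorphisms of the space of the vectors over `ZMod 2` with sum `0`. -/
def Gen (a : Fin (2 * g + 1) → k[X]) : Prop :=
  ∀ f : (Fin (2 * g + 1) → ZMod 2) → Fin (2 * g + 1) → ZMod 2,
    (∀ x y, f (fun i => x i + y i) = fun i => f x i + f y i) →
    (∀ x, ∑ i, x i = 0 → ∑ i, f x i = 0) →
    ∃ h, Word a h ∧ ∀ x, ∑ i, x i = 0 → f x = h x

/-- A word which represents an endomorphism of the even vectors. -/
private def Rep (a : Fin (2 * g + 1) → k[X]) (T : Module.End (ZMod 2) (EV g)) : Prop :=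
  ∃ h, Word a h ∧ ∀ x : EV g, (T x).1 = h x.1

private theorem rep_zero (a : Fin (2 * g + 1) → k[X]) : Rep a 0 := by
  refine ⟨_, Word.add _ _ Word.one Word.one, fun x => ?_⟩
  funext i
  change (0 : ZMod 2) = _
  exact (CharTwo.add_self_eq_zero _).symm

/-- words on the left -/
private theorem rep_mul {a : Fin (2 * g + 1) → k[X]} {T U : Module.End (ZMod 2) (EV g)}
    (hT : Rep a T) (hU : Rep a U) : Rep a (T * U) := by
  obtain ⟨h, hw, hh⟩ := hT
  obtain ⟨h', hw', hh'⟩ := hU
  refine ⟨fun x => h (h' x), ?_, fun x => ?_⟩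
  · clear hh
    induction hw with
    | one => exact hw'
    | lap P f hP _ ih => exact Word.lap P _ hP ih
    | add f f' _ _ ih ih' => exact Word.add _ _ ih ih'
  · rw [Module.End.mul_apply, hh, hh']

theorem gen_of (a : Fin (2 * g + 1) → k[X]) (h : L.Gen a) : Gen a := by
  intro f hadd heven
  have hrep : ∀ T : Module.End (ZMod 2) (EV g), Rep a T := by
    intro T
    have hT : T ∈ Algebra.adjoin (ZMod 2) {T : Module.End (ZMod 2) (EV g) | ∃ P : k[X],
        Irreducible P ∧ T = L.lap a P} := by
      rw [show Algebra.adjoin (ZMod 2) {T : Module.End (ZMod 2) (EV g) | ∃ P : k[X],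
        Irreducible P ∧ T = L.lap a P} = ⊤ from h]
      exact Algebra.mem_top
    induction hT using Algebra.adjoin_induction with
    | mem T hT =>
      obtain ⟨P, hP, rfl⟩ := hT
      exact ⟨_, Word.lap P _ hP Word.one, fun x => rfl⟩
    | algebraMap r =>
      fin_cases r
      · have h0 : algebraMap (ZMod 2) (Module.End (ZMod 2) (EV g)) ((fun i => i) ⟨0, by decide⟩) =
            0 := map_zero _
        rw [h0]
        exact rep_zero a
      · refine ⟨_, Word.one, fun x => ?_⟩
        have h1 : algebraMap (ZMod 2) (Module.End (ZMod 2) (EV g)) ((fun i => i) ⟨1, by decide⟩) =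
            1 := map_one _
        rw [h1]
        rfl
    | add T U _ _ hT hU =>
      obtain ⟨h, hw, hh⟩ := hT
      obtain ⟨h', hw', hh'⟩ := hU
      refine ⟨_, Word.add _ _ hw hw', fun x => ?_⟩
      funext i
      rw [← hh x, ← hh' x]
      rfl
    | mul T U _ _ hT hU => exact rep_mul hT hU
  let T : Module.End (ZMod 2) (EV g) :=
    (AddMonoidHom.toZModLinearMap 2
      ({ toFun := fun x => ⟨f x.1, heven _ x.2⟩
         map_zero' := by
          apply Subtype.ext
          have h1 := hadd (fun _ => 0) fun _ => 0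
          have h2 : (fun _ : Fin (2 * g + 1) => (0 : ZMod 2) + 0) = fun _ => 0 := by
            funext i
            exact add_zero _
          rw [h2] at h1
          funext i
          have h3 := congrFun h1 i
          change f (fun _ => 0) i = 0
          have h4 : f (fun _ => 0) i + 0 = f (fun _ => 0) i + f (fun _ => 0) i := by
            rw [add_zero]
            exact h3
          exact (add_left_cancel h4).symm
         map_add' := fun x y => Subtype.ext (hadd x.1 y.1) } : EV g →+ EV g))
  obtain ⟨h', hw, hh⟩ := hrep T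
  exact ⟨h', hw, fun x hx => hh ⟨x, hx⟩⟩

theorem gen_to (a : Fin (2 * g + 1) → k[X]) (h : Gen a) : L.Gen a := by
  have hsub : ∀ u : (Fin (2 * g + 1) → ZMod 2) → Fin (2 * g + 1) → ZMod 2, Word a u →
      ∃ T ∈ Algebra.adjoin (ZMod 2) {T : Module.End (ZMod 2) (EV g) | ∃ P : k[X],
        Irreducible P ∧ T = L.lap a P}, ∀ x : EV g, (T x).1 = u x.1 := by
    intro u hu
    induction hu with
    | one => exact ⟨1, one_mem _, fun x => rfl⟩
    | lap P f hP _ ih =>
      obtain ⟨T, hT, hT'⟩ := ih
      refine ⟨L.lap a P * T, mul_mem (Algebra.subset_adjoin ⟨P, hP, rfl⟩) hT, fun x => ?_⟩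
      change lapV a P (T x).1 = lapV a P (f x.1)
      rw [hT' x]
    | add f f' _ _ ih ih' =>
      obtain ⟨T, hT, hT1⟩ := ih
      obtain ⟨U, hU, hU1⟩ := ih'
      refine ⟨T + U, add_mem hT hU, fun x => ?_⟩
      funext i
      change (T x).1 i + (U x).1 i = f x.1 i + f' x.1 i
      rw [hT1 x, hU1 x]
  unfold L.Gen
  rw [eq_top_iff]
  intro T _
  classical
  -- an extension of `T` to all vectors
  have hodd : (∑ _ : Fin (2 * g + 1), (1 : ZMod 2)) = 1 := by
    rw [Finset.sum_const, Finset.card_univ, Fintype.card_fin, nsmul_eq_mul, mul_one,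
      ZMod.natCast_eq_one_iff_odd]
    exact ⟨g, rfl⟩
  let pr : (Fin (2 * g + 1) → ZMod 2) → EV g := fun x => ⟨fun i => x i + ∑ j, x j, by
    change ∑ i, (x i + ∑ j, x j) = 0
    rw [Finset.sum_add_distrib]
    have h1 : (∑ _ : Fin (2 * g + 1), ∑ j, x j) = ∑ j, x j := by
      have h2 : (∑ _ : Fin (2 * g + 1), ∑ j, x j) =
          (∑ _ : Fin (2 * g + 1), (1 : ZMod 2)) * ∑ j, x j := by
        rw [Finset.sum_mul]
        simp only [one_mul]
      rw [h2, hodd, one_mul]
    rw [h1]
    exact CharTwo.add_self_eq_zero _⟩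
  have hpr : ∀ x y, pr (fun i => x i + y i) = pr x + pr y := by
    intro x y
    apply Subtype.ext
    funext i
    change x i + y i + ∑ j, (x j + y j) = x i + ∑ j, x j + (y i + ∑ j, y j)
    rw [Finset.sum_add_distrib]
    ring
  have hpr' : ∀ x : EV g, pr x.1 = x := by
    intro x
    apply Subtype.ext
    funext i
    change x.1 i + ∑ j, x.1 j = x.1 i
    rw [show ∑ j, x.1 j = 0 from x.2, add_zero]
  obtain ⟨u, hu, hu'⟩ := h (fun x => (T (pr x)).1) (fun x y => by
    rw [hpr, map_add]
    rfl) (fun x _ => (T (pr x)).2)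
  obtain ⟨U, hU, hU'⟩ := hsub u hu
  have : T = U := by
    apply LinearMap.ext
    intro x
    apply Subtype.ext
    rw [hU' x, ← hu' x.1 x.2, hpr']
  rw [this]
  exact hU

theorem gen_iff (a : Fin (2 * g + 1) → k[X]) : Gen a ↔ L.Gen a := ⟨gen_to a, gen_of a⟩

end gen

end Pool.Agent.SmJ.R
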