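import Pool.Agent.Lib.SmJ.I.CodeL
import Pool.Agent.Lib.Sm.P.Equi

/-!
SMITH for Jacobians, block L with parity: half of the monic squarefree `D` prime to the bad primes
have corank 0 and half have corank 1, if half of the 2-Selmer groups have even dimension; and if
ONE 2-Selmer group has even dimension, then a positive proportion of the `D` has corank 0.

`Small S ch m D` : the Selmer group of level `m` is small. `EvenSel h ch D` : the 2-Selmer group has
even dimension. `Par S h ch B` : the parity theorem for all `D` prime to the bad primes `B`.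
-/

set_option autoImplicit false

open Polynomial Finset

namespace Pool.Agent.SmJ

open Pool.Agent.SmK (DD)
open Pool.Agent.BSDP.R (primesOf)
open Pool.Agent.Sm (leg)

variable {k : Type} [Field k] {G V V1 Pl : Type} [Group G] [AddCommGroup V] [DistribMulAction G V]
  [AddCommGroup V1] [Module (ZMod 2) V1]
  {S : Sys G V V1 Pl} {ch : k[X] → G → ZMod 2}

/-- The number of the Selmer cocycles of level `i` of the twist by `D`. -/
noncomputable def nS (S : Sys G V V1 Pl) (ch : k[X] → G → ZMod 2) (D : k[X]) (i : ℕ) : ℕ :=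
  Nat.card {Psi : G → V // S.IsSel (ch D) i Psi}

/-- The Selmer group of level `m` is small. -/
def Small (S : Sys G V V1 Pl) (ch : k[X] → G → ZMod 2) (m : ℕ) (D : k[X]) : Prop :=
  Finite {Psi : G → V // S.IsSel (ch D) m Psi} ∧
    Nat.card V1 * nS S ch D m < (4 * Nat.card V1) ^ m

/-- The order of the 2-Selmer group is a power of 4. -/
def EvenSel (h : S.Ok) (ch : k[X] → G → ZMod 2) (D : k[X]) : Prop :=
  ∃ r : ℕ, Nat.card (S.Sel1 h (ch D)) = 4 ^ r

/-- The number of the Selmer cocycles of level `i` grows like `(#V1) ^ i`. -/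
def Cor0 (S : Sys G V V1 Pl) (ch : k[X] → G → ZMod 2) (D : k[X]) : Prop :=
  (∀ i, Finite {Psi : G → V // S.IsSel (ch D) i Psi}) ∧
    ∃ B : ℕ, ∀ i, nS S ch D i ≤ B * (Nat.card V1) ^ i

/-- The number of the Selmer cocycles of level `i` grows like `(2 * #V1) ^ i`. -/
def Cor1 (S : Sys G V V1 Pl) (ch : k[X] → G → ZMod 2) (D : k[X]) : Prop :=
  (∀ i, Finite {Psi : G → V // S.IsSel (ch D) i Psi}) ∧
    (∀ i, (2 * Nat.card V1) ^ i ≤ nS S ch D i) ∧
      ∃ B : ℕ, ∀ i, nS S ch D i ≤ B * (2 * Nat.card V1) ^ i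

/-- Small, and corank `0`. -/
def SC0 (S : Sys G V V1 Pl) (ch : k[X] → G → ZMod 2) (m : ℕ) (D : k[X]) : Prop :=
  Small S ch m D ∧ Cor0 S ch D

/-- Small, and corank `1`. -/
def SC1 (S : Sys G V V1 Pl) (ch : k[X] → G → ZMod 2) (m : ℕ) (D : k[X]) : Prop :=
  Small S ch m D ∧ Cor1 S ch D

/-- The order of the 2-Selmer group is not a power of 4. -/
def OddSel (h : S.Ok) (ch : k[X] → G → ZMod 2) (D : k[X]) : Prop := ¬ EvenSel h ch D

/-- The parity theorem. -/
def Par (h : S.Ok) (ch : k[X] → G → ZMod 2) (B : Finset k[X]) [Finite k] : Prop :=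
  ∀ n, 1 ≤ n → ∀ D ∈ DD B n, ∀ m, Small S ch m D →
    (EvenSel h ch D → Cor0 S ch D) ∧ (¬ EvenSel h ch D → Cor1 S ch D)

open Classical in
/-- The exceptional `D`. -/
noncomputable def Exc (S : Sys G V V1 Pl) (ch : k[X] → G → ZMod 2) (B : Finset k[X]) [Finite k]
    (m n : ℕ) : Finset k[X] := (DD B n).filter fun D => ¬ Small S ch m D

/-- The Selmer groups of level `m` are small for all `D` with the exception of `ε`. -/
def Main (S : Sys G V V1 Pl) (ch : k[X] → G → ZMod 2) (B : Finset k[X]) [Finite k] : Prop :=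
  ∀ ε : ℝ, 0 < ε → ∃ m₀ : ℕ, ∀ m ≥ m₀, ∃ n₀ : ℕ, ∀ n ≥ n₀,
    (Nat.card {D : k[X] // D ∈ DD B n ∧ ¬ Small S ch m D} : ℝ) ≤ ε * (Nat.card k : ℝ) ^ n

theorem nS_pos_growth {D : k[X]} (hV : 0 < Nat.card V1) (h0 : Cor0 S ch D) (h1 : Cor1 S ch D) :
    False := by
  obtain ⟨-, B, hB⟩ := h0
  obtain ⟨-, h1, -⟩ := h1
  have h2 := (h1 B).trans (hB B)
  rw [mul_pow] at h2
  exact absurd (Nat.le_of_mul_le_mul_right h2 (by positivity)) (not_le.mpr Nat.lt_two_pow_self)

open Classical in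
private theorem HalfAbs_count {α : Type*} (s E : Finset α) (p q : α → Prop)
    (h : ∀ x ∈ s, x ∉ E → (p x ↔ q x)) :
    |((s.filter p).card : ℝ) - (s.filter q).card| ≤ (E.card : ℝ) := by
  have key : ∀ p q : α → Prop, (∀ x ∈ s, x ∉ E → (p x ↔ q x)) →
      ((s.filter p).card : ℝ) ≤ (s.filter q).card + E.card := by
    intro p q h
    have h1 : s.filter p ⊆ s.filter q ∪ E := by
      intro x hx
      rw [mem_filter] at hx
      rw [mem_union, mem_filter]
      by_cases hE : x ∈ E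
      · exact Or.inr hE
      · exact Or.inl ⟨hx.1, (h x hx.1 hE).1 hx.2⟩
    have h2 := (card_le_card h1).trans (card_union_le _ _)
    exact_mod_cast h2
  rw [abs_le]
  constructor
  · linarith [key q p fun x hx hE => (h x hx hE).symm]
  · linarith [key p q h]

section half

variable [Finite k] {B : Finset k[X]}

theorem card_Exc (m n : ℕ) :
    Nat.card {D : k[X] // D ∈ DD B n ∧ ¬ Small S ch m D} = (Exc S ch B m n).card := by
  classical
  rw [← Fintype.card_coe, ← Nat.card_eq_fintype_card]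
  exact Nat.card_congr (Equiv.subtypeEquivRight fun D => by rw [Exc, mem_filter])

theorem card_DD_le (n : ℕ) : ((DD B n).card : ℝ) ≤ (Nat.card k : ℝ) ^ n := by
  have h6 := card_le_card (SmK.DD_subset B n)
  rw [SmK.card_Mon] at h6
  exact_mod_cast h6

/-- Outside of the exceptional set the two growths are decided by the parity. -/
theorem cor_iff (h : S.Ok) (hpar : Par h ch B) {m n : ℕ} (hn : 1 ≤ n) {D : k[X]}
    (hD : D ∈ DD B n) (hE : D ∉ Exc S ch B m n) :
    (Cor0 S ch D ↔ EvenSel h ch D) ∧ (Cor1 S ch D ↔ ¬ EvenSel h ch D) := by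
  classical
  have hV : 0 < Nat.card V1 := by
    have := h.fin1
    exact Nat.card_pos
  have hS : Small S ch m D := by
    by_contra hcon
    exact hE (by rw [Exc, mem_filter]; exact ⟨hD, hcon⟩)
  obtain ⟨he, ho⟩ := hpar n hn D hD m hS
  by_cases hEv : EvenSel h ch D
  · exact ⟨⟨fun _ => hEv, fun _ => he hEv⟩,
      ⟨fun h7 => (nS_pos_growth hV (he hEv) h7).elim, fun h7 => absurd hEv h7⟩⟩
  · exact ⟨⟨fun h7 => (nS_pos_growth hV h7 (ho hEv)).elim, fun h7 => absurd h7 hEv⟩,
      ⟨fun _ => hEv, fun _ => ho hEv⟩⟩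

open Classical in
/-- **Half of the twists.** -/
theorem half_abs (h : S.Ok) (hpar : Par h ch B) (hMC : Main S ch B)
    (heven : ∀ ε : ℝ, 0 < ε → ∃ n0 : ℕ, ∀ n : ℕ, n0 ≤ n →
      |(((DD B n).filter (EvenSel h ch)).card : ℝ) - (DD B n).card / 2| ≤
        ε * (DD B n).card) (ε : ℝ) (hε : 0 < ε) :
    ∃ m₀ : ℕ, ∀ m ≥ m₀, ∃ n₀ : ℕ, ∀ n ≥ n₀,
      |(((DD B n).filter (SC0 S ch m)).card : ℝ) - (DD B n).card / 2| ≤
        ε * (Nat.card k : ℝ) ^ n ∧
      |(((DD B n).filter (SC1 S ch m)).card : ℝ) - (DD B n).card / 2| ≤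
        ε * (Nat.card k : ℝ) ^ n := by
  obtain ⟨m₀, hm⟩ := hMC (ε / 2) (by positivity)
  obtain ⟨n₂, hn₂⟩ := heven (ε / 2) (by positivity)
  refine ⟨m₀, fun m hmm => ?_⟩
  obtain ⟨n₁, hn₁⟩ := hm m hmm
  refine ⟨max (max n₁ n₂) 1, fun n hn => ?_⟩
  have hn1 : 1 ≤ n := le_trans (le_max_right _ _) hn
  have hn2 : max n₁ n₂ ≤ n := le_trans (le_max_left _ _) hn
  have hex := hn₁ n (le_trans (le_max_left _ _) hn2)
  rw [card_Exc] at hex
  have hDD := card_DD_le (B := B) n
  have hev := (hn₂ n (le_trans (le_max_right _ _) hn2)).trans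
    (mul_le_mul_of_nonneg_left hDD (by positivity))
  have hSm : ∀ D ∈ DD B n, D ∉ Exc S ch B m n → Small S ch m D := by
    intro D hD hE
    by_contra hcon
    exact hE (by rw [Exc, mem_filter]; exact ⟨hD, hcon⟩)
  have hodd : |(((DD B n).filter (OddSel h ch)).card : ℝ) - (DD B n).card / 2| ≤
      ε / 2 * (Nat.card k : ℝ) ^ n := by
    have e1 : (((DD B n).filter (EvenSel h ch)).card : ℝ) +
        ((DD B n).filter (OddSel h ch)).card = (DD B n).card := by
      have e0 : (DD B n).filter (OddSel h ch) = (DD B n).filter fun D => ¬ EvenSel h ch D :=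
        filter_congr fun D _ => Iff.rfl
      rw [e0]
      exact_mod_cast card_filter_add_card_filter_not (s := DD B n) (EvenSel h ch)
    have e2 : (((DD B n).filter (OddSel h ch)).card : ℝ) - (DD B n).card / 2 =
        - ((((DD B n).filter (EvenSel h ch)).card : ℝ) - (DD B n).card / 2) := by
      linarith
    rw [e2, abs_neg]
    exact hev
  have c0 := HalfAbs_count (DD B n) (Exc S ch B m n) (SC0 S ch m)
    (EvenSel h ch) fun D hD hDE =>
      ⟨fun h1 => (cor_iff h hpar hn1 hD hDE).1.1 h1.2,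
        fun h1 => ⟨hSm D hD hDE, (cor_iff h hpar hn1 hD hDE).1.2 h1⟩⟩
  have c1 := HalfAbs_count (DD B n) (Exc S ch B m n) (SC1 S ch m)
    (OddSel h ch) fun D hD hDE =>
      ⟨fun h1 => (cor_iff h hpar hn1 hD hDE).2.1 h1.2,
        fun h1 => ⟨hSm D hD hDE, (cor_iff h hpar hn1 hD hDE).2.2 h1⟩⟩
  constructor
  · have e3 := abs_add_le ((((DD B n).filter (SC0 S ch m)).card : ℝ) -
      ((DD B n).filter (EvenSel h ch)).card)
      ((((DD B n).filter (EvenSel h ch)).card : ℝ) - (DD B n).card / 2)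
    rw [sub_add_sub_cancel] at e3
    linarith
  · have e3 := abs_add_le ((((DD B n).filter (SC1 S ch m)).card : ℝ) -
      ((DD B n).filter (OddSel h ch)).card)
      ((((DD B n).filter (OddSel h ch)).card : ℝ) - (DD B n).card / 2)
    rw [sub_add_sub_cancel] at e3
    linarith

open Classical in
/-- **A positive proportion.** If the parity is even for all the `D` in `DD B n` with the symbols
`ξ`, then the proportion of the `D` with small Selmer groups and corank 0 is at least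
`2 ^ (-h) - ε`, `h` the number of the bad primes. -/
theorem one_abs (h : S.Ok) (hpar : Par h ch B) (hMC : Main S ch B) (h2 : (2 : k) ≠ 0)
    {hh : ℕ} (ell : Fin hh → k[X]) (hm : ∀ i, (ell i).Monic) (hi : ∀ i, Irreducible (ell i))
    (hinj : Function.Injective ell) (hB : ∀ P, P ∈ B ↔ ∃ i, ell i = P) (ξ : Fin hh → ZMod 2)
    (ev : ℕ → Prop)
    (hsame : ∀ n, ev n → ∀ D ∈ DD B n, (∀ i, leg (ell i) D = ξ i) → EvenSel h ch D)
    (ε : ℝ) (hε : 0 < ε) :
    ∃ m₀ : ℕ, ∀ m ≥ m₀, ∃ n₀ : ℕ, ∀ n ≥ n₀, ev n →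
      (2 ^ hh : ℝ)⁻¹ * (DD B n).card - ε * (Nat.card k : ℝ) ^ n ≤
        ((DD B n).filter (SC0 S ch m)).card := by
  obtain ⟨m₀, hmm⟩ := hMC (ε / 2) (by positivity)
  obtain ⟨n₂, hn₂⟩ := SmP.equi_card ell B h2 hm hi hinj hB (ε / 2) (by positivity)
  refine ⟨m₀, fun m hm' => ?_⟩
  obtain ⟨n₁, hn₁⟩ := hmm m hm'
  refine ⟨max (max n₁ n₂) 1, fun n hn hevn => ?_⟩
  have hn1 : 1 ≤ n := le_trans (le_max_right _ _) hn
  have hn2 : max n₁ n₂ ≤ n := le_trans (le_max_left _ _) hn
  have hex := hn₁ n (le_trans (le_max_left _ _) hn2)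
  rw [card_Exc] at hex
  have hDD := card_DD_le (B := B) n
  have heq := (hn₂ n (le_trans (le_max_right _ _) hn2) ξ).trans
    (mul_le_mul_of_nonneg_left hDD (by positivity))
  have hsub : SmP.DDs ell B n ξ ⊆
      (DD B n).filter (SC0 S ch m) ∪ Exc S ch B m n := by
    intro D hD
    rw [SmP.mem_DDs] at hD
    rw [mem_union, mem_filter]
    by_cases hE : D ∈ Exc S ch B m n
    · exact Or.inr hE
    · refine Or.inl ⟨hD.1, ?_, (cor_iff h hpar hn1 hD.1 hE).1.2 (hsame n hevn D hD.1 hD.2)⟩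
      by_contra hcon
      exact hE (by rw [Exc, mem_filter]; exact ⟨hD.1, hcon⟩)
  have h3 := (card_le_card hsub).trans (card_union_le _ _)
  have h4 : ((SmP.DDs ell B n ξ).card : ℝ) ≤
      ((DD B n).filter (SC0 S ch m)).card + (Exc S ch B m n).card := by
    exact_mod_cast h3
  have h5 := (abs_le.mp heq).1
  rw [Fintype.card_fin] at h5
  have h6 : ((DD B n).card : ℝ) / 2 ^ hh = (2 ^ hh : ℝ)⁻¹ * (DD B n).card := by
    rw [div_eq_mul_inv, mul_comm]
  rw [h6] at h5
  linarith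

end half

end Pool.Agent.SmJ
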