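import Pool.Agent.Lib.SmJ.L.HalfFam
import Pool.Agent.Lib.SmJ.L.CorTw
import Pool.Agent.Lib.SmJ.L.AllHalf
import Pool.Agent.Lib.SmJ.L.GalAct
import Pool.Agent.Lib.SmJ.P.HalfP
import Pool.Agent.Lib.SmJ.Inst.Inst
import Pool.Agent.Lib.Sm.L.SqfreeLow
import Pool.Agent.Lib.Sm.Inst.ChInst

/-!
SMITH for Jacobians over `F_q(t)` (MP_950c68_ag), block L with parity: the theorems on half of the
twists and on a positive proportion of the twists, for the instance `sysOf`, from the facts on the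
instance.
-/

set_option autoImplicit false

open Polynomial Pool.Agent.BSDFF
open Pool.Agent.SmithE (rf chP)
open Pool.Agent.Lib.SmD (chi)

namespace Pool.Agent.SmJ.L

open Pool.Agent.SmK (DD)
open Pool.Agent.Sm (leg)

variable {k : Type} [Field k] [Finite k] {g : ℕ}

/-- The facts on the instance `sysOf Ω b`. -/
structure PFacts (Ω : Type) [Field Ω] [Algebra (RatFunc k) Ω] [IsSepClosure (RatFunc k) Ω]
    (b : Fin (2 * g + 1) → k[X]) [HypP b] (u : k) (hu : ¬ IsSquare u) (hg : Gen b) : Prop where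
  ok : (sysOf Ω b).Ok
  ch : ChOk (sysOf Ω b) (chP Ω) (twdJ u hu HypP.inj hg) Sm.Inst.plF
  grid : ∀ m, 1 ≤ m → GridThm (sysOf Ω b) (chP Ω) (twdJ u hu HypP.inj hg) m
  alt : ∀ (J : Type) [Fintype J] [Nonempty J] (p : J → k[X]), PVec (twdJ u hu HypP.inj hg) p →
    (twJ (sysOf Ω b) ok (chP Ω) (twdJ u hu HypP.inj hg) p).Altn
  q : ∃ qv, (sysOf Ω b).QOk qv
  mult : ∀ P : k[X], P.Monic → EdgeAt b P → ∀ chi chi' : (Ω ≃ₐ[RatFunc k] Ω) → ZMod 2,
    (sysOf Ω b).HomG chi → (sysOf Ω b).HomG chi' →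
    chi ((sysOf Ω b).sg (Sm.Inst.plF P)) = 0 → chi' ((sysOf Ω b).sg (Sm.Inst.plF P)) = 0 →
    chi ((sysOf Ω b).phi (Sm.Inst.plF P)) ≠ chi' ((sysOf Ω b).phi (Sm.Inst.plF P)) →
    ∃ c : ℕ, Odd c ∧ Nat.card ((sysOf Ω b).W chi (Sm.Inst.plF P) ⊓
      (sysOf Ω b).W chi' (Sm.Inst.plF P) : AddSubgroup (EV g × EV g)) = 2 ^ c

/-- The facts on the Galois module `J_b(Ω)`. -/
structure GFacts (Ω : Type) [Field Ω] [Algebra (RatFunc k) Ω] [IsSepClosure (RatFunc k) Ω]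
    (b : Fin (2 * g + 1) → k[X]) : Prop where
  jok : ∃ iota : EV g →+ Jac Ω (rk b), JOk (rk b) iota
  e6 : E6Prop k (gal Ω (rk b))

section one

variable {Ω : Type} [Field Ω] [Algebra (RatFunc k) Ω] [IsSepClosure (RatFunc k) Ω]

/-- The comparison of the Selmer groups of the twist `D b` with the Selmer cocycles of `sysOf`. -/
theorem cmp_twist {b : Fin (2 * g + 1) → k[X]} [HypP b] {u : k} (hu : ¬ IsSquare u)
    {D : k[X]} (hD : D ≠ 0) (hg : Gen fun i => D * b i)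
    (hF : GFacts Ω fun i => D * b i) :
    (∀ j, 1 ≤ j → Finite {Psi // (sysOf Ω b).IsSel (chP Ω D) j Psi} →
      4 ^ g * Nat.card {Psi // (sysOf Ω b).IsSel (chP Ω D) j Psi} < (4 ^ (g + 1)) ^ j →
        GoodOn k (gal Ω (rk fun i => D * b i)) j) ∧
    ((∀ i, Finite {Psi // (sysOf Ω b).IsSel (chP Ω D) i Psi}) →
      (∃ B : ℕ, ∀ i, Nat.card {Psi // (sysOf Ω b).IsSel (chP Ω D) i Psi} ≤
        B * (4 ^ g) ^ i) → HasCorank k (gal Ω (rk fun i => D * b i)) 0) ∧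
    ((∀ i, (2 * 4 ^ g) ^ i ≤ Nat.card {Psi // (sysOf Ω b).IsSel (chP Ω D) i Psi}) →
      (∃ B : ℕ, ∀ i, Nat.card {Psi // (sysOf Ω b).IsSel (chP Ω D) i Psi} ≤
        B * (2 * 4 ^ g) ^ i) → HasCorank k (gal Ω (rk fun i => D * b i)) 1) ∧
    Nat.card (Sel k (gal Ω (rk fun i => D * b i)) (2 ^ 1)) =
      Nat.card {Psi // (sysOf Ω b).IsSel (chP Ω D) 1 Psi} := by
  have h2 : (2 : k) ≠ 0 := HypP.two b
  obtain ⟨iota, hJ⟩ := hF.jok
  have hact : ∀ c : Fin (2 * g + 1) → RatFunc k, Function.Injective c →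
      ∀ (_ : HypA (rts Ω c)) (s : Ω ≃ₐ[RatFunc k] Ω) (Q : Jac Ω c),
        gal Ω c s Q = act s.toRingEquiv (map_rts Ω c s) Q := fun c _ _ s Q => gal_eq_act c s Q
  have hDv : ∀ v : Place k (RatFunc k), ∃ w : ValuationSubring Ω, w ≠ ⊤ ∧
      (∀ c : k, algebraMap (RatFunc k) Ω (algebraMap k (RatFunc k) c) ∈ w) ∧
      (sysOf Ω b).D v = w.decompositionSubgroup (RatFunc k) := fun v =>
    ⟨Pool.Agent.Lib.SmD.ab Ω v, Sm.L.ab_ne_top v, Sm.L.ab_const v, rfl⟩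
  have hDw : ∀ w : ValuationSubring Ω, w ≠ ⊤ →
      (∀ c : k, algebraMap (RatFunc k) Ω (algebraMap k (RatFunc k) c) ∈ w) →
      ∃ (v : Place k (RatFunc k)) (σ : Ω ≃ₐ[RatFunc k] Ω),
        ∀ s ∈ w.decompositionSubgroup (RatFunc k), σ * s * σ⁻¹ ∈ (sysOf Ω b).D v :=
    fun w hw hk => conj_dv w hw hk
  let inc : VJ Ω (rfa b) →+ Jac Ω (rk b) := (VJ Ω (rfa b)).subtype
  have hinc : Function.Injective inc := Subtype.val_injective
  have hinc' : ∀ Q : Jac Ω (rk b), (∃ i : ℕ, (2 : ℕ) ^ i • Q = 0) → ∃ x, inc x = Q :=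
    fun Q hQ => ⟨⟨Q, hQ⟩, rfl⟩
  have heq : ∀ (s : Ω ≃ₐ[RatFunc k] Ω) (x : VJ Ω (rfa b)), inc (s • x) = gal Ω (rk b) s (inc x) :=
    fun s x => (gal_eq_act (rk b) s x.1).symm
  refine ⟨fun j hj hfin hlt => ?_, ?_⟩
  · exact goodOn_twistJ h2 hu (HypP.inj (a := b)) hD (fun _ => rfl) hg hJ (card_EV g) hact hF.e6
      inc hinc hinc' heq (sysOf Ω b) rfl hDv hj hfin hlt
  · exact corank_twistJ h2 hu (HypP.inj (a := b)) hD (fun _ => rfl) hg hJ (card_EV g) hact hF.e6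
      inc hinc hinc' heq (sysOf Ω b) rfl hDv hDw

end one

section fam

variable {Ω : Type} [Field Ω] [Algebra (RatFunc k) Ω] [IsSepClosure (RatFunc k) Ω]

/-- The two conclusions for the curve with the roots `c i`: the conclusions of level `j`, and the
corank is `r`. -/
def RR (k : Type) [Field k] (Ω : Type) [Field Ω] [Algebra (RatFunc k) Ω] {g : ℕ} (r j : ℕ)
    (c : Fin (2 * g + 1) → k[X]) : Prop :=
  GoodOn k (gal Ω (rk c)) j ∧ HasCorank k (gal Ω (rk c)) r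

/-- The parity condition: the order of the 2-Selmer group is a power of 4. -/
def EE (k : Type) [Field k] (Ω : Type) [Field Ω] [Algebra (RatFunc k) Ω] {g : ℕ}
    (c : Fin (2 * g + 1) → k[X]) : Prop :=
  ∃ r : ℕ, Nat.card (Sel k (gal Ω (rk c)) (2 ^ 1)) = 4 ^ r

omit [Finite k] in
theorem EdgeAt.monic {b : Fin (2 * g + 1) → k[X]} {P : k[X]} (h : EdgeAt b P) :
    ∃ Q : k[X], Q.Monic ∧ EdgeAt b Q := by
  obtain ⟨hP, i, j, hij, hodd, hall⟩ := h
  have hu : IsUnit (C (P.leadingCoeff⁻¹) : k[X]) :=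
    isUnit_C.2 (inv_ne_zero (leadingCoeff_ne_zero.mpr hP.ne_zero)).isUnit
  have hass : Associated P (P * C (P.leadingCoeff⁻¹)) := associated_mul_unit_right P _ hu
  refine ⟨P * C (P.leadingCoeff⁻¹), monic_mul_leadingCoeff_inv hP.ne_zero, hass.irreducible hP,
    i, j, hij, ?_, fun r s hrs hne hd => hall r s hrs hne (hass.dvd.trans hd)⟩
  rw [multiplicity_eq_of_associated_left hass]
  exact hodd

/-- `IsSel 1` and the 2-Selmer group. -/
theorem card_isSel_one {G V V1 Pl : Type} [Group G] [AddCommGroup V] [DistribMulAction G V]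
    [AddCommGroup V1] [Module (ZMod 2) V1] {S : Sys G V V1 Pl} (h : S.Ok) {chi : G → ZMod 2}
    (hchi : S.HomG chi) :
    Nat.card {Psi // S.IsSel chi 1 Psi} = Nat.card (S.Sel1 h chi) := by
  refine Nat.card_congr (Equiv.ofBijective (fun Psi => (⟨fun s => S.un (Psi.1 s),
    Sys.isSel_un h Psi.2⟩ : S.Sel1 h chi)) ⟨?_, ?_⟩)
  · intro Psi Psi' hh
    apply Subtype.ext
    funext s
    have h1 : S.un (Psi.1 s) = S.un (Psi'.1 s) := congrFun (congrArg Subtype.val hh) s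
    have h2 := Psi.2.lev s
    have h3 := Psi'.2.lev s
    rw [pow_one] at h2 h3
    rw [← Sys.iota_un h h2, ← Sys.iota_un h h3, h1]
  · rintro ⟨b, hb⟩
    exact ⟨⟨fun s => S.iota (b s), Sys.isSel_iota h hchi hb⟩,
      Subtype.ext (funext fun s => Sys.un_iota h (b s))⟩

/-- The half theorem for one family. -/
theorem half_fam_inst {b : Fin (2 * g + 1) → k[X]} [HypP b] {u : k} {hu : ¬ IsSquare u}
    {hgb : Gen b} (F : PFacts Ω b u hu hgb) (hP : ∃ P, EdgeAt b P)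
    (hGF : ∀ D : k[X], D ≠ 0 → GFacts Ω fun i => D * b i) (ε : ℝ) (hε : 0 < ε) (r : ℕ)
    (hr : r = 0 ∨ r = 1) :
    ∃ j₀ : ℕ, ∀ j ≥ j₀, ∃ n₀ : ℕ, ∀ n ≥ n₀,
      |(Nat.card {D : k[X] // D.Monic ∧ Squarefree D ∧ IsCoprime D (dpr b) ∧
        D.natDegree = n ∧ RR k Ω r j fun i => D * b i} : ℝ) -
        (Nat.card {D : k[X] // D.Monic ∧ Squarefree D ∧ IsCoprime D (dpr b) ∧
        D.natDegree = n} : ℝ) / 2| ≤ ε * (Nat.card k : ℝ) ^ n := by
  classical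
  obtain ⟨P₀, hP₀⟩ := hP
  obtain ⟨P, hPm, hP⟩ := hP₀.monic
  have hg1 : 1 ≤ g := by
    obtain ⟨-, i, j, hij, -⟩ := hP
    by_contra hcon
    have h0 : g = 0 := by omega
    subst h0
    exact hij (Fin.ext (by have h1 := i.2; have h2 := j.2; omega))
  obtain ⟨i0, hi0⟩ := (twdJ_ell_iff hu (HypP.inj (a := b)) hgb hPm hP.1).2 hP.dvd
  obtain ⟨qv, hq⟩ := F.q
  have hmult := F.mult P hPm hP
  rw [← hi0] at hmult
  have heven := SmJP.half_even F.ok F.ch hq (B := badP (twdJ u hu HypP.inj hgb))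
    (fun P => mem_badP) i0 hmult
  have hdis : ∀ j (D : k[X]), RR k Ω 0 j (fun i => D * b i) → RR k Ω 1 j (fun i => D * b i) →
      False := fun j D h0 h1 => absurd (HasCorank.unique h0.2 h1.2) (by norm_num)
  have key := half_fam hg1 F.ok F.ch F.grid F.alt (fun ε hε => by
      obtain ⟨n0, hn⟩ := heven ε hε
      refine ⟨n0, fun n hnn => ?_⟩
      have h3 := hn n hnn
      convert h3 using 5
      ext D
      rw [Finset.mem_filter, Finset.mem_filter]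
      exact Iff.rfl)
    (fun j D => RR k Ω 0 j fun i => D * b i) (fun j D => RR k Ω 1 j fun i => D * b i) hdis
    (fun j hj D hDm hDs hDc hf hlt hfin hB =>
      ⟨(cmp_twist hu hDm.ne_zero (hgb.twist HypP.inj hDm.ne_zero) (hGF D hDm.ne_zero)).1 j hj hf hlt,
        (cmp_twist hu hDm.ne_zero (hgb.twist HypP.inj hDm.ne_zero)
          (hGF D hDm.ne_zero)).2.1 hfin hB⟩)
    (fun j hj D hDm hDs hDc hf hlt hfin h8 hB =>
      ⟨(cmp_twist hu hDm.ne_zero (hgb.twist HypP.inj hDm.ne_zero) (hGF D hDm.ne_zero)).1 j hj hf hlt,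
        (cmp_twist hu hDm.ne_zero (hgb.twist HypP.inj hDm.ne_zero)
          (hGF D hDm.ne_zero)).2.2.1 h8 hB⟩) ε hε
  rcases hr with rfl | rfl
  · exact key.1
  · exact key.2

/-- The positive proportion theorem for one family. -/
theorem one_fam_inst (hg1 : 1 ≤ g) {b : Fin (2 * g + 1) → k[X]} [HypP b] {u : k}
    {hu : ¬ IsSquare u} {hgb : Gen b} (F : PFacts Ω b u hu hgb)
    (hGF : ∀ D : k[X], D ≠ 0 → GFacts Ω fun i => D * b i)
    (D₂ : k[X]) (hm : D₂.Monic) (hsq : Squarefree D₂) (hco : IsCoprime D₂ (dpr b))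
    (hE : EE k Ω fun i => D₂ * b i) :
    ∃ c : ℝ, 0 < c ∧ ∃ j₀ : ℕ, ∀ j ≥ j₀, ∃ n₀ : ℕ, ∀ n ≥ n₀, Even (n + D₂.natDegree) →
      c * (Nat.card k : ℝ) ^ n ≤
      (Nat.card {D : k[X] // D.Monic ∧ Squarefree D ∧ IsCoprime D (dpr b) ∧
        D.natDegree = n ∧ RR k Ω 0 j fun i => D * b i} : ℝ) := by
  obtain ⟨qv, hq⟩ := F.q
  have hD₂ : D₂ ∈ DD (badP (twdJ u hu HypP.inj hgb)) D₂.natDegree :=
    mem_DD_badPJ hu HypP.inj hgb hm hsq hco rfl
  have hev₂ : ∃ r : ℕ, Nat.card ((sysOf Ω b).Sel1 F.ok (chP Ω D₂)) = 4 ^ r := by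
    obtain ⟨r, hr⟩ := hE
    refine ⟨r, ?_⟩
    rw [← hr, ← card_isSel_one F.ok (F.ch.hom _ hm.ne_zero)]
    exact ((cmp_twist hu hm.ne_zero (hgb.twist HypP.inj hm.ne_zero)
      (hGF D₂ hm.ne_zero)).2.2.2).symm
  refine one_fam hg1 F.ok F.ch F.grid F.alt D₂ (fun n hn D hD hleg => ?_) _
    (fun j hj D hDm hDs hDc hf hlt hfin hB =>
      ⟨(cmp_twist hu hDm.ne_zero (hgb.twist HypP.inj hDm.ne_zero) (hGF D hDm.ne_zero)).1 j hj hf hlt,
        (cmp_twist hu hDm.ne_zero (hgb.twist HypP.inj hDm.ne_zero)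
          (hGF D hDm.ne_zero)).2.1 hfin hB⟩)
  refine (SmJP.parity_same F.ok F.ch hq (fun P => mem_badP) ?_ hD hD₂ hleg).2 hev₂
  rw [Nat.even_iff] at hn
  omega

end fam

section final

/-- **Half of the squarefree twists**, from the facts on the instances. -/
theorem half_final_of (h2 : (2 : k) ≠ 0) (Ω : Type) [Field Ω] [Algebra (RatFunc k) Ω]
    [IsSepClosure (RatFunc k) Ω] {u : k} (hu : ¬ IsSquare u)
    (hP : ∀ (b : Fin (2 * g + 1) → k[X]) [HypP b] (hg : Gen b), PFacts Ω b u hu hg)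
    (hGF : ∀ b : Fin (2 * g + 1) → k[X], Function.Injective b → GFacts Ω b)
    (a : Fin (2 * g + 1) → k[X]) (ha : Function.Injective a) (hg : Gen a) (r : ℕ)
    (hr : r = 0 ∨ r = 1) (ε : ℝ) (hε : 0 < ε) :
    ∃ j₀ : ℕ, ∀ j ≥ j₀, ∃ n₀ : ℕ, ∀ n ≥ n₀,
      |(Nat.card {D : k[X] // Squarefree D ∧ D.natDegree = n ∧ MultJ a D ∧
        RR k Ω r j fun i => D * a i} : ℝ) -
        (Nat.card {D : k[X] // Squarefree D ∧ D.natDegree = n ∧ MultJ a D} : ℝ) / 2| ≤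
        ε * (Nat.card {D : k[X] // Squarefree D ∧ D.natDegree = n} : ℝ) := by
  refine all_half_jac (RR k Ω r) (fun b hb hgb hPb ε hε => ?_) ?_ a ha hg ε hε
  · have : HypP b := ⟨hb, h2⟩
    exact half_fam_inst (hP b hgb) hPb (fun D hD => hGF _ (injective_mul hb hD)) ε hε r hr
  · obtain ⟨c, hc, h⟩ := Pool.Agent.Sm.L.card_squarefree_ge (k := k) h2
    exact ⟨c, hc, 0, fun n _ => h n⟩

/-- **A positive proportion of the squarefree twists has corank `0`** if one squarefree twist has a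
2-Selmer group of even dimension. -/
theorem pos_final_of (h2 : (2 : k) ≠ 0) (hg1 : 1 ≤ g) (Ω : Type) [Field Ω]
    [Algebra (RatFunc k) Ω] [IsSepClosure (RatFunc k) Ω] {u : k} (hu : ¬ IsSquare u)
    (hP : ∀ (b : Fin (2 * g + 1) → k[X]) [HypP b] (hg : Gen b), PFacts Ω b u hu hg)
    (hGF : ∀ b : Fin (2 * g + 1) → k[X], Function.Injective b → GFacts Ω b)
    (a : Fin (2 * g + 1) → k[X]) (ha : Function.Injective a) (hg : Gen a)
    (D₀ : k[X]) (hD₀ : Squarefree D₀) (hE : EE k Ω fun i => D₀ * a i) :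
    ∃ c : ℝ, 0 < c ∧ ∃ j₀ : ℕ, ∀ j ≥ j₀, ∃ n₀ : ℕ, ∀ n ≥ n₀, Even (n + D₀.natDegree) →
      c * (Nat.card {D : k[X] // Squarefree D ∧ D.natDegree = n} : ℝ) ≤
        (Nat.card {D : k[X] // Squarefree D ∧ D.natDegree = n ∧
          RR k Ω 0 j fun i => D * a i} : ℝ) := by
  refine all_pos_jac (RR k Ω 0) (EE k Ω) (fun b hb hgb D₂ hm hsq hco hE => ?_) a ha hg D₀ hD₀ hE
  have : HypP b := ⟨hb, h2⟩
  exact one_fam_inst hg1 (hP b hgb) (fun D hD => hGF _ (injective_mul hb hD)) D₂ hm hsq hco hE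

end final

end Pool.Agent.SmJ.L
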