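import Pool.Agent.Lib.SmJ.L.HalfFinal
import Pool.Agent.Lib.SmJ.L.Done

/-!
SMITH for Jacobians over `F_q(t)` (MP_950c68_ag), the theorem with parity in the form for the hand-in:
the coranks only, the lower bound for the family, and one statement for everything.
-/

set_option autoImplicit false

open Polynomial

namespace Pool.Agent.SmJ.L

variable {k : Type} [Field k] {g : ℕ}

/-- The 2-power Selmer group of the Jacobian of `y ^ 2 = ∏ (x - D a i)` has corank `r`. -/
def CorJ (r : ℕ) (a : Fin (2 * g + 1) → k[X]) (D : k[X]) : Prop :=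
  HasCorank k (gal (SeparableClosure (RatFunc k))
    fun i => algebraMap k[X] (RatFunc k) (D * a i)) r

/-- The 2-power torsion of the Tate-Shafarevich group of this Jacobian is finite. -/
def ShaJ (a : Fin (2 * g + 1) → k[X]) (D : k[X]) : Prop :=
  Finite (Sha2 k (gal (SeparableClosure (RatFunc k))
    fun i => algebraMap k[X] (RatFunc k) (D * a i)))

private theorem HalfRes_fin [Finite k] (n : ℕ) (p : k[X] → Prop) :
    Finite {D : k[X] // Squarefree D ∧ D.natDegree = n ∧ p D} := by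
  have h5 : {D : k[X] | D.natDegree ≤ n}.Finite := by
    have h : {D : k[X] | D.natDegree ≤ n} ⊆ (degreeLT k (n + 1) : Set k[X]) := by
      intro D hD
      rw [SetLike.mem_coe, mem_degreeLT]
      exact lt_of_le_of_lt degree_le_natDegree (by exact_mod_cast Nat.lt_succ_of_le hD)
    refine Set.Finite.subset ?_ h
    have : Finite (degreeLT k (n + 1)) := Finite.of_equiv _ (degreeLTEquiv k (n + 1)).toEquiv.symm
    exact Set.toFinite _
  exact Set.Finite.subset h5 fun D hD => (hD.2.1 : D.natDegree = n).le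

private theorem HalfRes_mono [Finite k] (n : ℕ) {p q : k[X] → Prop} (h : ∀ D, p D → q D) :
    (Nat.card {D : k[X] // Squarefree D ∧ D.natDegree = n ∧ p D} : ℝ) ≤
      Nat.card {D : k[X] // Squarefree D ∧ D.natDegree = n ∧ q D} := by
  have hf := HalfRes_fin n q
  have h1 := Nat.card_le_card_of_injective
    (fun D : {D : k[X] // Squarefree D ∧ D.natDegree = n ∧ p D} =>
      (⟨D.1, D.2.1, D.2.2.1, h _ D.2.2.2⟩ :
        {D : k[X] // Squarefree D ∧ D.natDegree = n ∧ q D}))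
    (fun D D' hh => Subtype.ext (congrArg (fun z :
      {D : k[X] // Squarefree D ∧ D.natDegree = n ∧ q D} => z.1) hh))
  exact_mod_cast h1

private theorem HalfRes_sum [Finite k] (n : ℕ) {p q0 q1 : k[X] → Prop}
    (h : ∀ D, q0 D → q1 D → False) :
    (Nat.card {D : k[X] // Squarefree D ∧ D.natDegree = n ∧ p D ∧ q0 D} : ℝ) +
      Nat.card {D : k[X] // Squarefree D ∧ D.natDegree = n ∧ p D ∧ q1 D} ≤
      Nat.card {D : k[X] // Squarefree D ∧ D.natDegree = n ∧ p D} := by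
  have f0 := HalfRes_fin n (fun D => p D ∧ q0 D)
  have f1 := HalfRes_fin n (fun D => p D ∧ q1 D)
  have f := HalfRes_fin n p
  have h1 : Nat.card {D : k[X] // Squarefree D ∧ D.natDegree = n ∧ p D ∧ q0 D} +
      Nat.card {D : k[X] // Squarefree D ∧ D.natDegree = n ∧ p D ∧ q1 D} ≤
      Nat.card {D : k[X] // Squarefree D ∧ D.natDegree = n ∧ p D} := by
    rw [← Nat.card_sum]
    refine Nat.card_le_card_of_injective (Sum.elim
      (fun D => ⟨D.1, D.2.1, D.2.2.1, D.2.2.2.1⟩) (fun D => ⟨D.1, D.2.1, D.2.2.1, D.2.2.2.1⟩)) ?_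
    rintro (⟨D, hD⟩ | ⟨D, hD⟩) (⟨D', hD'⟩ | ⟨D', hD'⟩) hh
    · have h3 : D = D' := congrArg Subtype.val hh
      subst h3
      rfl
    · have h3 : D = D' := congrArg Subtype.val hh
      subst h3
      exact (h D hD.2.2.2 hD'.2.2.2).elim
    · have h3 : D = D' := congrArg Subtype.val hh
      subst h3
      exact (h D hD'.2.2.2 hD.2.2.2).elim
    · have h3 : D = D' := congrArg Subtype.val hh
      subst h3
      rfl
  exact_mod_cast h1

/-- The family has a positive lower density among the squarefree polynomials. -/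
theorem multJ_pos [Finite k] (h2 : (2 : k) ≠ 0) {a : Fin (2 * g + 1) → k[X]}
    (h : ∃ P, EdgeAt a P) :
    ∃ δ : ℝ, 0 < δ ∧ ∃ n₀ : ℕ, ∀ n ≥ n₀,
      δ * (Nat.card {D : k[X] // Squarefree D ∧ D.natDegree = n} : ℝ) ≤
        (Nat.card {D : k[X] // Squarefree D ∧ D.natDegree = n ∧ MultJ a D} : ℝ) := by
  classical
  obtain ⟨P₀, hP₀⟩ := h
  obtain ⟨P, hPm, hP⟩ := hP₀.monic
  obtain ⟨c, hc, n0, hn0⟩ := SmK.card_DD_ge ({P} : Finset k[X])
    (fun Q hQ => by rw [Finset.mem_singleton] at hQ; subst hQ; exact ⟨hPm, hP.1⟩)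
    (Pool.Agent.Sm.L.three_le_card h2)
  have hq : (0 : ℝ) < Nat.card k := by exact_mod_cast Nat.card_pos (α := k)
  refine ⟨c / Nat.card k, by positivity, n0, fun n hn => ?_⟩
  have h1 : (Nat.card {D : k[X] // Squarefree D ∧ D.natDegree = n} : ℝ) ≤
      (Nat.card k : ℝ) ^ (n + 1) := by
    have hf : Finite (degreeLT k (n + 1)) :=
      Finite.of_equiv _ (degreeLTEquiv k (n + 1)).toEquiv.symm
    have h3 : Nat.card {D : k[X] // Squarefree D ∧ D.natDegree = n} ≤
        Nat.card (degreeLT k (n + 1)) := by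
      refine Nat.card_le_card_of_injective (fun D => ⟨D.1, ?_⟩) ?_
      · rw [mem_degreeLT]
        exact lt_of_le_of_lt degree_le_natDegree
          (by exact_mod_cast Nat.lt_succ_of_le D.2.2.le)
      · intro D D' hh
        exact Subtype.ext (congrArg (fun z : degreeLT k (n + 1) => z.1) hh)
    rw [SmK.natCard_degreeLT] at h3
    exact_mod_cast h3
  have h4 : ((SmK.DD ({P} : Finset k[X]) n).card : ℝ) ≤
      (Nat.card {D : k[X] // Squarefree D ∧ D.natDegree = n ∧ MultJ a D} : ℝ) := by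
    have hf := HalfRes_fin n (MultJ a)
    have h5 : (SmK.DD ({P} : Finset k[X]) n).card ≤
        Nat.card {D : k[X] // Squarefree D ∧ D.natDegree = n ∧ MultJ a D} := by
      rw [← Nat.card_eq_finsetCard]
      refine Nat.card_le_card_of_injective (fun D => ⟨D.1, ?_⟩) ?_
      · obtain ⟨hm, hd, hs, hb⟩ := SmK.mem_DD.1 D.2
        exact ⟨hs, hd, P, hP, hb P (Finset.mem_singleton_self P)⟩
      · intro D D' hh
        exact Subtype.ext (congrArg (fun z :
          {D : k[X] // Squarefree D ∧ D.natDegree = n ∧ MultJ a D} => z.1) hh)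
    exact_mod_cast h5
  refine le_trans ?_ ((hn0 n hn).trans h4)
  calc c / Nat.card k * (Nat.card {D : k[X] // Squarefree D ∧ D.natDegree = n} : ℝ)
      ≤ c / Nat.card k * (Nat.card k : ℝ) ^ (n + 1) :=
        mul_le_mul_of_nonneg_left h1 (by positivity)
    _ = c * (Nat.card k : ℝ) ^ n := by rw [pow_succ]; field_simp

/-- **Half and half**, coranks only: for the squarefree `D` of degree `n` for which some edge prime
does not divide `D`. -/
theorem half_cor [Finite k] (h2 : (2 : k) ≠ 0) (a : Fin (2 * g + 1) → k[X])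
    (ha : Function.Injective a) (hg : Gen a) (ε : ℝ) (hε : 0 < ε) :
    ∃ n₀ : ℕ, ∀ n ≥ n₀,
      |(Nat.card {D : k[X] // Squarefree D ∧ D.natDegree = n ∧ MultJ a D ∧
          (CorJ 0 a D ∧ ShaJ a D)} : ℝ) -
        (Nat.card {D : k[X] // Squarefree D ∧ D.natDegree = n ∧ MultJ a D} : ℝ) / 2| ≤
        ε * (Nat.card {D : k[X] // Squarefree D ∧ D.natDegree = n} : ℝ) ∧
      |(Nat.card {D : k[X] // Squarefree D ∧ D.natDegree = n ∧ MultJ a D ∧ CorJ 1 a D} : ℝ) -
        (Nat.card {D : k[X] // Squarefree D ∧ D.natDegree = n ∧ MultJ a D} : ℝ) / 2| ≤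
        ε * (Nat.card {D : k[X] // Squarefree D ∧ D.natDegree = n} : ℝ) := by
  obtain ⟨j₀, h0⟩ := half_jac h2 a ha hg 0 (Or.inl rfl) ε hε
  obtain ⟨j₁, h1⟩ := half_jac h2 a ha hg 1 (Or.inr rfl) ε hε
  obtain ⟨n₀, hn₀⟩ := h0 j₀ le_rfl
  obtain ⟨n₁, hn₁⟩ := h1 j₁ le_rfl
  refine ⟨max n₀ n₁, fun n hn => ?_⟩
  have a0 := abs_le.1 (hn₀ n (le_trans (le_max_left _ _) hn))
  have a1 := abs_le.1 (hn₁ n (le_trans (le_max_right _ _) hn))
  have m0 : (Nat.card {D : k[X] // Squarefree D ∧ D.natDegree = n ∧ MultJ a D ∧ Good a j₀ D ∧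
      CorJ 0 a D} : ℝ) ≤ Nat.card {D : k[X] // Squarefree D ∧ D.natDegree = n ∧ MultJ a D ∧
        (CorJ 0 a D ∧ ShaJ a D)} :=
    HalfRes_mono n fun D hD => ⟨hD.1, hD.2.2, GoodOn.of_corank_zero hD.2.1 hD.2.2⟩
  have m1 : (Nat.card {D : k[X] // Squarefree D ∧ D.natDegree = n ∧ MultJ a D ∧ Good a j₁ D ∧
      CorJ 1 a D} : ℝ) ≤ Nat.card {D : k[X] // Squarefree D ∧ D.natDegree = n ∧ MultJ a D ∧
        CorJ 1 a D} := HalfRes_mono n fun D hD => ⟨hD.1, hD.2.2⟩
  have hs := HalfRes_sum n (p := MultJ a) (q0 := fun D => CorJ 0 a D ∧ ShaJ a D)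
    (q1 := CorJ 1 a) fun D hD hD' => absurd (HasCorank.unique hD.1 hD') (by norm_num)
  have a0' := a0.1
  have a1' := a1.1
  simp only [CorJ, ShaJ] at m0 m1 hs ⊢
  rw [abs_le, abs_le]
  refine ⟨⟨?_, ?_⟩, ⟨?_, ?_⟩⟩ <;> linarith

/-- **A positive proportion with corank `0`.** -/
theorem pos_cor [Finite k] (h2 : (2 : k) ≠ 0) (hg1 : 1 ≤ g) (a : Fin (2 * g + 1) → k[X])
    (ha : Function.Injective a) (hg : Gen a) (D₀ : k[X]) (hD₀ : Squarefree D₀)
    (hE : ∃ r : ℕ, Nat.card (Sel k (gal (SeparableClosure (RatFunc k))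
      fun i => algebraMap k[X] (RatFunc k) (D₀ * a i)) 2) = 4 ^ r) :
    ∃ c : ℝ, 0 < c ∧ ∃ n₀ : ℕ, ∀ n ≥ n₀, Even (n + D₀.natDegree) →
      c * (Nat.card {D : k[X] // Squarefree D ∧ D.natDegree = n} : ℝ) ≤
        (Nat.card {D : k[X] // Squarefree D ∧ D.natDegree = n ∧ (CorJ 0 a D ∧ ShaJ a D)} : ℝ) := by
  obtain ⟨c, hc, j₀, h⟩ := pos_jac h2 hg1 a ha hg D₀ hD₀ hE
  obtain ⟨n₀, hn₀⟩ := h j₀ le_rfl
  refine ⟨c, hc, n₀, fun n hn hn' => (hn₀ n hn hn').trans ?_⟩
  exact HalfRes_mono n fun D hD => ⟨hD.2, GoodOn.of_corank_zero hD.1 hD.2⟩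

/-- **The theorem**, in one statement. `a` are `2 g + 1` distinct polynomials in general position
(`Gen`) over a finite field of odd characteristic. (1) For every `ε > 0` there is a level `j` such
that all but `ε` of the squarefree `D` of large degree `n` have the conclusions `Good a j D`.
(2) If the graph has an edge then the squarefree `D` for which some edge prime does not divide `D`
have a positive lower density `δ`, and in this family the coranks are `0` (with finite `Sha`) and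
`1`, half and half. -/
theorem parity_jac [Finite k] (h2 : (2 : k) ≠ 0) (a : Fin (2 * g + 1) → k[X])
    (ha : Function.Injective a) (hg : Gen a) :
    ∃ δ : ℝ, 0 < δ ∧ ∀ ε : ℝ, 0 < ε → ∃ j n₀ : ℕ, ∀ n ≥ n₀,
      (Nat.card {D : k[X] // Squarefree D ∧ D.natDegree = n ∧ ¬ Good a j D} : ℝ) ≤
        ε * (Nat.card {D : k[X] // Squarefree D ∧ D.natDegree = n} : ℝ) ∧
      ((∃ P, EdgeAt a P) →
        δ * (Nat.card {D : k[X] // Squarefree D ∧ D.natDegree = n} : ℝ) ≤
          (Nat.card {D : k[X] // Squarefree D ∧ D.natDegree = n ∧ MultJ a D} : ℝ) ∧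
        |(Nat.card {D : k[X] // Squarefree D ∧ D.natDegree = n ∧ MultJ a D ∧
            (CorJ 0 a D ∧ ShaJ a D)} : ℝ) -
          (Nat.card {D : k[X] // Squarefree D ∧ D.natDegree = n ∧ MultJ a D} : ℝ) / 2| ≤
          ε * (Nat.card {D : k[X] // Squarefree D ∧ D.natDegree = n ∧ MultJ a D} : ℝ) ∧
        |(Nat.card {D : k[X] // Squarefree D ∧ D.natDegree = n ∧ MultJ a D ∧ CorJ 1 a D} : ℝ) -
          (Nat.card {D : k[X] // Squarefree D ∧ D.natDegree = n ∧ MultJ a D} : ℝ) / 2| ≤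
          ε * (Nat.card {D : k[X] // Squarefree D ∧ D.natDegree = n ∧ MultJ a D} : ℝ)) := by
  by_cases hP : ∃ P, EdgeAt a P
  · obtain ⟨δ, hδ, n₁, h₁⟩ := multJ_pos h2 hP
    refine ⟨δ, hδ, fun ε hε => ?_⟩
    obtain ⟨j, n₂, h₂⟩ := all_twists h2 a ha hg ε hε
    obtain ⟨n₃, h₃⟩ := half_cor h2 a ha hg (ε * δ) (by positivity)
    refine ⟨j, max n₁ (max n₂ n₃), fun n hn => ?_⟩
    have e1 : n₁ ≤ n := le_trans (le_max_left _ _) hn
    have e2 : n₂ ≤ n := le_trans (le_trans (le_max_left _ _) (le_max_right _ _)) hn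
    have e3 : n₃ ≤ n := le_trans (le_trans (le_max_right _ _) (le_max_right _ _)) hn
    have h4 : ε * δ * (Nat.card {D : k[X] // Squarefree D ∧ D.natDegree = n} : ℝ) ≤
        ε * (Nat.card {D : k[X] // Squarefree D ∧ D.natDegree = n ∧ MultJ a D} : ℝ) := by
      rw [mul_assoc]
      exact mul_le_mul_of_nonneg_left (h₁ n e1) hε.le
    exact ⟨h₂ n e2, fun _ => ⟨h₁ n e1, (h₃ n e3).1.trans h4, (h₃ n e3).2.trans h4⟩⟩
  · refine ⟨1, one_pos, fun ε hε => ?_⟩
    obtain ⟨j, n₂, h₂⟩ := all_twists h2 a ha hg ε hε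
    exact ⟨j, n₂, fun n hn => ⟨h₂ n hn, fun h => absurd h hP⟩⟩

end Pool.Agent.SmJ.L
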