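import Pool.Agent.Lib.SmJ.L.HalfAbs
import Pool.Agent.Lib.SmJ.L.AbsMain
import Pool.Agent.Lib.SmJ.P.ParJ

/-!
SMITH for Jacobians, block L with parity: the theorems of `HalfAbs` from `Sys.Ok`, `ChOk`,
Theorem I, the alternation of the tower and the equidistribution of the parity, for two properties
`P0`, `P1` of the twists which follow from the two growths and exclude each other.
-/

set_option autoImplicit false

open Polynomial Finset

namespace Pool.Agent.SmJ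

open Pool.Agent.SmK (DD)
open Pool.Agent.Sm (PD leg)

variable {k : Type} [Field k] {G V V1 Pl : Type} [Group G] [AddCommGroup V] [DistribMulAction G V]
  [AddCommGroup V1] [Module (ZMod 2) V1]
  {S : Sys G V V1 Pl} {ch : k[X] → G → ZMod 2} {d : TwData k V1} {pl : k[X] → Pl}

/-- The parity theorem for all `D`. -/
theorem par_of [Finite k] (h : S.Ok) (hc : ChOk S ch d pl)
    (ha : ∀ (J : Type) [Fintype J] [Nonempty J] (p : J → k[X]), PVec d p →
      (twJ S h ch d p).Altn) : Par h ch (badP d) := by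
  have hV := h.fin1
  have hfV : Fintype V1 := Fintype.ofFinite V1
  intro n hn D hD m hm
  obtain ⟨hp, hprod, hne⟩ := exists_pvec hD hn
  have hco : CodeOk S ch d (fun P : PD D => P.1) := Code.codeOk h hc hp
  have hchi : chiJ ch (fun P : PD D => P.1) = ch D := by
    rw [chiJ_eq_prod hc _ _ hp, hprod]
  have hfin : ∀ i, Finite {Psi : G → V // S.IsSel (ch D) i Psi} := by
    intro i
    have h5 := (lfacts_of h hc hp).fin i
    rw [hchi] at h5
    exact h5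
  have hlt : Nat.card (S.SelZ h (chiJ ch (fun P : PD D => P.1)) m) < (4 * Nat.card V1) ^ m := by
    rw [hchi]
    refine lt_of_le_of_lt (Nat.le_mul_of_pos_left _ Nat.card_pos) hm.2
  refine ⟨fun hE => ⟨hfin, ?_⟩, fun hE => ⟨hfin, ?_⟩⟩
  · have h1 := selZ_even h hco (ha _ _ hp) hlt (by rw [hchi]; exact hE)
    rw [hchi] at h1
    exact h1
  · have h1 := selZ_odd h hco (ha _ _ hp) hlt (by rw [hchi]; exact hE)
    rw [hchi] at h1
    exact h1

/-- The main counting theorem. -/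
theorem main_of [Nontrivial V1] [Finite k] (h : S.Ok) (hc : ChOk S ch d pl)
    (hG : ∀ m, 1 ≤ m → GridThm S ch d m) : Main S ch (badP d) := by
  have hV := h.fin1
  have hfV : Fintype V1 := Fintype.ofFinite V1
  exact fun ε hε => abs_main h hc hG ε hε

/-- Membership in `DD`. -/
theorem mem_DD_iff [Finite k] {B : Finset k[X]} {M : k[X]} (hM : M ≠ 0)
    (hB' : ∀ P ∈ B, P.Monic ∧ Irreducible P)
    (hB : ∀ P : k[X], P.Monic → Irreducible P → (P ∈ B ↔ P ∣ M)) {n : ℕ} {D : k[X]} :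
    D ∈ DD B n ↔ D.Monic ∧ Squarefree D ∧ IsCoprime D M ∧ D.natDegree = n := by
  rw [SmK.mem_DD]
  constructor
  · rintro ⟨h1, h2, h3, h4⟩
    refine ⟨h1, h3, isCoprime_of_irreducible_dvd (fun h => hM h.2) fun z hz hzD hzM => ?_, h2⟩
    have hlc : z.leadingCoeff ≠ 0 := leadingCoeff_ne_zero.mpr hz.ne_zero
    have hu : IsUnit (C (z.leadingCoeff⁻¹) : k[X]) := isUnit_C.2 (inv_ne_zero hlc).isUnit
    have hPm : (z * C (z.leadingCoeff⁻¹)).Monic := monic_mul_leadingCoeff_inv hz.ne_zero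
    have hPi : Irreducible (z * C (z.leadingCoeff⁻¹)) := (irreducible_mul_isUnit hu).mpr hz
    exact h4 _ ((hB _ hPm hPi).2 ((hu.mul_right_dvd).2 hzM)) ((hu.mul_right_dvd).2 hzD)
  · rintro ⟨h1, h3, h4, h2⟩
    refine ⟨h1, h2, h3, fun P hP hd => ?_⟩
    obtain ⟨hPm, hPi⟩ := hB' P hP
    exact hPi.not_isUnit (h4.isUnit_of_dvd' hd ((hB P hPm hPi).1 hP))

section two

variable [Finite k] {B : Finset k[X]}

open Classical in
/-- **Half of the twists**, for two properties. -/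
theorem half_two (h : S.Ok) (hpar : Par h ch B) (hMC : Main S ch B)
    (heven : ∀ ε : ℝ, 0 < ε → ∃ n0 : ℕ, ∀ n : ℕ, n0 ≤ n →
      |(((DD B n).filter (EvenSel h ch)).card : ℝ) - (DD B n).card / 2| ≤
        ε * (DD B n).card)
    (P0 P1 : ℕ → k[X] → Prop) (hdis : ∀ m D, P0 m D → P1 m D → False)
    (h0 : ∀ m, 1 ≤ m → ∀ n, ∀ D ∈ DD B n, Small S ch m D → Cor0 S ch D → P0 m D)
    (h1 : ∀ m, 1 ≤ m → ∀ n, ∀ D ∈ DD B n, Small S ch m D → Cor1 S ch D → P1 m D)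
    (ε : ℝ) (hε : 0 < ε) :
    ∃ m₀ : ℕ, ∀ m ≥ m₀, ∃ n₀ : ℕ, ∀ n ≥ n₀,
      |(((DD B n).filter (P0 m)).card : ℝ) - (DD B n).card / 2| ≤ ε * (Nat.card k : ℝ) ^ n ∧
      |(((DD B n).filter (P1 m)).card : ℝ) - (DD B n).card / 2| ≤ ε * (Nat.card k : ℝ) ^ n := by
  obtain ⟨m₀, hm⟩ := half_abs h hpar hMC heven ε hε
  refine ⟨max m₀ 1, fun m hmm => ?_⟩
  obtain ⟨n₀, hn⟩ := hm m (le_trans (le_max_left _ _) hmm)
  have hm1 : 1 ≤ m := le_trans (le_max_right _ _) hmm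
  refine ⟨n₀, fun n hnn => ?_⟩
  obtain ⟨a0, a1⟩ := hn n hnn
  have s0 : (((DD B n).filter (SC0 S ch m)).card : ℝ) ≤
      ((DD B n).filter (P0 m)).card := by
    have : (DD B n).filter (SC0 S ch m) ⊆ (DD B n).filter (P0 m) := by
      intro D hD
      rw [mem_filter] at hD ⊢
      exact ⟨hD.1, h0 m hm1 n D hD.1 hD.2.1 hD.2.2⟩
    exact_mod_cast card_le_card this
  have s1 : (((DD B n).filter (SC1 S ch m)).card : ℝ) ≤
      ((DD B n).filter (P1 m)).card := by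
    have : (DD B n).filter (SC1 S ch m) ⊆ (DD B n).filter (P1 m) := by
      intro D hD
      rw [mem_filter] at hD ⊢
      exact ⟨hD.1, h1 m hm1 n D hD.1 hD.2.1 hD.2.2⟩
    exact_mod_cast card_le_card this
  have s2 : (((DD B n).filter (P0 m)).card : ℝ) + ((DD B n).filter (P1 m)).card ≤
      (DD B n).card := by
    have hd : Disjoint ((DD B n).filter (P0 m)) ((DD B n).filter (P1 m)) := by
      rw [Finset.disjoint_filter]
      exact fun D _ g0 g1 => hdis m D g0 g1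
    rw [← Nat.cast_add, ← card_union_of_disjoint hd]
    exact_mod_cast card_le_card (union_subset (filter_subset _ _) (filter_subset _ _))
  rw [abs_le] at a0 a1 ⊢
  rw [abs_le]
  refine ⟨⟨?_, ?_⟩, ?_, ?_⟩ <;> linarith [a0.1, a1.1]

open Classical in
/-- **Half of the twists**, in the form of the final statements. -/
theorem half_card {M : k[X]} (hM : M ≠ 0) (hB' : ∀ P ∈ B, P.Monic ∧ Irreducible P)
    (hB : ∀ P : k[X], P.Monic → Irreducible P → (P ∈ B ↔ P ∣ M)) (Q : ℕ → k[X] → Prop)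
    (hQ : ∀ ε : ℝ, 0 < ε → ∃ m₀ : ℕ, ∀ m ≥ m₀, ∃ n₀ : ℕ, ∀ n ≥ n₀,
      |(((DD B n).filter (Q m)).card : ℝ) - (DD B n).card / 2| ≤ ε * (Nat.card k : ℝ) ^ n)
    (ε : ℝ) (hε : 0 < ε) :
    ∃ j₀ : ℕ, ∀ j ≥ j₀, ∃ n₀ : ℕ, ∀ n ≥ n₀,
      |(Nat.card {D : k[X] // D.Monic ∧ Squarefree D ∧ IsCoprime D M ∧
        D.natDegree = n ∧ Q j D} : ℝ) -
        (Nat.card {D : k[X] // D.Monic ∧ Squarefree D ∧ IsCoprime D M ∧
        D.natDegree = n} : ℝ) / 2| ≤ ε * (Nat.card k : ℝ) ^ n := by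
  obtain ⟨m₀, h⟩ := hQ ε hε
  refine ⟨m₀, fun m hm => ?_⟩
  obtain ⟨n₀, h⟩ := h m hm
  refine ⟨n₀, fun n hn => ?_⟩
  have e1 : Nat.card {D : k[X] // D.Monic ∧ Squarefree D ∧ IsCoprime D M ∧
      D.natDegree = n ∧ Q m D} = ((DD B n).filter (Q m)).card := by
    rw [← Fintype.card_coe, ← Nat.card_eq_fintype_card]
    refine Nat.card_congr (Equiv.subtypeEquivRight fun D => ?_)
    rw [mem_filter, mem_DD_iff hM hB' hB]
    tauto
  have e2 : Nat.card {D : k[X] // D.Monic ∧ Squarefree D ∧ IsCoprime D M ∧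
      D.natDegree = n} = (DD B n).card := by
    rw [← Fintype.card_coe, ← Nat.card_eq_fintype_card]
    exact Nat.card_congr (Equiv.subtypeEquivRight fun D => (mem_DD_iff hM hB' hB).symm)
  rw [e1, e2]
  exact h n hn

open Classical in
/-- **A positive proportion.** -/
theorem one_two (h : S.Ok) (hpar : Par h ch B) (hMC : Main S ch B) (h2 : (2 : k) ≠ 0)
    {hh : ℕ} (ell : Fin hh → k[X]) (hm : ∀ i, (ell i).Monic) (hi : ∀ i, Irreducible (ell i))
    (hinj : Function.Injective ell) (hB : ∀ P, P ∈ B ↔ ∃ i, ell i = P) (ξ : Fin hh → ZMod 2)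
    (ev : ℕ → Prop)
    (hsame : ∀ n, ev n → ∀ D ∈ DD B n, (∀ i, leg (ell i) D = ξ i) → EvenSel h ch D)
    (P0 : ℕ → k[X] → Prop)
    (h0 : ∀ m, 1 ≤ m → ∀ n, ∀ D ∈ DD B n, Small S ch m D → Cor0 S ch D → P0 m D) :
    ∃ c : ℝ, 0 < c ∧ ∃ m₀ : ℕ, ∀ m ≥ m₀, ∃ n₀ : ℕ, ∀ n ≥ n₀, ev n →
      c * (Nat.card k : ℝ) ^ n ≤ ((DD B n).filter (P0 m)).card := by
  obtain ⟨c, hc, n1, hn1⟩ := SmK.card_DD_ge B (fun P hP => by
    obtain ⟨i, rfl⟩ := (hB P).1 hP
    exact ⟨hm i, hi i⟩) (Sm.Q.card_ge_three h2)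
  obtain ⟨m₀, hmm⟩ := one_abs h hpar hMC h2 ell hm hi hinj hB ξ ev hsame
    ((2 ^ hh : ℝ)⁻¹ * c / 2) (by positivity)
  refine ⟨(2 ^ hh : ℝ)⁻¹ * c / 2, by positivity, max m₀ 1, fun m hm' => ?_⟩
  obtain ⟨n₀, hn⟩ := hmm m (le_trans (le_max_left _ _) hm')
  refine ⟨max n₀ n1, fun n hnn hev => ?_⟩
  have e1 := hn n (le_trans (le_max_left _ _) hnn) hev
  have e2 := hn1 n (le_trans (le_max_right _ _) hnn)
  have s0 : (((DD B n).filter (SC0 S ch m)).card : ℝ) ≤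
      ((DD B n).filter (P0 m)).card := by
    have : (DD B n).filter (SC0 S ch m) ⊆ (DD B n).filter (P0 m) := by
      intro D hD
      rw [mem_filter] at hD ⊢
      exact ⟨hD.1, h0 m (le_trans (le_max_right _ _) hm') n D hD.1 hD.2.1 hD.2.2⟩
    exact_mod_cast card_le_card this
  have e3 : (2 ^ hh : ℝ)⁻¹ * (c * (Nat.card k : ℝ) ^ n) ≤ (2 ^ hh : ℝ)⁻¹ * (DD B n).card :=
    mul_le_mul_of_nonneg_left e2 (by positivity)
  linarith

open Classical in
/-- The number in the form of the final statements. -/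
theorem card_filter_eq {M : k[X]} (hM : M ≠ 0) (hB' : ∀ P ∈ B, P.Monic ∧ Irreducible P)
    (hB : ∀ P : k[X], P.Monic → Irreducible P → (P ∈ B ↔ P ∣ M)) (Q : k[X] → Prop) (n : ℕ) :
    Nat.card {D : k[X] // D.Monic ∧ Squarefree D ∧ IsCoprime D M ∧
      D.natDegree = n ∧ Q D} = ((DD B n).filter Q).card := by
  rw [← Fintype.card_coe, ← Nat.card_eq_fintype_card]
  refine Nat.card_congr (Equiv.subtypeEquivRight fun D => ?_)
  rw [mem_filter, mem_DD_iff hM hB' hB]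
  tauto

end two

end Pool.Agent.SmJ
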