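import Pool.Agent.Lib.SmJ.L.OrdW
import Pool.Agent.Lib.SmJ.L.Done

/-!
SMITH for Jacobians, heights: the order of vanishing for `100` per cent of the monic squarefree `D`
prime to the bad primes, from the counting theorem for the heights.
-/

set_option autoImplicit false

open Polynomial Pool.Agent.BSDFF Pool.Agent.BSDFF.MW Pool.Agent.SmK
open Pool.Agent.SmithE (rf chP)
open Pool.Agent.Lib.SmD (chi)
open Pool.Agent.Sm.L (IsDeg)

namespace Pool.Agent.SmJ.L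

variable {k : Type} [Field k] [Finite k] {g : ℕ}

theorem hordW_le {n : ℕ} {F A B C : k[X] → Prop} (hF : ∀ D, F D → D.natDegree = n)
    (hC : ∀ D, F D → ¬ A D → ¬ B D → ¬ C D)
    {e1 e2 : ℝ} (h1 : (Nat.card {D : k[X] // F D ∧ A D} : ℝ) ≤ e1)
    (h2 : (Nat.card {D : k[X] // F D ∧ B D} : ℝ) ≤ e2) :
    (Nat.card {D : k[X] // F D ∧ C D} : ℝ) ≤ e1 + e2 := by
  classical
  have hfin : ∀ P : k[X] → Prop, Finite {D : k[X] // F D ∧ P D} := by
    intro P
    have h : {D : k[X] | D.natDegree ≤ n} ⊆ (degreeLT k (n + 1) : Set k[X]) := by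
      intro D hD
      rw [SetLike.mem_coe, mem_degreeLT]
      exact lt_of_le_of_lt degree_le_natDegree (by exact_mod_cast Nat.lt_succ_of_le hD)
    have h1 : {D : k[X] | D.natDegree ≤ n}.Finite := by
      refine Set.Finite.subset ?_ h
      have : Finite (degreeLT k (n + 1)) :=
        Finite.of_equiv _ (degreeLTEquiv k (n + 1)).toEquiv.symm
      exact Set.toFinite _
    have h2 := h1.to_subtype
    exact Finite.of_injective (β := {D : k[X] | D.natDegree ≤ n})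
      (fun D => ⟨D.1, (hF _ D.2.1).le⟩)
      fun D D' h => Subtype.ext (congrArg (fun z : {D : k[X] | D.natDegree ≤ n} => z.1) h)
  have f1 := hfin A
  have f2 := hfin B
  have h3 : Nat.card {D : k[X] // F D ∧ C D} ≤
      Nat.card ({D : k[X] // F D ∧ A D} ⊕ {D : k[X] // F D ∧ B D}) := by
    refine Nat.card_le_card_of_injective (fun D => if h : A D.1 then
      Sum.inl ⟨D.1, D.2.1, h⟩ else Sum.inr ⟨D.1, D.2.1, by
        by_contra hB
        exact hC D.1 D.2.1 h hB D.2.2⟩) ?_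
    intro D D' h
    by_cases h4 : A D.1 <;> by_cases h5 : A D'.1
    · simp only [h4, h5, dif_pos, Sum.inl.injEq, Subtype.mk.injEq] at h
      exact Subtype.ext h
    · simp only [h4, h5, dif_pos, dif_neg, not_false_eq_true, reduceCtorEq] at h
    · simp only [h4, h5, dif_pos, dif_neg, not_false_eq_true, reduceCtorEq] at h
    · simp only [h4, h5, dif_neg, not_false_eq_true, Sum.inr.injEq, Subtype.mk.injEq] at h
      exact Subtype.ext h
  rw [Nat.card_sum] at h3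
  have h4 : (Nat.card {D : k[X] // F D ∧ C D} : ℝ) ≤
      (Nat.card {D : k[X] // F D ∧ A D} : ℝ) + (Nat.card {D : k[X] // F D ∧ B D} : ℝ) := by
    exact_mod_cast h3
  linarith

/-- `100` per cent of the monic squarefree `D` prime to the bad primes. -/
theorem hord_inst (Ω : Type) [Field Ω] [Algebra (RatFunc k) Ω] [IsSepClosure (RatFunc k) Ω]
    (b : Fin (2 * g + 1) → k[X]) [HypP b] (hg : Gen b)
    {M : Type} [AddCommGroup M] [DistribMulAction (Ω ≃ₐ[RatFunc k] Ω) M]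
    {H : SmH.HData (VJ Ω (rfa b)) M (Place k (RatFunc k))}
    (hH : SmH.HOk (sysOf Ω b) H) {dg : ℕ → (Ω ≃ₐ[RatFunc k] Ω) → ℕ}
    (hdg : ∀ m s, IsDeg k Ω m s (dg m s)) (hDeg : SmH.DegOk (sysOf Ω b) H dg)
    (hchi : ∀ f : k[X], f ≠ 0 → (sysOf Ω b).HomG (chP Ω f))
    {B : Finset k[X]} (hB : ∀ D : k[X], D.Monic → Squarefree D → IsCoprime D (dpr b) →
      D ∈ DD B D.natDegree)
    (hZ : ∀ ε : ℝ, 0 < ε → ∃ s₀ : ℕ, ∀ s ≥ s₀, ∃ n₀ : ℕ, ∀ n ≥ n₀,
      (Nat.card {D : k[X] // D ∈ DD B n ∧ ∃ y, SmH.IsZ (sysOf Ω b) H (chP Ω D) s y} : ℝ) ≤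
        ε * (Nat.card k : ℝ) ^ n)
    (ε : ℝ) (hε : 0 < ε) :
    ∃ n₀ : ℕ, ∀ n ≥ n₀,
      (Nat.card {D : k[X] // D.Monic ∧ Squarefree D ∧ IsCoprime D (dpr b) ∧
        D.natDegree = n ∧ ¬ OrdOn k (gal Ω (rk fun i => D * b i))} : ℝ) ≤
        ε * (Nat.card k : ℝ) ^ n := by
  have h2 : (2 : k) ≠ 0 := HypP.two b
  have hbinj : Function.Injective b := HypP.inj
  obtain ⟨u, hu⟩ := exists_nonsq h2
  obtain ⟨j, h3⟩ := good_inst Ω h2 b hbinj hg (ε / 2) (by positivity)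
  obtain ⟨n₁, h3⟩ := h3 j le_rfl
  obtain ⟨s, h4⟩ := hZ (ε / 2) (by positivity)
  obtain ⟨n₂, h4⟩ := h4 (max s 1) (le_max_left _ _)
  refine ⟨max n₁ n₂, fun n hn => ?_⟩
  have m1 := h3 n ((le_max_left _ _).trans hn)
  have m2 := h4 n ((le_max_right _ _).trans hn)
  let F : k[X] → Prop := fun D => D.Monic ∧ Squarefree D ∧ IsCoprime D (dpr b) ∧
    D.natDegree = n
  have c1 : Nat.card {D : k[X] // F D ∧ ¬ GoodOn k (gal Ω (rk fun i => D * b i)) j} =
      Nat.card {D : k[X] // D.Monic ∧ Squarefree D ∧ IsCoprime D (dpr b) ∧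
        D.natDegree = n ∧ ¬ GoodOn k (gal Ω (rk fun i => D * b i)) j} :=
    Nat.card_congr (Equiv.subtypeEquivRight fun D => by
      simp only [F, and_assoc])
  have c2 : Nat.card {D : k[X] // F D ∧ ¬ OrdOn k (gal Ω (rk fun i => D * b i))} =
      Nat.card {D : k[X] // D.Monic ∧ Squarefree D ∧ IsCoprime D (dpr b) ∧
        D.natDegree = n ∧ ¬ OrdOn k (gal Ω (rk fun i => D * b i))} :=
    Nat.card_congr (Equiv.subtypeEquivRight fun D => by
      simp only [F, and_assoc])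
  have hfinDD : Finite {D : k[X] // D ∈ DD B n ∧
      ∃ y, SmH.IsZ (sysOf Ω b) H (chP Ω D) (max s 1) y} :=
    Finite.of_injective (β := {D : k[X] // D ∈ DD B n}) (fun D => ⟨D.1, D.2.1⟩)
      fun D D' h => Subtype.ext (congrArg (fun z : {D : k[X] // D ∈ DD B n} => z.1) h)
  have c3 : Nat.card {D : k[X] // F D ∧ ∃ y, SmH.IsZ (sysOf Ω b) H (chP Ω D) (max s 1) y} ≤
      Nat.card {D : k[X] // D ∈ DD B n ∧
        ∃ y, SmH.IsZ (sysOf Ω b) H (chP Ω D) (max s 1) y} := by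
    refine Nat.card_le_card_of_injective (fun D => ⟨D.1, ?_, D.2.2⟩) fun D D' h =>
      Subtype.ext (congrArg (fun z : {D : k[X] // D ∈ DD B n ∧
        ∃ y, SmH.IsZ (sysOf Ω b) H (chP Ω D) (max s 1) y} => z.1) h)
    obtain ⟨⟨g1, g2, g3, g4⟩, -⟩ := D.2
    rw [← g4]
    exact hB D.1 g1 g2 g3
  rw [← c1] at m1
  have m2' : (Nat.card {D : k[X] // F D ∧
      ∃ y, SmH.IsZ (sysOf Ω b) H (chP Ω D) (max s 1) y} : ℝ) ≤
      ε / 2 * (Nat.card k : ℝ) ^ n := le_trans (by exact_mod_cast c3) m2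
  rw [← c2]
  refine (hordW_le (n := n) (F := F) (fun D h => h.2.2.2) (fun D hF hA hB' hC => hC ?_) m1
    m2').trans (le_of_eq (by ring))
  obtain ⟨r, hr1, hr, -⟩ := (not_not.mp hA).corank
  have hD : D ≠ 0 := hF.1.ne_zero
  have hbi : Function.Injective (fun i => D * b i) := injective_mul hbinj hD
  have hAA : HypA (rts Ω (rk fun i => D * b i)) := hypA_rk h2 hbi
  have hA' : HypA (rts Ω (rk b)) := hypA_rk h2 hbinj
  have hact : ∀ c : Fin (2 * g + 1) → RatFunc k, Function.Injective c →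
      ∀ (_ : HypA (rts Ω c)) (s : Ω ≃ₐ[RatFunc k] Ω) (Q : Jac Ω c),
        gal Ω c s Q = act s.toRingEquiv (map_rts Ω c s) Q := fun c _ _ s Q => gal_eq_act c s Q
  exact ordOn_twistJ (Ω := Ω) h2 hu hbinj hD (fun i => rfl) (hg.twist hbinj hD) jOk (card_EV g)
    hact (e6_rts h2 _) (VJ Ω (rk b)).subtype
    Subtype.val_injective exists_VJ VJ_smul_eq (sysOf Ω b) rfl
    (fun v => ⟨Pool.Agent.Lib.SmD.ab Ω v, Pool.Agent.Sm.L.ab_ne_top v,
      Pool.Agent.Sm.L.ab_const v, rfl⟩) (fun w hw hk => conj_dv w hw hk)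
    (card_EV g) (sysOf_ok b) hH hdg hDeg (hchi D hD) hr1 hr (le_max_right _ _) hB'

end Pool.Agent.SmJ.L
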