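import Pool.Agent.Lib.Sm.L.Markov

/-!
SMITH for Jacobians, block L: Markov's inequality with the normalisation `M ^ j` (`M = #V1`).
-/

set_option autoImplicit false

namespace Pool.Agent.SmJ

open Pool.Agent.Sm (recursion_bound)

/-- Markov's inequality against `(4 M) ^ m / M`. -/
theorem markov_boundM {D : Type} (s : Finset D) (Nz : ℕ → D → ℕ) (I : ℕ → D → ℝ) (B : ℝ)
    (X : ℝ) (M : ℕ) (hM : 1 ≤ M) (hX : (s.card : ℝ) ≤ X) (hB : 0 ≤ B) (m : ℕ) (hm : 1 ≤ m)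
    (hrec : ∀ j, 1 ≤ j → j < m → ∀ x ∈ s,
      (Nz (j + 1) x : ℝ) / (M : ℝ) ^ (j + 1) ≤ 3 * ((Nz j x : ℝ) / (M : ℝ) ^ j) + I j x)
    (hI : ∀ j, 1 ≤ j → j < m → ∑ x ∈ s, I j x ≤ X)
    (h1 : ∀ x ∈ s, (Nz 1 x : ℝ) / (M : ℝ) ^ 1 ≤ B) :
    ((s.filter fun x => ¬ M * Nz m x < (4 * M) ^ m).card : ℝ) ≤
      M * (3 / 4) ^ m * (B + 1) * X := by
  have hX0 : 0 ≤ X := le_trans (Nat.cast_nonneg _) hX
  have hM0 : (0 : ℝ) < M := by exact_mod_cast hM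
  have h := recursion_bound s (fun j x => (Nz j x : ℝ) / (M : ℝ) ^ j) I X B hX0 m hm hrec hI h1
  set c : ℝ := ((s.filter fun x => ¬ M * Nz m x < (4 * M) ^ m).card : ℝ) with hc
  have h2 : c * (4 ^ m / M) ≤ ∑ x ∈ s, (Nz m x : ℝ) / (M : ℝ) ^ m := by
    rw [hc, ← nsmul_eq_mul, ← Finset.sum_const]
    refine le_trans (Finset.sum_le_sum (g := fun x => (Nz m x : ℝ) / (M : ℝ) ^ m) ?_)
      (Finset.sum_le_sum_of_subset_of_nonneg (Finset.filter_subset _ _) fun x _ _ => by positivity)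
    intro x hx
    have h3 : (4 * M) ^ m ≤ M * Nz m x := not_lt.1 (Finset.mem_filter.1 hx).2
    have h4 : (4 * (M : ℝ)) ^ m ≤ M * Nz m x := by exact_mod_cast h3
    rw [le_div_iff₀ (by positivity), div_mul_eq_mul_div, div_le_iff₀ hM0, ← mul_pow]
    linarith
  have h3 : (3 : ℝ) ^ (m - 1) * 3 = 3 ^ m := by
    rw [← pow_succ]
    congr 1
    omega
  have h4 : (s.card : ℝ) * B + X ≤ (B + 1) * X := by nlinarith
  have h5 : c * (4 ^ m / M) ≤ 3 ^ (m - 1) * ((B + 1) * X) :=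
    le_trans h2 (le_trans h (mul_le_mul_of_nonneg_left h4 (by positivity)))
  have h6 : c * (4 ^ m) ≤ M * 3 ^ (m - 1) * ((B + 1) * X) := by
    calc c * 4 ^ m = c * (4 ^ m / M) * M := by field_simp
      _ ≤ 3 ^ (m - 1) * ((B + 1) * X) * M := mul_le_mul_of_nonneg_right h5 hM0.le
      _ = _ := by ring
  have h7 : M * (3 : ℝ) ^ (m - 1) * ((B + 1) * X) ≤ M * 3 ^ m * ((B + 1) * X) := by
    have h8 : (3 : ℝ) ^ (m - 1) ≤ 3 ^ m := pow_le_pow_right₀ (by norm_num) (by omega)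
    have h9 : 0 ≤ (B + 1) * X := by positivity
    gcongr
  have h8 : (0 : ℝ) < 4 ^ m := by positivity
  have h9 : c ≤ M * 3 ^ m * ((B + 1) * X) / 4 ^ m := by
    rw [le_div_iff₀ h8]
    exact h6.trans h7
  refine h9.trans (le_of_eq ?_)
  rw [div_pow]
  ring

end Pool.Agent.SmJ
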