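import Pool.Agent.Lib.SmJ.L.LevelSum
import Pool.Agent.Lib.SmJ.L.MarkovM
import Pool.Agent.Lib.SmJ.Main

/-!
SMITH for Jacobians, block L (general `V1`): all but `ε` of the monic squarefree polynomials prime to the bad primes have
`#V1 * #SelZ_m < (4 * #V1) ^ m`.
-/

set_option autoImplicit false

open Polynomial

namespace Pool.Agent.SmJ

open Pool.Agent.SmK (DD IsGrid Pts ev Dist)
open Pool.Agent.Sm (leg Irr PD Dir JG vecG vecG_deg_inr N0 N0_large fsum fsum_eq fsum_congr)

variable {k : Type} [Field k] {G V V1 Pl : Type} [Group G] [AddCommGroup V] [DistribMulAction G V]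
  [AddCommGroup V1] [Module (ZMod 2) V1]

/-- The number of the Selmer cocycles of level `m` of the twist by `D`. -/
noncomputable def nzD (S : Sys G V V1 Pl) (ch : k[X] → G → ZMod 2) (D : k[X]) (m : ℕ) : ℕ :=
  Nat.card {Psi : G → V // S.IsSel (ch D) m Psi}

/-- The recursion with the independent part. -/
theorem recur_indPart [Fintype V1] [Nontrivial V1] {S : Sys G V V1 Pl} {ch : k[X] → G → ZMod 2} {d : TwData k V1} {J : Type}
    [Fintype J] {p : J → k[X]} (h : LFacts S ch d p) {i : ℕ} (hi : 1 ≤ i) :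
    (nZJ S ch p (i + 1) : ℝ) / (Nat.card V1 : ℝ) ^ (i + 1) ≤
      3 * ((nZJ S ch p i : ℝ) / (Nat.card V1 : ℝ) ^ i) +
      indPart S ch d p i / (Nat.card V1 : ℝ) ^ (i + 1) := by
  classical
  have h1 := h.recur i hi
  have h2 : (nZJ S ch p (i - 1) : ℝ) *
      ∑ a : CodeJ d J, ∑ b : CodeJ d J,
        (if a ∈ Lfl (FJ S ch d p) (LamJ S ch d p) i ∧ b ∈ FJ S ch d p ∧ Indep2 d a b ∧
          Perp (LamJ S ch d p) (i - 1) b then (-1 : ℝ) ^ (FFJ S ch d p i a b).val else 0) =
      indPart S ch d p i := by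
    unfold indPart
    congr 1
    refine Finset.sum_congr rfl fun a _ => ?_
    refine Finset.sum_congr rfl fun b _ => ?_
    by_cases hc : CondW d (FJ S ch d p) (LamJ S ch d p) i a b
    · have hc' := hc
      unfold CondW at hc'
      simp only [if_pos hc', if_pos hc]
    · have hc' := hc
      unfold CondW at hc'
      simp only [if_neg hc', if_neg hc]
  have h3 : (nZJ S ch p (i + 1) : ℝ) ≤ 3 * Nat.card V1 * nZJ S ch p i + indPart S ch d p i := by
    rw [← h2]
    convert h1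
  have hM : (0 : ℝ) < Nat.card V1 := by exact_mod_cast Nat.card_pos
  have h4 : (0 : ℝ) < (Nat.card V1 : ℝ) ^ (i + 1) := by positivity
  calc (nZJ S ch p (i + 1) : ℝ) / (Nat.card V1 : ℝ) ^ (i + 1)
      ≤ (3 * Nat.card V1 * nZJ S ch p i + indPart S ch d p i) / (Nat.card V1 : ℝ) ^ (i + 1) :=
        div_le_div_of_nonneg_right h3 h4.le
    _ = _ := by
        rw [pow_succ]
        field_simp

theorem main_count [Fintype V1] [Nontrivial V1] [Finite k] (h2 : (2 : k) ≠ 0) (S : Sys G V V1 Pl) (ch : k[X] → G → ZMod 2)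
    (d : TwData k V1) (hch : ∀ (J : Type) (_ : Fintype J) (p : J → k[X]), PVec d p →
      chiJ ch p = ch (∏ j, p j))
    (hG : ∀ m, 1 ≤ m → GridThm S ch d m)
    (hL : ∀ (J : Type) (_ : Fintype J) (_ : Nonempty J) (p : J → k[X]), PVec d p →
      LFacts S ch d p) (ε : ℝ) (hε : 0 < ε) :
    ∃ m₀ : ℕ, ∀ m ≥ m₀, ∃ n₀ : ℕ, ∀ n ≥ n₀,
      (Nat.card {D : k[X] // D ∈ DD (badP d) n ∧ ¬ Nat.card V1 * nzD S ch D m < (4 * Nat.card V1) ^ m} : ℝ) ≤
        ε * (DD (badP d) n).card := by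
  classical
  have hinst : ∀ n, Fintype (Irr k n) := fun n => Fintype.ofFinite _
  obtain ⟨C0, hJK⟩ := JKG h2 d
  obtain ⟨R, hR⟩ := hJK (ε / 2) (by positivity)
  set M : ℕ := Nat.card V1 with hMdef
  have hM1 : 1 ≤ M := Nat.card_pos
  have hM0 : (0 : ℝ) < M := by exact_mod_cast hM1
  set B : ℝ := 2 ^ R / M with hB
  have hB0 : 0 ≤ B := by rw [hB]; positivity
  obtain ⟨m₁, hm₁⟩ : ∃ m₁ : ℕ, ∀ m ≥ m₁, M * (3 / 4 : ℝ) ^ m * (B + 1) ≤ ε / 2 := by
    have h1 : 0 < ε / 2 / (M * (B + 1)) := by positivity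
    obtain ⟨m₁, hm₁⟩ := exists_pow_lt_of_lt_one h1 (by norm_num : (3 / 4 : ℝ) < 1)
    refine ⟨m₁, fun m hm => ?_⟩
    have h3 : (3 / 4 : ℝ) ^ m ≤ (3 / 4) ^ m₁ :=
      pow_le_pow_of_le_one (by norm_num) (by norm_num) hm
    have h4 : (3 / 4 : ℝ) ^ m ≤ ε / 2 / (M * (B + 1)) := h3.trans hm₁.le
    rw [le_div_iff₀ (by positivity)] at h4
    linarith
  refine ⟨max m₁ 1, fun m hm => ?_⟩
  have hm1 : 1 ≤ m := le_trans (le_max_right _ _) hm
  have hmε := hm₁ m (le_trans (le_max_left _ _) hm)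
  obtain ⟨n1, hn1⟩ := hR (m + 1) 2
  have hlev : ∀ j : ℕ, ∃ n₀ : ℕ, 1 ≤ j → j < m → ∀ n ≥ n₀, ∀ g : k[X] × Finset ℕ,
      (∀ P ∈ badP d, P.natDegree < N0 n) → IsGrid (badP d) (N0 n) n g →
      ((Nat.card (PD g.1) + g.2.card : ℕ) : ℝ) ≤ 2 * Real.log n →
      |fsum (fun x : Pts k g.2 =>
          ∃ x', patG d g x' = patG d g x ∧ TypJ d (vecG g x') R (m + 1) (N0 n))
        (fun x => indPart S ch d (vecG g x) j)| ≤
          ∏ t : g.2, (Fintype.card (Irr k (t : ℕ)) : ℝ) := by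
    intro j
    by_cases hj : 1 ≤ j
    · obtain ⟨n₀, h⟩ := level_sum h2 S ch d j hj (hG j hj) hL R (max (m + 1) j)
        (le_max_right _ _) (le_trans (by omega) (le_max_left _ _))
      refine ⟨n₀, fun _ hjm => ?_⟩
      rw [max_eq_left (by omega)] at h
      exact h
    · exact ⟨0, fun h => absurd h hj⟩
  choose nlev hnlev using hlev
  obtain ⟨n2, hn2⟩ := N0_large (∑ i, (d.ell i).natDegree)
  refine ⟨max (max n1 ((Finset.range m).sup nlev)) (max n2 1), fun n hn => ?_⟩
  have hnn1 : n ≥ n1 := le_trans (le_trans (le_max_left _ _) (le_max_left _ _)) hn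
  have hnlev' : ∀ j, 1 ≤ j → j < m → n ≥ nlev j := fun j _ hj =>
    le_trans (Finset.le_sup (f := nlev) (Finset.mem_range.2 hj))
      (le_trans (le_trans (le_max_right _ _) (le_max_left _ _)) hn)
  have hnn2 : n ≥ n2 := le_trans (le_trans (le_max_left _ _) (le_max_right _ _)) hn
  have hnone : 1 ≤ n := le_trans (le_trans (le_max_right _ _) (le_max_right _ _)) hn
  have hN : ∀ P ∈ badP d, P.natDegree < N0 n := by
    intro P hP
    obtain ⟨i, rfl⟩ := mem_badP.1 hP
    exact lt_of_le_of_lt (Finset.single_le_sum (f := fun i => (d.ell i).natDegree)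
      (fun _ _ => Nat.zero_le _) (Finset.mem_univ i)) (hn2 n hnn2)
  set X : ℝ := ((DD (badP d) n).card : ℝ) with hX
  -- the points of all grids
  let Gr : Type := {g : k[X] × Finset ℕ // g ∈ SmK.Grid (badP d) (N0 n) n}
  let Dty : Type := Σ g : Gr, Pts k g.1.2
  have hgr : ∀ g : Gr, IsGrid (badP d) (N0 n) n g.1 := fun g => SmK.mem_Grid.1 g.2
  let few : Gr → Prop := fun g => ((Nat.card (PD g.1.1) + g.1.2.card : ℕ) : ℝ) ≤ 2 * Real.log n
  let ty : Dty → Prop := fun q => ∃ x', patG d q.1.1 x' = patG d q.1.1 q.2 ∧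
    TypJ d (vecG q.1.1 x') R (m + 1) (N0 n)
  let s : Finset Dty := Finset.univ.filter fun q => few q.1 ∧ ty q
  let e : Dty ≃ {D : k[X] // D ∈ DD (badP d) n ∧ Dist (N0 n) D} :=
    SmK.gridEquiv (badP d) (badP_irr d) (N0 n) n hN
  have he : ∀ q : Dty, (e q).1 = ev q.1.1 q.2 := fun q =>
    SmK.gridEquiv_apply (badP d) (badP_irr d) (N0 n) n hN q
  have hpv : ∀ q : Dty, PVec d (vecG q.1.1 q.2) := fun q => pvec_vecG hN (hgr q.1) q.2
  have hLq : ∀ q : Dty, LFacts S ch d (vecG q.1.1 q.2) := by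
    intro q
    refine hL _ _ ?_ _ (hpv q)
    by_contra hne
    rw [not_nonempty_iff] at hne
    have h3 := prod_vecG (hgr q.1) q.2
    rw [Finset.prod_of_isEmpty] at h3
    have h4 := (SmK.mem_DD.1 (SmK.ev_mem (badP_irr d) hN (hgr q.1) q.2).1).2.1
    rw [← h3, natDegree_one] at h4
    omega
  have hcardD : (Fintype.card Dty : ℝ) ≤ X := by
    rw [hX, ← Nat.card_eq_fintype_card, Nat.card_congr e]
    have h3 : (Nat.card {D : k[X] // D ∈ DD (badP d) n ∧ Dist (N0 n) D}) ≤
        Nat.card {D : k[X] // D ∈ DD (badP d) n} :=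
      Nat.card_le_card_of_injective (fun D => ⟨D.1, D.2.1⟩) fun D D' h =>
        Subtype.ext (congrArg (fun z : {D : k[X] // D ∈ DD (badP d) n} => z.1) h)
    have h4 : Nat.card {D : k[X] // D ∈ DD (badP d) n} = (DD (badP d) n).card := by
      rw [Nat.card_eq_fintype_card, Fintype.card_coe]
    rw [h4] at h3
    exact_mod_cast h3
  have hscard : (s.card : ℝ) ≤ X := by
    refine le_trans ?_ hcardD
    exact_mod_cast Finset.card_le_univ s
  -- typical points
  have htyq : ∀ q : Dty, ty q → TypJ d (vecG q.1.1 q.2) R (m + 1) (N0 n) := by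
    rintro q ⟨x', h3, h4⟩
    exact h4.of_symEq h2 (pvec_vecG hN (hgr q.1) x') (hpv q)
      ((symEq_iff h2 hN (hgr q.1) _ _).2 h3)
  have hmk := markov_boundM s (fun j q => nZJ S ch (vecG q.1.1 q.2) j)
    (fun j q => indPart S ch d (vecG q.1.1 q.2) j / (M : ℝ) ^ (j + 1)) B X M hM1 hscard hB0 m hm1
    (fun j hj _ q _ => recur_indPart (hLq q) hj) ?_ ?_
  · -- conclusion
    have h5 : (Nat.card {D : k[X] // D ∈ DD (badP d) n ∧ ¬ M * nzD S ch D m < (4 * M) ^ m} : ℝ) ≤
        (Nat.card {D : k[X] // D ∈ DD (badP d) n ∧ ¬ Typ d D R (m + 1) 2 (N0 n)} : ℝ) +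
        ((s.filter fun q => ¬ M * nZJ S ch (vecG q.1.1 q.2) m < (4 * M) ^ m).card : ℝ) := by
      have hfin1 : Finite {D : k[X] // D ∈ DD (badP d) n ∧ ¬ Typ d D R (m + 1) 2 (N0 n)} :=
        Finite.of_injective (β := {D : k[X] // D ∈ DD (badP d) n}) (fun D => ⟨D.1, D.2.1⟩)
          fun D D' h => Subtype.ext
            (congrArg (fun z : {D : k[X] // D ∈ DD (badP d) n} => z.1) h)
      have h6 : (s.filter fun q => ¬ M * nZJ S ch (vecG q.1.1 q.2) m < (4 * M) ^ m).card =
          Nat.card {q : Dty // q ∈ s.filter fun q =>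
            ¬ M * nZJ S ch (vecG q.1.1 q.2) m < (4 * M) ^ m} := by
        rw [Nat.card_eq_fintype_card, Fintype.card_coe]
      rw [h6, ← Nat.cast_add, ← Nat.card_sum]
      norm_cast
      have hmap : ∀ D : {D : k[X] // D ∈ DD (badP d) n ∧ ¬ M * nzD S ch D m < (4 * M) ^ m},
          ∃ y : {D : k[X] // D ∈ DD (badP d) n ∧ ¬ Typ d D R (m + 1) 2 (N0 n)} ⊕
            {q : Dty // q ∈ s.filter fun q => ¬ M * nZJ S ch (vecG q.1.1 q.2) m < (4 * M) ^ m},
          D.1 = Sum.elim (fun z => z.1) (fun q => ev q.1.1.1 q.1.2) y := by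
        rintro ⟨D, hD, hbad⟩
        by_cases hT : Typ d D R (m + 1) 2 (N0 n)
        · have hdist : Dist (N0 n) D := by
            intro P hP Q hQ hPN hPQ
            exact congrArg Subtype.val (hT.distinct ⟨P, hP⟩ ⟨Q, hQ⟩ hPN hPQ)
          obtain ⟨q, hq⟩ := e.surjective ⟨D, hD, hdist⟩
          have hqD : ev q.1.1 q.2 = D := by rw [← he q, hq]
          have hprod : ∏ j, vecG q.1.1 q.2 j = D := by rw [prod_vecG (hgr q.1), hqD]
          have hTJ : TypJ d (vecG q.1.1 q.2) R (m + 1) (N0 n) :=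
            typJ_of_typ (hpv q) (by rw [hprod]; exact hT)
          have hfew : few q.1 := by
            have h7 : Nat.card (PD D) = Nat.card (PD q.1.1.1) + q.1.1.2.card := by
              have h8 := Nat.card_congr (eqJ (hpv q))
              rw [hprod] at h8
              rw [h8, Nat.card_sum, Nat.card_eq_fintype_card (α := q.1.1.2), Fintype.card_coe]
            have h9 := hT.few
            rw [h7, (SmK.mem_DD.1 hD).2.1] at h9
            exact h9
          refine ⟨Sum.inr ⟨q, ?_⟩, hqD.symm⟩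
          simp only [s, Finset.mem_filter, Finset.mem_univ, true_and]
          refine ⟨⟨hfew, q.2, rfl, hTJ⟩, ?_⟩
          have h10 : nZJ S ch (vecG q.1.1 q.2) m = nzD S ch D m := by
            unfold nZJ nzD
            rw [hch _ _ _ (hpv q), hprod]
          rw [h10]
          exact hbad
        · exact ⟨Sum.inl ⟨D, hD, hT⟩, rfl⟩
      choose f hf using hmap
      refine Nat.card_le_card_of_injective f fun D D' h => Subtype.ext ?_
      rw [hf D, hf D', h]
    have h6 : (Nat.card {D : k[X] // D ∈ DD (badP d) n ∧ ¬ Typ d D R (m + 1) 2 (N0 n)} : ℝ) ≤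
        ε / 2 * X := (hn1 n hnn1).1
    have h7 : M * (3 / 4 : ℝ) ^ m * (B + 1) * X ≤ ε / 2 * X :=
      mul_le_mul_of_nonneg_right hmε (by rw [hX]; exact Nat.cast_nonneg _)
    linarith
  · -- the independent parts
    intro j hj hjm
    have h4 : (1 : ℝ) ≤ (M : ℝ) ^ (j + 1) := one_le_pow₀ (by exact_mod_cast hM1)
    have h4' : (0 : ℝ) < (M : ℝ) ^ (j + 1) := by positivity
    rw [← Finset.sum_div, div_le_iff₀ h4']
    have h5 : ∑ q ∈ s, indPart S ch d (vecG q.1.1 q.2) j =
        ∑ g : Gr, if few g then fsum (fun x : Pts k g.1.2 =>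
          ∃ x', patG d g.1 x' = patG d g.1 x ∧ TypJ d (vecG g.1 x') R (m + 1) (N0 n))
          (fun x => indPart S ch d (vecG g.1 x) j) else 0 := by
      rw [Finset.sum_filter, Fintype.sum_sigma]
      refine Finset.sum_congr rfl fun g _ => ?_
      by_cases hf : few g
      · rw [if_pos hf]
        unfold fsum
        refine Finset.sum_congr rfl fun x _ => ?_
        by_cases hx : ty ⟨g, x⟩
        · rw [if_pos ⟨hf, hx⟩, if_pos hx]
        · rw [if_neg fun h => hx h.2, if_neg hx]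
      · rw [if_neg hf]
        exact Finset.sum_eq_zero fun x _ => if_neg fun h => hf h.1
    rw [h5]
    have h6 : (∑ g : Gr, if few g then fsum (fun x : Pts k g.1.2 =>
          ∃ x', patG d g.1 x' = patG d g.1 x ∧ TypJ d (vecG g.1 x') R (m + 1) (N0 n))
          (fun x => indPart S ch d (vecG g.1 x) j) else 0) ≤
        ∑ g : Gr, (Fintype.card (Pts k g.1.2) : ℝ) := by
      refine Finset.sum_le_sum fun g _ => ?_
      have h7 : (Fintype.card (Pts k g.1.2) : ℝ) =
          ∏ t : g.1.2, (Fintype.card (Irr k (t : ℕ)) : ℝ) := by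
        rw [Fintype.card_pi]
        push_cast
        rfl
      rw [h7]
      split_ifs with hf
      · exact le_trans (le_abs_self _)
          (hnlev j hj hjm n (hnlev' j hj hjm) g.1 hN (hgr g) hf)
      · exact Finset.prod_nonneg fun _ _ => Nat.cast_nonneg _
    have h7 : ∑ g : Gr, (Fintype.card (Pts k g.1.2) : ℝ) = (Fintype.card Dty : ℝ) := by
      rw [Fintype.card_sigma]
      push_cast
      rfl
    have hX0 : 0 ≤ X := by rw [hX]; exact Nat.cast_nonneg _
    calc _ ≤ (Fintype.card Dty : ℝ) := by rw [← h7]; exact h6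
      _ ≤ X := hcardD
      _ ≤ X * (M : ℝ) ^ (j + 1) := by nlinarith
  · -- level one
    intro q hq
    have hq' : few q.1 ∧ ty q := by simpa [s] using hq
    have h3 : nZJ S ch (vecG q.1.1 q.2) 1 = Nat.card (FJ S ch d (vecG q.1.1 q.2)) := by
      have h4 := (hLq q).card_succ 0
      rw [(hLq q).card_zero, one_mul] at h4
      exact h4
    have h4 : Nat.card (FJ S ch d (vecG q.1.1 q.2)) ≤ 2 ^ R :=
      le_trans (Nat.card_mono (Set.toFinite _) (hLq q).sub) (htyq q hq'.2).small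
    rw [hB, pow_one]
    refine div_le_div_of_nonneg_right ?_ hM0.le
    rw [h3]
    exact_mod_cast h4

end Pool.Agent.SmJ
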