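import Pool.Agent.Lib.SmJ.L.CountW
import Pool.Agent.Lib.SmJ.L.BridgeW
import Pool.Agent.Lib.SmJ.L.CorTw
import Pool.Agent.Lib.SmH.Link.Main
import Pool.Agent.Lib.SmH.L.StmtI

/-!
SMITH for Jacobians, heights: the order of vanishing for the Jacobian of the quadratic twist, from
the heights of one level.
-/

set_option autoImplicit false

open Polynomial Pool.Agent.BSDFF Pool.Agent.BSDFF.MW
open Pool.Agent.SmithE (rf)
open Pool.Agent.Lib.SmD (chi)
open Pool.Agent.Sm.L (IsDeg)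

namespace Pool.Agent.SmJ.L

section gen

variable {k K Ω : Type} [Field k] [Field K] [Field Ω] [Algebra k K] [Algebra K Ω]
variable {M : Type} [AddCommGroup M] {ρ : (Ω ≃ₐ[K] Ω) → M →+ M}

/-- The number of Selmer cocycles in terms of the corank. -/
theorem zsel_of_hasCorank (hG : GMod ρ) {c : ℕ} (hc : 0 < c)
    (hV : ∀ i, Nat.card (Gn M (2 ^ i)) = c ^ i) {r : ℕ} (hr : HasCorank k ρ r) :
    (∀ i, Finite (ZSel k ρ (2 ^ i))) ∧
    ∃ C : ℕ, ∀ i, Nat.card (ZSel k ρ (2 ^ i)) ≤ C * (2 ^ r * c) ^ i := by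
  obtain ⟨B, hB⟩ := hr
  have key : ∀ i, Nat.card (BSel ρ (2 ^ i)) ≠ 0 ∧ Nat.card (BSel ρ (2 ^ i)) ≤ c ^ i := by
    intro i
    have e2 := card_bsel (ρ := ρ) (2 ^ i)
    rw [hV] at e2
    have h0 : 0 < c ^ i := by positivity
    constructor
    · intro h
      rw [h, mul_zero] at e2
      omega
    · have hF : 0 < Nat.card (Gn (Rat ρ) (2 ^ i)) := by
        rcases Nat.eq_zero_or_pos (Nat.card (Gn (Rat ρ) (2 ^ i))) with h | h
        · rw [h, zero_mul] at e2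
          omega
        · exact h
      rw [e2]
      exact Nat.le_mul_of_pos_left _ hF
  refine ⟨fun i => ?_, B, fun i => ?_⟩
  · apply Nat.finite_of_card_ne_zero
    rw [card_zsel hG]
    refine mul_ne_zero (fun h => ?_) (key i).1
    have h3 := (hB i).2
    rw [h, mul_zero] at h3
    exact absurd h3 (not_le.mpr (by positivity))
  · rw [card_zsel hG]
    calc _ ≤ (B * 2 ^ (r * i)) * c ^ i := Nat.mul_le_mul (hB i).1 (key i).2
      _ = _ := by rw [mul_pow, ← pow_mul]; ring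

end gen

section twist

variable {k : Type} [Field k] [Finite k] {Ω : Type} [Field Ω] [Algebra (RatFunc k) Ω]
  [IsSepClosure (RatFunc k) Ω] {g : ℕ}

/-- The order of vanishing for the Jacobian of the quadratic twist. -/
theorem ordOn_twistJ (h2 : (2 : k) ≠ 0) {u : k} (hu : ¬ IsSquare u)
    {a b : Fin (2 * g + 1) → k[X]} (ha : Function.Injective a) {D : k[X]} (hD : D ≠ 0)
    (hb : ∀ i, b i = D * a i) (hg : Gen b) {iota : EV g →+ Jac Ω (rk b)}
    (hJ : JOk (rk b) iota) (hcard : Nat.card (EV g) = 4 ^ g)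
    (hact : ∀ c : Fin (2 * g + 1) → RatFunc k, Function.Injective c →
      ∀ (_ : HypA (rts Ω c)) (s : Ω ≃ₐ[RatFunc k] Ω) (Q : Jac Ω c),
        gal Ω c s Q = act s.toRingEquiv (map_rts Ω c s) Q)
    (hE6 : E6Prop k (gal Ω (rk b)))
    {V V1 Pl M : Type} [AddCommGroup V] [DistribMulAction (Ω ≃ₐ[RatFunc k] Ω) V]
    [AddCommGroup V1] [Module (ZMod 2) V1] [AddCommGroup M]
    [DistribMulAction (Ω ≃ₐ[RatFunc k] Ω) M]
    (inc : V →+ Jac Ω (rk a)) (hinc : Function.Injective inc)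
    (hinc' : ∀ Q : Jac Ω (rk a), (∃ i : ℕ, (2 : ℕ) ^ i • Q = 0) → ∃ x, inc x = Q)
    (heq : ∀ (s : Ω ≃ₐ[RatFunc k] Ω) (x : V), inc (s • x) = gal Ω (rk a) s (inc x))
    (S : Sys (Ω ≃ₐ[RatFunc k] Ω) V V1 Pl) (hNN : S.NN = SmD.NN (RatFunc k) Ω)
    (hDv : ∀ v : Pl, ∃ w : ValuationSubring Ω, w ≠ ⊤ ∧
      (∀ c : k, algebraMap (RatFunc k) Ω (algebraMap k (RatFunc k) c) ∈ w) ∧
      S.D v = w.decompositionSubgroup (RatFunc k))
    (hDw : ∀ w : ValuationSubring Ω, w ≠ ⊤ →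
      (∀ c : k, algebraMap (RatFunc k) Ω (algebraMap k (RatFunc k) c) ∈ w) →
      ∃ (v : Pl) (σ : Ω ≃ₐ[RatFunc k] Ω),
        ∀ s ∈ w.decompositionSubgroup (RatFunc k), σ * s * σ⁻¹ ∈ S.D v)
    (hV1 : Nat.card V1 = 4 ^ g) (hOk : S.Ok) {H : SmH.HData V M Pl} (hH : SmH.HOk S H)
    {dg : ℕ → (Ω ≃ₐ[RatFunc k] Ω) → ℕ} (hdg : ∀ m s, IsDeg k Ω m s (dg m s))
    (hDeg : SmH.DegOk S H dg) (hchi : S.HomG (chi (RatFunc k) (rf D)))
    {r : ℕ} (hr1 : r ≤ 1) (hr : HasCorank k (gal Ω (rk b)) r) {s : ℕ} (hs : 1 ≤ s)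
    (hq : ¬ ∃ y, SmH.IsZ S H (chi (RatFunc k) (rf D)) s y) :
    OrdOn k (gal Ω (rk b)) := by
  have hsc : IsSepClosed Ω := IsSepClosure.sep_closed (RatFunc k)
  have hgal : IsGalois (RatFunc k) Ω := inferInstance
  have h2K : (2 : RatFunc k) ≠ 0 := by
    intro h
    apply h2
    apply (algebraMap k (RatFunc k)).injective
    rw [map_ofNat, h, map_zero]
  have hD0 : rf D ≠ 0 := fun h =>
    hD (IsFractionRing.injective k[X] (RatFunc k) (h.trans (map_zero _).symm))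
  have hbi : Function.Injective b := by
    intro i j hij
    rw [hb, hb] at hij
    exact ha (mul_left_cancel₀ hD hij)
  obtain ⟨φ, hφ⟩ := exists_twist (Ω := Ω) h2K (rk_inj ha) hD0 (b := rk b) (fun i => by
    change algebraMap k[X] (RatFunc k) (b i) = _
    rw [hb, map_mul]) hact
  have hV : ∀ i, Nat.card (Gn (Jac Ω (rk b)) (2 ^ i)) = (4 ^ g) ^ i := fun i => by
    rw [hJ.tors, pow_mul]
  obtain ⟨hZf, C, hC⟩ := zsel_of_hasCorank hJ.gmod (by positivity) hV hr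
  have hfin : ∀ i, Finite {x // S.IsSel (chi (RatFunc k) (rf D)) i x} := by
    intro i
    obtain ⟨e⟩ := zsel_equiv (k := k) hJ.gmod φ (chi (RatFunc k) (rf D)) hφ inc hinc hinc' heq
      hJ.fin S hNN hDv hDw hE6 i
    have := hZf i
    exact Finite.of_equiv _ e
  have hcard' : ∀ i, Nat.card {x // S.IsSel (chi (RatFunc k) (rf D)) i x} ≤
      C * (2 ^ r * 4 ^ g) ^ i := by
    intro i
    rw [← card_zsel_eq (k := k) hJ.gmod φ (chi (RatFunc k) (rf D)) hφ inc hinc hinc' heq hJ.fin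
      S hNN hDv hDw hE6 i]
    exact hC i
  have l0 := SmH.link_card0 hOk hDeg.deg hDeg.unr hchi hfin
  have l1 := SmH.link_card hOk hH hDeg hchi hfin s hs
    (fun y hy hz hq0 => hq ⟨y, hy, hz, hq0⟩)
  rw [hV1] at l0 l1
  obtain ⟨C', hC', hfin'⟩ : ∃ C' : ℕ, (∀ i, Nat.card {p : ((Ω ≃ₐ[RatFunc k] Ω) → V) ×
      ((Ω ≃ₐ[RatFunc k] Ω) → V) // SmH.IsWSel S dg (chi (RatFunc k) (rf D)) i p.1 p.2} ≤
        C' * (2 ^ r * (4 ^ g) ^ 2) ^ i) ∧
      ∀ i, Finite {p : ((Ω ≃ₐ[RatFunc k] Ω) → V) × ((Ω ≃ₐ[RatFunc k] Ω) → V) //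
        SmH.IsWSel S dg (chi (RatFunc k) (rf D)) i p.1 p.2} := by
    interval_cases r
    · obtain ⟨C', hC'⟩ := l0 ⟨C, fun i => by simpa using hcard' i⟩
      refine ⟨C', fun i => (hC' i).2.trans (le_of_eq ?_), fun i => (hC' i).1⟩
      rw [pow_zero, one_mul]
    · obtain ⟨C', hC'⟩ := l1 ⟨C, fun i => by simpa using hcard' i⟩
      refine ⟨C', fun i => (hC' i).2.trans (le_of_eq ?_), fun i => (hC' i).1⟩
      rw [pow_one]
  have hb1 := fun i => bridgeW (k := k) h2 hJ.gmod φ (chi (RatFunc k) (rf D)) hφ inc hinc hinc'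
    heq hJ.fin S hNN hDv hdg i
  have hK := card_rat_jac h2 hu hbi hg hJ hcard
  refine ⟨r, hr1, hr, hasCorankW_of hJ.gmod h2 hE6 (c := 4 ^ g) (by positivity) hV (F := 4 ^ g)
    (fun i => ?_) hr (fun i => ?_) (C := C') fun i => ?_⟩
  · rcases Nat.eq_zero_or_pos i with rfl | hi
    · have : Subsingleton (Gn (Rat (gal Ω (rk b))) (2 ^ 0)) := by
        refine ⟨?_⟩
        rintro ⟨x, hx⟩ ⟨y, hy⟩
        rw [mem_Gn, pow_zero, one_smul] at hx hy
        exact Subtype.ext (hx.trans hy.symm)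
      exact (Finite.card_le_one_iff_subsingleton.mpr this).trans (Nat.one_le_pow _ _ (by norm_num))
    · exact (hK i hi).le
  · obtain ⟨f, hf⟩ := hb1 i
    have := hfin' i
    exact Finite.of_injective f hf
  · obtain ⟨f, hf⟩ := hb1 i
    have := hfin' i
    exact (Nat.card_le_card_of_injective f hf).trans (hC' i)

end twist

end Pool.Agent.SmJ.L
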