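import Pool.Agent.Lib.SmJ.L.ResJ
import Pool.Agent.Lib.SmJ.L.GenR
import Pool.Agent.Lib.SmJ.L.JacP

/-!
SMITH for Jacobians: the final statement in terms of the elementary definitions of `GenR.lean` and
`JacP.lean`.
-/

set_option autoImplicit false

open Polynomial

namespace Pool.Agent.SmJ.R

open Pool.Agent.SmJ.L (brGraph EdgeAt MultJ dpr HasCorank)

variable {k : Type} [Field k] {g : ℕ}

/-- A connected graph with at least two vertices has an edge. -/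
theorem edge_of_connected (hg : 1 ≤ g) {a : Fin (2 * g + 1) → k[X]}
    (h : (brGraph a).Connected) : ∃ P, EdgeAt a P := by
  have h0 : (⟨0, by omega⟩ : Fin (2 * g + 1)) ≠ ⟨1, by omega⟩ := fun h => by
    have := congrArg Fin.val h
    simp at this
  obtain ⟨w⟩ := h.preconnected (⟨0, by omega⟩ : Fin (2 * g + 1)) ⟨1, by omega⟩
  cases w with
  | cons hadj _ =>
    obtain ⟨hne, P, hP, hodd, hall⟩ := hadj
    exact ⟨P, hP, _, _, hne, hodd, hall⟩

/-- The final statement. -/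
theorem final_ofJ [Finite k] (h2 : (2 : k) ≠ 0)
    (hhalf : ∀ r : ℕ, r ≤ 1 → ∀ b : Fin (2 * g + 1) → k[X], Function.Injective b → L.Gen b →
      (∃ P, EdgeAt b P) → ∀ ε : ℝ, 0 < ε → ∃ j₀ : ℕ, ∀ j ≥ j₀, ∃ n₀ : ℕ, ∀ n ≥ n₀,
      |(Nat.card {D : k[X] // D.Monic ∧ Squarefree D ∧ IsCoprime D (dpr b) ∧
        D.natDegree = n ∧ HasCorank k (L.gal (SeparableClosure (RatFunc k)) fun i =>
          algebraMap k[X] (RatFunc k) (D * b i)) r} : ℝ) -
        (Nat.card {D : k[X] // D.Monic ∧ Squarefree D ∧ IsCoprime D (dpr b) ∧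
        D.natDegree = n} : ℝ) / 2| ≤ ε * (Nat.card k : ℝ) ^ n)
    (hg : 1 ≤ g) (a : Fin (2 * g + 1) → k[X]) (ha : Function.Injective a) :
    ((brGraph a).Connected → Gen a ∧ ∃ P, EdgeAt a P) ∧
    (Gen a → ∃ δ : ℝ, 0 < δ ∧ ∀ ε : ℝ, 0 < ε → ∃ j n₀ : ℕ, ∀ n ≥ n₀,
      (Nat.card {D : k[X] // Squarefree D ∧ D.natDegree = n ∧ ¬ Good a j D} : ℝ) ≤
        ε * (Nat.card {D : k[X] // Squarefree D ∧ D.natDegree = n} : ℝ) ∧
      ((∃ P, EdgeAt a P) →
      δ * (Nat.card {D : k[X] // Squarefree D ∧ D.natDegree = n} : ℝ) ≤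
        (Nat.card {D : k[X] // Squarefree D ∧ D.natDegree = n ∧ MultJ a D} : ℝ) ∧
      |(Nat.card {D : k[X] // (Squarefree D ∧ D.natDegree = n ∧ MultJ a D) ∧
          Corank0 a D} : ℝ) -
        (Nat.card {D : k[X] // Squarefree D ∧ D.natDegree = n ∧ MultJ a D} : ℝ) / 2| ≤
        ε * (Nat.card {D : k[X] // Squarefree D ∧ D.natDegree = n ∧ MultJ a D} : ℝ) ∧
      |(Nat.card {D : k[X] // (Squarefree D ∧ D.natDegree = n ∧ MultJ a D) ∧
          Corank1 a D} : ℝ) -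
        (Nat.card {D : k[X] // Squarefree D ∧ D.natDegree = n ∧ MultJ a D} : ℝ) / 2| ≤
        ε * (Nat.card {D : k[X] // Squarefree D ∧ D.natDegree = n ∧ MultJ a D} : ℝ))) := by
  refine ⟨fun h => ⟨gen_of a (L.gen_of_connected h), edge_of_connected hg h⟩, fun hG => ?_⟩
  have hG' := gen_to a hG
  have k1 : ∀ j D, Good a j D = L.Good a j D := fun j D => propext (good_iff a j D)
  have k2 : ∀ D, Corank0 a D = L.Corank0 a D := fun D => propext (corank0_iff a D)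
  have k3 : ∀ D, Corank1 a D = L.Corank1 a D := fun D => propext (corank1_iff a D)
  simp only [k1, k2, k3]
  by_cases hE : ∃ P, EdgeAt a P
  · obtain ⟨δ, hδ, h⟩ := L.parity_ofJ h2 hhalf a ha hG' hE
    refine ⟨δ, hδ, fun ε hε => ?_⟩
    obtain ⟨j, n₀, h⟩ := h ε hε
    exact ⟨j, n₀, fun n hn => ⟨(h n hn).1, fun _ => (h n hn).2⟩⟩
  · refine ⟨1, one_pos, fun ε hε => ?_⟩
    obtain ⟨j, n₀, h⟩ := L.all_twists h2 a ha hG' ε hε
    exact ⟨j, n₀, fun n hn => ⟨h n hn, fun h' => absurd h' hE⟩⟩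

end Pool.Agent.SmJ.R
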