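import Pool.Agent.Lib.SmJ.L.ResR
import Pool.Agent.Lib.SmJ.L.DoneH

/-!
SMITH for Jacobians, heights: the final statement in terms of the elementary definitions of
`GenR.lean` and `JacP.lean`.
-/

set_option autoImplicit false

open Polynomial

namespace Pool.Agent.SmJ.R

open Pool.Agent.SmJ.L (brGraph EdgeAt MultJ dpr HasCorank OrdOn)

section curve

variable (k : Type) {K : Type} [Field k] [Field K] [Algebra k K] (f : K[X]) [OddDeg f]

/-- The Selmer groups of `V = J[2 ^ ∞]` and of `W = V ⊗ Z[ε] / ε ^ 2`, `J` the Jacobian of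
`y ^ 2 = f(x)`, have the same corank `r ≤ 1`. -/
def OrdP : Prop := OrdOn k (galP (SeparableClosure K) f)

end curve

variable {k : Type} [Field k] {g : ℕ}

/-- The same for the Jacobian of the quadratic twist `y ^ 2 = ∏ (x - D a i)` by `D`. -/
def Ord (a : Fin (2 * g + 1) → k[X]) (D : k[X]) : Prop := OrdP k (fT a D)

theorem ord_iff (a : Fin (2 * g + 1) → k[X]) (D : k[X]) : Ord a D ↔ L.Ord a D := by
  refine trans_split (Ω := SeparableClosure (RatFunc k)) (fun _ _ ρ => OrdOn k ρ) (fT a D) _ ?_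
  unfold fT ff
  rw [Polynomial.map_prod]
  refine Finset.prod_congr rfl fun i _ => ?_
  rw [Polynomial.map_sub, map_X, map_C]

private lemma resW_or [Finite k] {n : ℕ} {F A B : k[X] → Prop}
    (hF : ∀ D, F D → D.natDegree = n) :
    (Nat.card {D : k[X] // F D ∧ ¬ (A D ∧ B D)} : ℝ) ≤
      (Nat.card {D : k[X] // F D ∧ ¬ A D} : ℝ) + (Nat.card {D : k[X] // F D ∧ ¬ B D} : ℝ) := by
  classical
  have hfin : ∀ P : k[X] → Prop, Finite {D : k[X] // F D ∧ P D} := by
    intro P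
    have h : {D : k[X] | D.natDegree ≤ n} ⊆ (degreeLT k (n + 1) : Set k[X]) := by
      intro D hD
      rw [SetLike.mem_coe, mem_degreeLT]
      exact lt_of_le_of_lt degree_le_natDegree (by exact_mod_cast Nat.lt_succ_of_le hD)
    have h1 : {D : k[X] | D.natDegree ≤ n}.Finite := by
      refine Set.Finite.subset ?_ h
      have : Finite (degreeLT k (n + 1)) :=
        Finite.of_equiv _ (degreeLTEquiv k (n + 1)).toEquiv.symm
      exact Set.toFinite _
    have h2 := h1.to_subtype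
    exact Finite.of_injective (β := {D : k[X] | D.natDegree ≤ n})
      (fun D => ⟨D.1, (hF _ D.2.1).le⟩)
      fun D D' h => Subtype.ext (congrArg (fun z : {D : k[X] | D.natDegree ≤ n} => z.1) h)
  have f2 := hfin fun D => ¬ A D
  have f3 := hfin fun D => ¬ B D
  have h3 : Nat.card {D : k[X] // F D ∧ ¬ (A D ∧ B D)} ≤
      Nat.card ({D : k[X] // F D ∧ ¬ A D} ⊕ {D : k[X] // F D ∧ ¬ B D}) := by
    refine Nat.card_le_card_of_injective (fun D => if h : ¬ A D.1 then
      Sum.inl ⟨D.1, D.2.1, h⟩ else Sum.inr ⟨D.1, D.2.1, fun hB => D.2.2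
        ⟨not_not.mp h, hB⟩⟩) ?_
    intro D D' h
    by_cases h4 : ¬ A D.1 <;> by_cases h5 : ¬ A D'.1
    · simp only [h4, h5, not_false_eq_true, dif_pos, Sum.inl.injEq, Subtype.mk.injEq] at h
      exact Subtype.ext h
    · simp only [h4, h5, not_false_eq_true, dif_pos, dif_neg, reduceCtorEq] at h
    · simp only [h4, h5, not_false_eq_true, dif_pos, dif_neg, reduceCtorEq] at h
    · simp only [h4, h5, dif_neg, not_false_eq_true, Sum.inr.injEq, Subtype.mk.injEq] at h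
      exact Subtype.ext h
  rw [Nat.card_sum] at h3
  exact_mod_cast h3

/-- The final statement with the order of vanishing. -/
theorem final_ofJH [Finite k] (h2 : (2 : k) ≠ 0)
    (hhalf : ∀ r : ℕ, r ≤ 1 → ∀ b : Fin (2 * g + 1) → k[X], Function.Injective b → L.Gen b →
      (∃ P, EdgeAt b P) → ∀ ε : ℝ, 0 < ε → ∃ j₀ : ℕ, ∀ j ≥ j₀, ∃ n₀ : ℕ, ∀ n ≥ n₀,
      |(Nat.card {D : k[X] // D.Monic ∧ Squarefree D ∧ IsCoprime D (dpr b) ∧
        D.natDegree = n ∧ HasCorank k (L.gal (SeparableClosure (RatFunc k)) fun i =>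
          algebraMap k[X] (RatFunc k) (D * b i)) r} : ℝ) -
        (Nat.card {D : k[X] // D.Monic ∧ Squarefree D ∧ IsCoprime D (dpr b) ∧
        D.natDegree = n} : ℝ) / 2| ≤ ε * (Nat.card k : ℝ) ^ n)
    (hg : 1 ≤ g) (a : Fin (2 * g + 1) → k[X]) (ha : Function.Injective a) :
    ((brGraph a).Connected → Gen a ∧ ∃ P, EdgeAt a P) ∧
    (Gen a → ∃ δ : ℝ, 0 < δ ∧ ∀ ε : ℝ, 0 < ε → ∃ j n₀ : ℕ, ∀ n ≥ n₀,
      (Nat.card {D : k[X] // (Squarefree D ∧ D.natDegree = n) ∧
        ¬ (Good a j D ∧ Ord a D)} : ℝ) ≤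
        ε * (Nat.card {D : k[X] // Squarefree D ∧ D.natDegree = n} : ℝ) ∧
      ((∃ P, EdgeAt a P) →
      δ * (Nat.card {D : k[X] // Squarefree D ∧ D.natDegree = n} : ℝ) ≤
        (Nat.card {D : k[X] // Squarefree D ∧ D.natDegree = n ∧ MultJ a D} : ℝ) ∧
      |(Nat.card {D : k[X] // (Squarefree D ∧ D.natDegree = n ∧ MultJ a D) ∧
          Corank0 a D} : ℝ) -
        (Nat.card {D : k[X] // Squarefree D ∧ D.natDegree = n ∧ MultJ a D} : ℝ) / 2| ≤
        ε * (Nat.card {D : k[X] // Squarefree D ∧ D.natDegree = n ∧ MultJ a D} : ℝ) ∧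
      |(Nat.card {D : k[X] // (Squarefree D ∧ D.natDegree = n ∧ MultJ a D) ∧
          Corank1 a D} : ℝ) -
        (Nat.card {D : k[X] // Squarefree D ∧ D.natDegree = n ∧ MultJ a D} : ℝ) / 2| ≤
        ε * (Nat.card {D : k[X] // Squarefree D ∧ D.natDegree = n ∧ MultJ a D} : ℝ))) := by
  obtain ⟨h1, h3⟩ := final_ofJ h2 hhalf hg a ha
  refine ⟨h1, fun hG => ?_⟩
  obtain ⟨δ, hδ, h4⟩ := h3 hG
  have hG' := gen_to a hG
  have k1 : ∀ D, L.Ord a D = Ord a D := fun D => propext (ord_iff a D).symm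
  have hord := L.heights_doneJ h2 hg a ha hG'
  simp only [k1] at hord
  refine ⟨δ, hδ, fun ε hε => ?_⟩
  obtain ⟨j, n₀, hn⟩ := h4 (ε / 2) (by positivity)
  obtain ⟨n₁, hn₁⟩ := hord (ε / 2) (by positivity)
  refine ⟨j, max n₀ n₁, fun n hnn => ?_⟩
  obtain ⟨m1, m2⟩ := hn n ((le_max_left _ _).trans hnn)
  have m5 := hn₁ n ((le_max_right _ _).trans hnn)
  have hF : (0 : ℝ) ≤ (Nat.card {D : k[X] // Squarefree D ∧ D.natDegree = n ∧ MultJ a D} : ℝ) :=
    Nat.cast_nonneg _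
  have hε2 : ε / 2 ≤ ε := by linarith
  refine ⟨?_, fun hE => ⟨(m2 hE).1, (m2 hE).2.1.trans (mul_le_mul_of_nonneg_right hε2 hF),
    (m2 hE).2.2.trans (mul_le_mul_of_nonneg_right hε2 hF)⟩⟩
  have h5 := resW_or (n := n) (F := fun D : k[X] => Squarefree D ∧ D.natDegree = n)
    (A := fun D => Good a j D) (B := fun D => Ord a D) fun D h => h.2
  have e1 : Nat.card {D : k[X] // (Squarefree D ∧ D.natDegree = n) ∧ ¬ Good a j D} =
      Nat.card {D : k[X] // Squarefree D ∧ D.natDegree = n ∧ ¬ Good a j D} :=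
    Nat.card_congr (Equiv.subtypeEquivRight fun D => and_assoc)
  have e2 : Nat.card {D : k[X] // (Squarefree D ∧ D.natDegree = n) ∧ ¬ Ord a D} =
      Nat.card {D : k[X] // Squarefree D ∧ D.natDegree = n ∧ ¬ Ord a D} :=
    Nat.card_congr (Equiv.subtypeEquivRight fun D => and_assoc)
  rw [e1, e2] at h5
  linarith

end Pool.Agent.SmJ.R
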